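import Pool.Agent.Lib.MP_c77da8_nt.CM.Defs

/-!
# CM-AntiM: anticoncentration

`anti_inj`: the function is injective in one variable `a : A` (the others, `b : B`, fixed): at most `card B` points have a given value.
`anti_flip`: in one variable (a bit) the two values are different, except on a set of `b`'s of proportion `1 - κ`: at most `(1 - κ) + κ/2` of the points have a given value
(`≤ 1` of the two bits for the `b` in `Gd`).
-/

set_option autoImplicit false

namespace Pool.CM

open Finset Pool.CG Pool.CL

theorem anti_inj {Λ A B : Type} [Fintype Λ] [Fintype A] [Fintype B] (e : Λ ≃ A × B) (ψ : Λ → ℤ)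
    (hinj : ∀ b : B, Function.Injective fun a : A => ψ (e.symm (a, b))) (v : ℤ) :
    ((univ.filter fun x : Λ => ψ x = v).card : ℝ) * Fintype.card A ≤ Fintype.card Λ := by
  classical
  have h1 : (univ.filter fun x : Λ => ψ x = v).card ≤ Fintype.card B := by
    rw [← Finset.card_univ (α := B)]
    refine Finset.card_le_card_of_injOn (fun x => (e x).2) (fun x _ => by simp) ?_
    intro x hx y hy hxy
    simp only [coe_filter, mem_univ, true_and, Set.mem_ofPred_eq] at hx hy
    have hx' : ψ (e.symm ((e x).1, (e x).2)) = v := by simpa using hx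
    have hy' : ψ (e.symm ((e y).1, (e x).2)) = v := by
      have hxy' : (e x).2 = (e y).2 := hxy
      rw [hxy']
      simpa using hy
    have h := hinj (e x).2 (hx'.trans hy'.symm)
    apply e.injective
    exact Prod.ext h hxy
  have h2 : Fintype.card Λ = Fintype.card A * Fintype.card B := by
    rw [Fintype.card_congr e, Fintype.card_prod]
  rw [h2]
  push_cast
  rw [mul_comm (Fintype.card A : ℝ)]
  gcongr

theorem anti_flip {Λ B : Type} [Fintype Λ] [Fintype B] (e : Λ ≃ Bool × B) (ψ : Λ → ℤ) (Gd : Finset B) (κ : ℝ)
    (hκ : κ * Fintype.card B ≤ Gd.card) (hne : ∀ b ∈ Gd, ψ (e.symm (true, b)) ≠ ψ (e.symm (false, b))) (v : ℤ) :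
    ((univ.filter fun x : Λ => ψ x = v).card : ℝ) ≤ (1 - κ / 2) * Fintype.card Λ := by
  classical
  have h0 : (univ.filter fun x : Λ => ψ x = v).card =
      ∑ b : B, (univ.filter fun a : Bool => ψ (e.symm (a, b)) = v).card := by
    have h1 : (univ.filter fun x : Λ => ψ x = v).card =
        (univ.filter fun p : Bool × B => ψ (e.symm p) = v).card := by
      refine Finset.card_bij (fun x _ => e x) ?_ ?_ ?_
      · intro x hx
        simp only [mem_filter, mem_univ, true_and] at hx ⊢
        simpa using hx
      · intro x _ y _ h
        exact e.injective h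
      · intro p hp
        simp only [mem_filter, mem_univ, true_and] at hp
        exact ⟨e.symm p, by simpa using hp, by simp⟩
    rw [h1]
    simp only [Finset.card_filter]
    rw [Fintype.sum_prod_type, Finset.sum_comm]
  have h3 : ∀ b ∈ Gd, (univ.filter fun a : Bool => ψ (e.symm (a, b)) = v).card ≤ 1 := by
    intro b hb
    rw [Finset.card_le_one]
    intro a ha a' ha'
    simp only [mem_filter, mem_univ, true_and] at ha ha'
    have hn := hne b hb
    cases a <;> cases a'
    · rfl
    · exact absurd (ha'.trans ha.symm) hn
    · exact absurd (ha.trans ha'.symm) hn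
    · rfl
  have h4 : ∀ b : B, (univ.filter fun a : Bool => ψ (e.symm (a, b)) = v).card ≤ 2 := by
    intro b
    calc (univ.filter fun a : Bool => ψ (e.symm (a, b)) = v).card ≤ (univ : Finset Bool).card :=
          Finset.card_filter_le _ _
      _ = 2 := by simp
  have h5 : (univ.filter fun x : Λ => ψ x = v).card + Gd.card ≤ 2 * Fintype.card B := by
    rw [h0]
    have h6 : ∑ b : B, (univ.filter fun a : Bool => ψ (e.symm (a, b)) = v).card + Gd.card =
        ∑ b : B, ((univ.filter fun a : Bool => ψ (e.symm (a, b)) = v).card + if b ∈ Gd then 1 else 0) := by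
      rw [Finset.sum_add_distrib]
      simp
    rw [h6]
    calc ∑ b : B, ((univ.filter fun a : Bool => ψ (e.symm (a, b)) = v).card + if b ∈ Gd then 1 else 0)
        ≤ ∑ _b : B, 2 := by
          refine Finset.sum_le_sum fun b _ => ?_
          by_cases hb : b ∈ Gd
          · simp only [hb, if_true]
            have := h3 b hb
            omega
          · simp only [hb, if_false]
            have := h4 b
            omega
      _ = 2 * Fintype.card B := by
          rw [Finset.sum_const, Finset.card_univ, smul_eq_mul, mul_comm]
  have h7 : Fintype.card Λ = 2 * Fintype.card B := by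
    rw [Fintype.card_congr e, Fintype.card_prod, Fintype.card_bool]
  have h8 : ((univ.filter fun x : Λ => ψ x = v).card : ℝ) + Gd.card ≤ 2 * Fintype.card B := by
    exact_mod_cast h5
  rw [h7]
  push_cast
  nlinarith

end Pool.CM
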