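import Pool.Agent.Lib.MP_c77da8_nt.CM.TestM
import Pool.Agent.Lib.MP_c77da8_nt.CG.Count

/-!
# CM-CntM: the counting lemma, averaged over the base point

PROOF: as `cnt_loc` in `CL/CntL.lean`, with `ce E x` in place of `cv x`, `affM E ν b` in place of `affF ν (patt k b) univ`
(`affM E ν b y i x = ν (y + b • psi i (ce E x))` by definition), `phiM E` in place of `phiL`, `indM` in place of `cntl_ind`.
-/

set_option autoImplicit false

namespace Pool.CM

open Finset Pool.CG Pool.CL

/-- the test functions of the points `y` with `P y`, and `0` at the other points -/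
private theorem cntM_side {G X : Type} [AddCommGroup G] [Fintype G] [Fintype X] {k : ℕ} (E : Fin (k + 2) → X → G) (b : ℕ)
    (j : Fin (k + 2)) (F : G → ℝ) (ε : ℝ)
    (hε : ∀ u : G → Fin (k + 2) → (Fin (k + 2) → X) → ℝ, GoodM u →
        |av (fun z : G => F z * phiM E b j u z)| ≤ ε)
    (U : G → Fin (k + 2) → (Fin (k + 2) → X) → ℝ) (hU : GoodM U) (P : G → Prop) :
    |av (fun y : G => open Classical in if P y then av (fun x : Fin (k + 2) → X =>
      F (y + b • psi j (ce E x)) * ∏ i ∈ univ.erase j, U y i x) else 0)| ≤ ε := by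
  classical
  have hne : (univ.erase j : Finset (Fin (k + 2))).Nonempty := by
    rw [← Finset.card_pos, Finset.card_erase_of_mem (mem_univ j), card_univ, Fintype.card_fin]
    omega
  let u : G → Fin (k + 2) → (Fin (k + 2) → X) → ℝ := fun y i x => if P y then U y i x else 0
  have hu : GoodM u := by
    refine ⟨fun y i x => ?_, fun y i => ?_⟩
    · by_cases h : P y
      · simp only [u, h, if_true]
        exact hU.1 y i x
      · simp only [u, h, if_false]
        exact ⟨le_refl 0, zero_le_one⟩
    · intro x v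
      by_cases h : P y
      · simp only [u, h, if_true]
        exact hU.2 y i x v
      · simp only [u, h, if_false]
  have h1 := hε u hu
  rw [av_phiM E b j u F] at h1
  have e1 : ∀ y : G, av (fun x : Fin (k + 2) → X => F (y + b • psi j (ce E x)) * ∏ i ∈ univ.erase j, u y i x) =
      if P y then av (fun x : Fin (k + 2) → X =>
        F (y + b • psi j (ce E x)) * ∏ i ∈ univ.erase j, U y i x) else 0 := by
    intro y
    by_cases h : P y
    · simp only [u, h, if_true]
    · simp only [u, h, if_false]
      have h2 : ∀ x : Fin (k + 2) → X,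
          F (y + b • psi j (ce E x)) * ∏ _i ∈ univ.erase j, (0 : ℝ) = 0 := by
        intro x
        obtain ⟨i, hi⟩ := hne
        rw [Finset.prod_eq_zero hi rfl, mul_zero]
      rw [av_congr h2, av_zero]
  rw [av_congr e1] at h1
  exact h1

/-- the measure of the base points where the cut norm is large -/
private theorem cntM_bad {G X : Type} [AddCommGroup G] [Fintype G] [Fintype X] {k : ℕ} (E : Fin (k + 2) → X → G) (b : ℕ)
    (j : Fin (k + 2)) (F : G → ℝ) (ε ε₁ : ℝ) (hε₁ : 0 < ε₁)
    (hε : ∀ u : G → Fin (k + 2) → (Fin (k + 2) → X) → ℝ, GoodM u →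
        |av (fun z : G => F z * phiM E b j u z)| ≤ ε) :
    av (fun y : G => open Classical in
      if Cut j (fun x : Fin (k + 2) → X => F (y + b • psi j (ce E x))) ε₁ then (0 : ℝ) else 1) ≤ 2 * ε / ε₁ := by
  classical
  have hex : ∀ y : G, ∃ U : Fin (k + 2) → (Fin (k + 2) → X) → ℝ,
      (∀ i x, 0 ≤ U i x ∧ U i x ≤ 1) ∧ (∀ i, Ind i (U i)) ∧
      (¬ Cut j (fun x : Fin (k + 2) → X => F (y + b • psi j (ce E x))) ε₁ →
        ε₁ < |av (fun x : Fin (k + 2) → X => F (y + b • psi j (ce E x)) * ∏ i ∈ univ.erase j, U i x)|) := by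
    intro y
    by_cases h : Cut j (fun x : Fin (k + 2) → X => F (y + b • psi j (ce E x))) ε₁
    · exact ⟨fun _ _ => 0, fun _ _ => ⟨le_refl 0, zero_le_one⟩, fun i => Ind.const i 0, fun h' => absurd h h'⟩
    · have h' := h
      unfold Cut at h'
      push Not at h'
      obtain ⟨U, h1, h2, h3⟩ := h'
      exact ⟨U, h1, h2, fun _ => h3⟩
  choose U hU1 hU2 hU3 using hex
  have hU : GoodM U := ⟨hU1, hU2⟩
  set val : G → ℝ := fun y => av (fun x : Fin (k + 2) → X =>
    F (y + b • psi j (ce E x)) * ∏ i ∈ univ.erase j, U y i x) with hval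
  have hp := cntM_side E b j F ε hε U hU (fun y => ε₁ < val y)
  have hn := cntM_side E b j F ε hε U hU (fun y => val y < -ε₁)
  have hp1 : ε₁ * av (fun y : G => if ε₁ < val y then (1 : ℝ) else 0) ≤ ε := by
    refine le_trans ?_ ((le_abs_self _).trans hp)
    rw [← av_const_mul]
    refine av_mono fun y => ?_
    by_cases h : ε₁ < val y
    · simp only [h, if_true, mul_one]
      exact h.le
    · simp only [h, if_false, mul_zero]
      exact le_refl 0
  have hn1 : ε₁ * av (fun y : G => if val y < -ε₁ then (1 : ℝ) else 0) ≤ ε := by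
    refine le_trans ?_ ((neg_le_abs _).trans hn)
    rw [← av_const_mul, ← av_neg]
    refine av_mono fun y => ?_
    by_cases h : val y < -ε₁
    · simp only [h, if_true, mul_one]
      have h5 : val y < -ε₁ := h
      have h6 : ε₁ ≤ -val y := by linarith
      exact h6
    · simp only [h, if_false, mul_zero, neg_zero]
      exact le_refl 0
  have hsum : av (fun y : G =>
      if Cut j (fun x : Fin (k + 2) → X => F (y + b • psi j (ce E x))) ε₁ then (0 : ℝ) else 1) ≤
      av (fun y : G => (if ε₁ < val y then (1 : ℝ) else 0) + if val y < -ε₁ then (1 : ℝ) else 0) := by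
    refine av_mono fun y => ?_
    by_cases h : Cut j (fun x : Fin (k + 2) → X => F (y + b • psi j (ce E x))) ε₁
    · rw [if_pos h]
      have a1 : (0 : ℝ) ≤ (if ε₁ < val y then (1 : ℝ) else 0) := by split_ifs <;> norm_num
      have a2 : (0 : ℝ) ≤ (if val y < -ε₁ then (1 : ℝ) else 0) := by split_ifs <;> norm_num
      linarith
    · rw [if_neg h]
      have h3 : ε₁ < |val y| := hU3 y h
      rcases lt_abs.1 h3 with h4 | h4
      · have a2 : (0 : ℝ) ≤ (if val y < -ε₁ then (1 : ℝ) else 0) := by split_ifs <;> norm_num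
        rw [if_pos h4]
        linarith
      · have a1 : (0 : ℝ) ≤ (if ε₁ < val y then (1 : ℝ) else 0) := by split_ifs <;> norm_num
        have h5 : val y < -ε₁ := by linarith
        rw [if_pos h5]
        linarith
  refine hsum.trans ?_
  rw [av_add, le_div_iff₀ hε₁]
  nlinarith

theorem cnt_mix (k : ℕ) (e' : ℝ) (he' : 0 < e') : ∃ (η ε : ℝ), 0 < η ∧ 0 < ε ∧
    ∀ (G X : Type) [AddCommGroup G] [Fintype G] [Fintype X] [Nonempty X] (E : Fin (k + 2) → X → G) (b : ℕ)
      (ν f g : G → ℝ), (∀ x, 0 ≤ f x ∧ f x ≤ ν x) → (∀ x, 0 ≤ g x ∧ g x ≤ 1) → LFav η (affM E ν b) →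
      (∀ (j : Fin (k + 2)) (u : G → Fin (k + 2) → (Fin (k + 2) → X) → ℝ), GoodM u →
        |av (fun z : G => (f z - g z) * phiM E b j u z)| ≤ ε) →
      av (fun y : G => av (fun x : Fin (k + 2) → X => ∏ j, g (y + b • psi j (ce E x)))) - e' ≤
        av (fun y : G => av (fun x : Fin (k + 2) → X => ∏ j, f (y + b • psi j (ce E x)))) := by
  classical
  obtain ⟨η₁, ε₁, hη₁, hε₁, hcount⟩ := count (Fin (k + 2)) (k + 2) (e' / 4) (by linarith)
  obtain ⟨η, hη, hgood⟩ := lfav_good (Fin (k + 2)) η₁ (e' / 4) hη₁ (by linarith)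
  have hk : (0 : ℝ) < (k : ℝ) + 2 := by positivity
  refine ⟨η, ε₁ * (e' / 4) / (2 * ((k : ℝ) + 2)), hη, by positivity, ?_⟩
  intro G X _ _ _ _ E b ν f g hf hg hLF hcut
  have hGn : Nonempty G := ⟨0⟩
  -- the bad points
  set IA : G → ℝ := fun y => if LF η₁ (affM E ν b y) then (0 : ℝ) else 1 with hIA
  set IC : Fin (k + 2) → G → ℝ := fun j y =>
    if Cut j (fun x : Fin (k + 2) → X => (fun z => f z - g z) (y + b • psi j (ce E x))) ε₁ then (0 : ℝ) else 1
    with hIC
  have hA : av IA ≤ e' / 4 := hgood G X (affM E ν b) hLF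
  have hC : ∀ j, av (IC j) ≤ e' / 4 / ((k : ℝ) + 2) := by
    intro j
    have h1 := cntM_bad E b j (fun z => f z - g z) (ε₁ * (e' / 4) / (2 * ((k : ℝ) + 2))) ε₁ hε₁
      (fun u hu => hcut j u hu)
    refine h1.trans (le_of_eq ?_)
    field_simp
  have hIA0 : ∀ y, 0 ≤ IA y := fun y => by
    simp only [hIA]
    split_ifs <;> norm_num
  have hIC0 : ∀ j y, 0 ≤ IC j y := fun j y => by
    simp only [hIC]
    split_ifs <;> norm_num
  have hpt : ∀ y : G, av (fun x : Fin (k + 2) → X => ∏ j, g (y + b • psi j (ce E x))) ≤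
      av (fun x : Fin (k + 2) → X => ∏ j, f (y + b • psi j (ce E x))) + (e' / 4 + (IA y + ∑ j, IC j y)) := by
    intro y
    have hsn : 0 ≤ ∑ j, IC j y := sum_nonneg fun j _ => hIC0 j y
    by_cases hgd : LF η₁ (affM E ν b y) ∧
        ∀ j, Cut j (fun x : Fin (k + 2) → X => (fun z => f z - g z) (y + b • psi j (ce E x))) ε₁
    · have h1 := hcount X (affM E ν b y)
        (fun j x => f (y + b • psi j (ce E x))) (fun j x => g (y + b • psi j (ce E x))) univ (by simp)
        (fun i x => by
          exact (hf _).1.trans (hf _).2)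
        (fun i => by
          have h2 := indM E b i ν y
          intro x v
          exact h2 x v)
        hgd.1 (fun i => indM E b i f y) (fun i => indM E b i g y) (fun i x => (hf _).1)
        (fun i x => by
          unfold nuA
          rw [if_pos (mem_univ i)]
          exact (hf _).2)
        (fun i x => hg _) hgd.2
      have h3 := (abs_le.1 h1).1
      have h4 := hIA0 y
      linarith
    · have h5 : 1 ≤ IA y + ∑ j, IC j y := by
        by_cases hL : LF η₁ (affM E ν b y)
        · have h6 : ∃ j, ¬ Cut j (fun x : Fin (k + 2) → X => (fun z => f z - g z) (y + b • psi j (ce E x))) ε₁ := by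
            by_contra hcon
            push Not at hcon
            exact hgd ⟨hL, hcon⟩
          obtain ⟨j, hj⟩ := h6
          have h7 : IC j y = 1 := by
            simp only [hIC]
            rw [if_neg hj]
          have h8 : IC j y ≤ ∑ j, IC j y := single_le_sum (fun i _ => hIC0 i y) (mem_univ j)
          have h4 := hIA0 y
          linarith
        · have h7 : IA y = 1 := by
            simp only [hIA]
            rw [if_neg hL]
          linarith
      have h9 : av (fun x : Fin (k + 2) → X => ∏ j, g (y + b • psi j (ce E x))) ≤ 1 :=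
        av_le_of_le fun x => prod_le_one (fun i _ => (hg _).1) (fun i _ => (hg _).2)
      have h10 : 0 ≤ av (fun x : Fin (k + 2) → X => ∏ j, f (y + b • psi j (ce E x))) :=
        av_nonneg fun x => prod_nonneg fun i _ => (hf _).1
      linarith
  have hfin := av_mono hpt
  rw [av_add, av_add, av_const, av_add, av_sum] at hfin
  have hs : ∑ j : Fin (k + 2), av (IC j) ≤ e' / 4 := by
    calc ∑ j : Fin (k + 2), av (IC j) ≤ ∑ _j : Fin (k + 2), e' / 4 / ((k : ℝ) + 2) :=
          sum_le_sum fun j _ => hC j
      _ = e' / 4 := by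
          rw [sum_const, card_univ, Fintype.card_fin, nsmul_eq_mul]
          push_cast
          field_simp
  linarith

end Pool.CM
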