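import Pool.Agent.Lib.MP_c77da8_nt.CM.FinM

/-!
# CM-CorM: the theorem with its corollaries

`N = ⌈exp (Y^3000)⌉`: `log g ≤ Y ≤ (log N)^(1/3000)`, `log log N ≤ 3001 log Y`, `log log log N ≤ 2 log log Y`.
`g = 2^E`, `Y = E` (`m` is odd and `> 1`, so it does not divide `2^E`); `g ≤ X`, `Y = log X` (at most `X/m` multiples of `m`).
-/

set_option autoImplicit false

namespace Pool.CM

open Finset

/-- a number `N` for which `(log N)^(1/3000)` is about `Y` -/
private theorem CorM_N (N0 : ℕ) : ∃ Y0 : ℝ, ∀ Y : ℝ, Y0 ≤ Y → 1 ≤ Y ∧ 0 ≤ Real.log (Real.log Y) ∧ ∃ N : ℕ, N0 ≤ N ∧ 1 ≤ N ∧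
    Y ≤ Real.log N ^ (1 / 3000 : ℝ) ∧ Y ≤ Real.log N ∧ 0 ≤ Real.log (Real.log N) ∧
    0 ≤ Real.log (Real.log (Real.log N)) ∧
    Real.log (Real.log N) * Real.log (Real.log (Real.log N)) ≤ 6002 * (Real.log Y * Real.log (Real.log Y)) := by
  refine ⟨max (N0 + 3) (Real.exp (Real.exp 10)), fun Y hY => ?_⟩
  have hY1 : (N0 : ℝ) + 3 ≤ Y := (le_max_left _ _).trans hY
  have hY2 : Real.exp (Real.exp 10) ≤ Y := (le_max_right _ _).trans hY
  have hN0 : (0 : ℝ) ≤ N0 := Nat.cast_nonneg _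
  have hY3 : 3 ≤ Y := by linarith
  have hL : Real.exp 10 ≤ Real.log Y := by
    rw [Real.le_log_iff_exp_le (by linarith)]
    exact hY2
  have he10 : (11 : ℝ) ≤ Real.exp 10 := by
    have := Real.add_one_le_exp (10 : ℝ)
    linarith
  have hLL : 10 ≤ Real.log (Real.log Y) := by
    rw [Real.le_log_iff_exp_le (by linarith)]
    exact hL
  refine ⟨by linarith, by linarith, ?_⟩
  obtain ⟨N, hN⟩ : ∃ N : ℕ, N = ⌈Real.exp (Y ^ 3000)⌉₊ := ⟨_, rfl⟩
  have hN1 : Real.exp (Y ^ 3000) ≤ N := by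
    rw [hN]
    exact Nat.le_ceil _
  have hN2 : (N : ℝ) ≤ Real.exp (Y ^ 3000) + 1 := by
    rw [hN]
    exact (Nat.ceil_lt_add_one (Real.exp_pos _).le).le
  have hYp : Y ≤ Y ^ 3000 := le_self_pow₀ (by linarith) (by norm_num)
  have hexp := Real.add_one_le_exp (Y ^ 3000)
  have hNpos : (0 : ℝ) < N := (Real.exp_pos _).trans_le hN1
  have hlog1 : Y ^ 3000 ≤ Real.log N := by
    rw [Real.le_log_iff_exp_le hNpos]
    exact hN1
  have hlog2 : Real.log N ≤ Y ^ 3001 := by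
    have h1 : (N : ℝ) ≤ Real.exp (Y ^ 3000 + 1) := by
      have h2 : Real.exp (Y ^ 3000) + 1 ≤ Real.exp (Y ^ 3000 + 1) := by
        rw [Real.exp_add]
        have h3 := Real.add_one_le_exp (1 : ℝ)
        have h4 : 1 ≤ Real.exp (Y ^ 3000) := Real.one_le_exp (by positivity)
        nlinarith
      linarith
    have h5 := Real.log_le_log hNpos h1
    rw [Real.log_exp] at h5
    have h6 : Y ^ 3001 = Y ^ 3000 * Y := pow_succ _ _
    have h7 : 1 ≤ Y ^ 3000 := one_le_pow₀ (by linarith)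
    nlinarith
  have hlogN : Y ≤ Real.log N := hYp.trans hlog1
  have hll2 : Real.log (Real.log N) ≤ 3001 * Real.log Y := by
    have h1 := Real.log_le_log (by linarith) hlog2
    rw [Real.log_pow] at h1
    exact_mod_cast h1
  have hll1 : Real.log Y ≤ Real.log (Real.log N) := Real.log_le_log (by linarith) hlogN
  have hlll1 : Real.log (Real.log Y) ≤ Real.log (Real.log (Real.log N)) := Real.log_le_log (by linarith) hll1
  have hlll2 : Real.log (Real.log (Real.log N)) ≤ 2 * Real.log (Real.log Y) := by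
    have h1 := Real.log_le_log (by linarith) hll2
    rw [Real.log_mul (by norm_num) (by linarith)] at h1
    have h2 : Real.log 3001 ≤ 10 := by
      rw [Real.log_le_iff_le_exp (by norm_num)]
      have h3 : Real.exp 10 = Real.exp 1 ^ 10 := by
        rw [← Real.exp_nat_mul]
        norm_num
      rw [h3]
      have h4 : (2.7 : ℝ) ≤ Real.exp 1 := by
        have := Real.exp_one_gt_d9
        linarith
      calc (3001 : ℝ) ≤ 2.7 ^ 10 := by norm_num
        _ ≤ Real.exp 1 ^ 10 := pow_le_pow_left₀ (by norm_num) h4 10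
    linarith
  refine ⟨N, ?_, ?_, ?_, hlogN, by linarith, by linarith, ?_⟩
  · have : (N0 : ℝ) ≤ N := by linarith
    exact_mod_cast this
  · exact_mod_cast hNpos
  · calc Y = (Y ^ (3000 : ℝ)) ^ (1 / 3000 : ℝ) := by
          rw [← Real.rpow_mul (by linarith)]
          norm_num
      _ = (Y ^ (3000 : ℕ)) ^ (1 / 3000 : ℝ) := by
          rw [← Real.rpow_natCast Y 3000]
          norm_num
      _ ≤ Real.log N ^ (1 / 3000 : ℝ) := Real.rpow_le_rpow (by positivity) hlog1 (by norm_num)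
  · calc Real.log (Real.log N) * Real.log (Real.log (Real.log N))
        ≤ (3001 * Real.log Y) * (2 * Real.log (Real.log Y)) :=
          mul_le_mul hll2 hlll2 (by linarith) (by linarith)
      _ = 6002 * (Real.log Y * Real.log (Real.log Y)) := by ring

theorem final_all (k : ℕ) : ∃ (T : ℕ) (C c : ℝ), 1 ≤ T ∧ 0 < c ∧
    (∀ (B : ℕ) (ε : ℝ), 0 < ε → ∃ N0 : ℕ, ∀ N ≥ N0,
      ∃ m : ℕ, Odd m ∧ Real.log N ^ B < m ∧ ∀ g : ℕ, 1 ≤ g → ¬ m ∣ g → Real.log g ≤ Real.log N ^ (1 / 3000 : ℝ) →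
        ∃ t s : ℕ, 1 ≤ t ∧ t ≤ T ∧ 2 ≤ s ∧
          Real.log s ≤ C * Real.log (Real.log N) * Real.log (Real.log (Real.log N)) ∧
          (∃ b : ℕ, 1 ≤ b ∧ Real.log b ≤ (1 + Real.log g) * (Real.log (Real.log N) + Real.log g) ^ (2 + ε) ∧
            c * N / Real.log N ^ (k + 2) ≤ ((open Classical in (Icc 1 N).filter fun n =>
              ∀ j < k + 2, (n * b * ((g * s) ^ t) ^ j - 1).Prime).card : ℝ)) ∧
          c * N ≤ ((open Classical in (Icc 1 N).filter fun n => ∃ b : ℕ, 1 ≤ b ∧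
            Real.log b ≤ (1 + Real.log g) * (Real.log (Real.log N) + Real.log g) ^ (2 + ε) ∧
            ∀ j < k + 2, (n * b * ((g * s) ^ t) ^ j - 1).Prime).card : ℝ)) ∧
    (∃ E0 : ℕ, ∀ E ≥ E0, ∃ t s n : ℕ, 1 ≤ t ∧ t ≤ T ∧ 2 ≤ s ∧
      Real.log s ≤ C * Real.log E * Real.log (Real.log E) ∧ 1 ≤ n ∧
      ∀ j < k + 2, (n * ((2 ^ E * s) ^ t) ^ j - 1).Prime) ∧
    ∀ B : ℕ, ∃ X0 : ℕ, ∀ X ≥ X0,
      ((open Classical in (Icc 1 X).filter fun g => ¬ ∃ t s n : ℕ, 1 ≤ t ∧ t ≤ T ∧ 2 ≤ s ∧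
        Real.log s ≤ C * Real.log (Real.log X) * Real.log (Real.log (Real.log X)) ∧ 1 ≤ n ∧
        ∀ j < k + 2, (n * ((g * s) ^ t) ^ j - 1).Prime).card : ℝ) ≤ X / Real.log X ^ B := by
  classical
  obtain ⟨T, C, c, hT, hc, h⟩ := final k
  -- the clean form
  have hclean : ∀ B : ℕ, ∃ Y0 : ℝ, ∀ Y : ℝ, Y0 ≤ Y → 1 ≤ Y ∧ ∃ m : ℕ, Odd m ∧ Y ^ B < m ∧ ∀ g : ℕ, 1 ≤ g → ¬ m ∣ g →
      Real.log g ≤ Y → ∃ t s n : ℕ, 1 ≤ t ∧ t ≤ T ∧ 2 ≤ s ∧
        Real.log s ≤ 6002 * max C 0 * Real.log Y * Real.log (Real.log Y) ∧ 1 ≤ n ∧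
        ∀ j < k + 2, (n * ((g * s) ^ t) ^ j - 1).Prime := by
    intro B
    obtain ⟨N0, hN0⟩ := h B 1 one_pos
    obtain ⟨Y0, hY0⟩ := CorM_N N0
    refine ⟨Y0, fun Y hY => ?_⟩
    obtain ⟨hY1, hYL, N, hN, hN1, hYN, hYN', hLN, hLLN, hmul⟩ := hY0 Y hY
    obtain ⟨m, hm1, hm2, hm3⟩ := hN0 N hN
    refine ⟨hY1, m, hm1, ?_, fun g hg1 hmg hg => ?_⟩
    · exact lt_of_le_of_lt (pow_le_pow_left₀ (by linarith) hYN' B) hm2
    · obtain ⟨t, s, ht1, htT, hs2, hs, -, hcard⟩ := hm3 g hg1 hmg (hg.trans hYN)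
      have hpos : (0 : ℝ) < c * N := by
        have : (0 : ℝ) < N := by exact_mod_cast hN1
        positivity
      have hne : ((Icc 1 N).filter fun n => ∃ b : ℕ, 1 ≤ b ∧
          Real.log b ≤ (1 + Real.log g) * (Real.log (Real.log N) + Real.log g) ^ (2 + (1 : ℝ)) ∧
          ∀ j < k + 2, (n * b * ((g * s) ^ t) ^ j - 1).Prime).Nonempty := by
        rw [nonempty_iff_ne_empty]
        intro h0
        have h1 := hpos.trans_le hcard
        have h2 : (((Icc 1 N).filter fun n => ∃ b : ℕ, 1 ≤ b ∧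
          Real.log b ≤ (1 + Real.log g) * (Real.log (Real.log N) + Real.log g) ^ (2 + (1 : ℝ)) ∧
          ∀ j < k + 2, (n * b * ((g * s) ^ t) ^ j - 1).Prime).card : ℝ) = 0 := by
          rw [h0]
          simp
        have h3 : (((Icc 1 N).filter fun n => ∃ b : ℕ, 1 ≤ b ∧
          Real.log b ≤ (1 + Real.log g) * (Real.log (Real.log N) + Real.log g) ^ (2 + (1 : ℝ)) ∧
          ∀ j < k + 2, (n * b * ((g * s) ^ t) ^ j - 1).Prime).card : ℝ) > 0 := by
          refine lt_of_lt_of_eq h1 ?_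
          norm_cast
        linarith
      obtain ⟨n, hn⟩ := hne
      rw [mem_filter, mem_Icc] at hn
      obtain ⟨⟨hn1, hnN⟩, b, hb1, -, hb3⟩ := hn
      refine ⟨t, s, n * b, ht1, htT, hs2, ?_, Nat.mul_pos hn1 hb1, hb3⟩
      calc Real.log s ≤ C * Real.log (Real.log N) * Real.log (Real.log (Real.log N)) := hs
        _ = C * (Real.log (Real.log N) * Real.log (Real.log (Real.log N))) := by ring
        _ ≤ max C 0 * (Real.log (Real.log N) * Real.log (Real.log (Real.log N))) :=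
            mul_le_mul_of_nonneg_right (le_max_left _ _) (mul_nonneg hLN hLLN)
        _ ≤ max C 0 * (6002 * (Real.log Y * Real.log (Real.log Y))) :=
            mul_le_mul_of_nonneg_left hmul (le_max_right _ _)
        _ = 6002 * max C 0 * Real.log Y * Real.log (Real.log Y) := by ring
  refine ⟨T, 6002 * max C 0, c, hT, hc, fun B ε hε => ?_, ?_, fun B => ?_⟩
  · obtain ⟨N0, hN0⟩ := h B ε hε
    refine ⟨max N0 16, fun N hN => ?_⟩
    obtain ⟨m, hm1, hm2, hm3⟩ := hN0 N ((le_max_left _ _).trans hN)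
    refine ⟨m, hm1, hm2, fun g hg1 hmg hg => ?_⟩
    obtain ⟨t, s, ht1, htT, hs2, hs, hcard⟩ := hm3 g hg1 hmg hg
    have hN16 : (16 : ℝ) ≤ N := by exact_mod_cast (le_max_right _ _).trans hN
    have hlog : Real.exp 1 ≤ Real.log N := by
      rw [Real.le_log_iff_exp_le (by linarith)]
      have h1 : Real.exp (Real.exp 1) ≤ Real.exp 2.7182818286 := Real.exp_le_exp.2 Real.exp_one_lt_d9.le
      have h2 : Real.exp 2.7182818286 ≤ 16 := by
        have h3 : Real.exp 2.7182818286 = Real.exp 1 * Real.exp 1 * Real.exp 0.7182818286 := by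
          rw [← Real.exp_add, ← Real.exp_add]
          norm_num
        have h4 := Real.exp_one_lt_d9
        have h5 := Real.exp_pos (1 : ℝ)
        have h6 : Real.exp 0.7182818286 ≤ 2.1 := by
          have h7 := Real.exp_bound' (x := 0.7182818286) (by norm_num) (by norm_num) (n := 5) (by norm_num)
          refine h7.trans ?_
          norm_num [Finset.sum_range_succ, Nat.factorial]
        rw [h3]
        have h8 : Real.exp 1 * Real.exp 1 ≤ 2.7182818286 * 2.7182818286 :=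
          mul_le_mul h4.le h4.le h5.le (by norm_num)
        calc Real.exp 1 * Real.exp 1 * Real.exp 0.7182818286 ≤ (2.7182818286 * 2.7182818286) * 2.1 :=
              mul_le_mul h8 h6 (Real.exp_pos _).le (by norm_num)
          _ ≤ 16 := by norm_num
      linarith
    have hll : 1 ≤ Real.log (Real.log N) := by
      rw [Real.le_log_iff_exp_le (by have := Real.exp_pos (1 : ℝ); linarith)]
      exact hlog
    have hlll : 0 ≤ Real.log (Real.log (Real.log N)) := Real.log_nonneg hll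
    refine ⟨t, s, ht1, htT, hs2, ?_, hcard⟩
    calc Real.log s ≤ C * Real.log (Real.log N) * Real.log (Real.log (Real.log N)) := hs
      _ = C * (Real.log (Real.log N) * Real.log (Real.log (Real.log N))) := by ring
      _ ≤ (6002 * max C 0) * (Real.log (Real.log N) * Real.log (Real.log (Real.log N))) := by
          refine mul_le_mul_of_nonneg_right ?_ (mul_nonneg (by linarith) hlll)
          have h1 := le_max_left C 0
          have h2 := le_max_right C 0
          linarith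
      _ = 6002 * max C 0 * Real.log (Real.log N) * Real.log (Real.log (Real.log N)) := by ring
  · obtain ⟨Y0, hY0⟩ := hclean 1
    obtain ⟨E0, hE0⟩ := exists_nat_ge Y0
    refine ⟨E0, fun E hE => ?_⟩
    obtain ⟨hY1, m, hm1, hm2, hm3⟩ := hY0 E (hE0.trans (by exact_mod_cast hE))
    have hm : 1 < m := by
      have : (1 : ℝ) < m := by
        rw [pow_one] at hm2
        linarith
      exact_mod_cast this
    have hmg : ¬ m ∣ 2 ^ E := by
      intro hd
      have h1 : Nat.Coprime m (2 ^ E) := (Nat.coprime_two_right.2 hm1).pow_right E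
      have h2 := Nat.Coprime.eq_one_of_dvd h1 hd
      omega
    have hg : Real.log ((2 ^ E : ℕ) : ℝ) ≤ E := by
      rw [Nat.cast_pow, Real.log_pow]
      have h1 := Real.log_two_lt_d9
      have h2 : (0 : ℝ) ≤ E := Nat.cast_nonneg _
      have h3 : Real.log ((2 : ℕ) : ℝ) ≤ 1 := by
        push_cast
        linarith
      nlinarith
    exact hm3 (2 ^ E) Nat.one_le_two_pow hmg hg
  · obtain ⟨Y0, hY0⟩ := hclean B
    obtain ⟨X0, hX0⟩ := exists_nat_ge (Real.exp Y0)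
    refine ⟨X0 + 1, fun X hX => ?_⟩
    have hX1 : Real.exp Y0 ≤ X := hX0.trans (by exact_mod_cast (by omega : X0 ≤ X))
    have hXp : (0 : ℝ) < X := (Real.exp_pos _).trans_le hX1
    have hlogX : Y0 ≤ Real.log X := by
      rw [Real.le_log_iff_exp_le hXp]
      exact hX1
    obtain ⟨hY1, m, hm1, hm2, hm3⟩ := hY0 (Real.log X) hlogX
    have hLB : 0 < Real.log X ^ B := by positivity
    have hmp : (0 : ℝ) < m := hLB.trans hm2
    have hm0 : 0 < m := by exact_mod_cast hmp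
    have h1 : ((Icc 1 X).filter fun g => ¬ ∃ t s n : ℕ, 1 ≤ t ∧ t ≤ T ∧ 2 ≤ s ∧
        Real.log s ≤ 6002 * max C 0 * Real.log (Real.log X) * Real.log (Real.log (Real.log X)) ∧ 1 ≤ n ∧
        ∀ j < k + 2, (n * ((g * s) ^ t) ^ j - 1).Prime) ⊆ (Ioc 0 X).filter fun g => m ∣ g := by
      intro g hg
      rw [mem_filter, mem_Icc] at hg
      rw [mem_filter, mem_Ioc]
      refine ⟨⟨hg.1.1, hg.1.2⟩, ?_⟩
      by_contra hmg
      refine hg.2 (hm3 g hg.1.1 hmg ?_)
      exact Real.log_le_log (by exact_mod_cast hg.1.1) (by exact_mod_cast hg.1.2)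
    have h2 := card_le_card h1
    rw [Nat.Ioc_filter_dvd_card_eq_div] at h2
    have h3 : ((((Icc 1 X).filter fun g => ¬ ∃ t s n : ℕ, 1 ≤ t ∧ t ≤ T ∧ 2 ≤ s ∧
        Real.log s ≤ 6002 * max C 0 * Real.log (Real.log X) * Real.log (Real.log (Real.log X)) ∧ 1 ≤ n ∧
        ∀ j < k + 2, (n * ((g * s) ^ t) ^ j - 1).Prime).card : ℕ) : ℝ) ≤ X / Real.log X ^ B := by
      calc ((((Icc 1 X).filter fun g => ¬ ∃ t s n : ℕ, 1 ≤ t ∧ t ≤ T ∧ 2 ≤ s ∧
        Real.log s ≤ 6002 * max C 0 * Real.log (Real.log X) * Real.log (Real.log (Real.log X)) ∧ 1 ≤ n ∧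
        ∀ j < k + 2, (n * ((g * s) ^ t) ^ j - 1).Prime).card : ℕ) : ℝ) ≤ ((X / m : ℕ) : ℝ) := by exact_mod_cast h2
        _ ≤ (X : ℝ) / m := Nat.cast_div_le
        _ ≤ X / Real.log X ^ B := div_le_div_of_nonneg_left hXp.le hLB hm2.le
    refine le_trans (le_of_eq ?_) h3
    norm_cast

end Pool.CM
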