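import Pool.Agent.Lib.MP_c77da8_nt.CM.LawM

/-!
# CM-CubeA: the exact common shifts in the box

One coordinate: `n` points `x : Fin n → Fin H`, a bit `ξ`, a bit `θ`.  `dsp = ±1` if the points `x ± e` are all in the box, `0` otherwise; `shf` = the points after the shift by
`θ dsp e`.
`shf_val`: the shifted values are in `[0, H)`, so `Fin.ofNat` and `toNat` do nothing.
`shf_law`: for `θ = false` it is `av_fst`-type; for `θ = true` the map `(x, ξ) ↦ (shf e x ξ true, if dsp = 0 then ξ else !ξ)` is an involution of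
`(Fin n → Fin H) × Bool`: if `dsp H e x false = 1` then `dsp H e (x + e) true = -1`, as `(x + e) - e = x` is in the box, and conversely; so the first component of a
uniform point is uniform (`av_equiv` with `Function.Involutive.toPerm`, then `av_fst`).
`mix_law`: `law_pi` with `K = Cd P`, `Z = (Fin n → Fin H) × Bool`, `Θ = Bool`, `V = Fin n → Fin H`, `p q z θ = shf H e z.1 z.2 θ`, and the reindexing
`(Fin n → Cd P → Fin H) ≃ (Cd P → Fin n → Fin H)` (`Equiv.piComm` or `Function.swap`).
`mix_eq`: coordinatewise, from `shf_val` and the definition of `EM` (`kap · (x + e d + 1) = kap (x + 1) + e (kap d)`).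
`dsp_count`: for `ξ = false` all `x` with `B ≤ x l < H - B` for all `l` have `dsp = 1`, for `ξ = true` they have `dsp = -1`; their number is `(H - 2B)^n`; with `4 B ≤ H` it is at
least `H^n / 2^n`.
-/

set_option autoImplicit false

namespace Pool.CM

open Finset Pool.CG Pool.CL

noncomputable section

/-- the direction of the shift of the coordinate -/
def dsp {n : ℕ} (H : ℕ) (e : Fin n → ℤ) (x : Fin n → Fin H) (ξ : Bool) : ℤ :=
  open Classical in
  if ξ then (if ∀ l, 0 ≤ ((x l : ℕ) : ℤ) - e l ∧ ((x l : ℕ) : ℤ) - e l < H then -1 else 0)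
  else (if ∀ l, 0 ≤ ((x l : ℕ) : ℤ) + e l ∧ ((x l : ℕ) : ℤ) + e l < H then 1 else 0)

/-- the shifted points -/
def shf {n : ℕ} (H : ℕ) [NeZero H] (e : Fin n → ℤ) (x : Fin n → Fin H) (ξ θ : Bool) : Fin n → Fin H := fun l =>
  if θ then Fin.ofNat H (((x l : ℕ) : ℤ) + e l * dsp H e x ξ).toNat else x l

/-- the outer parameters -/
abbrev ZC (P : Finset ℕ) (H n : ℕ) : Type := Cd P → (Fin n → Fin H) × Bool

/-- the shifted points, all coordinates -/
def ptC {P : Finset ℕ} {n : ℕ} (H : ℕ) [NeZero H] (e : Fin n → ℤ) (z : ZC P H n) (θ : Cd P → Bool) (l : Fin n) :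
    Cd P → Fin H := fun q => shf H e (z q).1 (z q).2 (θ q) l

/-- the points before the shift -/
def baC {P : Finset ℕ} {n : ℕ} (H : ℕ) (z : ZC P H n) (l : Fin n) : Cd P → Fin H := fun q => (z q).1 l

/-- the common shift -/
def shC {P : Finset ℕ} {n : ℕ} (w M H : ℕ) (e : Fin n → ℤ) (z : ZC P H n) (θ : Cd P → Bool) : GP P M :=
  fun q => ((kap w q * (if θ q then dsp H e (z q).1 (z q).2 else 0) : ℤ) : ZMod M)

end

private theorem dsp_false {n : ℕ} (H : ℕ) (e : Fin n → ℤ) (x : Fin n → Fin H)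
    (h : ∀ l, 0 ≤ ((x l : ℕ) : ℤ) + e l ∧ ((x l : ℕ) : ℤ) + e l < H) : dsp H e x false = 1 := by
  unfold dsp
  rw [if_neg (by simp), if_pos h]

private theorem dsp_false' {n : ℕ} (H : ℕ) (e : Fin n → ℤ) (x : Fin n → Fin H)
    (h : ¬ ∀ l, 0 ≤ ((x l : ℕ) : ℤ) + e l ∧ ((x l : ℕ) : ℤ) + e l < H) : dsp H e x false = 0 := by
  unfold dsp
  rw [if_neg (by simp), if_neg h]

private theorem dsp_true {n : ℕ} (H : ℕ) (e : Fin n → ℤ) (x : Fin n → Fin H)
    (h : ∀ l, 0 ≤ ((x l : ℕ) : ℤ) - e l ∧ ((x l : ℕ) : ℤ) - e l < H) : dsp H e x true = -1 := by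
  unfold dsp
  rw [if_pos rfl, if_pos h]

private theorem dsp_true' {n : ℕ} (H : ℕ) (e : Fin n → ℤ) (x : Fin n → Fin H)
    (h : ¬ ∀ l, 0 ≤ ((x l : ℕ) : ℤ) - e l ∧ ((x l : ℕ) : ℤ) - e l < H) : dsp H e x true = 0 := by
  unfold dsp
  rw [if_pos rfl, if_neg h]

private theorem dsp_rng {n : ℕ} (H : ℕ) (e : Fin n → ℤ) (x : Fin n → Fin H) (ξ : Bool) (l : Fin n) :
    0 ≤ ((x l : ℕ) : ℤ) + e l * dsp H e x ξ ∧ ((x l : ℕ) : ℤ) + e l * dsp H e x ξ < H := by
  have hx : ((x l : ℕ) : ℤ) < H := by exact_mod_cast (x l).isLt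
  cases ξ with
  | false =>
    by_cases h : ∀ l, 0 ≤ ((x l : ℕ) : ℤ) + e l ∧ ((x l : ℕ) : ℤ) + e l < H
    · rw [dsp_false H e x h, mul_one]
      exact h l
    · rw [dsp_false' H e x h, mul_zero, add_zero]
      exact ⟨by positivity, hx⟩
  | true =>
    by_cases h : ∀ l, 0 ≤ ((x l : ℕ) : ℤ) - e l ∧ ((x l : ℕ) : ℤ) - e l < H
    · rw [dsp_true H e x h]
      have h2 := h l
      constructor
      · linarith [h2.1]
      · linarith [h2.2]
    · rw [dsp_true' H e x h, mul_zero, add_zero]
      exact ⟨by positivity, hx⟩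

theorem shf_val {n : ℕ} (H : ℕ) [NeZero H] (e : Fin n → ℤ) (x : Fin n → Fin H) (ξ θ : Bool) (l : Fin n) :
    (((shf H e x ξ θ l : Fin H) : ℕ) : ℤ) = ((x l : ℕ) : ℤ) + e l * (if θ then dsp H e x ξ else 0) := by
  cases θ with
  | false => simp [shf]
  | true =>
    have h := dsp_rng H e x ξ l
    have h1 : shf H e x ξ true l = Fin.ofNat H (((x l : ℕ) : ℤ) + e l * dsp H e x ξ).toNat := by
      simp [shf]
    rw [h1, if_pos rfl]
    have h2 : (((x l : ℕ) : ℤ) + e l * dsp H e x ξ).toNat < H := by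
      rw [Int.toNat_lt h.1]
      exact h.2
    have h3 : ((Fin.ofNat H (((x l : ℕ) : ℤ) + e l * dsp H e x ξ).toNat : Fin H) : ℕ) =
        (((x l : ℕ) : ℤ) + e l * dsp H e x ξ).toNat := by
      rw [Fin.val_ofNat, Nat.mod_eq_of_lt h2]
    rw [h3, Int.toNat_of_nonneg h.1]

private theorem shf_ext {n : ℕ} (H : ℕ) [NeZero H] (e : Fin n → ℤ) (x y : Fin n → Fin H) (ξ : Bool)
    (h : ∀ l, ((y l : ℕ) : ℤ) = ((x l : ℕ) : ℤ) + e l * dsp H e x ξ) : shf H e x ξ true = y := by
  funext l
  apply Fin.ext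
  have h1 := shf_val H e x ξ true l
  rw [if_pos rfl, ← h l] at h1
  exact_mod_cast h1

private theorem shf_false {n : ℕ} (H : ℕ) [NeZero H] (e : Fin n → ℤ) (x : Fin n → Fin H) (ξ : Bool) :
    shf H e x ξ false = x := by
  funext l
  simp [shf]

private noncomputable def inv1 {n : ℕ} (H : ℕ) [NeZero H] (e : Fin n → ℤ) (z : (Fin n → Fin H) × Bool) :
    (Fin n → Fin H) × Bool :=
  (shf H e z.1 z.2 true, if dsp H e z.1 z.2 = 0 then z.2 else !z.2)

private theorem inv1_inv {n : ℕ} (H : ℕ) [NeZero H] (e : Fin n → ℤ) : Function.Involutive (inv1 H e) := by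
  rintro ⟨x, ξ⟩
  by_cases h0 : dsp H e x ξ = 0
  · have h1 : shf H e x ξ true = x := shf_ext H e x x ξ (fun l => by rw [h0, mul_zero, add_zero])
    have h2 : inv1 H e (x, ξ) = (x, ξ) := by
      unfold inv1
      simp only [h1, h0, if_true]
    rw [h2, h2]
  · cases ξ with
    | false =>
      have hA : ∀ l, 0 ≤ ((x l : ℕ) : ℤ) + e l ∧ ((x l : ℕ) : ℤ) + e l < H := by
        by_contra hcon
        exact h0 (dsp_false' H e x hcon)
      have hd := dsp_false H e x hA
      have hy : ∀ l, (((shf H e x false true l : Fin H) : ℕ) : ℤ) = ((x l : ℕ) : ℤ) + e l := by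
        intro l
        rw [shf_val, if_pos rfl, hd, mul_one]
      have hB : ∀ l, 0 ≤ (((shf H e x false true l : Fin H) : ℕ) : ℤ) - e l ∧
          (((shf H e x false true l : Fin H) : ℕ) : ℤ) - e l < H := by
        intro l
        rw [hy l]
        have := (x l).isLt
        constructor
        · have : (0 : ℤ) ≤ ((x l : ℕ) : ℤ) := by positivity
          linarith
        · have : ((x l : ℕ) : ℤ) < H := by exact_mod_cast (x l).isLt
          linarith
      have hd' := dsp_true H e (shf H e x false true) hB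
      have h1 : inv1 H e (x, false) = (shf H e x false true, true) := by
        unfold inv1
        simp [hd]
      have h2 : shf H e (shf H e x false true) true true = x :=
        shf_ext H e _ x true (fun l => by rw [hd', hy l]; ring)
      rw [h1]
      unfold inv1
      simp [hd', h2]
    | true =>
      have hA : ∀ l, 0 ≤ ((x l : ℕ) : ℤ) - e l ∧ ((x l : ℕ) : ℤ) - e l < H := by
        by_contra hcon
        exact h0 (dsp_true' H e x hcon)
      have hd := dsp_true H e x hA
      have hy : ∀ l, (((shf H e x true true l : Fin H) : ℕ) : ℤ) = ((x l : ℕ) : ℤ) - e l := by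
        intro l
        rw [shf_val, if_pos rfl, hd]
        ring
      have hB : ∀ l, 0 ≤ (((shf H e x true true l : Fin H) : ℕ) : ℤ) + e l ∧
          (((shf H e x true true l : Fin H) : ℕ) : ℤ) + e l < H := by
        intro l
        rw [hy l]
        constructor
        · have : (0 : ℤ) ≤ ((x l : ℕ) : ℤ) := by positivity
          linarith
        · have : ((x l : ℕ) : ℤ) < H := by exact_mod_cast (x l).isLt
          linarith
      have hd' := dsp_false H e (shf H e x true true) hB
      have h1 : inv1 H e (x, true) = (shf H e x true true, false) := by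
        unfold inv1
        simp [hd]
      have h2 : shf H e (shf H e x true true) false true = x :=
        shf_ext H e _ x false (fun l => by rw [hd', hy l]; ring)
      rw [h1]
      unfold inv1
      simp [hd', h2]

theorem shf_law {n : ℕ} (H : ℕ) [NeZero H] (e : Fin n → ℤ) (F : (Fin n → Fin H) → ℝ) :
    av (fun z : (Fin n → Fin H) × Bool => av (fun θ : Bool => F (shf H e z.1 z.2 θ))) = av F := by
  rw [av_comm (fun (z : (Fin n → Fin H) × Bool) (θ : Bool) => F (shf H e z.1 z.2 θ))]
  have h : ∀ θ : Bool, av (fun z : (Fin n → Fin H) × Bool => F (shf H e z.1 z.2 θ)) = av F := by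
    intro θ
    cases θ with
    | false =>
      rw [← av_fst (Ω' := Bool) F]
      exact av_congr fun z => by rw [shf_false]
    | true =>
      have h1 := av_equiv ((inv1_inv H e).toPerm) (fun z : (Fin n → Fin H) × Bool => F z.1)
      rw [av_fst] at h1
      exact h1
  rw [av_congr h]
  exact av_const _

theorem mix_law {P : Finset ℕ} {n : ℕ} (H : ℕ) [NeZero H] (e : Fin n → ℤ) (F : (Fin n → Cd P → Fin H) → ℝ) :
    av (fun z : ZC P H n => av (fun θ : Cd P → Bool => F (ptC H e z θ))) = av F := by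
  have h1 := law_pi (K := Cd P) (Z := (Fin n → Fin H) × Bool) (Θ := Bool) (V := Fin n → Fin H)
    (fun _ z θ => shf H e z.1 z.2 θ) (fun _ G => shf_law H e G) (fun g => F (fun l q => g q l))
  have h2 := av_equiv (Equiv.piComm (fun (_ : Cd P) (_ : Fin n) => Fin H)) F
  rw [← h2]
  exact h1

theorem mix_eq {P : Finset ℕ} {n : ℕ} (k w M H : ℕ) [NeZero H] (v : Cd P → ℕ) (e : Fin n → ℤ) (z : ZC P H n)
    (θ : Cd P → Bool) (l : Fin n) (i : Fin (k + 2)) :
    EM k w M H v i (ptC H e z θ l) = EM k w M H v i (baC H z l) + e l • shC w M H e z θ := by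
  funext q
  simp only [EM, ptC, baC, shC, Pi.add_apply, Pi.smul_apply]
  rw [zsmul_eq_mul, shf_val]
  push_cast
  ring

theorem dsp_count {n : ℕ} (H B : ℕ) (hB : 1 ≤ B) (hH : 4 * B ≤ H) (e : Fin n → ℤ) (he : ∀ l, |e l| ≤ (B : ℤ)) (ξ : Bool) :
    1 / 2 ^ n * (Fintype.card (Fin n → Fin H) : ℝ) ≤
      ((univ.filter fun x : Fin n → Fin H => dsp H e x ξ ≠ 0).card : ℝ) := by
  have hm : ∀ m ∈ Finset.Ico B (H - B), m < H := by
    intro m hm
    have := (Finset.mem_Ico.mp hm).2
    omega
  set T : Finset (Fin H) := (Finset.Ico B (H - B)).attachFin hm with hT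
  have hTc : T.card = H - B - B := by
    rw [hT, Finset.card_attachFin, Nat.card_Ico]
  have hsub : Fintype.piFinset (fun _ : Fin n => T) ⊆
      univ.filter fun x : Fin n → Fin H => dsp H e x ξ ≠ 0 := by
    intro x hx
    rw [Fintype.mem_piFinset] at hx
    rw [Finset.mem_filter]
    refine ⟨Finset.mem_univ _, ?_⟩
    have hx' : ∀ l, B ≤ (x l : ℕ) ∧ (x l : ℕ) < H - B := by
      intro l
      have := hx l
      rw [hT, Finset.mem_attachFin, Finset.mem_Ico] at this
      exact this
    cases ξ with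
    | false =>
      rw [dsp_false H e x]
      · exact one_ne_zero
      · intro l
        have h1 := hx' l
        have h2 := abs_le.mp (he l)
        omega
    | true =>
      rw [dsp_true H e x]
      · decide
      · intro l
        have h1 := hx' l
        have h2 := abs_le.mp (he l)
        omega
  have hcard := Finset.card_le_card hsub
  rw [Fintype.card_piFinset_const] at hcard
  have h1 : ((T.card ^ n : ℕ) : ℝ) ≤
      ((univ.filter fun x : Fin n → Fin H => dsp H e x ξ ≠ 0).card : ℝ) := by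
    exact_mod_cast hcard
  refine le_trans ?_ h1
  rw [hTc, Fintype.card_fun, Fintype.card_fin, Fintype.card_fin]
  push_cast
  have h2 : (((H - B - B : ℕ) : ℝ)) = (H : ℝ) - B - B := by
    rw [Nat.cast_sub (by omega), Nat.cast_sub (by omega)]
  rw [h2]
  have h3 : 4 * (B : ℝ) ≤ H := by exact_mod_cast hH
  have h4 : 1 / 2 ^ n * (H : ℝ) ^ n = ((H : ℝ) / 2) ^ n := by
    rw [div_pow]
    ring
  rw [h4]
  exact pow_le_pow_left₀ (by positivity) (by linarith) n

end Pool.CM
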