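import Pool.Agent.Lib.MP_c77da8_nt.CM.SqM
import Pool.Agent.Lib.MP_c77da8_nt.CM.AntiM
import Pool.Agent.Lib.MP_c77da8_nt.CM.CubeA

/-!
# CM-CubeB: for most `n` the weight at the points `y + B ∑_(l ≠ 0) t_l` satisfies the linear forms condition in mean square

PROOF (compare `PattM`).  For `S` put `S' = {p ∈ S : p.1 = 0}` (the other factors are `1`), `I = {p // p ∈ S'}`, `Λo = K → (Fin n → Fin H) × Bool`,
`Λi = (K → Bool) × (K → Bool)`, `φ (0, T) a (β, β') = ∑_(l ≠ 0) B · (if mix T β β' l then dsp H (e l) (a l).1 (a l).2 else 0)` (as `∑_l cube k B 0 l * ..`), `o = 0`;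
`|φ| ≤ B (k+1) ≤ D`.  `cubM ν B (shC w M H) e (y, ζ) 0 (mix T θ θ') = ν (ptM w (φ (0,T)) 0 (y, fun q => (ζ · q, (θ · q, θ' · q))))`.  `sq_genM`; reindex
`(K → (Cd P → Λ)) ≃ (Cd P → (K → Λ))`.
Anticoncentration (`anti_flip`, `κ = 2^(-n)`): for `T ≠ T'` (`0 ∉ T, T'`) take `l ≠ 0` in the symmetric difference; the bits `β l` and `β' l` are used by one of the two
forms each, so changing `β l` changes `φ (0,T) - φ (0,T')` by `± B dsp H (e l) (a l).1 (a l).2`, which is not `0` for a proportion `≥ 2^(-n)` of the `a l`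
(`dsp_count`).  Two different copies of the inner variables: any `l ≠ 0` (`k + 2 ≥ 2`), change the bit at `l` used by the first form.
`1 - κ/2 = 1 - 1/2^(n+1) ≤ ρ`.  From `S` to `LFav`: as in `most_n` (`CL/MostN.lean`).
-/

set_option autoImplicit false

namespace Pool.CM

open Finset Pool.CG Pool.CL

/-! ### the two forms of the inner variables -/

private lemma flip_card {Λ : Type} [Fintype Λ] (ψ : Λ → ℤ) (σ : Λ → Λ) (Gd : Finset Λ) (κ : ℝ)
    (hσ : ∀ x, σ (σ x) = x) (hG : ∀ x ∈ Gd, σ x ∈ Gd ∧ ψ (σ x) ≠ ψ x)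
    (hκ : κ * Fintype.card Λ ≤ Gd.card) (v : ℤ) :
    ((univ.filter fun x : Λ => ψ x = v).card : ℝ) ≤ (1 - κ / 2) * Fintype.card Λ := by
  classical
  have h1 : (univ.filter fun x : Λ => ψ x = v).card ≤
      (Gd.filter fun x => ψ x = v).card + (univ \ Gd).card := by
    rw [← card_union_of_disjoint]
    · refine card_le_card ?_
      intro x hx
      rw [mem_filter] at hx
      rw [mem_union, mem_filter, mem_sdiff]
      by_cases h : x ∈ Gd
      · exact Or.inl ⟨h, hx.2⟩
      · exact Or.inr ⟨mem_univ _, h⟩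
    · rw [disjoint_left]
      intro x hx hx'
      exact (mem_sdiff.1 hx').2 (mem_filter.1 hx).1
  have h2 : (Gd.filter fun x => ψ x = v).card ≤ (Gd.filter fun x => ¬ ψ x = v).card := by
    refine card_le_card_of_injOn σ ?_ ?_
    · intro x hx
      rw [mem_coe, mem_filter] at hx
      rw [mem_coe, mem_filter]
      obtain ⟨a1, a2⟩ := hG x hx.1
      refine ⟨a1, ?_⟩
      rw [← hx.2]
      exact a2
    · intro x _ y _ hxy
      have := congrArg σ hxy
      rwa [hσ, hσ] at this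
  have h3 := card_filter_add_card_filter_not (s := Gd) (fun x => ψ x = v)
  have h4 : (univ \ Gd).card + Gd.card = Fintype.card Λ := by
    rw [← card_univ]
    exact card_sdiff_add_card_eq_card (subset_univ _)
  have h5 : 2 * (univ.filter fun x : Λ => ψ x = v).card + Gd.card ≤ 2 * Fintype.card Λ := by
    omega
  have h6 : 2 * ((univ.filter fun x : Λ => ψ x = v).card : ℝ) + (Gd.card : ℝ) ≤
      2 * (Fintype.card Λ : ℝ) := by exact_mod_cast h5
  linarith

private lemma card_fst {A W : Type} [Fintype A] [Fintype W] (P : A → Prop) [DecidablePred P]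
    (κ : ℝ) (h : κ * Fintype.card A ≤ ((univ.filter fun a => P a).card : ℝ)) :
    κ * (Fintype.card (A × W) : ℝ) ≤ ((univ.filter fun x : A × W => P x.1).card : ℝ) := by
  classical
  have e : (univ.filter fun x : A × W => P x.1) = (univ.filter fun a => P a) ×ˢ (univ : Finset W) := by
    ext x
    simp
  rw [e, card_product, Fintype.card_prod, card_univ]
  push_cast
  rw [← mul_assoc]
  exact mul_le_mul_of_nonneg_right h (Nat.cast_nonneg _)

private lemma card_eqv {A B' : Type} [Fintype A] [Fintype B'] (E : A ≃ B') (P : B' → Prop)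
    [DecidablePred P] (κ : ℝ) (h : κ * Fintype.card B' ≤ ((univ.filter fun a => P a).card : ℝ)) :
    κ * (Fintype.card A : ℝ) ≤ ((univ.filter fun x : A => P (E x)).card : ℝ) := by
  classical
  have e : (univ.filter fun x : A => P (E x)).card = (univ.filter fun a => P a).card := by
    refine card_bij (fun x _ => E x) ?_ ?_ ?_
    · intro x hx
      rw [mem_filter] at hx ⊢
      exact ⟨mem_univ _, hx.2⟩
    · intro x _ y _ hxy
      exact E.injective hxy
    · intro b hb
      refine ⟨E.symm b, ?_, by simp⟩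
      rw [mem_filter] at hb ⊢
      exact ⟨mem_univ _, by simpa using hb.2⟩
  rw [e, Fintype.card_congr E]
  exact h

private lemma card_dsp {k n : ℕ} (H B : ℕ) (hB : 1 ≤ B) (hH : 4 * B ≤ H) (e : Fin n → ℤ)
    (he : ∀ l, |e l| ≤ (B : ℤ)) (l : Fin (k + 2)) (W : Type) [Fintype W] :
    1 / 2 ^ n * (Fintype.card ((Fin (k + 2) → (Fin n → Fin H) × Bool) × W) : ℝ) ≤
      ((univ.filter fun x : (Fin (k + 2) → (Fin n → Fin H) × Bool) × W =>
        dsp H e (x.1 l).1 (x.1 l).2 ≠ 0).card : ℝ) := by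
  classical
  have h0 : 1 / 2 ^ n * (Fintype.card ((Fin n → Fin H) × Bool) : ℝ) ≤
      ((univ.filter fun z : (Fin n → Fin H) × Bool => dsp H e z.1 z.2 ≠ 0).card : ℝ) := by
    have e1 : (univ.filter fun z : (Fin n → Fin H) × Bool => dsp H e z.1 z.2 ≠ 0).card =
        (univ.filter fun x : Fin n → Fin H => dsp H e x true ≠ 0).card +
        (univ.filter fun x : Fin n → Fin H => dsp H e x false ≠ 0).card := by
      simp only [card_filter]
      rw [Fintype.sum_prod_type, ← sum_add_distrib]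
      refine sum_congr rfl fun x _ => ?_
      rw [Fintype.sum_bool]
    rw [e1, Fintype.card_prod, Fintype.card_bool]
    push_cast
    have h1 := dsp_count H B hB hH e he true
    have h2 := dsp_count H B hB hH e he false
    linarith
  refine card_fst (W := W) (fun a : Fin (k + 2) → (Fin n → Fin H) × Bool =>
    dsp H e (a l).1 (a l).2 ≠ 0) _ ?_
  have h1 := card_eqv (Equiv.funSplitAt l ((Fin n → Fin H) × Bool))
    (fun x : ((Fin n → Fin H) × Bool) × ({j // j ≠ l} → (Fin n → Fin H) × Bool) =>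
      dsp H e x.1.1 x.1.2 ≠ 0) (1 / 2 ^ n)
    (card_fst (W := {j // j ≠ l} → (Fin n → Fin H) × Bool)
      (fun z : (Fin n → Fin H) × Bool => dsp H e z.1 z.2 ≠ 0) _ h0)
  exact h1

/-- the form -/
private noncomputable def ph {k n : ℕ} (H B : ℕ) (e : Fin (k + 2) → Fin n → ℤ) (T : Finset (Fin (k + 2)))
    (a : Fin (k + 2) → (Fin n → Fin H) × Bool) (β : (Fin (k + 2) → Bool) × (Fin (k + 2) → Bool)) : ℤ :=
  ∑ l, cube k B 0 l * (if mix T β.1 β.2 l then dsp H (e l) (a l).1 (a l).2 else 0)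

private lemma dsp_abs {n : ℕ} (H : ℕ) (e : Fin n → ℤ) (x : Fin n → Fin H) (ξ : Bool) :
    |dsp H e x ξ| ≤ 1 := by
  unfold dsp
  split_ifs <;> norm_num

private lemma ph_abs {k n : ℕ} (H B : ℕ) (e : Fin (k + 2) → Fin n → ℤ) (T : Finset (Fin (k + 2)))
    (a : Fin (k + 2) → (Fin n → Fin H) × Bool) (β : (Fin (k + 2) → Bool) × (Fin (k + 2) → Bool)) :
    |ph H B e T a β| ≤ ((B * (k + 1) : ℕ) : ℤ) := by
  unfold ph
  have h1 : ∀ l : Fin (k + 2), |cube k B 0 l * (if mix T β.1 β.2 l then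
      dsp H (e l) (a l).1 (a l).2 else 0)| ≤ if l = 0 then 0 else (B : ℤ) := by
    intro l
    rw [abs_mul]
    unfold cube
    by_cases h : l = 0
    · simp only [if_pos h, abs_zero, zero_mul]
      exact le_refl _
    · simp only [if_neg h]
      have h2 : |(if mix T β.1 β.2 l then dsp H (e l) (a l).1 (a l).2 else 0)| ≤ 1 := by
        split_ifs
        · exact dsp_abs _ _ _ _
        · norm_num
      have h3 : |(B : ℤ)| = B := abs_of_nonneg (Int.natCast_nonneg _)
      rw [h3]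
      have h4 : (0 : ℤ) ≤ B := Int.natCast_nonneg _
      nlinarith
  refine (abs_sum_le_sum_abs _ _).trans ((sum_le_sum fun l _ => h1 l).trans (le_of_eq ?_))
  rw [Fin.sum_univ_succ, if_pos rfl, zero_add]
  have h2 : ∀ i : Fin (k + 1), (if i.succ = 0 then (0 : ℤ) else (B : ℤ)) = B := fun i =>
    if_neg (Fin.succ_ne_zero i)
  rw [sum_congr rfl fun i _ => h2 i, sum_const, card_univ, Fintype.card_fin, nsmul_eq_mul]
  push_cast
  ring

/-- change one bit -/
private def fl {k : ℕ} (l : Fin (k + 2)) (s : Bool) (β : (Fin (k + 2) → Bool) × (Fin (k + 2) → Bool)) :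
    (Fin (k + 2) → Bool) × (Fin (k + 2) → Bool) :=
  if s then (β.1, Function.update β.2 l (!(β.2 l))) else (Function.update β.1 l (!(β.1 l)), β.2)

private lemma upd_upd {k : ℕ} (l : Fin (k + 2)) (f : Fin (k + 2) → Bool) :
    Function.update (Function.update f l (!(f l))) l (!(Function.update f l (!(f l)) l)) = f := by
  funext i
  by_cases h : i = l
  · subst h
    simp
  · simp [Function.update_of_ne h]

private lemma fl_fl {k : ℕ} (l : Fin (k + 2)) (s : Bool)
    (β : (Fin (k + 2) → Bool) × (Fin (k + 2) → Bool)) : fl l s (fl l s β) = β := by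
  unfold fl
  cases s
  · simp only [Bool.false_eq_true, if_false]
    rw [upd_upd]
  · simp only [if_true]
    rw [upd_upd]

private lemma mix_fl_eq {k : ℕ} {l : Fin (k + 2)} {s : Bool} {T : Finset (Fin (k + 2))}
    (h : l ∈ T ↔ s = true) (β : (Fin (k + 2) → Bool) × (Fin (k + 2) → Bool)) :
    mix T (fl l s β).1 (fl l s β).2 = Function.update (mix T β.1 β.2) l (!(mix T β.1 β.2 l)) := by
  funext i
  unfold mix fl
  by_cases hi : i = l
  · subst hi
    cases s
    · have h' : i ∉ T := fun h0 => Bool.false_ne_true (h.1 h0)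
      simp [h']
    · have h' : i ∈ T := h.2 rfl
      simp [h']
  · rw [Function.update_of_ne hi]
    cases s <;> simp [Function.update_of_ne hi]

private lemma mix_fl_ne {k : ℕ} {l : Fin (k + 2)} {s : Bool} {T : Finset (Fin (k + 2))}
    (h : ¬ (l ∈ T ↔ s = true)) (β : (Fin (k + 2) → Bool) × (Fin (k + 2) → Bool)) :
    mix T (fl l s β).1 (fl l s β).2 = mix T β.1 β.2 := by
  funext i
  unfold mix fl
  by_cases hi : i = l
  · subst hi
    cases s
    · have h' : i ∈ T := by
        by_contra h0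
        exact h ⟨fun h1 => absurd h1 h0, fun h1 => absurd h1 (by simp)⟩
      simp [h']
    · have h' : i ∉ T := fun h0 => h ⟨fun _ => rfl, fun _ => h0⟩
      simp [h']
  · cases s <;> simp [Function.update_of_ne hi]

private lemma ph_fl_ne {k n : ℕ} (H B : ℕ) (e : Fin (k + 2) → Fin n → ℤ) {T : Finset (Fin (k + 2))}
    {l : Fin (k + 2)} {s : Bool} (h : ¬ (l ∈ T ↔ s = true))
    (a : Fin (k + 2) → (Fin n → Fin H) × Bool) (β : (Fin (k + 2) → Bool) × (Fin (k + 2) → Bool)) :
    ph H B e T a (fl l s β) = ph H B e T a β := by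
  unfold ph
  rw [mix_fl_ne h]

private lemma ph_fl_eq {k n : ℕ} (H B : ℕ) (hB : 1 ≤ B) (e : Fin (k + 2) → Fin n → ℤ)
    {T : Finset (Fin (k + 2))}
    {l : Fin (k + 2)} (hl : l ≠ 0) {s : Bool} (h : l ∈ T ↔ s = true)
    {a : Fin (k + 2) → (Fin n → Fin H) × Bool} (ha : dsp H (e l) (a l).1 (a l).2 ≠ 0)
    (β : (Fin (k + 2) → Bool) × (Fin (k + 2) → Bool)) :
    ph H B e T a (fl l s β) ≠ ph H B e T a β := by
  unfold ph
  rw [mix_fl_eq h]
  rw [← add_sum_erase univ _ (mem_univ l),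
    ← add_sum_erase univ (fun l => cube k B 0 l * (if mix T β.1 β.2 l then
      dsp H (e l) (a l).1 (a l).2 else 0)) (mem_univ l)]
  have e1 : ∑ i ∈ univ.erase l, cube k B 0 i * (if Function.update (mix T β.1 β.2) l
      (!(mix T β.1 β.2 l)) i then dsp H (e i) (a i).1 (a i).2 else 0) =
      ∑ i ∈ univ.erase l, cube k B 0 i * (if mix T β.1 β.2 i then
      dsp H (e i) (a i).1 (a i).2 else 0) := by
    refine sum_congr rfl fun i hi => ?_
    rw [Function.update_of_ne (ne_of_mem_erase hi)]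
  rw [e1]
  intro h0
  have h1 := add_right_cancel h0
  rw [Function.update_self] at h1
  have h2 : cube k B 0 l = (B : ℤ) := by
    unfold cube
    rw [if_neg hl]
  have h3 : (B : ℤ) ≠ 0 := by
    have : (1 : ℤ) ≤ B := by exact_mod_cast hB
    omega
  rw [h2] at h1
  have h4 := mul_left_cancel₀ h3 h1
  cases hb : mix T β.1 β.2 l
  · rw [hb] at h4
    simp at h4
    exact ha h4
  · rw [hb] at h4
    simp at h4
    exact ha h4.symm

/-- the inner variables, by coordinates -/
private def eqi (k : ℕ) (C : Type) : ((Fin (k + 2) → C → Bool) × (Fin (k + 2) → C → Bool)) ≃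
    (C → (Fin (k + 2) → Bool) × (Fin (k + 2) → Bool)) where
  toFun z := fun q => (fun l => z.1 l q, fun l => z.2 l q)
  invFun β := (fun l q => (β q).1 l, fun l q => (β q).2 l)
  left_inv _ := rfl
  right_inv _ := rfl

/-- the outer variables, by coordinates -/
private def eqo (k : ℕ) (G C Z : Type) : (G × (Fin (k + 2) → C → Z)) ≃ (G × (C → Fin (k + 2) → Z)) where
  toFun z := (z.1, fun q l => z.2 l q)
  invFun z := (z.1, fun l q => z.2 q l)
  left_inv _ := rfl
  right_inv _ := rfl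

private lemma cub_pt {k n w M H B : ℕ} {P : Finset ℕ} (ν : GP P M → ℝ)
    (e : Fin (k + 2) → Fin n → ℤ) (T : Finset (Fin (k + 2)))
    (ω : GP P M × (Fin (k + 2) → ZC P H n))
    (z : (Fin (k + 2) → Cd P → Bool) × (Fin (k + 2) → Cd P → Bool)) :
    cubM ν B (shC (P := P) (n := n) w M H) e ω (0 : Fin (k + 2)) (mix T z.1 z.2) =
      ν (ptM w (fun a : (Fin (k + 2) → (Fin n → Fin H) × Bool) ×
          ((Fin (k + 2) → Bool) × (Fin (k + 2) → Bool)) => ph H B e T a.1 a.2) 0
        ((eqo k (GP P M) (Cd P) ((Fin n → Fin H) × Bool) ω).1,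
          fun q => ((eqo k (GP P M) (Cd P) ((Fin n → Fin H) × Bool) ω).2 q,
            eqi k (Cd P) z q))) := by
  unfold cubM
  rw [if_pos rfl]
  congr 1
  funext q
  unfold ptM ph
  simp only [Pi.add_apply, Finset.sum_apply, Pi.smul_apply, Pi.zero_apply, zero_add]
  congr 1
  rw [Int.cast_mul, Int.cast_sum, mul_sum]
  refine sum_congr rfl fun l _ => ?_
  rw [zsmul_eq_mul]
  unfold shC
  have e1 : (mix T z.1 z.2 l q) = mix T (eqi k (Cd P) z q).1 (eqi k (Cd P) z q).2 l := by
    unfold mix eqi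
    dsimp only [Equiv.coe_fn_mk]
    split_ifs <;> rfl
  rw [← e1]
  unfold eqo
  dsimp only [Equiv.coe_fn_mk]
  push_cast
  ring

theorem cubeM (k t D H B n : ℕ) (hB : 1 ≤ B) (ht : 2 * ((k + 2) * 2 ^ (k + 2)) ≤ t) (hH : 4 * B ≤ H)
    (hD : B * (k + 1) ≤ D) (ρ η δ : ℝ) (hρn : 1 - 1 / 2 ^ (n + 1) ≤ ρ) (hρ1 : ρ < 1) (hη : 0 < η) (hδ : 0 < δ) :
    ∃ w0 M0 N0 : ℕ, ∀ w ≥ w0, ∀ M ≥ M0, ∀ N ≥ N0, ∀ (V : ℕ) (P : Finset ℕ) [NeZero M] [NeZero H], ParM t D V w M N ρ P →
      ∀ e : Fin (k + 2) → Fin n → ℤ, (∀ s l, |e s l| ≤ (B : ℤ)) →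
      ((open Classical in (Ico N (2 * N)).filter fun n' =>
        ¬ LFav η (cubM (nuP P M w (Rt t N) n') B (shC (P := P) (n := n) w M H) e)).card : ℝ) ≤ δ * N := by
  classical
  have hq : 1 ≤ (k + 2) * 2 ^ (k + 2) := Nat.one_le_iff_ne_zero.2 (by positivity)
  have ht1 : 1 ≤ t := by omega
  set n0 : ℕ := Fintype.card (Finset (Fin (k + 2) × Finset (Fin (k + 2)))) with hn0
  set η' : ℝ := δ * η / (3 * ((n0 : ℝ) + 1)) with hη'def
  have hη' : 0 < η' := by positivity
  have hρ0 : 0 < ρ := by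
    have h1 : (1 : ℝ) / 2 ^ (n + 1) ≤ 1 / 2 := by
      refine one_div_le_one_div_of_le (by norm_num) ?_
      calc (2 : ℝ) = 2 ^ 1 := by norm_num
        _ ≤ 2 ^ (n + 1) := pow_le_pow_right₀ (by norm_num) (by omega)
    linarith
  have hκ : (1 : ℝ) - 1 / 2 ^ n / 2 ≤ ρ := by
    refine le_trans (le_of_eq ?_) hρn
    rw [pow_succ]
    field_simp
  obtain ⟨w0, M0, N0, h⟩ := sq_genM t D ht1 ρ η' hρ0 hρ1 hη'
  refine ⟨w0, M0, N0, ?_⟩
  intro w hw M hM N hN V P _ _ hPar e he
  have hH1 : 1 ≤ H := by omega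
  have hHne : Nonempty (Fin H) := ⟨⟨0, hH1⟩⟩
  set Q : Finset (Fin (k + 2) × Finset (Fin (k + 2))) → ℕ → ℝ := fun S n' =>
    av (fun ω : GP P M × (Fin (k + 2) → ZC P H n) =>
      (av (fun z : (Fin (k + 2) → Cd P → Bool) × (Fin (k + 2) → Cd P → Bool) =>
        ∏ p ∈ S, cubM (nuP P M w (Rt t N) n') B (shC (P := P) (n := n) w M H) e ω p.1
          (mix p.2 z.1 z.2)) - 1) ^ 2) with hQ
  have hQ0 : ∀ S n', 0 ≤ Q S n' := by
    intro S n'
    simp only [hQ]
    exact av_nonneg fun y => sq_nonneg _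
  -- one set `S`
  have key : ∀ S : Finset (Fin (k + 2) × Finset (Fin (k + 2))), (∀ p ∈ S, p.1 ∉ p.2) →
      ∑ n' ∈ Ico N (2 * N), Q S n' ≤ 3 * η' * N := by
    intro S hS
    set S' := S.filter (fun p => p.1 = 0) with hS'
    have hS1 : ∀ p ∈ S', p.1 = 0 ∧ (0 : Fin (k + 2)) ∉ p.2 := fun p hp => by
      rw [hS', mem_filter] at hp
      exact ⟨hp.2, hp.2 ▸ hS p hp.1⟩
    have hcS : S'.card ≤ (k + 2) * 2 ^ (k + 2) := by
      refine (card_le_univ S').trans (le_of_eq ?_)
      rw [Fintype.card_prod, Fintype.card_finset, Fintype.card_fin]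
    have hK := h w hw M hM N hN V P hPar (Fin (k + 2) → (Fin n → Fin H) × Bool)
      ((Fin (k + 2) → Bool) × (Fin (k + 2) → Bool)) {p // p ∈ S'}
      (by rw [Fintype.card_coe]; omega)
      (fun i a b => ph H B e i.1.2 a b) (fun _ => 0)
      (fun i a b => (ph_abs H B e i.1.2 a b).trans (by exact_mod_cast hD))
      (fun i q => by
        rw [Pi.zero_apply, abs_zero]
        exact Int.natCast_nonneg _) ?_ ?_
    · refine le_trans (le_of_eq (sum_congr rfl fun n' _ => ?_)) hK
      rw [hQ]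
      dsimp only
      rw [← av_equiv (eqo k (GP P M) (Cd P) ((Fin n → Fin H) × Bool)) (fun y => (av (fun β : Cd P →
        (Fin (k + 2) → Bool) × (Fin (k + 2) → Bool) =>
        ∏ i : {p // p ∈ S'}, nuP P M w (Rt t N) n' (ptM w
          (fun a : (Fin (k + 2) → (Fin n → Fin H) × Bool) ×
          ((Fin (k + 2) → Bool) × (Fin (k + 2) → Bool)) => ph H B e i.1.2 a.1 a.2) 0
            (y.1, fun q => (y.2 q, β q)))) - 1) ^ 2)]
      refine av_congr fun ω => ?_
      rw [← av_equiv (eqi k (Cd P))]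
      congr 2
      refine av_congr fun z => ?_
      rw [prod_coe_sort S' (fun p => nuP P M w (Rt t N) n' (ptM w
          (fun a : (Fin (k + 2) → (Fin n → Fin H) × Bool) ×
          ((Fin (k + 2) → Bool) × (Fin (k + 2) → Bool)) => ph H B e p.2 a.1 a.2) 0
            ((eqo k (GP P M) (Cd P) ((Fin n → Fin H) × Bool) ω).1,
              fun q => ((eqo k (GP P M) (Cd P) ((Fin n → Fin H) × Bool) ω).2 q,
                eqi k (Cd P) z q)))), hS', prod_filter]
      refine prod_congr rfl fun p _ => ?_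
      by_cases hp : p.1 = 0
      · rw [if_pos hp, hp]
        exact cub_pt _ _ _ _ _
      · rw [if_neg hp]
        unfold cubM
        rw [if_neg hp]
    · intro i j hij v
      obtain ⟨i1, i2⟩ := hS1 _ i.2
      obtain ⟨j1, j2⟩ := hS1 _ j.2
      have hne : i.1.2 ≠ j.1.2 := by
        intro h0
        exact hij (Subtype.ext (Prod.ext (i1.trans j1.symm) h0))
      obtain ⟨l, hl⟩ : ∃ l : Fin (k + 2), ¬ (l ∈ i.1.2 ↔ l ∈ j.1.2) := by
        by_contra hcon
        push Not at hcon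
        exact hne (Finset.ext hcon)
      have hl0 : l ≠ 0 := by
        intro h0
        rw [h0] at hl
        exact hl ⟨fun h1 => absurd h1 i2, fun h1 => absurd h1 j2⟩
      refine le_trans (flip_card _ (fun x : (Fin (k + 2) → (Fin n → Fin H) × Bool) ×
          ((Fin (k + 2) → Bool) × (Fin (k + 2) → Bool)) => (x.1, fl l (decide (l ∈ i.1.2)) x.2))
        (univ.filter fun x => dsp H (e l) (x.1 l).1 (x.1 l).2 ≠ 0) (1 / 2 ^ n) ?_ ?_
        (card_dsp H B hB hH (e l) (he l) l _) v) ?_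
      · intro x
        rw [fl_fl]
      · intro x hx
        rw [mem_filter] at hx ⊢
        refine ⟨⟨mem_univ _, hx.2⟩, ?_⟩
        have a1 := ph_fl_eq H B hB e hl0 (T := i.1.2) (s := decide (l ∈ i.1.2)) (by simp) hx.2 x.2
        have a2 := ph_fl_ne H B e (T := j.1.2) (l := l) (s := decide (l ∈ i.1.2)) (by
          rw [decide_eq_true_iff]
          exact fun h0 => hl h0.symm) x.1 x.2
        dsimp only
        rw [a2]
        intro h0
        exact a1 (sub_left_injective h0)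
      · exact mul_le_mul_of_nonneg_right hκ (Nat.cast_nonneg _)
    · intro i j v
      have hl0 : (1 : Fin (k + 2)) ≠ 0 := by
        intro h0
        exact absurd h0 (by simp)
      refine le_trans (flip_card _ (fun x : (Fin (k + 2) → (Fin n → Fin H) × Bool) ×
          ((Fin (k + 2) → Bool) × (Fin (k + 2) → Bool)) ×
          ((Fin (k + 2) → Bool) × (Fin (k + 2) → Bool)) =>
          (x.1, fl 1 (decide (1 ∈ i.1.2)) x.2.1, x.2.2))
        (univ.filter fun x => dsp H (e 1) (x.1 1).1 (x.1 1).2 ≠ 0) (1 / 2 ^ n) ?_ ?_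
        (card_dsp H B hB hH (e 1) (he 1) 1 _) v) ?_
      · intro x
        rw [fl_fl]
      · intro x hx
        rw [mem_filter] at hx ⊢
        refine ⟨⟨mem_univ _, hx.2⟩, ?_⟩
        have a1 := ph_fl_eq H B hB e hl0 (T := i.1.2) (s := decide (1 ∈ i.1.2)) (by simp) hx.2 x.2.1
        dsimp only
        intro h0
        exact a1 (sub_left_injective h0)
      · exact mul_le_mul_of_nonneg_right hκ (Nat.cast_nonneg _)
  -- all sets `S`
  set A : Finset (Finset (Fin (k + 2) × Finset (Fin (k + 2)))) :=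
    univ.filter fun S => ∀ p ∈ S, p.1 ∉ p.2 with hA
  have hAcard : (A.card : ℝ) ≤ n0 := by
    have : A.card ≤ n0 := by
      rw [hn0, ← Finset.card_univ]
      exact Finset.card_le_card (Finset.filter_subset _ _)
    exact_mod_cast this
  have hbad : ∀ n', ¬ LFav η (cubM (nuP P M w (Rt t N) n') B (shC (P := P) (n := n) w M H) e) →
      η ≤ ∑ S ∈ A, Q S n' := by
    intro n' hn
    unfold LFav at hn
    push Not at hn
    obtain ⟨S, hS, hlt⟩ := hn
    have hSA : S ∈ A := by
      rw [hA, Finset.mem_filter]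
      exact ⟨Finset.mem_univ _, hS⟩
    have h4 : Q S n' ≤ ∑ S ∈ A, Q S n' :=
      Finset.single_le_sum (f := fun S => Q S n') (fun S _ => hQ0 S n') hSA
    exact le_trans hlt.le h4
  set Bd := (Ico N (2 * N)).filter fun n' =>
        ¬ LFav η (cubM (nuP P M w (Rt t N) n') B (shC (P := P) (n := n) w M H) e) with hBd
  have h5 : η * (Bd.card : ℝ) ≤ ∑ n' ∈ Ico N (2 * N), ∑ S ∈ A, Q S n' := by
    have h6 : ∑ n' ∈ Bd, η ≤ ∑ n' ∈ Bd, ∑ S ∈ A, Q S n' := by
      refine Finset.sum_le_sum ?_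
      intro n' hn
      exact hbad n' (Finset.mem_filter.1 hn).2
    have h7 : ∑ n' ∈ Bd, ∑ S ∈ A, Q S n' ≤ ∑ n' ∈ Ico N (2 * N), ∑ S ∈ A, Q S n' := by
      refine Finset.sum_le_sum_of_subset_of_nonneg (Finset.filter_subset _ _) ?_
      intro n' _ _
      exact Finset.sum_nonneg fun S _ => hQ0 S n'
    rw [Finset.sum_const, nsmul_eq_mul] at h6
    linarith
  have h8 : ∑ n' ∈ Ico N (2 * N), ∑ S ∈ A, Q S n' ≤ (A.card : ℝ) * (3 * η' * N) := by
    rw [Finset.sum_comm]
    have h9 : ∀ S ∈ A, ∑ n' ∈ Ico N (2 * N), Q S n' ≤ 3 * η' * N := by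
      intro S hS
      exact key S (Finset.mem_filter.1 hS).2
    calc ∑ S ∈ A, ∑ n' ∈ Ico N (2 * N), Q S n' ≤ ∑ S ∈ A, 3 * η' * N :=
          Finset.sum_le_sum h9
      _ = _ := by rw [Finset.sum_const, nsmul_eq_mul]
  have h10 : (A.card : ℝ) * (3 * η' * N) ≤ η * (δ * N) := by
    have hN0 : (0 : ℝ) ≤ N := Nat.cast_nonneg _
    have hn1 : (0 : ℝ) < (n0 : ℝ) + 1 := by positivity
    have e : 3 * η' * N = (η * (δ * N)) / ((n0 : ℝ) + 1) := by
      rw [hη'def]
      field_simp
    rw [e, mul_div_assoc']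
    rw [div_le_iff₀ hn1]
    have h11 : 0 ≤ η * (δ * N) := by positivity
    nlinarith [h11, hAcard]
  have h12 : η * (Bd.card : ℝ) ≤ η * (δ * N) := le_trans h5 (le_trans h8 h10)
  have h13 : (Bd.card : ℝ) ≤ δ * N := le_of_mul_le_mul_left h12 hη
  convert h13 using 3

end Pool.CM
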