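import Pool.Agent.Lib.MP_c77da8_nt.CL.ProdA
import Pool.Agent.Lib.MP_c77da8_nt.CL.GoodY

/-!
# CM-Defs: geometric progressions in the shifted primes with a prescribed ratio up to a tiny factor (MP_c77da8_nt), definitions

Half R (relative Szemerédi theorem for local progressions in a finite abelian group `G`): the variables `x_i` run over a
finite set `X`, embedded by `E i : X → G`; the base point `y` runs over `G`.  The common shifts of the copies of the variables
are exact: the law of `n` independent points of `X` is the law of `pt e z θ`, `z` and `θ` uniform, and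
`E i (pt e z θ l) = E i (base z l) + e l • sh e z θ` (`MixOK`).

Half N: `G = (ℤ/M)^P`, `P` a finite set of primes: the primes `≤ w` (but for at most one) and the prime factors of `g`;
`m(z) = ∏_(p ∈ P) p^(z_p)`; the sieve uses the primes in `(w, R]` which are not in `P`.
-/

set_option autoImplicit false

namespace Pool.CM

open Finset Pool.CG Pool.CL

noncomputable section

/-- the vector of the points `E i (x i)` of `G` -/
def ce {K X G : Type} (E : K → X → G) (x : K → X) : K → G := fun i => E i (x i)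

/-- the functions `u` which are allowed in the local cut norm (they may depend on the base point) -/
def GoodM {G X : Type} {k : ℕ} (u : G → Fin (k + 2) → (Fin (k + 2) → X) → ℝ) : Prop :=
  (∀ y i x, 0 ≤ u y i x ∧ u y i x ≤ 1) ∧ ∀ y i, Ind i (u y i)

/-- the local test function for the form `b psi_j` -/
def phiM {G X : Type} [AddCommGroup G] [Fintype X] {k : ℕ} (E : Fin (k + 2) → X → G) (b : ℕ) (j : Fin (k + 2))
    (u : G → Fin (k + 2) → (Fin (k + 2) → X) → ℝ) (z : G) : ℝ :=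
  av (fun x : Fin (k + 2) → X => ∏ i ∈ univ.erase j, u (z - b • psi j (ce E x)) i x)

/-- the weight `ν` at the points `y + b psi_i (E x)` -/
def affM {G X : Type} [AddCommGroup G] {k : ℕ} (E : Fin (k + 2) → X → G) (ν : G → ℝ) (b : ℕ) (y : G)
    (i : Fin (k + 2)) (x : Fin (k + 2) → X) : ℝ := ν (y + b • psi i (ce E x))

/-- the weight `ν` at the point `y + B ∑_(l ≠ 0) t_l`, `t_l = sh (e l) (ζ l) (θ l)`; `1` for `i ≠ 0` -/
def cubM {G Z Θ : Type} [AddCommGroup G] {k n : ℕ} (ν : G → ℝ) (B : ℕ) (sh : (Fin n → ℤ) → Z → Θ → G)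
    (e : Fin (k + 2) → Fin n → ℤ) (ω : G × (Fin (k + 2) → Z)) (i : Fin (k + 2)) (θ : Fin (k + 2) → Θ) : ℝ :=
  if i = 0 then ν (ω.1 + ∑ l, cube k B 0 l • sh (e l) (ω.2 l) (θ l)) else 1

/-- exact common shifts of `n` points, for which `ν` satisfies the linear forms condition -/
def MixOK {G X : Type} [AddCommGroup G] [Fintype G] [Fintype X] (k B n : ℕ) (η : ℝ) (E : Fin (k + 2) → X → G)
    (ν : G → ℝ) : Prop :=
  ∃ (Z Θ : Type) (_ : Fintype Z) (_ : Fintype Θ) (_ : Nonempty Z) (_ : Nonempty Θ)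
    (pt : (Fin n → ℤ) → Z → Θ → Fin n → X) (sh : (Fin n → ℤ) → Z → Θ → G) (base : Z → Fin n → X),
    (∀ (e : Fin n → ℤ) (F : (Fin n → X) → ℝ), av (fun z : Z => av (fun θ : Θ => F (pt e z θ))) = av F) ∧
    (∀ (e : Fin n → ℤ) (z : Z) (θ : Θ) (l : Fin n) (i : Fin (k + 2)),
      E i (pt e z θ l) = E i (base z l) + e l • sh e z θ) ∧
    ∀ e : Fin (k + 2) → Fin n → ℤ, (∀ s l, |e s l| ≤ (B : ℤ)) → LFav η (cubM ν B sh e)

/-! ### Half N -/

/-- the primes of `P` -/
abbrev Cd (P : Finset ℕ) : Type := {p : ℕ // p ∈ P}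

/-- the group `(ℤ/M)^P` -/
abbrev GP (P : Finset ℕ) (M : ℕ) : Type := Cd P → ZMod M

/-- the multiplier `m(z) = ∏_(p ∈ P) p^(z_p)` -/
def mP (P : Finset ℕ) (M : ℕ) (z : GP P M) : ℕ := ∏ p : Cd P, p.1 ^ (z p).val

/-- the primes of the sieve: in `(w, R]`, not in `P` -/
def Qs (w R : ℕ) (P : Finset ℕ) : Finset ℕ := Pr w R \ P

/-- the values of the primes -/
def vq (Q : Finset ℕ) (p : {p // p ∈ Q}) : ℕ := p.1

/-- the primes of `Q` which divide `a` -/
def xiq (Q : Finset ℕ) (a : ℕ) : Finset {p // p ∈ Q} := univ.filter fun p => p.1 ∣ a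

/-- the majorant at the number `a`, sieve by the primes of `Q` -/
def nuq (Q : Finset ℕ) (R a : ℕ) : ℝ := VV (vq Q) R * Lam (vq Q) R (xiq Q a) ^ 2

/-- the sum of `1/p` over the bad primes of `Q` -/
def badq {I : Type} (A : I → ℕ) (Q : Finset ℕ) : ℝ :=
  open Classical in
  ∑ p ∈ Q.filter (fun p => ∃ i j, i ≠ j ∧ A i ≡ A j [MOD p]), 1 / (p : ℝ)

/-- the majorant on `(ℤ/M)^P` -/
def nuP (P : Finset ℕ) (M w R n : ℕ) (z : GP P M) : ℝ := nuq (Qs w R P) R (mP P M z * n - 1)

/-- the weighted primes, in the inner box `E ≤ z_p < M - E` -/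
def fP (P : Finset ℕ) (M w R E n : ℕ) (z : GP P M) : ℝ :=
  open Classical in
  if (mP P M z * n - 1).Prime ∧ ∀ p, E ≤ (z p).val ∧ (z p).val + E < M then VV (vq (Qs w R P)) R else 0

/-- two random multipliers: they rarely coincide, and a prime of `Q` rarely divides the difference -/
def PairM {Ω : Type} [Fintype Ω] (Q : Finset ℕ) (M : ℕ) (ρ L : ℝ) (A A' : Ω → ℕ) : Prop :=
  ((univ.filter fun ω => A ω = A' ω).card : ℝ) * L ≤ Fintype.card Ω ∧
    ∀ p ∈ Q, p ≤ M ^ 3 →
      ((univ.filter fun ω => A ω ≠ A' ω ∧ A ω ≡ A' ω [MOD p]).card : ℝ) / Fintype.card Ω ≤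
        ρ ^ Real.sqrt (Real.log p) + Real.log p / Real.sqrt M

/-- `1` for the coordinates `q ≤ w`, `0` for the others -/
def kap {P : Finset ℕ} (w : ℕ) (q : Cd P) : ℤ := if q.1 ≤ w then 1 else 0

/-- the sample space: a base point, and an element of `Λ` for every coordinate -/
abbrev OmM (P : Finset ℕ) (M : ℕ) (Λ : Type) : Type := GP P M × (Cd P → Λ)

/-- the random point `y_q + o_q + kap_q φ(λ_q)` -/
def ptM {P : Finset ℕ} {M : ℕ} {Λ : Type} (w : ℕ) (φ : Λ → ℤ) (o : Cd P → ℤ) (ω : OmM P M Λ) : GP P M :=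
  fun q => ω.1 q + ((o q + kap w q * φ (ω.2 q) : ℤ) : ZMod M)

/-- the conditions on the parameters: `P` contains the primes `≤ w` but for at most one; `D` bounds the random parts,
`V` the offsets of the exponents -/
structure ParM (t D V w M N : ℕ) (ρ : ℝ) (P : Finset ℕ) : Prop where
  prime : ∀ p ∈ P, p.Prime
  most : ∃ e : ℕ, ∀ p : ℕ, p.Prime → p ≤ w → p ≠ e → p ∈ P
  ent : Real.log N ^ (9 ^ t + t + 1) * ρ ^ (P.filter (fun p => p ≤ w)).card ≤ 1
  wrap : (4 * (D + V)) ^ 2 ≤ M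
  size : ∑ p ∈ P, Real.log p ≤ M
  top : 3 * Real.log M ≤ w

/-- the embeddings of the variables: `x ∈ [1, H]^P` at the primes `≤ w`, plus `v` for `i = 0` -/
def EM {P : Finset ℕ} (k w M H : ℕ) (v : Cd P → ℕ) (i : Fin (k + 2)) (x : Cd P → Fin H) : GP P M :=
  fun q => (((if i = 0 then (v q : ℤ) else 0) + kap w q * (((x q : ℕ) : ℤ) + 1) : ℤ) : ZMod M)

/-- all real characters modulo `q` have `|L(1, χ)| ≥ δ` -/
def LowM (δ : ℝ) (q : ℕ) [NeZero q] : Prop :=
  ∀ χ : DirichletCharacter ℂ q, χ ≠ 1 → χ ^ 2 = 1 → δ ≤ ‖χ.LFunction 1‖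

end

end Pool.CM
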