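import Pool.Agent.Lib.MP_c77da8_nt.CM.Defs
import Pool.Agent.Lib.MP_c77da8_nt.CG.VBd

/-!
# CM-SvC: the sums `V`, and `0 ≤ fP ≤ nuP`

PROOF.  `VVq_le`: `VV (vq Q) R ≤ VV (vp w R) R` for `Q ⊆ Pr w R` (map a set of primes of `Q` to the same set in `Pr w R`: injective, the terms are the same
and nonnegative), and `VV_le` (`CG/VBd.lean`).  `prodq_le`: factors `≥ 1`, `prodPr_le`.
`VVq_ge`: a set `a` of primes of `Pr w R` is the union of its parts `a'` in `Qs w R P` and `a''` in `P`; `nm a' ≤ nm a ≤ R`; so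
`VV (vp w R) R ≤ VV (vq (Qs w R P)) R * ∏_(p ∈ P ∩ Pr w R) (1 + 1/(p-1))` and `1 + 1/(p-1) = (1 - 1/p)^(-1)`.
The rest as `as0_VV_pos`, `fw_nonneg`, `nu_nonneg`, `fw_le` (`CG/As0.lean`): if `a = m(z) n - 1` is prime, `a > R` (`m(z) ≥ 1` as all `p ∈ P` are `≥ 1`),
then `xiq a = ∅` and `Lam .. ∅ = 1`.
-/

set_option autoImplicit false

namespace Pool.CM

open Finset Pool.CG Pool.CL

theorem Qs_sub (w R : ℕ) (P : Finset ℕ) : Qs w R P ⊆ Pr w R := Finset.sdiff_subset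

/-- `V` as a sum over the subsets of `Q` -/
private noncomputable def svW (Q : Finset ℕ) (R : ℕ) : ℝ :=
  ∑ b ∈ Q.powerset, if ∏ p ∈ b, p ≤ R then ∏ p ∈ b, 1 / ((p : ℝ) - 1) else 0

private theorem svW_eq (Q : Finset ℕ) (R : ℕ) : VV (vq Q) R = svW Q R := by
  unfold VV svW
  rw [sum_filter]
  refine sum_bij (fun a _ => a.map (Function.Embedding.subtype _)) ?_ ?_ ?_ ?_
  · intro a _
    rw [mem_powerset]
    intro x hx
    rw [mem_map] at hx
    obtain ⟨y, -, rfl⟩ := hx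
    exact y.2
  · intro a _ b _ h
    exact Finset.map_injective _ h
  · intro b hb
    rw [mem_powerset] at hb
    refine ⟨b.subtype (fun x => x ∈ Q), mem_univ _, ?_⟩
    exact Finset.subtype_map_of_mem hb
  · intro a _
    rw [prod_map, prod_map]
    rfl

private theorem sv_ge {w R : ℕ} {Q : Finset ℕ} (hQ : Q ⊆ Pr w R) : ∀ p ∈ Q, 2 ≤ p := by
  intro p hp
  have h := hQ hp
  unfold Pr at h
  exact (mem_filter.1 h).2.1.two_le

private theorem sv_nn {Q : Finset ℕ} (hQ : ∀ p ∈ Q, 2 ≤ p) {b : Finset ℕ} (hb : b ⊆ Q) :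
    0 ≤ ∏ p ∈ b, 1 / ((p : ℝ) - 1) := by
  refine prod_nonneg fun p hp => ?_
  have h2 : (2 : ℝ) ≤ p := by exact_mod_cast hQ p (hb hp)
  exact one_div_nonneg.2 (by linarith)

private theorem sv_term {Q : Finset ℕ} (hQ : ∀ p ∈ Q, 2 ≤ p) (R : ℕ) {b : Finset ℕ} (hb : b ⊆ Q) :
    0 ≤ if ∏ p ∈ b, p ≤ R then ∏ p ∈ b, 1 / ((p : ℝ) - 1) else 0 := by
  split_ifs
  · exact sv_nn hQ hb
  · exact le_rfl

private theorem svW_nonneg {Q : Finset ℕ} (hQ : ∀ p ∈ Q, 2 ≤ p) (R : ℕ) : 0 ≤ svW Q R :=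
  sum_nonneg fun _ hb => sv_term hQ R (mem_powerset.1 hb)

private theorem svW_mono {Q S : Finset ℕ} (hS : ∀ p ∈ S, 2 ≤ p) (hQS : Q ⊆ S) (R : ℕ) : svW Q R ≤ svW S R := by
  unfold svW
  refine sum_le_sum_of_subset_of_nonneg (powerset_mono.2 hQS) fun b hb _ => ?_
  exact sv_term hS R (mem_powerset.1 hb)

private theorem svW_insert {S : Finset ℕ} (p : ℕ) (hp2 : 2 ≤ p) (hp : p ∉ S) (hS : ∀ q ∈ S, 2 ≤ q) (R : ℕ) :
    svW (insert p S) R ≤ (1 + 1 / ((p : ℝ) - 1)) * svW S R := by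
  have hg : (0 : ℝ) ≤ 1 / ((p : ℝ) - 1) := by
    have h2 : (2 : ℝ) ≤ p := by exact_mod_cast hp2
    exact one_div_nonneg.2 (by linarith)
  unfold svW
  rw [sum_powerset_insert hp, add_mul, one_mul, mul_sum]
  refine add_le_add le_rfl (sum_le_sum fun b hb => ?_)
  have hpb : p ∉ b := fun h => hp (mem_powerset.1 hb h)
  rw [prod_insert hpb, prod_insert hpb]
  by_cases h : p * ∏ q ∈ b, q ≤ R
  · have h' : ∏ q ∈ b, q ≤ R := (Nat.le_mul_of_pos_left _ (by omega)).trans h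
    rw [if_pos h, if_pos h']
  · rw [if_neg h]
    exact mul_nonneg hg (sv_term hS R (mem_powerset.1 hb))

private theorem svW_union (S T : Finset ℕ) (hST : Disjoint T S) (hS : ∀ q ∈ S, 2 ≤ q) (hT : ∀ q ∈ T, 2 ≤ q)
    (R : ℕ) : (∏ p ∈ T, (1 - 1 / (p : ℝ))) * svW (T ∪ S) R ≤ svW S R := by
  induction T using Finset.induction_on with
  | empty => simp
  | insert p T hp ih =>
    rw [disjoint_insert_left] at hST
    have h1 := ih hST.2 fun q hq => hT q (mem_insert_of_mem hq)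
    have hp2 : 2 ≤ p := hT p (mem_insert_self _ _)
    have hp2' : (2 : ℝ) ≤ p := by exact_mod_cast hp2
    have hnm : p ∉ T ∪ S := by
      rw [mem_union, not_or]
      exact ⟨hp, hST.1⟩
    have hTS : ∀ q ∈ T ∪ S, 2 ≤ q := by
      intro q hq
      rcases mem_union.1 hq with h | h
      · exact hT q (mem_insert_of_mem h)
      · exact hS q h
    have h2 := svW_insert p hp2 hnm hTS R
    rw [insert_union, prod_insert hp]
    have h3 : (0 : ℝ) ≤ 1 - 1 / (p : ℝ) := by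
      have : (1 : ℝ) / p ≤ 1 := by
        rw [div_le_one (by linarith)]
        linarith
      linarith
    have h4 : (1 - 1 / (p : ℝ)) * (1 + 1 / ((p : ℝ) - 1)) = 1 := by
      have h5 : (p : ℝ) ≠ 0 := by linarith
      have h6 : (p : ℝ) - 1 ≠ 0 := by linarith
      field_simp
      ring
    have h7 : (0 : ℝ) ≤ ∏ q ∈ T, (1 - 1 / (q : ℝ)) := by
      refine prod_nonneg fun q hq => ?_
      have hq2 : (2 : ℝ) ≤ q := by exact_mod_cast hT q (mem_insert_of_mem hq)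
      have : (1 : ℝ) / q ≤ 1 := by
        rw [div_le_one (by linarith)]
        linarith
      linarith
    calc (1 - 1 / (p : ℝ)) * (∏ q ∈ T, (1 - 1 / (q : ℝ))) * svW (insert p (T ∪ S)) R
        ≤ (1 - 1 / (p : ℝ)) * (∏ q ∈ T, (1 - 1 / (q : ℝ))) * ((1 + 1 / ((p : ℝ) - 1)) * svW (T ∪ S) R) :=
          mul_le_mul_of_nonneg_left h2 (mul_nonneg h3 h7)
      _ = ((1 - 1 / (p : ℝ)) * (1 + 1 / ((p : ℝ) - 1))) * ((∏ q ∈ T, (1 - 1 / (q : ℝ))) * svW (T ∪ S) R) := by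
          ring
      _ = (∏ q ∈ T, (1 - 1 / (q : ℝ))) * svW (T ∪ S) R := by rw [h4, one_mul]
      _ ≤ svW S R := h1

theorem VVq_pos (w R : ℕ) (Q : Finset ℕ) (hQ : Q ⊆ Pr w R) (hR : 1 ≤ R) : 0 < VV (vq Q) R := by
  rw [svW_eq]
  have h2 := single_le_sum (f := fun b : Finset ℕ => if ∏ p ∈ b, p ≤ R then ∏ p ∈ b, 1 / ((p : ℝ) - 1) else 0)
    (s := Q.powerset) (fun b hb => sv_term (sv_ge hQ) R (mem_powerset.1 hb)) (empty_mem_powerset Q)
  simp only [prod_empty] at h2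
  rw [if_pos hR] at h2
  unfold svW
  linarith

theorem VVq_le : ∃ C : ℝ, 1 ≤ C ∧ ∀ (w R : ℕ) (Q : Finset ℕ), Q ⊆ Pr w R → 1 ≤ w → 2 ≤ R →
    VV (vq Q) R ≤ C * Real.log R := by
  obtain ⟨C, hC, h⟩ := VV_le
  refine ⟨C, hC, fun w R Q hQ hw hR => ?_⟩
  refine le_trans ?_ (h w R hw hR)
  have e : VV (vp w R) R = VV (vq (Pr w R)) R := rfl
  rw [e, svW_eq, svW_eq]
  exact svW_mono (sv_ge (le_refl (Pr w R))) hQ R

theorem prodq_le : ∃ C : ℝ, 1 ≤ C ∧ ∀ (w R a : ℕ) (Q : Finset ℕ), Q ⊆ Pr w R → 1 ≤ w → 3 ≤ R →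
    ∏ p ∈ Q, (1 + (a : ℝ) / (p : ℝ)) ≤ (C * Real.log R) ^ a := by
  obtain ⟨C, hC, h⟩ := prodPr_le
  refine ⟨C, hC, fun w R a Q hQ hw hR => ?_⟩
  refine le_trans ?_ (h w R a hw hR)
  have h1 : ∀ S : Finset ℕ, (1 : ℝ) ≤ ∏ p ∈ S, (1 + (a : ℝ) / (p : ℝ)) := by
    intro S
    have h2 : ∏ p ∈ S, (1 : ℝ) ≤ ∏ p ∈ S, (1 + (a : ℝ) / (p : ℝ)) := by
      refine prod_le_prod (fun _ _ => zero_le_one) fun p _ => ?_
      have : (0 : ℝ) ≤ (a : ℝ) / (p : ℝ) := by positivity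
      linarith
    rwa [prod_const_one] at h2
  rw [← prod_sdiff hQ]
  have h3 := h1 (Pr w R \ Q)
  have h4 := h1 Q
  nlinarith

theorem VVq_ge (w R : ℕ) (P : Finset ℕ) (hP : ∀ p ∈ P, p.Prime) (hR : 1 ≤ R) :
    (∏ p ∈ P.filter (fun p => w < p), (1 - 1 / (p : ℝ))) * VV (vp w R) R ≤ VV (vq (Qs w R P)) R := by
  have e : VV (vp w R) R = VV (vq (Pr w R)) R := rfl
  rw [e, svW_eq, svW_eq]
  have hS : ∀ q ∈ Qs w R P, 2 ≤ q := sv_ge (Qs_sub w R P)
  have hT : ∀ q ∈ Pr w R ∩ P, 2 ≤ q := sv_ge (w := w) (R := R) inter_subset_left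
  have hd : Disjoint (Pr w R ∩ P) (Qs w R P) := by
    rw [disjoint_left]
    intro x hx hx'
    unfold Qs at hx'
    exact (mem_sdiff.1 hx').2 (mem_inter.1 hx).2
  have hu : Pr w R ∩ P ∪ Qs w R P = Pr w R := by
    unfold Qs
    ext x
    rw [mem_union, mem_inter, mem_sdiff]
    tauto
  have h1 := svW_union (Qs w R P) (Pr w R ∩ P) hd hS hT R
  rw [hu] at h1
  refine le_trans ?_ h1
  refine mul_le_mul_of_nonneg_right ?_ (svW_nonneg (sv_ge (le_refl (Pr w R))) R)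
  have hsub : Pr w R ∩ P ⊆ P.filter (fun p => w < p) := by
    intro x hx
    rw [mem_inter] at hx
    have h2 := hx.1
    unfold Pr at h2
    exact mem_filter.2 ⟨hx.2, (mem_filter.1 h2).2.2⟩
  have hf : ∀ p ∈ P, (0 : ℝ) ≤ 1 - 1 / (p : ℝ) ∧ 1 - 1 / (p : ℝ) ≤ 1 := by
    intro p hp
    have h2 : (2 : ℝ) ≤ p := by exact_mod_cast (hP p hp).two_le
    have h3 : (1 : ℝ) / p ≤ 1 := by
      rw [div_le_one (by linarith)]
      linarith
    have h4 : (0 : ℝ) ≤ 1 / (p : ℝ) := by positivity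
    exact ⟨by linarith, by linarith⟩
  rw [← prod_sdiff hsub]
  have h5 : ∏ p ∈ P.filter (fun p => w < p) \ (Pr w R ∩ P), (1 - 1 / (p : ℝ)) ≤ 1 := by
    refine prod_le_one (fun p hp => (hf p ?_).1) (fun p hp => (hf p ?_).2)
    · exact (mem_filter.1 (mem_sdiff.1 hp).1).1
    · exact (mem_filter.1 (mem_sdiff.1 hp).1).1
  have h6 : (0 : ℝ) ≤ ∏ p ∈ Pr w R ∩ P, (1 - 1 / (p : ℝ)) :=
    prod_nonneg fun p hp => (hf p (mem_inter.1 hp).2).1
  exact mul_le_of_le_one_left h6 h5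

private theorem sv_VV_nonneg (Q : Finset ℕ) (w R : ℕ) (hQ : Q ⊆ Pr w R) : 0 ≤ VV (vq Q) R := by
  rw [svW_eq]
  exact svW_nonneg (sv_ge hQ) R

theorem nuq_nonneg (Q : Finset ℕ) (w R a : ℕ) (hQ : Q ⊆ Pr w R) : 0 ≤ nuq Q R a := by
  unfold nuq
  exact mul_nonneg (sv_VV_nonneg Q w R hQ) (sq_nonneg _)

theorem mP_pos (P : Finset ℕ) (M : ℕ) (hP : ∀ p ∈ P, p.Prime) (z : GP P M) : 1 ≤ mP P M z := by
  unfold mP
  exact Finset.prod_pos fun (p : Cd P) _ => pow_pos (hP p.1 p.2).pos _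

theorem nuP_nonneg (P : Finset ℕ) (M w R n : ℕ) (z : GP P M) : 0 ≤ nuP P M w R n z := by
  unfold nuP
  exact nuq_nonneg _ w R _ (Qs_sub w R P)

theorem fP_nonneg (P : Finset ℕ) (M w R E n : ℕ) (z : GP P M) : 0 ≤ fP P M w R E n z := by
  unfold fP
  split_ifs
  · exact sv_VV_nonneg _ w R (Qs_sub w R P)
  · exact le_rfl

theorem fP_le (P : Finset ℕ) (M w R E n : ℕ) (hP : ∀ p ∈ P, p.Prime) (hR : 1 ≤ R) (hn : R + 2 ≤ n) (z : GP P M) :
    fP P M w R E n z ≤ nuP P M w R n z := by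
  classical
  unfold fP
  split_ifs with h
  swap
  · exact nuP_nonneg P M w R n z
  have hm := mP_pos P M hP z
  have hbig : R < mP P M z * n - 1 := by
    have h1 : n ≤ mP P M z * n := Nat.le_mul_of_pos_left n hm
    omega
  have hxi : xiq (Qs w R P) (mP P M z * n - 1) = ∅ := by
    unfold xiq
    rw [Finset.filter_eq_empty_iff]
    intro p _ hp
    have hp1 := Qs_sub w R P p.2
    unfold Pr at hp1
    have hpp : (p.1).Prime := (Finset.mem_filter.mp hp1).2.1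
    have hpR : p.1 ≤ R := (Finset.mem_Icc.mp (Finset.mem_filter.mp hp1).1).2
    have := (Nat.prime_dvd_prime_iff_eq hpp h.1).mp hp
    omega
  have hV := VVq_pos w R (Qs w R P) (Qs_sub w R P) hR
  have hLam : Lam (vq (Qs w R P)) R ∅ = 1 := by
    unfold Lam
    have : (∑ a ∈ univ.filter (fun a : Finset {p // p ∈ Qs w R P} => nm (vq (Qs w R P)) a ≤ R),
        ∏ p ∈ a, if p ∈ (∅ : Finset {p // p ∈ Qs w R P}) then (-1 : ℝ) else xw (vq (Qs w R P)) p) =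
        VV (vq (Qs w R P)) R := by
      unfold VV
      exact Finset.sum_congr rfl fun a _ => Finset.prod_congr rfl fun p _ => by simp
    rw [this, div_self hV.ne']
  unfold nuP nuq
  rw [hxi, hLam]
  simp

end Pool.CM
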