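import Pool.Agent.Lib.MP_c77da8_nt.CM.Defs
import Pool.Agent.Lib.MP_dd84fd_nt.Cheb

/-!
# CM-NumM: many small coordinates with a small product

PROOF.  `z = ⌊log p / (6 (D + 1))⌋ ≤ w` (`log p ≤ w`), `S = {q ∈ P : q ≤ z}`.  `∏_(q ∈ S) q ≤ primorial z ≤ 4^z` (`primorial_le_four_pow`), so
`(∏_(q ∈ S) q)^(4 D) ≤ 4^(4 D z) ≤ exp(1.39 · 4 D log p/(6 (D+1))) < p` (`log 4 < 1.3863`; `4 · 1.3863/6 < 1`, and `p ≥ 2`).  `S` contains the primes `≤ z` but for at
most one (`e`), so `|S| ≥ π(z) - 1 ≥ z/(4 log z) - 1` (`Pool.MP_dd84fd_nt.card_P4`-type bound, see `card_le` in `CL/ParL.lean`; `P4 z` = primes in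
`(z/4, z]`) `≥ √(log p)` for `log p` large (`z ≥ log p/(6(D+1)) - 1`; i.e. for `p > w ≥ w0`).  `|S| ≤ z ≤ log p`.
-/

set_option autoImplicit false

namespace Pool.CM

open Finset Pool.CG Pool.CL

private theorem ev_bound (D : ℕ) : ∀ᶠ L : ℝ in Filter.atTop,
    4 * ((Real.sqrt L + 1) * Real.log L) ≤ L / (6 * ((D : ℝ) + 1)) - 1 := by
  have h1 : (fun x : ℝ => Real.log x) =o[Filter.atTop] (fun x : ℝ => x ^ (1 / 2 : ℝ)) :=
    isLittleO_log_rpow_atTop (by norm_num)
  have h3 : (fun x : ℝ => 4 * (√x + 1)) =O[Filter.atTop] (fun x : ℝ => x ^ (1 / 2 : ℝ)) := by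
    refine Asymptotics.IsBigO.const_mul_left ?_ 4
    refine Asymptotics.IsBigO.of_bound 2 ?_
    filter_upwards [Filter.eventually_ge_atTop 1] with x hx
    have hs : 1 ≤ √x := by rw [Real.one_le_sqrt]; exact hx
    rw [← Real.sqrt_eq_rpow, Real.norm_of_nonneg (by positivity), Real.norm_of_nonneg (by positivity)]
    linarith
  have h2 : (fun x : ℝ => 4 * ((√x + 1) * Real.log x)) =o[Filter.atTop] (fun x : ℝ => x) := by
    have h4 := h3.mul_isLittleO h1
    refine h4.congr' (Filter.Eventually.of_forall (fun x => by ring)) ?_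
    filter_upwards [Filter.eventually_gt_atTop 0] with x hx
    rw [← Real.rpow_add hx]; norm_num
  have hD : (0 : ℝ) < 6 * ((D : ℝ) + 1) := by positivity
  have hb := h2.bound (c := 1 / (2 * (6 * ((D : ℝ) + 1)))) (by positivity)
  filter_upwards [hb, Filter.eventually_ge_atTop (2 * (6 * ((D : ℝ) + 1))), Filter.eventually_ge_atTop 0]
    with x hx hx1 hx0
  rw [Real.norm_of_nonneg hx0] at hx
  have h6 := (le_abs_self _).trans hx
  have h7 : 1 ≤ 1 / (2 * (6 * ((D : ℝ) + 1))) * x := by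
    rw [div_mul_eq_mul_div, le_div_iff₀ (by positivity)]; linarith
  have h8 : x / (6 * ((D : ℝ) + 1)) = 2 * (1 / (2 * (6 * ((D : ℝ) + 1))) * x) := by
    field_simp
  have h9 : 4 * ((√x + 1) * Real.log x) ≤ 1 / (2 * (6 * ((D : ℝ) + 1))) * x := h6
  linarith

theorem num_coord (D : ℕ) : ∃ w0 : ℕ, ∀ w ≥ w0, ∀ (P : Finset ℕ), (∀ p ∈ P, p.Prime) →
    (∃ e : ℕ, ∀ p : ℕ, p.Prime → p ≤ w → p ≠ e → p ∈ P) → ∀ p : ℕ, w < p → Real.log p ≤ w →
    ∃ S : Finset (Cd P), (∀ q ∈ S, q.1 ≤ w) ∧ (∏ q ∈ S, q.1) ^ (4 * D) < p ∧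
      Real.sqrt (Real.log p) ≤ S.card ∧ (S.card : ℝ) ≤ Real.log p := by
  have hD : (0 : ℝ) < 6 * ((D : ℝ) + 1) := by positivity
  have hz : Filter.Tendsto (fun L : ℝ => ⌊L / (6 * ((D : ℝ) + 1))⌋₊) Filter.atTop Filter.atTop :=
    tendsto_nat_floor_atTop.comp (Filter.tendsto_id.atTop_div_const hD)
  have hev := hz.eventually Pool.Agent.Lib.MP_dd84fd_nt.Cheb.card_P4
  have hev2 := hz.eventually (Filter.eventually_ge_atTop 2)
  obtain ⟨L0, hL0⟩ := Filter.eventually_atTop.1 ((ev_bound D).and (hev.and (hev2.and (Filter.eventually_ge_atTop (1 : ℝ)))))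
  refine ⟨⌈Real.exp L0⌉₊ + 2, ?_⟩
  rintro w hw P hP ⟨e, he⟩ p hwp hlog
  have hp2 : 2 ≤ p := by omega
  have hp0 : (0 : ℝ) < p := by exact_mod_cast (by omega : 0 < p)
  have hL : L0 ≤ Real.log p := by
    rw [Real.le_log_iff_exp_le hp0]
    have h1 := Nat.le_ceil (Real.exp L0)
    have h2 : ((⌈Real.exp L0⌉₊ : ℕ) : ℝ) ≤ p := by exact_mod_cast (by omega : ⌈Real.exp L0⌉₊ ≤ p)
    linarith
  obtain ⟨hb, hcard, hz2, hL1⟩ := hL0 _ hL
  set L := Real.log p with hLdef
  set z := ⌊L / (6 * ((D : ℝ) + 1))⌋₊ with hzdef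
  have hLpos : 0 < L := by linarith
  have hzle : (z : ℝ) ≤ L / (6 * ((D : ℝ) + 1)) := Nat.floor_le (by positivity)
  have hzge : L / (6 * ((D : ℝ) + 1)) - 1 ≤ z := by
    have := Nat.sub_one_lt_floor (L / (6 * ((D : ℝ) + 1)))
    linarith
  have hzL : (z : ℝ) ≤ L := by
    refine hzle.trans ?_
    rw [div_le_iff₀ hD]
    nlinarith [(Nat.cast_nonneg D : (0 : ℝ) ≤ D)]
  have hzw : z ≤ w := by
    have : (z : ℝ) ≤ w := hzL.trans hlog
    exact_mod_cast this
  let S : Finset (Cd P) := univ.filter fun q => q.1 ≤ z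
  have himg : S.image (fun q => q.1) = P.filter (fun q => q ≤ z) := by
    ext q
    simp only [S, mem_image, mem_filter, mem_univ, true_and]
    constructor
    · rintro ⟨a, ha, rfl⟩; exact ⟨a.2, ha⟩
    · rintro ⟨h1, h2⟩; exact ⟨⟨q, h1⟩, h2, rfl⟩
  have hinj : Set.InjOn (fun q : Cd P => q.1) S := fun a _ b _ h => Subtype.ext h
  have hScard : S.card = (P.filter (fun q => q ≤ z)).card := by
    rw [← himg, card_image_of_injOn hinj]
  have hsub : P.filter (fun q => q ≤ z) ⊆ (range (z + 1)).filter Nat.Prime := by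
    intro q hq
    simp only [mem_filter, mem_range] at hq ⊢
    exact ⟨by omega, hP q hq.1⟩
  have hprod : ∏ q ∈ S, q.1 ≤ 4 ^ z := by
    have h1 : ∏ q ∈ S, q.1 = ∏ q ∈ P.filter (fun q => q ≤ z), q := by
      rw [← himg, prod_image hinj]
    rw [h1]
    calc ∏ q ∈ P.filter (fun q => q ≤ z), q ≤ ∏ q ∈ (range (z + 1)).filter Nat.Prime, q := by
          refine prod_le_prod_of_subset_of_one_le' hsub (fun q hq _ => ?_)
          simp only [mem_filter] at hq
          exact hq.2.one_lt.le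
      _ = primorial z := rfl
      _ ≤ 4 ^ z := primorial_le_four_pow z
  refine ⟨S, ?_, ?_, ?_, ?_⟩
  · intro q hq
    simp only [S, mem_filter, mem_univ, true_and] at hq
    omega
  · have h1 : (∏ q ∈ S, q.1) ^ (4 * D) ≤ (4 ^ z) ^ (4 * D) := Nat.pow_le_pow_left hprod _
    refine lt_of_le_of_lt h1 ?_
    rw [← pow_mul]
    have h2 : ((4 : ℝ)) ^ (z * (4 * D)) < p := by
      have h3 : (4 : ℝ) ^ (z * (4 * D)) = Real.exp ((z * (4 * D) : ℕ) * Real.log 4) := by
        rw [Real.exp_nat_mul, Real.exp_log (by norm_num)]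
      rw [h3, ← Real.exp_log hp0, Real.exp_lt_exp]
      have h4 : Real.log 4 = 2 * Real.log 2 := by
        rw [show (4 : ℝ) = 2 ^ 2 by norm_num, Real.log_pow]; norm_num
      have h5 := Real.log_two_lt_d9
      have h5' := Real.log_two_gt_d9
      push_cast
      rw [h4]
      have h6 : (z : ℝ) * (6 * ((D : ℝ) + 1)) ≤ L := by
        rwa [le_div_iff₀ hD] at hzle
      have hzn : (0 : ℝ) ≤ z := Nat.cast_nonneg _
      have hDn : (0 : ℝ) ≤ D := Nat.cast_nonneg _
      have h7 : (z : ℝ) * (4 * D) * (2 * Real.log 2) ≤ (z * (4 * D)) * 1.4 := by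
        refine mul_le_mul_of_nonneg_left (by linarith) (by positivity)
      have h8 : 0 ≤ (z : ℝ) * D := by positivity
      show (z : ℝ) * (4 * D) * (2 * Real.log 2) < L
      have hz2' : (2 : ℝ) ≤ z := by exact_mod_cast hz2
      nlinarith
    exact_mod_cast h2
  · -- lower bound
    have h1 : (Pool.Agent.Lib.MP_dd84fd_nt.Cheb.P4 z).card ≤ S.card + 1 := by
      rw [hScard]
      have h2 : Pool.Agent.Lib.MP_dd84fd_nt.Cheb.P4 z ⊆ insert e (P.filter (fun q => q ≤ z)) := by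
        intro q hq
        simp only [Pool.Agent.Lib.MP_dd84fd_nt.Cheb.P4, mem_filter, mem_Ioc] at hq
        simp only [mem_insert, mem_filter]
        by_cases hqe : q = e
        · left; exact hqe
        · right; exact ⟨he q hq.2 (by omega) hqe, hq.1.2⟩
      exact (card_le_card h2).trans (card_insert_le _ _)
    have h1' : ((Pool.Agent.Lib.MP_dd84fd_nt.Cheb.P4 z).card : ℝ) ≤ S.card + 1 := by exact_mod_cast h1
    have hz2' : (2 : ℝ) ≤ z := by exact_mod_cast hz2
    have hlz : 0 < Real.log z := Real.log_pos (by linarith)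
    have hlzL : Real.log z ≤ Real.log L := Real.log_le_log (by linarith) hzL
    have hs : 0 ≤ Real.sqrt L := Real.sqrt_nonneg _
    have h3 : (Real.sqrt L + 1) * Real.log z ≤ (S.card + 1) * Real.log z := by
      calc (Real.sqrt L + 1) * Real.log z ≤ (Real.sqrt L + 1) * Real.log L :=
            mul_le_mul_of_nonneg_left hlzL (by linarith)
        _ ≤ (z : ℝ) / 4 := by linarith
        _ ≤ _ := hcard
        _ ≤ _ := mul_le_mul_of_nonneg_right h1' hlz.le
    have h4 := le_of_mul_le_mul_right h3 hlz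
    linarith
  · refine le_trans ?_ hzL
    rw [hScard]
    have h1 : (P.filter (fun q => q ≤ z)).card ≤ (Icc 1 z).card := by
      refine card_le_card (fun q hq => ?_)
      have h2 := hsub hq
      simp only [mem_filter, mem_range, mem_Icc] at h2 ⊢
      exact ⟨h2.2.one_lt.le, by omega⟩
    rw [Nat.card_Icc] at h1
    exact_mod_cast (by omega : (P.filter (fun q => q ≤ z)).card ≤ z)

end Pool.CM
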