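import Pool.Agent.Lib.MP_c77da8_nt.CM.PairA

/-!
# CM-PairB: two random multipliers rarely coincide

Notation: `z = ptM w φ o ω`, `z' = ptM w φ' o' ω`, `A = mP z`, `A' = mP z'`, `ω = (y, λ)`.
PROOF.  For fixed `y` use `count_pi` with `S = {q : q ≤ w}` (its cardinality is that of `P.filter (· ≤ w)`), `d = φ - φ'`, `Φ λ = (A = A')`: if `A = A'` then
`(z q).val = (z' q).val` for all `q` (unique factorisation: the `q : Cd P` are distinct primes), so `z q = z' q`, i.e.
`o q + kap φ(λ q) ≡ o' q + kap φ'(λ q) (mod M)`; both sides differ by less than `M` in absolute value (`2 (D + V) < M` from `hM`: `4 (D+V) ≤ (4 (D+V))² ≤ M` if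
`D + V ≥ 1`; `M > 0`), so they are equal integers, and for `q ≤ w` (`kap = 1`) `(φ - φ') (λ q) = o' q - o q` is determined.  Sum over `y`
(e.g. `Finset.card_eq_sum_card_fiberwise` or `Finset.card_sigma`, `Fintype.card_prod`).
-/

set_option autoImplicit false

namespace Pool.CM

open Finset Pool.CG Pool.CL

private theorem PairB_fac {P : Finset ℕ} (hP : ∀ p ∈ P, p.Prime) {M : ℕ} (z : GP P M) (q : Cd P) :
    (mP P M z).factorization q.1 = (z q).val := by
  unfold mP
  rw [Nat.factorization_prod fun p _ => pow_ne_zero _ (hP p.1 p.2).ne_zero, Finsupp.finsetSum_apply,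
    Finset.sum_eq_single q]
  · rw [(hP q.1 q.2).factorization_pow, Finsupp.single_eq_same]
  · intro p _ hpq
    rw [(hP p.1 p.2).factorization_pow, Finsupp.single_eq_of_ne]
    intro h
    exact hpq (Subtype.ext h.symm)
  · intro h
    exact absurd (Finset.mem_univ q) h

private theorem PairB_key {w M D V : ℕ} [NeZero M] {P : Finset ℕ} (hP : ∀ p ∈ P, p.Prime)
    (hM : (4 * (D + V)) ^ 2 ≤ M) {Λ : Type} {φ φ' : Λ → ℤ} (hφ : ∀ a, |φ a| ≤ (D : ℤ))
    (hφ' : ∀ a, |φ' a| ≤ (D : ℤ)) {o o' : Cd P → ℤ} (ho : ∀ q, |o q| ≤ (V : ℤ))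
    (ho' : ∀ q, |o' q| ≤ (V : ℤ)) (y : GP P M) (x : Cd P → Λ)
    (h : mP P M (ptM w φ o (y, x)) = mP P M (ptM w φ' o' (y, x))) (q : Cd P) (hq : q.1 ≤ w) :
    φ (x q) - φ' (x q) = o' q - o q := by
  have h1 : (ptM w φ o (y, x) q).val = (ptM w φ' o' (y, x) q).val := by
    rw [← PairB_fac hP, ← PairB_fac hP, h]
  have h2 := ZMod.val_injective M h1
  unfold ptM at h2
  have h3 : ((o q + kap w q * φ (x q) : ℤ) : ZMod M) = ((o' q + kap w q * φ' (x q) : ℤ) : ZMod M) :=
    add_left_cancel h2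
  have hk : kap w q = 1 := by
    unfold kap
    rw [if_pos hq]
  rw [hk, one_mul, one_mul] at h3
  have h4 := (ZMod.intCast_eq_intCast_iff_dvd_sub _ _ M).1 h3
  have hlt : 2 * ((D : ℤ) + V) < (M : ℤ) := by
    have hM0 : 0 < M := Nat.pos_of_ne_zero (NeZero.ne M)
    rcases Nat.eq_zero_or_pos (D + V) with h0 | h0
    · have : ((D : ℤ) + V) = 0 := by exact_mod_cast h0
      rw [this]
      simpa using hM0
    · have h5 : 2 * (D + V) < M := by nlinarith
      exact_mod_cast h5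
  have h6 : o' q + φ' (x q) - (o q + φ (x q)) = 0 := by
    refine Int.eq_zero_of_abs_lt_dvd h4 ?_
    have a1 := abs_le.1 (hφ (x q))
    have a2 := abs_le.1 (hφ' (x q))
    have a3 := abs_le.1 (ho q)
    have a4 := abs_le.1 (ho' q)
    rw [abs_lt]
    constructor <;> linarith
  linarith

theorem pair_eqM (w M D V : ℕ) [NeZero M] (P : Finset ℕ) (hP : ∀ p ∈ P, p.Prime) (hM : (4 * (D + V)) ^ 2 ≤ M)
    (Λ : Type) [Fintype Λ] [Nonempty Λ] (φ φ' : Λ → ℤ) (hφ : ∀ a, |φ a| ≤ (D : ℤ)) (hφ' : ∀ a, |φ' a| ≤ (D : ℤ))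
    (o o' : Cd P → ℤ) (ho : ∀ q, |o q| ≤ (V : ℤ)) (ho' : ∀ q, |o' q| ≤ (V : ℤ)) (ρ : ℝ) (hρ : 0 ≤ ρ)
    (hd : ∀ v : ℤ, ((univ.filter fun a : Λ => φ a - φ' a = v).card : ℝ) ≤ ρ * Fintype.card Λ) :
    ((univ.filter fun ω : OmM P M Λ => mP P M (ptM w φ o ω) = mP P M (ptM w φ' o' ω)).card : ℝ) ≤
      ρ ^ (P.filter (fun p => p ≤ w)).card * Fintype.card (OmM P M Λ) := by
  classical
  set S : Finset (Cd P) := univ.filter fun q => q.1 ≤ w with hS
  have hcard : S.card = (P.filter (fun p => p ≤ w)).card := by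
    have e : P.filter (fun p => p ≤ w) = S.map (Function.Embedding.subtype _) := by
      ext p
      simp [hS, and_comm]
    rw [e, Finset.card_map]
  have hy : ∀ y : GP P M, ((univ.filter fun x : Cd P → Λ =>
      mP P M (ptM w φ o (y, x)) = mP P M (ptM w φ' o' (y, x))).card : ℝ) ≤
        ρ ^ (P.filter (fun p => p ≤ w)).card * Fintype.card (Cd P → Λ) := by
    intro y
    rw [← hcard]
    refine count_pi S _ (fun a => φ a - φ' a) ρ hρ hd ?_
    intro x x' _ hx hx' q hq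
    have hqw : q.1 ≤ w := (mem_filter.1 hq).2
    have e1 := PairB_key hP hM hφ hφ' ho ho' y x hx q hqw
    have e2 := PairB_key hP hM hφ hφ' ho ho' y x' hx' q hqw
    show φ (x q) - φ' (x q) = φ (x' q) - φ' (x' q)
    rw [e1, e2]
  have hsum : ((univ.filter fun ω : OmM P M Λ =>
      mP P M (ptM w φ o ω) = mP P M (ptM w φ' o' ω)).card : ℝ) =
        ∑ y : GP P M, ((univ.filter fun x : Cd P → Λ =>
          mP P M (ptM w φ o (y, x)) = mP P M (ptM w φ' o' (y, x))).card : ℝ) := by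
    simp only [Finset.card_filter]
    push_cast
    rw [Fintype.sum_prod_type]
  rw [hsum]
  refine le_trans (Finset.sum_le_sum fun y _ => hy y) ?_
  rw [Finset.sum_const, nsmul_eq_mul, Finset.card_univ, Fintype.card_prod]
  push_cast
  apply le_of_eq
  ring

end Pool.CM
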