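import Pool.Agent.Lib.MP_c77da8_nt.CM.Defs

/-!
# CM-PairC: unique factorisation modulo a large prime

PROOF.  Separate the positive and the negative exponents: `a = ∏_(q ∈ S) q^(δ_q⁺)`, `b = ∏_(q ∈ S) q^(δ_q⁻)`, `δ_q = (α q - β q : ℤ)` (natural subtraction:
`δ⁺ = α q - β q`, `δ⁻ = β q - α q`); both are at most `(∏_(q ∈ S) q)^K < p` and `≥ 1`, and `a ≡ b (mod p)`, so `a = b`; by unique factorisation
(`Nat.factorization` / padicValNat at each `q ∈ S`) `δ_q⁺ = δ_q⁻`, so `δ_q = 0`.  For `a ≡ b`: from `∏ q^(α q) ≡ ∏ q^(β q)` cancel the common factor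
`∏ q^(min (α q) (β q))`, which is coprime to `p` (`Nat.ModEq.cancel_left_of_coprime`; `p ∉ S` and all `q ∈ S` are primes).
-/

set_option autoImplicit false

namespace Pool.CM

open Finset Pool.CG Pool.CL

/-- `α q, β q` the exponents on the two sides -/
theorem prod_uniq (p K : ℕ) (hp : p.Prime) (S : Finset ℕ) (hS : ∀ q ∈ S, q.Prime) (hpS : p ∉ S)
    (hlt : (∏ q ∈ S, q) ^ K < p) (α β : ℕ → ℕ) (h1 : ∀ q ∈ S, α q ≤ β q + K) (h2 : ∀ q ∈ S, β q ≤ α q + K)
    (h : ∏ q ∈ S, q ^ α q ≡ ∏ q ∈ S, q ^ β q [MOD p]) : ∀ q ∈ S, α q = β q := by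
  have hq2 : ∀ q ∈ S, 2 ≤ q := fun q hq => (hS q hq).two_le
  obtain ⟨a, ha⟩ : ∃ a : ℕ, a = ∏ q ∈ S, q ^ (α q - β q) := ⟨_, rfl⟩
  obtain ⟨b, hb⟩ : ∃ b : ℕ, b = ∏ q ∈ S, q ^ (β q - α q) := ⟨_, rfl⟩
  obtain ⟨c, hc⟩ : ∃ c : ℕ, c = ∏ q ∈ S, q ^ (min (α q) (β q)) := ⟨_, rfl⟩
  have hca : ∏ q ∈ S, q ^ α q = c * a := by
    rw [hc, ha, ← Finset.prod_mul_distrib]
    refine Finset.prod_congr rfl fun q _ => ?_
    rw [← pow_add]
    congr 1
    omega
  have hcb : ∏ q ∈ S, q ^ β q = c * b := by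
    rw [hc, hb, ← Finset.prod_mul_distrib]
    refine Finset.prod_congr rfl fun q _ => ?_
    rw [← pow_add]
    congr 1
    omega
  have hcop : Nat.gcd p c = 1 := by
    rw [hc]
    refine Nat.Coprime.prod_right fun q hq => Nat.Coprime.pow_right _ ?_
    rw [Nat.coprime_primes hp (hS q hq)]
    rintro rfl
    exact hpS hq
  rw [hca, hcb] at h
  have hab : a ≡ b [MOD p] := Nat.ModEq.cancel_left_of_coprime hcop h
  have hle : ∀ γ : ℕ → ℕ, (∀ q ∈ S, γ q ≤ K) → ∏ q ∈ S, q ^ γ q < p := by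
    intro γ hγ
    refine lt_of_le_of_lt ?_ hlt
    rw [← Finset.prod_pow]
    exact Finset.prod_le_prod' fun q hq => Nat.pow_le_pow_right (by have := hq2 q hq; omega) (hγ q hq)
  have ha1 : a < p := by
    rw [ha]
    exact hle _ fun q hq => by have := h1 q hq; omega
  have hb1 : b < p := by
    rw [hb]
    exact hle _ fun q hq => by have := h2 q hq; omega
  have hab' : a = b := Nat.ModEq.eq_of_lt_of_lt hab ha1 hb1
  have hcab : Nat.Coprime a b := by
    rw [ha, hb]
    refine Nat.Coprime.prod_left fun q hq => Nat.Coprime.prod_right fun r hr => ?_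
    by_cases hqr : q = r
    · subst hqr
      rcases Nat.le_total (α q) (β q) with h' | h'
      · have e : α q - β q = 0 := by omega
        rw [e, pow_zero]
        exact Nat.coprime_one_left _
      · have e : β q - α q = 0 := by omega
        rw [e, pow_zero]
        exact Nat.coprime_one_right _
    · exact Nat.Coprime.pow _ _ ((Nat.coprime_primes (hS q hq) (hS r hr)).2 hqr)
  have ha2 : a = 1 := by
    rw [← hab'] at hcab
    exact (Nat.coprime_self a).1 hcab
  have hb2 : b = 1 := by rw [← hab', ha2]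
  intro q hq
  have d1 : q ^ (α q - β q) ∣ a := by
    rw [ha]
    exact Finset.dvd_prod_of_mem (fun q => q ^ (α q - β q)) hq
  have d2 : q ^ (β q - α q) ∣ b := by
    rw [hb]
    exact Finset.dvd_prod_of_mem (fun q => q ^ (β q - α q)) hq
  rw [ha2, Nat.dvd_one] at d1
  rw [hb2, Nat.dvd_one] at d2
  have hq1 : q ≠ 1 := by have := hq2 q hq; omega
  have e1 : α q - β q = 0 := by
    by_contra h0
    exact hq1 ((Nat.pow_eq_one.1 d1).resolve_right h0)
  have e2 : β q - α q = 0 := by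
    by_contra h0
    exact hq1 ((Nat.pow_eq_one.1 d2).resolve_right h0)
  omega

end Pool.CM
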