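import Pool.Agent.Lib.MP_c77da8_nt.CM.PairA
import Pool.Agent.Lib.MP_c77da8_nt.CM.PairC

/-!
# CM-PairD: two random multipliers are rarely congruent modulo `p`

Notation: `z = ptM w φ o ω`, `z' = ptM w φ' o' ω`, `A = mP z`, `A' = mP z'`, `ω = (y, λ)`.
PROOF.  The number of `ω` such that for some `q ∈ S` `(y q).val < D + V` or `(y q).val + D + V ≥ M` is at most `|S| (2 (D + V)/M) · card Ω` (for each `q`,
at most `2 (D + V)` values of `y q`; e.g. as average with `av_update`, see `densL_out` and its use in `CL/DensL.lean`).  For the other `y` (fixed) use `count_pi` with this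
`S`, `d = φ - φ'`, `Φ λ = (A ≡ A' [MOD p])`: for `q ∈ S` `(z q).val = (y q).val + o q + φ(λ q)` as integers (no wrap), and the same for `z'`.  If `λ, λ₁` agree
outside `S` and both satisfy `Φ`, with `A, A'` and `A₁, A₁'`: `A A₁' ≡ A' A₁ (mod p)`; the coordinates outside `S` give the same factors on both sides
(`z q = z₁ q`, `z' q = z₁' q`), they are coprime to `p`; so `∏_(q ∈ S) q^(α q) ≡ ∏_(q ∈ S) q^(β q)`, `α q = (z q).val + (z₁' q).val`,
`β q = (z' q).val + (z₁ q).val`, and `α q - β q = (φ - φ')(λ q) - (φ - φ')(λ₁ q)`, `|..| ≤ 4 D`: `prod_uniq` (`K = 4 D`, image of `S` in `ℕ`) gives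
`d (λ q) = d (λ₁ q)`.
-/

set_option autoImplicit false

namespace Pool.CM

open Finset Pool.CG Pool.CL

/-- the residues near `0` or `M` -/
private theorem pd_near (M W : ℕ) [NeZero M] :
    (univ.filter fun a : ZMod M => a.val < W ∨ M ≤ a.val + W).card ≤ 2 * W := by
  classical
  have h1 : ((univ.filter fun a : ZMod M => a.val < W ∨ M ≤ a.val + W).image ZMod.val) ⊆
      Finset.range W ∪ Finset.Ico (M - W) M := by
    intro n hn
    obtain ⟨a, ha, rfl⟩ := Finset.mem_image.1 hn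
    have hlt := ZMod.val_lt a
    rw [Finset.mem_union, Finset.mem_range, Finset.mem_Ico]
    rcases (Finset.mem_filter.1 ha).2 with h | h
    · exact Or.inl h
    · exact Or.inr ⟨by omega, hlt⟩
  have h2 := Finset.card_le_card h1
  rw [Finset.card_image_of_injective _ (ZMod.val_injective M)] at h2
  refine h2.trans ((Finset.card_union_le _ _).trans ?_)
  rw [Finset.card_range, Nat.card_Ico]
  omega

/-- the base points which are near `0` or `M` at the coordinate `q` -/
private theorem pd_one (P : Finset ℕ) (M W : ℕ) [NeZero M] (q : Cd P) :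
    ((univ.filter fun y : GP P M => (y q).val < W ∨ M ≤ (y q).val + W).card : ℝ) ≤
      2 * W / M * Fintype.card (GP P M) := by
  classical
  obtain ⟨T, hT⟩ : ∃ T : Finset (ZMod M), T = univ.filter fun a : ZMod M => a.val < W ∨ M ≤ a.val + W :=
    ⟨_, rfl⟩
  have hTc : T.card ≤ 2 * W := by
    rw [hT]
    exact pd_near M W
  have h1 : (univ.filter fun y : GP P M => (y q).val < W ∨ M ≤ (y q).val + W) ⊆
      Fintype.piFinset (fun q' => if q' = q then T else univ) := by
    intro y hy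
    rw [Fintype.mem_piFinset]
    intro q'
    by_cases hq : q' = q
    · rw [if_pos hq, hT, Finset.mem_filter, hq]
      exact ⟨Finset.mem_univ _, (Finset.mem_filter.1 hy).2⟩
    · rw [if_neg hq]
      exact Finset.mem_univ _
  have h2 := Finset.card_le_card h1
  rw [Fintype.card_piFinset] at h2
  have h3 : ∏ q' : Cd P, (if q' = q then T else (univ : Finset (ZMod M))).card =
      T.card * ∏ q' ∈ univ.erase q, M := by
    rw [← Finset.mul_prod_erase univ _ (Finset.mem_univ q), if_pos rfl]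
    congr 1
    refine Finset.prod_congr rfl fun q' hq' => ?_
    rw [if_neg (Finset.ne_of_mem_erase hq'), Finset.card_univ, ZMod.card]
  have h4 : (Fintype.card (GP P M) : ℝ) = M * ∏ q' ∈ univ.erase q, (M : ℝ) := by
    have h5 : Fintype.card (GP P M) = M * ∏ q' ∈ (univ : Finset (Cd P)).erase q, M := by
      rw [Fintype.card_pi, ← Finset.mul_prod_erase univ _ (Finset.mem_univ q)]
      simp only [ZMod.card]
    rw [h5]
    push_cast
    rfl
  have hM0 : (0 : ℝ) < M := by exact_mod_cast Nat.pos_of_ne_zero (NeZero.ne M)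
  rw [h3] at h2
  have h6 : ((univ.filter fun y : GP P M => (y q).val < W ∨ M ≤ (y q).val + W).card : ℝ) ≤
      T.card * ∏ q' ∈ (univ : Finset (Cd P)).erase q, (M : ℝ) := by exact_mod_cast h2
  refine h6.trans ?_
  rw [h4]
  have h7 : 2 * (W : ℝ) / M * (M * ∏ q' ∈ (univ : Finset (Cd P)).erase q, (M : ℝ)) =
      2 * W * ∏ q' ∈ (univ : Finset (Cd P)).erase q, (M : ℝ) := by
    field_simp
  rw [h7]
  have h8 : (T.card : ℝ) ≤ 2 * W := by exact_mod_cast hTc
  exact mul_le_mul_of_nonneg_right h8 (Finset.prod_nonneg fun _ _ => hM0.le)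

/-- no wrap at the coordinates `q ≤ w` -/
private theorem pd_val (w M D V : ℕ) [NeZero M] (P : Finset ℕ) (Λ : Type)
    (φ : Λ → ℤ) (hφ : ∀ a, |φ a| ≤ (D : ℤ)) (o : Cd P → ℤ) (ho : ∀ q, |o q| ≤ (V : ℤ)) (q : Cd P)
    (hq : q.1 ≤ w) (y : GP P M) (hy1 : D + V ≤ (y q).val) (hy2 : (y q).val + (D + V) < M)
    (x : Cd P → Λ) : (((ptM w φ o (y, x) q).val : ℕ) : ℤ) = ((y q).val : ℤ) + (o q + φ (x q)) := by
  have h1 := abs_le.1 (hφ (x q))
  have h2 := abs_le.1 (ho q)
  obtain ⟨n, hn⟩ : ∃ n : ℕ, ((y q).val : ℤ) + (o q + φ (x q)) = n :=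
    ⟨(((y q).val : ℤ) + (o q + φ (x q))).toNat, by rw [Int.toNat_of_nonneg (by omega)]⟩
  have h3 : ptM w φ o (y, x) q = ((n : ℕ) : ZMod M) := by
    unfold ptM kap
    rw [if_pos hq, one_mul]
    have h4 : ((((y q).val : ℤ) + (o q + φ (x q)) : ℤ) : ZMod M) = ((n : ℤ) : ZMod M) := by rw [hn]
    have h5 : (((y q).val : ℤ) : ZMod M) = y q := by
      rw [Int.cast_natCast, ZMod.natCast_val, ZMod.cast_id']
      rfl
    rw [Int.cast_add, h5, Int.cast_natCast] at h4
    exact h4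
  rw [hn, h3, ZMod.val_cast_of_lt (by omega)]

theorem pair_modM (w M D V : ℕ) [NeZero M] (P : Finset ℕ) (hP : ∀ p ∈ P, p.Prime) (hM : (4 * (D + V)) ^ 2 ≤ M)
    (Λ : Type) [Fintype Λ] [Nonempty Λ] (φ φ' : Λ → ℤ) (hφ : ∀ a, |φ a| ≤ (D : ℤ)) (hφ' : ∀ a, |φ' a| ≤ (D : ℤ))
    (o o' : Cd P → ℤ) (ho : ∀ q, |o q| ≤ (V : ℤ)) (ho' : ∀ q, |o' q| ≤ (V : ℤ)) (ρ : ℝ) (hρ : 0 ≤ ρ)
    (hd : ∀ v : ℤ, ((univ.filter fun a : Λ => φ a - φ' a = v).card : ℝ) ≤ ρ * Fintype.card Λ)
    (p : ℕ) (S : Finset (Cd P)) (hp : p.Prime) (hpP : p ∉ P) (hS : ∀ q ∈ S, q.1 ≤ w) (hlt : (∏ q ∈ S, q.1) ^ (4 * D) < p) :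
    ((univ.filter fun ω : OmM P M Λ => mP P M (ptM w φ o ω) ≡ mP P M (ptM w φ' o' ω) [MOD p]).card : ℝ) ≤
      (ρ ^ S.card + S.card * (2 * (D + V) / M)) * Fintype.card (OmM P M Λ) := by
  classical
  obtain ⟨Φ, hΦ⟩ : ∃ Φ : GP P M → (Cd P → Λ) → Prop, Φ = fun y x =>
      mP P M (ptM w φ o (y, x)) ≡ mP P M (ptM w φ' o' (y, x)) [MOD p] := ⟨_, rfl⟩
  obtain ⟨B, hB⟩ : ∃ B : Finset (GP P M), B = univ.filter fun y =>
      ∃ q ∈ S, (y q).val < D + V ∨ M ≤ (y q).val + (D + V) := ⟨_, rfl⟩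
  -- the good base points
  have hgood : ∀ y ∉ B, ((univ.filter fun x => Φ y x).card : ℝ) ≤
      ρ ^ S.card * Fintype.card (Cd P → Λ) := by
    intro y hy
    have hy' : ∀ q ∈ S, D + V ≤ (y q).val ∧ (y q).val + (D + V) < M := by
      intro q hq
      rw [hB, Finset.mem_filter] at hy
      push Not at hy
      have := hy (Finset.mem_univ _) q hq
      exact this
    refine count_pi S (Φ y) (fun a => φ a - φ' a) ρ hρ hd ?_
    intro x x1 hxx hx hx1
    rw [hΦ] at hx hx1
    obtain ⟨z, hz⟩ : ∃ z, z = ptM w φ o (y, x) := ⟨_, rfl⟩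
    obtain ⟨z', hz'⟩ : ∃ z', z' = ptM w φ' o' (y, x) := ⟨_, rfl⟩
    obtain ⟨u, hu⟩ : ∃ u, u = ptM w φ o (y, x1) := ⟨_, rfl⟩
    obtain ⟨u', hu'⟩ : ∃ u', u' = ptM w φ' o' (y, x1) := ⟨_, rfl⟩
    have hx' : mP P M z ≡ mP P M z' [MOD p] := by
      rw [hz, hz']
      exact hx
    have hx1' : mP P M u ≡ mP P M u' [MOD p] := by
      rw [hu, hu']
      exact hx1
    have hout : ∀ q ∉ S, z q = u q ∧ z' q = u' q := by
      intro q hq
      rw [hz, hz', hu, hu']
      unfold ptM
      simp only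
      rw [hxx q hq]
      exact ⟨rfl, rfl⟩
    have hin : ∀ q ∈ S, (((z q).val : ℕ) : ℤ) = ((y q).val : ℤ) + (o q + φ (x q)) ∧
        (((z' q).val : ℕ) : ℤ) = ((y q).val : ℤ) + (o' q + φ' (x q)) ∧
        (((u q).val : ℕ) : ℤ) = ((y q).val : ℤ) + (o q + φ (x1 q)) ∧
        (((u' q).val : ℕ) : ℤ) = ((y q).val : ℤ) + (o' q + φ' (x1 q)) := by
      intro q hq
      obtain ⟨g1, g2⟩ := hy' q hq
      rw [hz, hz', hu, hu']
      exact ⟨pd_val w M D V P Λ φ hφ o ho q (hS q hq) y g1 g2 x,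
        pd_val w M D V P Λ φ' hφ' o' ho' q (hS q hq) y g1 g2 x,
        pd_val w M D V P Λ φ hφ o ho q (hS q hq) y g1 g2 x1,
        pd_val w M D V P Λ φ' hφ' o' ho' q (hS q hq) y g1 g2 x1⟩
    have hsplit : ∀ v : GP P M, mP P M v = (∏ q ∈ S, q.1 ^ (v q).val) * ∏ q ∈ Sᶜ, q.1 ^ (v q).val := by
      intro v
      unfold mP
      rw [Finset.prod_mul_prod_compl]
    obtain ⟨c, hc⟩ : ∃ c, c = ∏ q ∈ Sᶜ, q.1 ^ (z q).val := ⟨_, rfl⟩
    obtain ⟨c', hc'⟩ : ∃ c', c' = ∏ q ∈ Sᶜ, q.1 ^ (z' q).val := ⟨_, rfl⟩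
    have hcu : ∏ q ∈ Sᶜ, q.1 ^ (u q).val = c := by
      rw [hc]
      refine Finset.prod_congr rfl fun q hq => ?_
      rw [(hout q (Finset.mem_compl.1 hq)).1]
    have hcu' : ∏ q ∈ Sᶜ, q.1 ^ (u' q).val = c' := by
      rw [hc']
      refine Finset.prod_congr rfl fun q hq => ?_
      rw [(hout q (Finset.mem_compl.1 hq)).2]
    have hcop : ∀ (T : Finset (Cd P)) (v : GP P M), Nat.Coprime p (∏ q ∈ T, q.1 ^ (v q).val) := by
      intro T v
      refine Nat.Coprime.prod_right fun q _ => Nat.Coprime.pow_right _ ?_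
      rw [Nat.coprime_primes hp (hP q.1 q.2)]
      intro h
      exact hpP (h ▸ q.2)
    have hmul : (∏ q ∈ S, q.1 ^ (z q).val) * (∏ q ∈ S, q.1 ^ (u' q).val) ≡
        (∏ q ∈ S, q.1 ^ (z' q).val) * (∏ q ∈ S, q.1 ^ (u q).val) [MOD p] := by
      have h1 : mP P M z * mP P M u' ≡ mP P M z' * mP P M u [MOD p] := hx'.mul hx1'.symm
      rw [hsplit z, hsplit z', hsplit u, hsplit u', hcu, hcu', ← hc, ← hc'] at h1
      refine Nat.ModEq.cancel_left_of_coprime (c := c * c') ?_ ?_
      · have e1 : Nat.Coprime p c := by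
          rw [hc]
          exact hcop _ _
        have e2 : Nat.Coprime p c' := by
          rw [hc']
          exact hcop _ _
        exact Nat.Coprime.mul_right e1 e2
      · have e1 : c * c' * ((∏ q ∈ S, q.1 ^ (z q).val) * (∏ q ∈ S, q.1 ^ (u' q).val)) =
            (∏ q ∈ S, q.1 ^ (z q).val) * c * ((∏ q ∈ S, q.1 ^ (u' q).val) * c') := by ring
        have e2 : c * c' * ((∏ q ∈ S, q.1 ^ (z' q).val) * (∏ q ∈ S, q.1 ^ (u q).val)) =
            (∏ q ∈ S, q.1 ^ (z' q).val) * c' * ((∏ q ∈ S, q.1 ^ (u q).val) * c) := by ring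
        rw [e1, e2]
        exact h1
    -- the exponents
    obtain ⟨α, hα⟩ : ∃ α : ℕ → ℕ, α = fun n => if h : n ∈ P then (z ⟨n, h⟩).val + (u' ⟨n, h⟩).val else 0 :=
      ⟨_, rfl⟩
    obtain ⟨β, hβ⟩ : ∃ β : ℕ → ℕ, β = fun n => if h : n ∈ P then (z' ⟨n, h⟩).val + (u ⟨n, h⟩).val else 0 :=
      ⟨_, rfl⟩
    have hαq : ∀ q : Cd P, α q.1 = (z q).val + (u' q).val := by
      intro q
      rw [hα]
      simp only [dif_pos q.2]
    have hβq : ∀ q : Cd P, β q.1 = (z' q).val + (u q).val := by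
      intro q
      rw [hβ]
      simp only [dif_pos q.2]
    have hprod : ∀ F : ℕ → ℕ, ∏ n ∈ S.map (Function.Embedding.subtype _), F n = ∏ q ∈ S, F q.1 := by
      intro F
      rw [Finset.prod_map]
      rfl
    have huniq := prod_uniq p (4 * D) hp (S.map (Function.Embedding.subtype _))
      (by
        intro n hn
        obtain ⟨q, _, rfl⟩ := Finset.mem_map.1 hn
        exact hP q.1 q.2)
      (by
        intro hn
        obtain ⟨q, _, hq⟩ := Finset.mem_map.1 hn
        exact hpP (by rw [← hq]; exact q.2))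
      (by
        rw [hprod (fun n => n)]
        exact hlt) α β
      (by
        intro n hn
        obtain ⟨q, hq, rfl⟩ := Finset.mem_map.1 hn
        show α q.1 ≤ β q.1 + 4 * D
        rw [hαq, hβq]
        obtain ⟨f1, f2, f3, f4⟩ := hin q hq
        have a1 := abs_le.1 (hφ (x q))
        have a2 := abs_le.1 (hφ (x1 q))
        have a3 := abs_le.1 (hφ' (x q))
        have a4 := abs_le.1 (hφ' (x1 q))
        omega)
      (by
        intro n hn
        obtain ⟨q, hq, rfl⟩ := Finset.mem_map.1 hn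
        show β q.1 ≤ α q.1 + 4 * D
        rw [hαq, hβq]
        obtain ⟨f1, f2, f3, f4⟩ := hin q hq
        have a1 := abs_le.1 (hφ (x q))
        have a2 := abs_le.1 (hφ (x1 q))
        have a3 := abs_le.1 (hφ' (x q))
        have a4 := abs_le.1 (hφ' (x1 q))
        omega)
      (by
        rw [hprod (fun n => n ^ α n), hprod (fun n => n ^ β n)]
        have e1 : ∏ q ∈ S, q.1 ^ α q.1 =
            (∏ q ∈ S, q.1 ^ (z q).val) * (∏ q ∈ S, q.1 ^ (u' q).val) := by
          rw [← Finset.prod_mul_distrib]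
          refine Finset.prod_congr rfl fun q _ => ?_
          rw [hαq, pow_add]
        have e2 : ∏ q ∈ S, q.1 ^ β q.1 =
            (∏ q ∈ S, q.1 ^ (z' q).val) * (∏ q ∈ S, q.1 ^ (u q).val) := by
          rw [← Finset.prod_mul_distrib]
          refine Finset.prod_congr rfl fun q _ => ?_
          rw [hβq, pow_add]
        rw [e1, e2]
        exact hmul)
    intro q hq
    have h5 := huniq q.1 (Finset.mem_map.2 ⟨q, hq, rfl⟩)
    rw [hαq, hβq] at h5
    obtain ⟨f1, f2, f3, f4⟩ := hin q hq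
    show φ (x q) - φ' (x q) = φ (x1 q) - φ' (x1 q)
    omega
  -- the bad base points
  have hbad : (B.card : ℝ) ≤ S.card * (2 * (D + V) / M) * Fintype.card (GP P M) := by
    have h1 : B ⊆ S.biUnion fun q => univ.filter fun y : GP P M =>
        (y q).val < D + V ∨ M ≤ (y q).val + (D + V) := by
      intro y hy
      rw [hB] at hy
      obtain ⟨q, hq, h⟩ := (Finset.mem_filter.1 hy).2
      exact Finset.mem_biUnion.2 ⟨q, hq, Finset.mem_filter.2 ⟨Finset.mem_univ _, h⟩⟩
    have h2 : (B.card : ℝ) ≤ ∑ q ∈ S, ((univ.filter fun y : GP P M =>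
        (y q).val < D + V ∨ M ≤ (y q).val + (D + V)).card : ℝ) := by
      have := (Finset.card_le_card h1).trans Finset.card_biUnion_le
      exact_mod_cast this
    refine h2.trans ((Finset.sum_le_sum fun q _ => pd_one P M (D + V) q).trans (le_of_eq ?_))
    rw [Finset.sum_const, nsmul_eq_mul]
    push_cast
    ring
  -- the sum over the base points
  have hcount : ((univ.filter fun ω : OmM P M Λ =>
      mP P M (ptM w φ o ω) ≡ mP P M (ptM w φ' o' ω) [MOD p]).card : ℝ) =
      ∑ y : GP P M, ((univ.filter fun x => Φ y x).card : ℝ) := by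
    have h1 : (univ.filter fun ω : OmM P M Λ =>
        mP P M (ptM w φ o ω) ≡ mP P M (ptM w φ' o' ω) [MOD p]).card =
        ∑ y : GP P M, (univ.filter fun x => Φ y x).card := by
      rw [Finset.card_eq_sum_card_fiberwise (f := Prod.fst) (t := univ) (fun _ _ => Finset.mem_coe.2 (Finset.mem_univ _))]
      refine Finset.sum_congr rfl fun y _ => ?_
      refine Finset.card_bij' (fun ω _ => ω.2) (fun x _ => (y, x)) ?_ ?_ ?_ ?_
      · intro ω hω
        rw [Finset.mem_filter, Finset.mem_filter] at hω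
        rw [Finset.mem_filter, hΦ]
        refine ⟨Finset.mem_univ _, ?_⟩
        rw [← hω.2]
        exact hω.1.2
      · intro x hx
        rw [Finset.mem_filter, hΦ] at hx
        rw [Finset.mem_filter, Finset.mem_filter]
        exact ⟨⟨Finset.mem_univ _, hx.2⟩, rfl⟩
      · intro ω hω
        rw [Finset.mem_filter] at hω
        rw [← hω.2]
      · intro x _
        rfl
    rw [h1]
    push_cast
    rfl
  rw [hcount]
  have hcp : (Fintype.card (OmM P M Λ) : ℝ) = Fintype.card (GP P M) * Fintype.card (Cd P → Λ) := by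
    rw [Fintype.card_prod]
    push_cast
    rfl
  have hL0 : (0 : ℝ) ≤ Fintype.card (Cd P → Λ) := by positivity
  calc ∑ y : GP P M, ((univ.filter fun x => Φ y x).card : ℝ)
      ≤ ∑ y : GP P M, (ρ ^ S.card * Fintype.card (Cd P → Λ) +
          if y ∈ B then (Fintype.card (Cd P → Λ) : ℝ) else 0) := by
        refine Finset.sum_le_sum fun y _ => ?_
        by_cases hy : y ∈ B
        · rw [if_pos hy]
          have h1 : ((univ.filter fun x => Φ y x).card : ℝ) ≤ Fintype.card (Cd P → Λ) := by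
            exact_mod_cast Finset.card_le_univ _
          have h2 : 0 ≤ ρ ^ S.card * (Fintype.card (Cd P → Λ) : ℝ) := by positivity
          linarith
        · rw [if_neg hy, add_zero]
          exact hgood y hy
    _ = Fintype.card (GP P M) * (ρ ^ S.card * Fintype.card (Cd P → Λ)) +
          B.card * Fintype.card (Cd P → Λ) := by
        rw [Finset.sum_add_distrib, Finset.sum_const, Finset.card_univ, nsmul_eq_mul,
          Finset.sum_ite_mem, Finset.univ_inter, Finset.sum_const, nsmul_eq_mul]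
    _ ≤ Fintype.card (GP P M) * (ρ ^ S.card * Fintype.card (Cd P → Λ)) +
          (S.card * (2 * (D + V) / M) * Fintype.card (GP P M)) * Fintype.card (Cd P → Λ) := by
        have := mul_le_mul_of_nonneg_right hbad hL0
        linarith
    _ = (ρ ^ S.card + S.card * (2 * (D + V) / M)) * Fintype.card (OmM P M Λ) := by
        rw [hcp]
        ring

end Pool.CM
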