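import Pool.Agent.Lib.MP_c77da8_nt.CM.LfAM
import Pool.Agent.Lib.MP_c77da8_nt.CM.PairB
import Pool.Agent.Lib.MP_c77da8_nt.CM.PairD
import Pool.Agent.Lib.MP_c77da8_nt.CM.NumM

/-!
# CM-SysM: the linear forms estimate for the systems of random points `ptM w (φ i) (o i)`

PROOF.  `lf_absM t ρ η` gives `w1, M1, N1`; `num_coord D` gives `w2`.  `Ω = OmM P M Λ` (nonempty: `M ≥ 1`), `Q = Qs w (Rt t N) P`,
`A i ω = mP P M (ptM w (φ i) (o i) ω)`.
`A i ω ≥ 1` (`mP_pos`); `A i ω ≤ ∏ p^M = exp (M ∑_(p ∈ P) log p) ≤ exp (M²)` (`size`); a prime `p ∈ Q` does not divide `A i ω` (its prime factors are in `P`).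
`PairM Q M ρ ((log N)^(9^t+t+1))`: first part from `pair_eqM` and `ent` (`card · (log N)^.. ≤ ρ^.. (log N)^.. card Ω ≤ card Ω`).  Second part: `p ∈ Q`, `p ≤ M³`, so
`log p ≤ 3 log M ≤ w` (`top`); `num_coord` gives `S`; `pair_modM`: the probability is at most `ρ^|S| + |S| 2 (D + V)/M ≤ ρ^√(log p) + log p/√M`:
`ρ^|S| ≤ ρ^√(log p)` as `ρ < 1` (`Real.rpow_natCast`, `Real.rpow_le_rpow_of_exponent_ge`), `2 (D + V) ≤ √M` (`wrap`) so `2 (D + V)/M ≤ 1/√M`.
`nuP P M w R n z = nuq (Qs w R P) R (mP P M z * n - 1)` by definition.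
-/

set_option autoImplicit false

namespace Pool.CM

open Finset Pool.CG Pool.CL

/-- `mP ≤ exp (M²)` -/
theorem mP_le (P : Finset ℕ) (M : ℕ) [NeZero M] (hP : ∀ p ∈ P, p.Prime) (z : GP P M) :
    (mP P M z : ℝ) ≤ Real.exp (M * ∑ p ∈ P, Real.log p) := by
  have h1 : (M : ℝ) * ∑ p ∈ P, Real.log p = ∑ p : Cd P, (M : ℝ) * Real.log (p.1 : ℝ) := by
    rw [Finset.mul_sum]
    exact (Finset.sum_coe_sort P (fun p => (M : ℝ) * Real.log (p : ℝ))).symm
  rw [h1, Real.exp_sum]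
  unfold mP
  push_cast
  refine Finset.prod_le_prod (fun p _ => by positivity) (fun p _ => ?_)
  have hp : 0 < (p.1 : ℝ) := by exact_mod_cast (hP p.1 p.2).pos
  have hp1 : 1 ≤ (p.1 : ℝ) := by exact_mod_cast (hP p.1 p.2).one_lt.le
  rw [Real.exp_nat_mul, Real.exp_log hp]
  exact pow_le_pow_right₀ hp1 (ZMod.val_lt (z p)).le

theorem lf_sysM (t D : ℕ) (ht : 1 ≤ t) (ρ η : ℝ) (hρ : 0 < ρ) (hρ1 : ρ < 1) (hη : 0 < η) :
    ∃ w0 M0 N0 : ℕ, ∀ w ≥ w0, ∀ M ≥ M0, ∀ N ≥ N0, ∀ (V : ℕ) (P : Finset ℕ) [NeZero M], ParM t D V w M N ρ P →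
      ∀ (Λ : Type) [Fintype Λ] [Nonempty Λ] (I : Type) [Fintype I] [DecidableEq I], Fintype.card I ≤ t →
      ∀ (φ : I → Λ → ℤ) (o : I → Cd P → ℤ), (∀ i a, |φ i a| ≤ (D : ℤ)) → (∀ i q, |o i q| ≤ (V : ℤ)) →
      (∀ i j, i ≠ j → ∀ v : ℤ, ((univ.filter fun a : Λ => φ i a - φ j a = v).card : ℝ) ≤ ρ * Fintype.card Λ) →
      |av (fun ω : OmM P M Λ => (∑ n ∈ Ico N (2 * N), ∏ i, nuP P M w (Rt t N) n (ptM w (φ i) (o i) ω)) / N) - 1| ≤ η := by
  obtain ⟨w1, M1, N1, h1⟩ := lf_absM t ht ρ η hρ hρ1 hη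
  obtain ⟨w2, h2⟩ := num_coord D
  refine ⟨max w1 w2, M1, N1, ?_⟩
  intro w hw M hM N hN V P _ hPar Λ _ _ I _ _ hI φ o hφ ho hd
  have hw1 : w1 ≤ w := le_trans (le_max_left _ _) hw
  have hw2 : w2 ≤ w := le_trans (le_max_right _ _) hw
  have hMpos : (0 : ℝ) < M := by
    have := NeZero.pos M
    exact_mod_cast this
  have hcard : (0 : ℝ) < Fintype.card (OmM P M Λ) := by
    have := Fintype.card_pos (α := OmM P M Λ)
    exact_mod_cast this
  have hQ : Qs w (Rt t N) P ⊆ Pr w (Rt t N) := Finset.sdiff_subset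
  have hQm : ∀ p ∈ Qs w (Rt t N) P, p.Prime ∧ w < p ∧ p ∉ P := by
    intro p hp
    have hp' := Finset.mem_sdiff.mp hp
    have hp2 := (Finset.mem_filter.mp hp'.1).2
    exact ⟨hp2.1, hp2.2, hp'.2⟩
  refine h1 w hw1 M hM N hN (Qs w (Rt t N) P) hQ (OmM P M Λ) I hI
    (fun i ω => mP P M (ptM w (φ i) (o i) ω)) (fun i ω => mP_pos P M hPar.prime _) ?_ ?_ ?_
  · intro i ω
    refine le_trans (mP_le P M hPar.prime _) (Real.exp_le_exp.mpr ?_)
    have := mul_le_mul_of_nonneg_left hPar.size hMpos.le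
    calc (M : ℝ) * ∑ p ∈ P, Real.log p ≤ M * M := this
      _ = (M : ℝ) ^ 2 := by ring
  · intro i ω p hp hdvd
    obtain ⟨hpp, _, hpP⟩ := hQm p hp
    unfold mP at hdvd
    obtain ⟨q, _, hq⟩ := (Prime.dvd_finsetProd_iff hpp.prime _).mp hdvd
    have hq2 := hpp.dvd_of_dvd_pow hq
    have := (Nat.prime_dvd_prime_iff_eq hpp (hPar.prime q.1 q.2)).mp hq2
    rw [this] at hpP
    exact hpP q.2
  · intro i j hij
    constructor
    · have h3 := pair_eqM w M D V P hPar.prime hPar.wrap Λ (φ i) (φ j) (hφ i) (hφ j) (o i) (o j)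
        (ho i) (ho j) ρ hρ.le (hd i j hij)
      have hL : 0 ≤ Real.log N ^ (9 ^ t + t + 1) := pow_nonneg (Real.log_natCast_nonneg N) _
      calc _ ≤ (ρ ^ (P.filter (fun p => p ≤ w)).card * Fintype.card (OmM P M Λ)) *
            Real.log N ^ (9 ^ t + t + 1) := mul_le_mul_of_nonneg_right h3 hL
        _ = (Real.log N ^ (9 ^ t + t + 1) * ρ ^ (P.filter (fun p => p ≤ w)).card) *
            Fintype.card (OmM P M Λ) := by ring
        _ ≤ 1 * Fintype.card (OmM P M Λ) := mul_le_mul_of_nonneg_right hPar.ent hcard.le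
        _ = _ := one_mul _
    · intro p hp hpM
      obtain ⟨hpp, hwp, hpP⟩ := hQm p hp
      have hppos : (0 : ℝ) < p := by exact_mod_cast hpp.pos
      have hlog : Real.log p ≤ w := by
        refine le_trans ?_ hPar.top
        have hle : (p : ℝ) ≤ (M : ℝ) ^ 3 := by exact_mod_cast hpM
        have h3 := Real.log_le_log hppos hle
        rw [Real.log_pow] at h3
        exact_mod_cast h3
      obtain ⟨S, hS1, hS2, hS3, hS4⟩ := h2 w hw2 P hPar.prime hPar.most p hwp hlog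
      have h3 := pair_modM w M D V P hPar.prime hPar.wrap Λ (φ i) (φ j) (hφ i) (hφ j) (o i) (o j)
        (ho i) (ho j) ρ hρ.le (hd i j hij) p S hpp hpP hS1 hS2
      have h4 : ((univ.filter fun ω : OmM P M Λ =>
          mP P M (ptM w (φ i) (o i) ω) ≠ mP P M (ptM w (φ j) (o j) ω) ∧
          mP P M (ptM w (φ i) (o i) ω) ≡ mP P M (ptM w (φ j) (o j) ω) [MOD p]).card : ℝ) ≤
          ((univ.filter fun ω : OmM P M Λ =>
          mP P M (ptM w (φ i) (o i) ω) ≡ mP P M (ptM w (φ j) (o j) ω) [MOD p]).card : ℝ) := by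
        have := Finset.card_le_card (Finset.monotone_filter_right (univ : Finset (OmM P M Λ))
          (p := fun ω : OmM P M Λ =>
          mP P M (ptM w (φ i) (o i) ω) ≠ mP P M (ptM w (φ j) (o j) ω) ∧
          mP P M (ptM w (φ i) (o i) ω) ≡ mP P M (ptM w (φ j) (o j) ω) [MOD p])
          (q := fun ω : OmM P M Λ =>
          mP P M (ptM w (φ i) (o i) ω) ≡ mP P M (ptM w (φ j) (o j) ω) [MOD p])
          (fun ω _ h => h.2))
        exact_mod_cast this
      have h5 : ((univ.filter fun ω : OmM P M Λ =>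
          mP P M (ptM w (φ i) (o i) ω) ≠ mP P M (ptM w (φ j) (o j) ω) ∧
          mP P M (ptM w (φ i) (o i) ω) ≡ mP P M (ptM w (φ j) (o j) ω) [MOD p]).card : ℝ) /
          Fintype.card (OmM P M Λ) ≤ ρ ^ S.card + S.card * (2 * (D + V) / M) := by
        rw [div_le_iff₀ hcard]
        exact le_trans h4 h3
      have h6 : ρ ^ S.card ≤ ρ ^ Real.sqrt (Real.log p) := by
        rw [← Real.rpow_natCast]
        exact Real.rpow_le_rpow_of_exponent_ge hρ hρ1.le hS3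
      have hsq : 0 < Real.sqrt M := Real.sqrt_pos.mpr hMpos
      have h7 : 4 * ((D : ℝ) + V) ≤ Real.sqrt M := by
        apply Real.le_sqrt_of_sq_le
        exact_mod_cast hPar.wrap
      have hDV : (0 : ℝ) ≤ (D : ℝ) + V := by positivity
      have h8 : 2 * ((D : ℝ) + V) / M ≤ 1 / Real.sqrt M := by
        rw [div_le_div_iff₀ hMpos hsq, one_mul]
        have h9 : Real.sqrt M * Real.sqrt M = M := Real.mul_self_sqrt hMpos.le
        calc 2 * ((D : ℝ) + V) * Real.sqrt M ≤ Real.sqrt M * Real.sqrt M :=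
              mul_le_mul_of_nonneg_right (by linarith) hsq.le
          _ = M := h9
      have hlp : 0 ≤ Real.log p := Real.log_natCast_nonneg p
      have h10 : (S.card : ℝ) * (2 * ((D : ℝ) + V) / M) ≤ Real.log p / Real.sqrt M := by
        calc (S.card : ℝ) * (2 * ((D : ℝ) + V) / M) ≤ Real.log p * (1 / Real.sqrt M) :=
              mul_le_mul hS4 h8 (by positivity) hlp
          _ = Real.log p / Real.sqrt M := by ring
      exact le_trans h5 (add_le_add h6 h10)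

end Pool.CM
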