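import Pool.Agent.Lib.MP_c77da8_nt.CM.LowE
import Pool.Agent.Lib.MP_c77da8_nt.CM.SvC
import Pool.Agent.Lib.MP_c77da8_nt.CM.SysM
import Pool.Agent.Lib.MP_c77da8_nt.CG.RtF

/-!
# CM-DensM: the average of the weighted primes

PROOF (compare `dens_low` in `CL/DensL.lean`).  For `z` in the inner box (`E ≥ 1`, so all `z_p ≥ 1`) and `A = mP P M z`: `A.primeFactors = P`, so
`A/φ(A) = ∏_(p ∈ P) (1 - 1/p)^(-1)`; `A ≤ exp (M ∑ log p) ≤ exp ((log N)^(1/100))` (`mP_le`); `count_lowM` gives `#{n : A n - 1 prime} ≥ (A/φ(A)) N/(8 log N)`.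
`VVq_ge`, `VV_ge` (`CG/VBd.lean`): `V ≥ ∏_(p ∈ P, p > w) (1 - 1/p) · ∏_(p ≤ w) (1 - 1/p) · log R` (`φ(Wp w)/Wp w = ∏_(p ≤ w) (1 - 1/p)`), `log R ≥ log N/(32 t)` (`Rt_facts`).  The primes
`≤ w` are in `P` but for at most one, whose factor is `≥ 1/2`; so `V · #{..} ≥ (1/2) N/(8 · 32 t) = N/(512 t)`.  The inner box contains at least half of the points
(`4 E card (Cd P) ≤ M`).  So the sum is at least `N/(1024 t)`.
-/

set_option autoImplicit false

namespace Pool.CM

open Finset Pool.CG Pool.CL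

/-- `A/φ(A)` as a product -/
private lemma densM_ratio (A : ℕ) (hA : 0 < A) :
    (Nat.totient A : ℝ) = (A : ℝ) * ∏ p ∈ A.primeFactors, (1 - 1 / (p : ℝ)) := by
  have h2 := Nat.totient_eq_mul_prod_factors A
  have := congrArg (fun q : ℚ => (q : ℝ)) h2
  push_cast at this
  rw [this]
  congr 1
  apply prod_congr rfl
  intro p _
  rw [one_div]

private lemma densM_Wp (w : ℕ) : 0 < Wp w := by
  unfold Wp
  exact Finset.prod_pos fun p hp => (mem_filter.1 hp).2.pos

private lemma densM_Wpf (w : ℕ) : (Wp w).primeFactors = (Icc 1 w).filter Nat.Prime := by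
  unfold Wp
  exact Nat.primeFactors_prod fun p hp => (mem_filter.1 hp).2

private lemma densM_pf (P : Finset ℕ) (M : ℕ) (hP : ∀ p ∈ P, p.Prime) (z : GP P M) (hz : ∀ p, 1 ≤ (z p).val) :
    (mP P M z).primeFactors = P := by
  have hA : 1 ≤ mP P M z := mP_pos P M hP z
  ext p
  rw [Nat.mem_primeFactors]
  constructor
  · rintro ⟨hp, hd, -⟩
    unfold mP at hd
    obtain ⟨q, -, hq⟩ := (Prime.dvd_finset_prod_iff hp.prime _).1 hd
    have h1 : p ∣ q.1 := hp.dvd_of_dvd_pow hq
    have h2 : p = q.1 := (Nat.prime_dvd_prime_iff_eq hp (hP q.1 q.2)).1 h1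
    rw [h2]
    exact q.2
  · intro hp
    refine ⟨hP p hp, ?_, by omega⟩
    unfold mP
    refine Dvd.dvd.trans ?_ (Finset.dvd_prod_of_mem _ (mem_univ (⟨p, hp⟩ : Cd P)))
    exact dvd_pow_self p (by have := hz ⟨p, hp⟩; omega)

/-- the proportion of the residues outside the inner interval -/
private lemma densM_out (M E : ℕ) [NeZero M] :
    av (fun v : ZMod M => open Classical in if v.val < E ∨ M ≤ v.val + E then (1 : ℝ) else 0) ≤ 2 * E / M := by
  classical
  have hM : 0 < M := Nat.pos_of_neZero M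
  have hMr : (0 : ℝ) < M := by exact_mod_cast hM
  unfold av
  rw [ZMod.card]
  refine div_le_div_of_nonneg_right ?_ hMr.le
  rw [Finset.sum_boole]
  have h1 : (univ.filter fun v : ZMod M => v.val < E ∨ M ≤ v.val + E).card ≤
      (range E ∪ Ico (M - E) M).card := by
    apply card_le_card_of_injOn (fun v : ZMod M => v.val)
    · intro v hv
      have hv' : v ∈ univ.filter fun v : ZMod M => v.val < E ∨ M ≤ v.val + E := hv
      rw [mem_filter] at hv'
      have hlt := ZMod.val_lt v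
      show v.val ∈ ((range E ∪ Ico (M - E) M : Finset ℕ) : Set ℕ)
      rw [mem_coe, mem_union, mem_range, mem_Ico]
      rcases hv'.2 with h | h
      · exact Or.inl h
      · right
        constructor
        · omega
        · exact hlt
    · intro a _ b _ hab
      exact ZMod.val_injective M hab
  have h2 : (range E ∪ Ico (M - E) M).card ≤ 2 * E := by
    refine (card_union_le _ _).trans ?_
    rw [card_range, Nat.card_Ico]
    omega
  exact_mod_cast h1.trans h2

private lemma densM_fac (p : ℕ) (hp : p.Prime) : 1 / 2 ≤ 1 - 1 / (p : ℝ) ∧ 1 - 1 / (p : ℝ) ≤ 1 := by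
  have hp2 : (2 : ℝ) ≤ p := by exact_mod_cast hp.two_le
  have h5 : (1 : ℝ) / p ≤ 1 / 2 := by
    apply one_div_le_one_div_of_le <;> linarith
  have h6 : (0 : ℝ) ≤ 1 / p := by positivity
  constructor <;> linarith

/-- the primes `≤ w` are in `P` but for at most one -/
private lemma densM_cmp (w : ℕ) (P : Finset ℕ) (hP : ∀ p ∈ P, p.Prime)
    (hm : ∃ e : ℕ, ∀ p : ℕ, p.Prime → p ≤ w → p ≠ e → p ∈ P) :
    1 / 2 * ∏ p ∈ P, (1 - 1 / (p : ℝ)) ≤
      (∏ p ∈ P.filter (fun p => w < p), (1 - 1 / (p : ℝ))) *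
        ∏ p ∈ (Icc 1 w).filter Nat.Prime, (1 - 1 / (p : ℝ)) := by
  classical
  obtain ⟨e, he⟩ := hm
  have h1 : ∏ p ∈ P, (1 - 1 / (p : ℝ)) = (∏ p ∈ P.filter (fun p => w < p), (1 - 1 / (p : ℝ))) *
      ∏ p ∈ P.filter (fun p => ¬ w < p), (1 - 1 / (p : ℝ)) := by
    rw [prod_filter_mul_prod_filter_not]
  have h0 : 0 ≤ ∏ p ∈ P.filter (fun p => w < p), (1 - 1 / (p : ℝ)) := by
    apply prod_nonneg
    intro p hp
    have := densM_fac p (hP p (mem_filter.1 hp).1)
    linarith
  have h2 : 1 / 2 * ∏ p ∈ P.filter (fun p => ¬ w < p), (1 - 1 / (p : ℝ)) ≤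
      ∏ p ∈ (Icc 1 w).filter Nat.Prime, (1 - 1 / (p : ℝ)) := by
    have hsub : P.filter (fun p => ¬ w < p) ⊆ (Icc 1 w).filter Nat.Prime := by
      intro p hp
      rw [mem_filter] at hp
      rw [mem_filter, mem_Icc]
      exact ⟨⟨(hP p hp.1).one_le, by omega⟩, hP p hp.1⟩
    rw [← prod_sdiff hsub]
    have h3 : 0 ≤ ∏ p ∈ P.filter (fun p => ¬ w < p), (1 - 1 / (p : ℝ)) := by
      apply prod_nonneg
      intro p hp
      have := densM_fac p (hP p (mem_filter.1 hp).1)
      linarith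
    apply mul_le_mul_of_nonneg_right _ h3
    have hsub2 : ((Icc 1 w).filter Nat.Prime) \ P.filter (fun p => ¬ w < p) ⊆ {e} := by
      intro p hp
      rw [mem_sdiff, mem_filter, mem_Icc, mem_filter] at hp
      rw [mem_singleton]
      by_contra hne
      exact hp.2 ⟨he p hp.1.2 hp.1.1.2 hne, by omega⟩
    rcases (subset_singleton_iff).1 hsub2 with h | h
    · rw [h, prod_empty]
      norm_num
    · rw [h, prod_singleton]
      have hep : e.Prime := by
        have : e ∈ ((Icc 1 w).filter Nat.Prime) \ P.filter (fun p => ¬ w < p) := by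
          rw [h]
          exact mem_singleton_self e
        exact (mem_filter.1 (mem_sdiff.1 this).1).2
      exact (densM_fac e hep).1
  rw [h1]
  calc 1 / 2 * ((∏ p ∈ P.filter (fun p => w < p), (1 - 1 / (p : ℝ))) *
      ∏ p ∈ P.filter (fun p => ¬ w < p), (1 - 1 / (p : ℝ)))
      = (∏ p ∈ P.filter (fun p => w < p), (1 - 1 / (p : ℝ))) *
        (1 / 2 * ∏ p ∈ P.filter (fun p => ¬ w < p), (1 - 1 / (p : ℝ))) := by ring
    _ ≤ _ := mul_le_mul_of_nonneg_left h2 h0

theorem dens_lowM (t : ℕ) (ht : 1 ≤ t) : ∃ N0 : ℕ, ∀ N ≥ N0, ∀ (w M E : ℕ) (P : Finset ℕ) [NeZero M],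
    (∀ p ∈ P, p.Prime) → (∃ e : ℕ, ∀ p : ℕ, p.Prime → p ≤ w → p ≠ e → p ∈ P) → 1 ≤ w → 1 ≤ E →
    (∀ (A : ℕ) [NeZero A], A.primeFactors = P → LowM (Real.log N ^ (-(1 / 250) : ℝ)) A) →
    (M : ℝ) * ∑ p ∈ P, Real.log p ≤ Real.log N ^ (1 / 100 : ℝ) → 4 * E * P.card ≤ M →
    1 / (1024 * (t : ℝ)) * N ≤ ∑ n ∈ Ico N (2 * N), av (fP P M w (Rt t N) E n) := by
  classical
  obtain ⟨N1, hN1⟩ := count_lowM
  obtain ⟨N2, hN2⟩ := Rt_facts t ht
  refine ⟨max N1 (max N2 3), fun N hN w M E P _ hP hmost hw hE hlow hML hEM => ?_⟩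
  have hNN1 : N1 ≤ N := (le_max_left _ _).trans hN
  have hNN3 : 3 ≤ N := ((le_max_right _ _).trans (le_max_right _ _)).trans hN
  obtain ⟨hR3, -, -, hRN, -, hlog⟩ := hN2 N (((le_max_left _ _).trans (le_max_right _ _)).trans hN)
  obtain ⟨R, hR⟩ : ∃ R : ℕ, R = Rt t N := ⟨_, rfl⟩
  rw [← hR] at hR3 hRN hlog ⊢
  have hN3 : (3 : ℝ) ≤ N := by exact_mod_cast hNN3
  have hL0 : 0 < Real.log (N : ℝ) := Real.log_pos (by linarith)
  set L : ℝ := Real.log N with hL
  have htr : (0 : ℝ) < t := by exact_mod_cast ht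
  have hN0 : (0 : ℝ) ≤ N := Nat.cast_nonneg N
  have hMr : (0 : ℝ) < M := by exact_mod_cast Nat.pos_of_neZero M
  -- the product over `P`
  have hpi : 0 < ∏ p ∈ P, (1 - 1 / (p : ℝ)) := by
    apply prod_pos
    intro p hp
    have := densM_fac p (hP p hp)
    linarith
  -- the number of the primes
  have hcount : ∀ z : GP P M, (∀ p, E ≤ (z p).val ∧ (z p).val + E < M) →
      (∏ p ∈ P, (1 - 1 / (p : ℝ)))⁻¹ * (N / (8 * L)) ≤
      (((Ico N (2 * N)).filter fun n => (mP P M z * n - 1).Prime).card : ℝ) := by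
    intro z hz
    have hpf := densM_pf P M hP z (fun p => hE.trans (hz p).1)
    have hA0 := mP_pos P M hP z
    haveI : NeZero (mP P M z) := ⟨by omega⟩
    have h1 := hN1 N hNN1 (mP P M z) (hlow _ hpf) ((mP_le P M hP z).trans (Real.exp_le_exp.2 hML))
    have h2 := densM_ratio (mP P M z) (by omega)
    rw [hpf] at h2
    have h3 : ((mP P M z : ℕ) : ℝ) / (Nat.totient (mP P M z) : ℝ) = (∏ p ∈ P, (1 - 1 / (p : ℝ)))⁻¹ := by
      have hAr : ((mP P M z : ℕ) : ℝ) ≠ 0 := by
        have : (1 : ℝ) ≤ ((mP P M z : ℕ) : ℝ) := by exact_mod_cast hA0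
        linarith
      rw [h2]
      field_simp
    rw [h3] at h1
    exact h1
  -- the lower bound for `VV`
  have hV : 1 / 2 * (∏ p ∈ P, (1 - 1 / (p : ℝ))) * (L / (32 * t)) ≤ VV (vq (Qs w R P)) R := by
    have h1 := VV_ge w R hw (by omega)
    have h2 := VVq_ge w R P hP (by omega)
    have h3 := densM_ratio (Wp w) (densM_Wp w)
    rw [densM_Wpf] at h3
    have hW : ((Wp w : ℕ) : ℝ) ≠ 0 := by exact_mod_cast (densM_Wp w).ne'
    rw [h3, mul_div_cancel_left₀ _ hW] at h1
    have h4 := densM_cmp w P hP hmost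
    have h5 : 0 ≤ ∏ p ∈ P.filter (fun p => w < p), (1 - 1 / (p : ℝ)) := by
      apply prod_nonneg
      intro p hp
      have := densM_fac p (hP p (mem_filter.1 hp).1)
      linarith
    have hLt : 0 ≤ L / (32 * t) := by positivity
    have hlR : 0 ≤ Real.log R := hLt.trans hlog
    calc 1 / 2 * (∏ p ∈ P, (1 - 1 / (p : ℝ))) * (L / (32 * t))
        ≤ ((∏ p ∈ P.filter (fun p => w < p), (1 - 1 / (p : ℝ))) *
        ∏ p ∈ (Icc 1 w).filter Nat.Prime, (1 - 1 / (p : ℝ))) * Real.log R :=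
          mul_le_mul h4 hlog hLt (le_trans (by positivity) h4)
      _ = (∏ p ∈ P.filter (fun p => w < p), (1 - 1 / (p : ℝ))) *
        ((∏ p ∈ (Icc 1 w).filter Nat.Prime, (1 - 1 / (p : ℝ))) * Real.log R) := by ring
      _ ≤ (∏ p ∈ P.filter (fun p => w < p), (1 - 1 / (p : ℝ))) * VV (vp w R) R :=
          mul_le_mul_of_nonneg_left h1 h5
      _ ≤ _ := h2
  have hV0 : 0 ≤ VV (vq (Qs w R P)) R := le_trans (by positivity) hV
  -- the sum for one `z`
  have hz : ∀ z : GP P M, (N : ℝ) / (512 * t) *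
      (1 - ∑ p : Cd P, if (z p).val < E ∨ M ≤ (z p).val + E then (1 : ℝ) else 0) ≤
      ∑ n ∈ Ico N (2 * N), fP P M w R E n z := by
    intro z
    have hfn : 0 ≤ ∑ n ∈ Ico N (2 * N), fP P M w R E n z := by
      refine Finset.sum_nonneg fun n _ => ?_
      unfold fP
      split_ifs
      · exact hV0
      · exact le_rfl
    have hind : ∀ p : Cd P, (0 : ℝ) ≤ if (z p).val < E ∨ M ≤ (z p).val + E then (1 : ℝ) else 0 := by
      intro p
      split_ifs <;> norm_num
    by_cases hb : ∀ p, E ≤ (z p).val ∧ (z p).val + E < M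
    · have h1 : ∑ n ∈ Ico N (2 * N), fP P M w R E n z =
          (((Ico N (2 * N)).filter fun n => (mP P M z * n - 1).Prime).card : ℝ) *
            VV (vq (Qs w R P)) R := by
        rw [← nsmul_eq_mul, ← Finset.sum_const, Finset.sum_filter]
        refine Finset.sum_congr rfl fun n _ => ?_
        unfold fP
        by_cases hp : (mP P M z * n - 1).Prime
        · rw [if_pos ⟨hp, hb⟩, if_pos hp]
        · rw [if_neg (fun h => hp h.1), if_neg hp]
      have h2 : ∑ p : Cd P, (if (z p).val < E ∨ M ≤ (z p).val + E then (1 : ℝ) else 0) = 0 := by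
        refine Finset.sum_eq_zero fun p _ => ?_
        rw [if_neg]
        have := hb p
        omega
      rw [h1, h2, sub_zero, mul_one]
      calc (N : ℝ) / (512 * t) = ((∏ p ∈ P, (1 - 1 / (p : ℝ)))⁻¹ * (N / (8 * L))) *
            (1 / 2 * (∏ p ∈ P, (1 - 1 / (p : ℝ))) * (L / (32 * t))) := by
            field_simp
            ring
        _ ≤ _ := mul_le_mul (hcount z hb) hV (by positivity) (Nat.cast_nonneg _)
    · push Not at hb
      obtain ⟨p, hp⟩ := hb
      have h3 : (1 : ℝ) ≤ ∑ p : Cd P, (if (z p).val < E ∨ M ≤ (z p).val + E then (1 : ℝ) else 0) := by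
        have h4 : (if (z p).val < E ∨ M ≤ (z p).val + E then (1 : ℝ) else 0) = 1 := by
          rw [if_pos]
          by_cases h5 : E ≤ (z p).val
          · exact Or.inr (hp h5)
          · left
            omega
        calc (1 : ℝ) = (if (z p).val < E ∨ M ≤ (z p).val + E then (1 : ℝ) else 0) := h4.symm
          _ ≤ _ := Finset.single_le_sum (fun p _ => hind p) (mem_univ p)
      refine le_trans ?_ hfn
      have h5 : (0 : ℝ) ≤ (N : ℝ) / (512 * t) := by positivity
      nlinarith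
  -- the average
  have hsum : ∑ n ∈ Ico N (2 * N), av (fP P M w R E n) =
      av (fun z : GP P M => ∑ n ∈ Ico N (2 * N), fP P M w R E n z) := by
    rw [av_sum]
  have hav := av_mono hz
  rw [← hsum, av_const_mul, av_sub, av_const, av_sum] at hav
  have hone : ∀ p : Cd P, av (fun z : GP P M => if (z p).val < E ∨ M ≤ (z p).val + E then (1 : ℝ) else 0) ≤
      2 * E / M := by
    intro p
    rw [av_update p]
    have h1 : ∀ z : GP P M, av (fun u : ZMod M =>
        if (Function.update z p u p).val < E ∨ M ≤ (Function.update z p u p).val + E then (1 : ℝ) else 0) =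
        av (fun v : ZMod M => if v.val < E ∨ M ≤ v.val + E then (1 : ℝ) else 0) := by
      intro z
      refine av_congr fun u => ?_
      rw [Function.update_self]
    rw [av_congr h1, av_const]
    exact densM_out M E
  have hall : ∑ p : Cd P, av (fun z : GP P M => if (z p).val < E ∨ M ≤ (z p).val + E then (1 : ℝ) else 0) ≤
      1 / 2 := by
    calc ∑ p : Cd P, av (fun z : GP P M => if (z p).val < E ∨ M ≤ (z p).val + E then (1 : ℝ) else 0)
        ≤ ∑ _p : Cd P, (2 * E / M : ℝ) := Finset.sum_le_sum fun p _ => hone p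
      _ = (P.card : ℝ) * (2 * E / M) := by
          rw [sum_const, card_univ, nsmul_eq_mul, Fintype.card_coe]
      _ ≤ 1 / 2 := by
          rw [mul_div_assoc', div_le_iff₀ hMr]
          have h2 : (4 * E * P.card : ℝ) ≤ M := by exact_mod_cast hEM
          linarith
  refine le_trans ?_ hav
  calc 1 / (1024 * (t : ℝ)) * N = (N : ℝ) / (512 * t) * (1 / 2) := by
        field_simp
        ring
    _ ≤ _ := mul_le_mul_of_nonneg_left (by linarith) (by positivity)

end Pool.CM
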