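import Pool.Agent.Lib.MP_c77da8_nt.CM.Defs
import Pool.Agent.Lib.MP_c77da8_nt.CG.Dense

/-!
# CM-DenseM: Szemerédi's theorem for local progressions, averaged form

PROOF: as `dense_loc` in `CL/DenseL.lean`, with `ce E x` in place of `cv x` (the private lemma `denseL_point` is used for every
`s = - ∑ i, ce E x i : G`, so nothing about `E` is needed).
-/

set_option autoImplicit false

namespace Pool.CM

open Finset Pool.CG Pool.CL

private theorem denseM_point (k L : ℕ) (δ : ℝ) (hδ : 0 < δ) (hL1 : 1 ≤ L)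
    (hL : ∀ S : Finset ℕ, S ⊆ range L → δ / 4 * L ≤ S.card →
      ∃ a t : ℕ, a < L ∧ 1 ≤ t ∧ t ≤ L ∧ ∀ j < k, a + j * t ∈ S)
    (G : Type) [AddCommGroup G] [Fintype G] (g : G → ℝ) (hg : ∀ z, 0 ≤ g z ∧ g z ≤ 1) (hav : δ ≤ av g) (s : G) :
    (δ / 4) ^ k * (δ / 2) ≤
      L * ∑ t ∈ Finset.Icc 1 L, av (fun y : G => ∏ j : Fin k, g (y + ((j : ℕ) * t) • s)) := by
  classical
  have hL0 : (0:ℝ) < L := by exact_mod_cast hL1
  have : Nonempty G := ⟨0⟩
  let S : G → Finset ℕ := fun p => (range L).filter fun i => δ / 4 ≤ g (p + i • s)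
  let good : G → ℝ := fun p => if δ / 4 * L ≤ ((S p).card : ℝ) then 1 else 0
  let m : G → ℝ := fun p => (∑ i ∈ range L, g (p + i • s)) / L
  have hm1 : ∀ p, m p ≤ 1 := by
    intro p
    simp only [m]
    rw [div_le_one hL0]
    calc ∑ i ∈ range L, g (p + i • s) ≤ ∑ _i ∈ range L, (1:ℝ) :=
          Finset.sum_le_sum fun i _ => (hg _).2
      _ = L := by simp
  have hm2 : ∀ p, m p ≤ ((S p).card : ℝ) / L + δ / 4 := by
    intro p
    simp only [m]
    have h1 : ∀ i ∈ range L, g (p + i • s) ≤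
        (if δ / 4 ≤ g (p + i • s) then (1:ℝ) else 0) + δ / 4 := by
      intro i _
      split_ifs with h
      · have := (hg (p + i • s)).2; linarith
      · rw [zero_add]; exact (not_le.mp h).le
    have h2 := Finset.sum_le_sum h1
    rw [Finset.sum_add_distrib, ← Finset.sum_filter, Finset.sum_const, Finset.sum_const,
      card_range, nsmul_eq_mul, nsmul_eq_mul, mul_one] at h2
    rw [div_le_iff₀ hL0, add_mul, div_mul_cancel₀ _ hL0.ne']
    calc _ ≤ _ := h2
      _ = ((S p).card : ℝ) + δ / 4 * L := by rw [mul_comm (L:ℝ)]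
  have hm3 : ∀ p, m p ≤ good p + δ / 2 := by
    intro p
    simp only [good]
    split_ifs with h
    · have := hm1 p; linarith
    · have h1 := hm2 p
      have h2 : ((S p).card : ℝ) / L ≤ δ / 4 := by
        rw [div_le_iff₀ hL0]; exact (not_le.mp h).le
      linarith
  have htr : ∀ (u : G) (F : G → ℝ), av (fun y => F (y + u)) = av F := fun u F =>
    av_equiv (Equiv.addRight u) F
  have hmav : av m = av g := by
    have e : m = fun p : G => (1 / (L:ℝ)) * ∑ i ∈ range L, g (p + i • s) := by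
      funext p; simp only [m]; ring
    rw [e, av_const_mul, av_sum]
    have : ∀ i ∈ range L, av (fun p : G => g (p + i • s)) = av g := fun i _ => htr _ g
    rw [Finset.sum_congr rfl this, Finset.sum_const, card_range, nsmul_eq_mul]
    field_simp
  have hgood : δ / 2 ≤ av good := by
    have h1 : av m ≤ av good + δ / 2 := by
      have := av_mono hm3
      rw [av_add, av_const] at this
      exact this
    linarith
  have hlow : ∀ p, (δ / 4) ^ k * good p ≤
      ∑ a ∈ range L, ∑ t ∈ Finset.Icc 1 L, ∏ j : Fin k, g (p + (a + (j : ℕ) * t) • s) := by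
    intro p
    have hnn : ∀ a t : ℕ, 0 ≤ ∏ j : Fin k, g (p + (a + (j : ℕ) * t) • s) := fun a t =>
      Finset.prod_nonneg fun j _ => (hg _).1
    simp only [good]
    split_ifs with h
    · obtain ⟨a, t, ha, ht1, htL, hAP⟩ := hL (S p) (Finset.filter_subset _ _) h
      have h1 : (δ / 4) ^ k ≤ ∏ j : Fin k, g (p + (a + (j : ℕ) * t) • s) := by
        have : ∏ _j : Fin k, (δ / 4) ≤ ∏ j : Fin k, g (p + (a + (j : ℕ) * t) • s) := by
          refine Finset.prod_le_prod (fun j _ => by positivity) fun j _ => ?_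
          exact (mem_filter.mp (hAP j j.2)).2
        rwa [Finset.prod_const, Finset.card_univ, Fintype.card_fin] at this
      rw [mul_one]
      refine h1.trans ?_
      refine le_trans ?_ (Finset.single_le_sum (f := fun a => ∑ t ∈ Finset.Icc 1 L,
        ∏ j : Fin k, g (p + (a + (j : ℕ) * t) • s))
        (fun a _ => Finset.sum_nonneg fun t _ => hnn a t) (mem_range.mpr ha))
      exact Finset.single_le_sum (f := fun t => ∏ j : Fin k, g (p + (a + (j : ℕ) * t) • s))
        (fun t _ => hnn a t) (Finset.mem_Icc.mpr ⟨ht1, htL⟩)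
    · rw [mul_zero]
      exact Finset.sum_nonneg fun a _ => Finset.sum_nonneg fun t _ => hnn a t
  have hterm : ∀ a t : ℕ,
      av (fun p : G => ∏ j : Fin k, g (p + (a + (j : ℕ) * t) • s)) =
        av (fun p : G => ∏ j : Fin k, g (p + ((j : ℕ) * t) • s)) := by
    intro a t
    rw [← htr (a • s) (fun p : G => ∏ j : Fin k, g (p + ((j : ℕ) * t) • s))]
    refine av_congr fun p => Finset.prod_congr rfl fun j _ => ?_
    congr 1
    rw [add_assoc, add_smul]
  have hpos : 0 ≤ (δ / 4) ^ k := by positivity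
  have h1 := av_mono hlow
  rw [av_const_mul, av_sum] at h1
  have h2 : ∀ a ∈ range L, av (fun p : G => ∑ t ∈ Finset.Icc 1 L,
      ∏ j : Fin k, g (p + (a + (j : ℕ) * t) • s)) =
      ∑ t ∈ Finset.Icc 1 L, av (fun y : G => ∏ j : Fin k, g (y + ((j : ℕ) * t) • s)) := by
    intro a _
    rw [av_sum]
    exact Finset.sum_congr rfl fun t _ => hterm a t
  rw [Finset.sum_congr rfl h2, Finset.sum_const, card_range, nsmul_eq_mul] at h1
  exact (mul_le_mul_of_nonneg_left hgood hpos).trans h1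

theorem dense_mix (k : ℕ) (δ : ℝ) (hδ : 0 < δ) : ∃ (T : ℕ) (c : ℝ), 1 ≤ T ∧ 0 < c ∧
    ∀ (G X : Type) [AddCommGroup G] [Fintype G] [Fintype X] [Nonempty X] (E : Fin (k + 2) → X → G) (g : G → ℝ),
      (∀ z, 0 ≤ g z ∧ g z ≤ 1) → δ ≤ av g →
      ∃ b : ℕ, 1 ≤ b ∧ b ≤ T ∧
        c ≤ av (fun y : G => av (fun x : Fin (k + 2) → X => ∏ j, g (y + b • psi j (ce E x)))) := by
  classical
  obtain ⟨L, hL1, hL⟩ := sz_bdd (k + 2) (δ / 4) (by positivity)
  have hL0 : (0:ℝ) < L := by exact_mod_cast hL1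
  refine ⟨L, (δ / 4) ^ (k + 2) * (δ / 2) / (L * L), hL1, by positivity, ?_⟩
  intro G X _ _ _ hX E g hg hav
  have hne : Nonempty (Fin (k + 2) → X) := ⟨fun _ => Classical.arbitrary X⟩
  have htr : ∀ (u : G) (F : G → ℝ), av (fun y => F (y + u)) = av F := fun u F =>
    av_equiv (Equiv.addRight u) F
  -- the target for a fixed `b`
  have htar : ∀ b : ℕ, av (fun y : G => av (fun x : Fin (k + 2) → X => ∏ j, g (y + b • psi j (ce E x)))) =
      av (fun x : Fin (k + 2) → X =>
        av (fun y : G => ∏ j : Fin (k + 2), g (y + ((j : ℕ) * b) • (-∑ i, ce E x i)))) := by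
    intro b
    rw [av_comm]
    refine av_congr fun x => ?_
    rw [← htr (b • psi 0 (ce E x)) (fun y : G => ∏ j : Fin (k + 2), g (y + ((j : ℕ) * b) • (-∑ i, ce E x i)))]
    refine av_congr fun y => Finset.prod_congr rfl fun j _ => ?_
    congr 1
    rw [psi_eq j (ce E x), smul_add, mul_comm (j : ℕ) b, mul_smul]
    exact (add_assoc y _ _).symm
  have hsum : (δ / 4) ^ (k + 2) * (δ / 2) ≤ L * ∑ b ∈ Finset.Icc 1 L,
      av (fun y : G => av (fun x : Fin (k + 2) → X => ∏ j, g (y + b • psi j (ce E x)))) := by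
    rw [Finset.sum_congr rfl fun b _ => htar b, ← av_sum, ← av_const_mul]
    have h1 : ∀ x : Fin (k + 2) → X, (δ / 4) ^ (k + 2) * (δ / 2) ≤ L * ∑ b ∈ Finset.Icc 1 L,
        av (fun y : G => ∏ j : Fin (k + 2), g (y + ((j : ℕ) * b) • (-∑ i, ce E x i))) := fun x =>
      denseM_point (k + 2) L δ hδ hL1 hL G g hg hav _
    have h2 := av_mono h1
    rwa [av_const] at h2
  by_contra hcon
  push Not at hcon
  have h3 : ∑ b ∈ Finset.Icc 1 L,
      av (fun y : G => av (fun x : Fin (k + 2) → X => ∏ j, g (y + b • psi j (ce E x)))) <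
      ∑ _b ∈ Finset.Icc 1 L, (δ / 4) ^ (k + 2) * (δ / 2) / (L * L) := by
    refine Finset.sum_lt_sum_of_nonempty ⟨1, Finset.mem_Icc.mpr ⟨le_refl _, hL1⟩⟩ fun b hb => ?_
    obtain ⟨hb1, hb2⟩ := Finset.mem_Icc.mp hb
    exact hcon b hb1 hb2
  rw [Finset.sum_const, Nat.card_Icc, Nat.add_sub_cancel, nsmul_eq_mul] at h3
  have h4 : (L:ℝ) * ((L:ℝ) * ((δ / 4) ^ (k + 2) * (δ / 2) / (L * L))) = (δ / 4) ^ (k + 2) * (δ / 2) := by
    field_simp
  have h5 := mul_lt_mul_of_pos_left h3 hL0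
  rw [h4] at h5
  linarith

end Pool.CM
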