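import Pool.Agent.Lib.MP_c77da8_nt.CM.Defs
import Pool.Agent.Lib.MP_c77da8_nt.CG.PnC
import Pool.Agent.Lib.MP_dd84fd_nt.SW.Siegel

/-!
# CM-ExcA: a real character is induced from a divisor of `8 rad`

PROOF: copy the proof of `real_rad` in `CL/PL.lean` up to `χ.LFunction 1 = χ'.LFunction 1`, with `W = ∏_(p ∣ A) p`, `d = gcd(A, 8 W)`.
-/

set_option autoImplicit false

namespace Pool.CM

open Finset Pool.CG Pool.CL Pool.MP_dd84fd_nt.SW

theorem exc_red (δ : ℝ) (A : ℕ) [NeZero A] (h : ¬ LowM δ A) : ∃ (d : ℕ) (_ : NeZero d) (χ : DirichletCharacter ℂ d),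
    d ∣ A ∧ d ∣ 8 * ∏ p ∈ A.primeFactors, p ∧ χ ^ 2 = 1 ∧ χ ≠ 1 ∧ ‖χ.LFunction 1‖ < δ := by
  simp only [LowM] at h
  push Not at h
  obtain ⟨χ, hχ, hχ2, hsm⟩ := h
  have hA1 : 1 ≤ A := Nat.one_le_iff_ne_zero.2 (NeZero.ne A)
  obtain ⟨W, hWdef⟩ : ∃ W : ℕ, W = ∏ p ∈ A.primeFactors, p := ⟨_, rfl⟩
  rw [← hWdef]
  have hAW : ∀ p : ℕ, p.Prime → p ∣ A → p ∣ W := by
    intro p hp hpA
    rw [hWdef]
    exact dvd_prod_of_mem (fun p => p) (Nat.mem_primeFactors.2 ⟨hp, hpA, by omega⟩)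
  have hdq : Nat.gcd A (8 * W) ∣ A := Nat.gcd_dvd_left _ _
  have hd0 : NeZero (Nat.gcd A (8 * W)) := ⟨(Nat.gcd_pos_of_pos_left _ hA1).ne'⟩
  have hft : χ.FactorsThrough (Nat.gcd A (8 * W)) := by
    rw [DirichletCharacter.factorsThrough_iff_ker_unitsMap hdq]
    intro u hu
    rw [MonoidHom.mem_ker] at hu ⊢
    have h1 : ((((u : ZMod A)).val : ℤ)) ≡ 1 [ZMOD (Nat.gcd A (8 * W) : ℕ)] := by
      rw [← ZMod.intCast_eq_intCast_iff]
      have h2 := congrArg Units.val hu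
      rw [ZMod.unitsMap_val] at h2
      push_cast
      rw [ZMod.cast_eq_val] at h2
      simpa using h2
    obtain ⟨x, hx⟩ := squares W A hA1 hAW _ h1
    rw [← ZMod.intCast_eq_intCast_iff] at hx
    push_cast at hx
    rw [ZMod.natCast_zmod_val] at hx
    have hxu : IsUnit ((x : ℤ) : ZMod A) := by
      have : IsUnit (((x : ℤ) : ZMod A) ^ 2) := by rw [hx]; exact u.isUnit
      exact (isUnit_pow_iff two_ne_zero).1 this
    rw [Units.ext_iff, MulChar.coe_toUnitHom, Units.val_one, ← hx, map_pow, ← MulChar.pow_apply' _ two_ne_zero, hχ2,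
      MulChar.one_apply hxu]
  obtain ⟨hdv, χ', hχ'⟩ := hft
  have hχ'1 : χ' ≠ 1 := by
    rintro rfl
    exact hχ (by rw [hχ']; exact map_one _)
  have hL : χ.LFunction 1 = χ'.LFunction 1 := by
    rw [hχ', DirichletCharacter.LFunction_changeLevel hdv χ' (Or.inl hχ'1)]
    rw [Finset.prod_eq_one, mul_one]
    intro p hp
    have hpp := Nat.prime_of_mem_primeFactors hp
    have hpq := Nat.dvd_of_mem_primeFactors hp
    have hpd : p ∣ Nat.gcd A (8 * W) := Nat.dvd_gcd hpq (Dvd.dvd.mul_left (hAW p hpp hpq) 8)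
    have h0 : χ' (p : ZMod (Nat.gcd A (8 * W))) = 0 := by
      apply MulChar.map_nonunit
      rw [ZMod.isUnit_iff_coprime]
      intro hcop
      have := Nat.eq_one_of_dvd_coprimes hcop dvd_rfl hpd
      exact hpp.one_lt.ne' this
    rw [h0]
    simp
  have hχ'2 : χ' ^ 2 = 1 := by
    have h1 : DirichletCharacter.changeLevel hdv (χ' ^ 2) = DirichletCharacter.changeLevel hdv 1 := by
      rw [map_pow, ← hχ', hχ2, map_one]
    exact DirichletCharacter.changeLevel_injective hdv h1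
  exact ⟨_, hd0, χ', hdq, Nat.gcd_dvd_right _ _, hχ'2, hχ'1, by rw [← hL]; exact hsm⟩

end Pool.CM
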