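import Pool.Agent.Lib.MP_c77da8_nt.CM.LevM
import Pool.Agent.Lib.MP_c77da8_nt.CM.Defs

/-!
# CM-ExcB: the conductor of an exceptional character is large (Siegel)

PROOF.  `χ* = χ.primitiveCharacter` modulo `f = χ.conductor` (`χ = changeLevel χ*`, see `DirichletCharacter.conductor`, `DirichletCharacter.primitiveCharacter`,
`DirichletCharacter.factorsThrough_conductor`), `χ* ≠ 1`, `χ*² = 1`.  `lev_bounds` (second part): `‖L(1, χ*)‖ ≤ 2 ell d 0 ‖L(1, χ)‖ ≤ 6 log Q · δ` (`Q = exp ((log N)^(1/2000))`,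
`d ≤ Q`, `ell d 0 ≤ 3 log Q`; adapt the constant to the definition of `ell`), `δ = (log N)^(-1/250) = (log Q)^(-8)`.  Siegel (`siegel ε`) gives
`‖L(1, χ*)‖ ≥ c_ε f^(-ε)`; so `f ≥ (c_ε (log Q)^7/6)^(1/ε) > 16 (log N)^B` for large `N` if `ε = 1/(1000 (B+1))` (`(log Q)^(7/ε) = (log N)^(7 (B+1)/2)`).
-/

set_option autoImplicit false

namespace Pool.CM

open Finset Pool.CG Pool.CL Pool.MP_dd84fd_nt.SW

theorem exc_big (B : ℕ) : ∃ N0 : ℕ, ∀ N ≥ N0, ∀ (d : ℕ) [NeZero d] (χ : DirichletCharacter ℂ d),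
    (d : ℝ) ≤ Real.exp (Real.log N ^ (1 / 2000 : ℝ)) → χ ^ 2 = 1 → χ ≠ 1 →
    ‖χ.LFunction 1‖ < Real.log N ^ (-(1 / 250) : ℝ) → 16 * Real.log N ^ B < χ.conductor := by
  set ε : ℝ := 1 / (1000 * ((B : ℝ) + 1)) with hε
  have hB1 : (0 : ℝ) < (B : ℝ) + 1 := by positivity
  have hε0 : 0 < ε := by rw [hε]; positivity
  have hεB : (B : ℝ) * ε ≤ 1 / 1000 := by
    rw [hε, mul_one_div, div_le_div_iff₀ (by positivity) (by norm_num)]
    nlinarith
  have hε1 : ε ≤ 1 := by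
    rw [hε, div_le_one (by positivity)]
    have : (0 : ℝ) ≤ (B : ℝ) := by positivity
    linarith
  obtain ⟨c, hc0, hc⟩ := siegel ε hε0
  have hlog : Filter.Tendsto (fun N : ℕ => Real.log (N : ℝ)) Filter.atTop Filter.atTop :=
    Real.tendsto_log_atTop.comp tendsto_natCast_atTop_atTop
  have hev1 : ∀ᶠ N : ℕ in Filter.atTop, (1 : ℝ) ≤ Real.log (N : ℝ) :=
    hlog.eventually_ge_atTop 1
  have hev2 : ∀ᶠ N : ℕ in Filter.atTop, 96 / c < Real.log (N : ℝ) ^ (1 / 400 : ℝ) :=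
    ((tendsto_rpow_atTop (by norm_num : (0 : ℝ) < 1 / 400)).comp hlog).eventually_gt_atTop (96 / c)
  obtain ⟨N0, hN0⟩ := Filter.eventually_atTop.mp (hev1.and hev2)
  refine ⟨N0, fun N hN d _ χ hd hχ2 hχ1 hL => ?_⟩
  obtain ⟨hl1, hl2⟩ := hN0 N hN
  set L : ℝ := Real.log (N : ℝ) with hLdef
  have hl0 : 0 < L := by linarith
  by_contra hcon
  push Not at hcon
  have hf : NeZero χ.conductor := ⟨DirichletCharacter.conductor_ne_zero χ⟩
  have hfd : χ.conductor ∣ d := DirichletCharacter.conductor_dvd_level χ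
  have hch : DirichletCharacter.changeLevel hfd χ.primitiveCharacter = χ :=
    DirichletCharacter.changeLevel_primitiveCharacter χ
  have hp1 : χ.primitiveCharacter ≠ 1 := by
    intro h
    apply hχ1
    rw [← hch, h, map_one]
  have hp2 : χ.primitiveCharacter ^ 2 = 1 := by
    apply DirichletCharacter.changeLevel_injective hfd
    rw [map_pow, hch, hχ2, map_one]
  have hlev := (lev_bounds χ.conductor d hfd χ.primitiveCharacter hp1).2
  rw [hch] at hlev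
  have hsie := hc χ.conductor χ.primitiveCharacter hp1 hp2
  have hd0 : (0 : ℝ) < d := by exact_mod_cast Nat.pos_of_ne_zero (NeZero.ne d)
  have hx1 : (1 : ℝ) ≤ L ^ (1 / 2000 : ℝ) := Real.one_le_rpow hl1 (by norm_num)
  have hlog3 : Real.log 3 ≤ 2 := by
    have h1 := Real.log_le_sub_one_of_pos (by norm_num : (0 : ℝ) < 3)
    linarith
  have hell : ell d 0 ≤ 3 * L ^ (1 / 2000 : ℝ) := by
    have h1 : Real.log (d : ℝ) ≤ L ^ (1 / 2000 : ℝ) := by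
      calc Real.log (d : ℝ) ≤ Real.log (Real.exp (L ^ (1 / 2000 : ℝ))) := Real.log_le_log hd0 hd
        _ = L ^ (1 / 2000 : ℝ) := Real.log_exp _
    have h2 : ell d 0 = Real.log (d : ℝ) + Real.log 3 := by
      rw [ell, abs_zero, zero_add, Real.log_mul hd0.ne' (by norm_num)]
    rw [h2]
    linarith
  have hup : ‖χ.primitiveCharacter.LFunction 1‖ ≤ 6 * L ^ (-(7 / 2000) : ℝ) := by
    have h1 : 2 * ell d 0 * ‖χ.LFunction 1‖ ≤ 2 * (3 * L ^ (1 / 2000 : ℝ)) * L ^ (-(1 / 250) : ℝ) := by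
      apply mul_le_mul (by linarith) hL.le (norm_nonneg _) (by positivity)
    have h2 : L ^ (1 / 2000 : ℝ) * L ^ (-(1 / 250) : ℝ) = L ^ (-(7 / 2000) : ℝ) := by
      rw [← Real.rpow_add hl0]
      norm_num
    calc ‖χ.primitiveCharacter.LFunction 1‖ ≤ 2 * ell d 0 * ‖χ.LFunction 1‖ := hlev
      _ ≤ 2 * (3 * L ^ (1 / 2000 : ℝ)) * L ^ (-(1 / 250) : ℝ) := h1
      _ = 6 * (L ^ (1 / 2000 : ℝ) * L ^ (-(1 / 250) : ℝ)) := by ring
      _ = 6 * L ^ (-(7 / 2000) : ℝ) := by rw [h2]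
  have hf0 : (0 : ℝ) < χ.conductor := by exact_mod_cast Nat.pos_of_ne_zero (NeZero.ne χ.conductor)
  have hlow : 1 / 16 * L ^ (-(2 / 2000) : ℝ) ≤ (χ.conductor : ℝ) ^ (-ε) := by
    have h1 : (16 * L ^ B : ℝ) ^ (-ε) ≤ (χ.conductor : ℝ) ^ (-ε) :=
      Real.rpow_le_rpow_of_nonpos hf0 hcon (by linarith)
    have h2 : (16 * L ^ B : ℝ) ^ (-ε) = (16 : ℝ) ^ (-ε) * L ^ (-((B : ℝ) * ε)) := by
      rw [Real.mul_rpow (by norm_num) (by positivity), ← Real.rpow_natCast L B, ← Real.rpow_mul hl0.le]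
      congr 2
      ring
    have h3 : (1 / 16 : ℝ) ≤ (16 : ℝ) ^ (-ε) := by
      calc (1 / 16 : ℝ) = (16 : ℝ) ^ (-1 : ℝ) := by rw [Real.rpow_neg_one]; norm_num
        _ ≤ (16 : ℝ) ^ (-ε) := Real.rpow_le_rpow_of_exponent_le (by norm_num) (by linarith)
    have h4 : L ^ (-(2 / 2000) : ℝ) ≤ L ^ (-((B : ℝ) * ε)) := by
      apply Real.rpow_le_rpow_of_exponent_le hl1
      linarith
    calc 1 / 16 * L ^ (-(2 / 2000) : ℝ) ≤ (16 : ℝ) ^ (-ε) * L ^ (-((B : ℝ) * ε)) := by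
          apply mul_le_mul h3 h4 (by positivity) (by positivity)
      _ = (16 * L ^ B : ℝ) ^ (-ε) := h2.symm
      _ ≤ (χ.conductor : ℝ) ^ (-ε) := h1
  have hfin : c * (1 / 16 * L ^ (-(2 / 2000) : ℝ)) ≤ 6 * L ^ (-(7 / 2000) : ℝ) :=
    (mul_le_mul_of_nonneg_left hlow hc0.le).trans (hsie.trans hup)
  have hsplit : L ^ (1 / 400 : ℝ) * L ^ (-(7 / 2000) : ℝ) = L ^ (-(2 / 2000) : ℝ) := by
    rw [← Real.rpow_add hl0]
    norm_num
  have hp : 0 < L ^ (-(7 / 2000) : ℝ) := Real.rpow_pos_of_pos hl0 _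
  rw [← hsplit] at hfin
  have h5 : 96 < c * L ^ (1 / 400 : ℝ) := by
    rw [div_lt_iff₀ hc0] at hl2
    linarith
  nlinarith

end Pool.CM
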