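import Pool.Agent.Lib.MP_c77da8_nt.CM.PageN
import Pool.Agent.Lib.MP_c77da8_nt.CM.ExcA
import Pool.Agent.Lib.MP_c77da8_nt.CM.ExcB

/-!
# CM-ExcM: the exceptional modulus

PROOF.  Let `Q = exp ((log N)^(1/2000))`, `δ = (log N)^(-1/250) = (log Q)^(-8)`; for large `N`, `δ < c / (log Q)^4` (`c` from `page`).
Call `(d, χ)` exceptional if `1 ≤ d ≤ Q`, `χ` modulo `d`, `χ² = 1`, `χ ≠ 1`, `‖χ.LFunction 1‖ < δ`, and `d ∣ 8 W` for some squarefree `W`.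
(a) If `A ≥ 1`, `8 ∏_(p ∣ A) p ≤ Q` and not `LowM δ A`: `exc_red` gives an exceptional `(d, χ')` with `d ∣ A` (`W = ∏_(p ∣ A) p` is squarefree:
`Nat.squarefree_..`/`Finset.squarefree_prod_of_pairwise_isCoprime`, `UniqueFactorizationMonoid`, or prime by prime).
(b) If `(d₁, χ₁)`, `(d₂, χ₂)` are exceptional then by `page` the product of their lifts to `d₁ d₂` is `1`, so the lifts are equal (squares are `1`) and
`χ₁.conductor = χ₂.conductor` (`DirichletCharacter.conductor_changeLevel`, or both `FactorsThrough` ..; the conductor is the conductor of the lift).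
If there is no exceptional pair: `m = 2 ⌈(log N)^B⌉ + 3`, and `e = 0` for every `g`.
Otherwise take one exceptional pair `(d₁, χ₁)`; `f = χ₁.conductor`, `f ∣ d₁ ∣ 8 W`; `m` = the odd part of `f` (`f = 2^a m`); `f ∣ 8 W`, `W` squarefree, so `m ∣ W`, `m` is odd and
squarefree, and `2^a ∣ 16`, `f ≤ 16 m`.  By `exc_big`, `m > (log N)^B`.
For `g ≥ 1` with `¬ m ∣ g`: as `m` is squarefree there is a prime `e ∣ m`, `¬ e ∣ g` (`Nat.Squarefree`: `m = ∏ p ∈ m.primeFactors, p`, `Nat.prod_primeFactors_of_squarefree`;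
`Finset.prod_primes_dvd`).  If `¬ e ∣ A`, `8 rad A ≤ Q` and not `LowM δ A`, (a) gives an exceptional `(d, χ')`, `d ∣ A`, and by (b) `f = χ'.conductor ∣ d ∣ A`, `e ∣ m ∣ f`: a
contradiction.
-/

set_option autoImplicit false

namespace Pool.CM

open Finset Pool.CG Pool.CL Pool.MP_dd84fd_nt.SW

/-- an exceptional pair -/
private def Excp (Q δ : ℝ) (d : ℕ) [NeZero d] (χ : DirichletCharacter ℂ d) : Prop :=
  (d : ℝ) ≤ Q ∧ χ ^ 2 = 1 ∧ χ ≠ 1 ∧ ‖χ.LFunction 1‖ < δ ∧ ∃ W : ℕ, Squarefree W ∧ d ∣ 8 * W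

private lemma sqf_rad (A : ℕ) : Squarefree (∏ p ∈ A.primeFactors, p) := by
  refine Finset.squarefree_prod_of_pairwise_isCoprime ?_ ?_
  · intro p hp q hq hpq
    exact Nat.coprime_iff_isRelPrime.1 ((Nat.coprime_primes (Nat.prime_of_mem_primeFactors hp)
      (Nat.prime_of_mem_primeFactors hq)).2 hpq)
  · intro p hp
    exact (Nat.prime_of_mem_primeFactors hp).squarefree

private lemma exc_a {Q δ : ℝ} {A : ℕ} [NeZero A]
    (hA : 8 * ((∏ p ∈ A.primeFactors, p : ℕ) : ℝ) ≤ Q) (h : ¬ LowM δ A) :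
    ∃ (d : ℕ) (_ : NeZero d) (χ : DirichletCharacter ℂ d), d ∣ A ∧ Excp Q δ d χ := by
  obtain ⟨d, hd, χ, h1, h2, h3, h4, h5⟩ := exc_red δ A h
  refine ⟨d, hd, χ, h1, ?_, h3, h4, h5, _, sqf_rad A, h2⟩
  have hpos : 0 < 8 * ∏ p ∈ A.primeFactors, p := by
    refine Nat.mul_pos (by norm_num) (Finset.prod_pos fun p hp => ?_)
    exact (Nat.prime_of_mem_primeFactors hp).pos
  have h6 := Nat.le_of_dvd hpos h2
  have h7 : (d : ℝ) ≤ ((8 * ∏ p ∈ A.primeFactors, p : ℕ) : ℝ) := by exact_mod_cast h6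
  refine h7.trans (le_trans (le_of_eq ?_) hA)
  push_cast
  ring

private lemma exc_b {c Q δ : ℝ} (hc : ∀ Q : ℝ, 3 ≤ Q → ∀ (q₁ q₂ : ℕ) [NeZero q₁] [NeZero q₂]
    (χ₁ : DirichletCharacter ℂ q₁) (χ₂ : DirichletCharacter ℂ q₂), (q₁ : ℝ) ≤ Q → (q₂ : ℝ) ≤ Q →
    χ₁ ^ 2 = 1 → χ₂ ^ 2 = 1 → χ₁ ≠ 1 → χ₂ ≠ 1 →
    DirichletCharacter.changeLevel (Dvd.intro q₂ rfl) χ₁ *
      DirichletCharacter.changeLevel (Dvd.intro_left q₁ rfl : q₂ ∣ q₁ * q₂) χ₂ ≠ 1 →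
    c / Real.log Q ^ 4 ≤ ‖χ₁.LFunction 1‖ ∨ c / Real.log Q ^ 4 ≤ ‖χ₂.LFunction 1‖)
    (hQ : 3 ≤ Q) (hδ : δ < c / Real.log Q ^ 4) {d₁ d₂ : ℕ} [NeZero d₁] [NeZero d₂]
    {χ₁ : DirichletCharacter ℂ d₁} {χ₂ : DirichletCharacter ℂ d₂} (h1 : Excp Q δ d₁ χ₁)
    (h2 : Excp Q δ d₂ χ₂) : χ₁.conductor = χ₂.conductor := by
  obtain ⟨a1, a2, a3, a4, _⟩ := h1
  obtain ⟨b1, b2, b3, b4, _⟩ := h2
  by_contra hne
  have : NeZero (d₁ * d₂) := ⟨mul_ne_zero (NeZero.ne d₁) (NeZero.ne d₂)⟩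
  have h : DirichletCharacter.changeLevel (Dvd.intro d₂ rfl) χ₁ *
      DirichletCharacter.changeLevel (Dvd.intro_left d₁ rfl : d₂ ∣ d₁ * d₂) χ₂ ≠ 1 := by
    intro h0
    apply hne
    have e1 : DirichletCharacter.changeLevel (Dvd.intro_left d₁ rfl : d₂ ∣ d₁ * d₂) χ₂ *
        DirichletCharacter.changeLevel (Dvd.intro_left d₁ rfl : d₂ ∣ d₁ * d₂) χ₂ = 1 := by
      rw [← pow_two, ← map_pow, b2, map_one]
    have e2 : DirichletCharacter.changeLevel (Dvd.intro d₂ rfl : d₁ ∣ d₁ * d₂) χ₁ =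
        DirichletCharacter.changeLevel (Dvd.intro_left d₁ rfl : d₂ ∣ d₁ * d₂) χ₂ :=
      mul_right_cancel (h0.trans e1.symm)
    rw [← DirichletCharacter.conductor_changeLevel χ₁ (Dvd.intro d₂ rfl : d₁ ∣ d₁ * d₂), e2,
      DirichletCharacter.conductor_changeLevel]
  rcases hc Q hQ d₁ d₂ χ₁ χ₂ a1 b1 a2 b2 a3 b3 h with h3 | h3
  · linarith
  · linarith

private lemma odd_part {f W : ℕ} (hf : f ≠ 0) (hW : Squarefree W) (h : f ∣ 8 * W) :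
    ∃ m : ℕ, Odd m ∧ Squarefree m ∧ m ∣ f ∧ f ≤ 16 * m := by
  obtain ⟨a, m, hm, hfm⟩ := Nat.exists_eq_two_pow_mul_odd hf
  have hmf : m ∣ f := ⟨2 ^ a, by rw [hfm]; ring⟩
  have hmW : m ∣ W := by
    have h1 : m ∣ 8 * W := hmf.trans h
    have h2 : Nat.Coprime m 8 := by
      have : Nat.Coprime m 2 := Nat.coprime_two_right.2 hm
      exact Nat.Coprime.pow_right 3 this
    exact h2.dvd_of_dvd_mul_left h1
  refine ⟨m, hm, hW.squarefree_of_dvd hmW, hmf, ?_⟩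
  have ha : a ≤ 4 := by
    by_contra ha
    have h1 : 2 ^ 5 ∣ 8 * W := ((pow_dvd_pow 2 (by omega)).trans (Dvd.intro m hfm.symm)).trans h
    have h2 : 2 * 2 ∣ W := by
      obtain ⟨c, hc⟩ := h1
      exact ⟨c, by omega⟩
    have h3 := hW 2 h2
    rw [Nat.isUnit_iff] at h3
    omega
  rw [hfm]
  refine Nat.mul_le_mul_right m ?_
  calc 2 ^ a ≤ 2 ^ 4 := Nat.pow_le_pow_right (by norm_num) ha
    _ = 16 := by norm_num

private lemma exists_prime {m g : ℕ} (hm : Squarefree m) (h : ¬ m ∣ g) :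
    ∃ e : ℕ, e.Prime ∧ e ∣ m ∧ ¬ e ∣ g := by
  by_contra hcon
  push Not at hcon
  apply h
  rw [← Nat.prod_primeFactors_of_squarefree hm]
  refine Finset.prod_primes_dvd g ?_ ?_
  · intro p hp
    exact (Nat.prime_of_mem_primeFactors hp).prime
  · intro p hp
    exact hcon p (Nat.prime_of_mem_primeFactors hp) (Nat.dvd_of_mem_primeFactors hp)

theorem exc (B : ℕ) : ∃ N0 : ℕ, ∀ N ≥ N0, ∃ m : ℕ, Odd m ∧ Real.log N ^ B < m ∧ ∀ g : ℕ, 1 ≤ g → ¬ m ∣ g →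
    ∃ e : ℕ, (e = 0 ∨ (e.Prime ∧ ¬ e ∣ g)) ∧ ∀ (A : ℕ) [NeZero A], ¬ e ∣ A →
      8 * ((∏ p ∈ A.primeFactors, p : ℕ) : ℝ) ≤ Real.exp (Real.log N ^ (1 / 2000 : ℝ)) →
      LowM (Real.log N ^ (-(1 / 250) : ℝ)) A := by
  obtain ⟨c, hc0, hc⟩ := page
  obtain ⟨N1, hN1⟩ := exc_big B
  -- the size of `log N`
  have hlog : Filter.Tendsto (fun N : ℕ => Real.log (N : ℝ)) Filter.atTop Filter.atTop :=
    Real.tendsto_log_atTop.comp tendsto_natCast_atTop_atTop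
  have ht1 : Filter.Tendsto (fun N : ℕ => Real.log (N : ℝ) ^ (1 / 2000 : ℝ)) Filter.atTop
      Filter.atTop := (tendsto_rpow_atTop (by norm_num)).comp hlog
  have ht2 : Filter.Tendsto (fun N : ℕ => Real.log (N : ℝ) ^ (-(1 / 500) : ℝ)) Filter.atTop
      (nhds 0) := (tendsto_rpow_neg_atTop (by norm_num)).comp hlog
  have hev := ((ht1.eventually_ge_atTop 2).and (ht2.eventually (gt_mem_nhds hc0))).and
    (hlog.eventually_ge_atTop 1)
  obtain ⟨N2, hN2⟩ := Filter.eventually_atTop.1 hev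
  refine ⟨max N1 N2, fun N hN => ?_⟩
  obtain ⟨⟨hq, hcs⟩, hl1⟩ := hN2 N (le_trans (le_max_right _ _) hN)
  have hbig := hN1 N (le_trans (le_max_left _ _) hN)
  set l : ℝ := Real.log N with hl
  have hl0 : 0 < l := by linarith
  set Q : ℝ := Real.exp (l ^ (1 / 2000 : ℝ)) with hQdef
  set δ : ℝ := l ^ (-(1 / 250) : ℝ) with hδdef
  have hQ3 : 3 ≤ Q := by
    have h1 : (3 : ℝ) ≤ Real.exp 2 := by
      have := Real.add_one_le_exp (2 : ℝ)
      linarith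
    exact h1.trans (Real.exp_le_exp.2 hq)
  have hlogQ : Real.log Q = l ^ (1 / 2000 : ℝ) := Real.log_exp _
  have hδ : δ < c / Real.log Q ^ 4 := by
    rw [hlogQ, ← Real.rpow_natCast (l ^ (1 / 2000 : ℝ)) 4, ← Real.rpow_mul hl0.le]
    have e1 : (1 / 2000 : ℝ) * ((4 : ℕ) : ℝ) = 1 / 500 := by norm_num
    rw [e1, lt_div_iff₀ (Real.rpow_pos_of_pos hl0 _), hδdef, ← Real.rpow_add hl0]
    have e2 : (-(1 / 250) : ℝ) + 1 / 500 = -(1 / 500) := by norm_num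
    rw [e2]
    exact hcs
  by_cases hex : ∃ (d : ℕ) (_ : NeZero d) (χ : DirichletCharacter ℂ d), Excp Q δ d χ
  · obtain ⟨d₁, hd₁, χ₁, hE⟩ := hex
    obtain ⟨a1, a2, a3, a4, W, hW, hdW⟩ := hE
    have hE : Excp Q δ d₁ χ₁ := ⟨a1, a2, a3, a4, W, hW, hdW⟩
    have hf := hbig d₁ χ₁ a1 a2 a3 a4
    obtain ⟨m, hodd, hsq, hmf, hfm⟩ := odd_part (DirichletCharacter.conductor_ne_zero χ₁) hW
      ((DirichletCharacter.conductor_dvd_level χ₁).trans hdW)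
    refine ⟨m, hodd, ?_, ?_⟩
    · have h1 : (χ₁.conductor : ℝ) ≤ 16 * (m : ℝ) := by exact_mod_cast hfm
      linarith
    · intro g _ hmg
      obtain ⟨e, he, hem, heg⟩ := exists_prime hsq hmg
      refine ⟨e, Or.inr ⟨he, heg⟩, ?_⟩
      intro A _ heA hA
      by_contra hlow
      obtain ⟨d, hd, χ, hdA, hE2⟩ := exc_a hA hlow
      apply heA
      have h1 := exc_b hc hQ3 hδ hE hE2
      refine (hem.trans hmf).trans ?_
      rw [h1]
      exact (DirichletCharacter.conductor_dvd_level χ).trans hdA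
  · refine ⟨2 * ⌈l ^ B⌉₊ + 3, ⟨⌈l ^ B⌉₊ + 1, by ring⟩, ?_, ?_⟩
    · push_cast
      have h1 := Nat.le_ceil (l ^ B)
      have h2 : (0 : ℝ) ≤ (⌈l ^ B⌉₊ : ℝ) := Nat.cast_nonneg _
      linarith
    · intro g _ _
      refine ⟨0, Or.inl rfl, ?_⟩
      intro A _ _ hA
      by_contra hlow
      obtain ⟨d, hd, χ, _, hE2⟩ := exc_a hA hlow
      exact hex ⟨d, hd, χ, hE2⟩

end Pool.CM
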