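import Pool.Agent.Lib.MP_c77da8_nt.CM.SysM

/-!
# CM-ExtM: extraction of the geometric progression

PROOF (compare `extract_x` in `CL/ExtL.lean`).  There is `y` with `fP (y + b • psi j (ce E x)) ≠ 0` for all `j`; `z_j = y + b psi_j`; `z_j = z_{j+1} + b • ∑_i E_i(x_i)` (`extL_psi`).  At the
coordinate `q` the sum is (the class of) `v q + kap q ∑_i (x_i q + 1)`, a natural number `≤ v q + (k+2) H`; `e_q = b (..) ≤ E`.  All `(z_j q).val ∈ [E, M - E)`, so
`(z_j q).val = (z_{j+1} q).val + e_q`.  So `mP z_j = mP z_{k+1} · a^(b (k+1-j))`, `a = (∏ q^(v q)) · sM w x`.  `m0 = mP z_{k+1} ≥ 1` (`mP_pos`), `≤ exp (M ∑ log p)` (`mP_le`).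
`sM_two`: some `q ≤ w` in `P` has exponent `≥ 1`.  `sM_le`: exponents `≤ (k+2) H`, `∏_(q ∈ P, q ≤ w) q ≤ primorial w ≤ 4^w ≤ exp (2 w)`.
-/

set_option autoImplicit false

namespace Pool.CM

open Finset Pool.CG Pool.CL

/-- the small factor of the ratio -/
def sM {P : Finset ℕ} {k H : ℕ} (w : ℕ) (x : Fin (k + 2) → Cd P → Fin H) : ℕ :=
  ∏ q : Cd P, if q.1 ≤ w then q.1 ^ (∑ i, ((x i q : ℕ) + 1)) else 1

private theorem extM_exp_le {P : Finset ℕ} {k H : ℕ} (x : Fin (k + 2) → Cd P → Fin H) (q : Cd P) :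
    ∑ i, ((x i q : ℕ) + 1) ≤ (k + 2) * H := by
  calc ∑ i, ((x i q : ℕ) + 1) ≤ ∑ _i : Fin (k + 2), H := Finset.sum_le_sum fun i _ => (x i q).2
    _ = (k + 2) * H := by simp

private theorem extM_exp_ge {P : Finset ℕ} {k H : ℕ} (x : Fin (k + 2) → Cd P → Fin H) (q : Cd P) :
    1 ≤ ∑ i, ((x i q : ℕ) + 1) := by
  have h1 : ((x 0 q : ℕ) + 1) ≤ ∑ i, ((x i q : ℕ) + 1) :=
    Finset.single_le_sum (f := fun i => ((x i q : ℕ) + 1)) (fun i _ => Nat.zero_le _) (Finset.mem_univ 0)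
  omega

theorem sM_two {P : Finset ℕ} {k H : ℕ} (w : ℕ) (hP : ∀ p ∈ P, p.Prime) (hne : ∃ p ∈ P, p ≤ w)
    (x : Fin (k + 2) → Cd P → Fin H) : 2 ≤ sM w x := by
  obtain ⟨p, hp, hpw⟩ := hne
  set q : Cd P := ⟨p, hp⟩ with hq
  have h1 : (if q.1 ≤ w then q.1 ^ (∑ i, ((x i q : ℕ) + 1)) else 1) ≤ sM w x := by
    unfold sM
    refine Finset.single_le_prod' (f := fun q : Cd P => if q.1 ≤ w then q.1 ^ (∑ i, ((x i q : ℕ) + 1)) else 1)
      (fun r _ => ?_) (Finset.mem_univ q)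
    split_ifs
    · exact Nat.one_le_pow _ _ (hP r.1 r.2).pos
    · exact le_refl 1
  have h2 : q.1 ≤ w := hpw
  rw [if_pos h2] at h1
  refine le_trans ?_ h1
  calc 2 ≤ q.1 := (hP q.1 q.2).two_le
    _ = q.1 ^ 1 := (pow_one _).symm
    _ ≤ q.1 ^ (∑ i, ((x i q : ℕ) + 1)) := Nat.pow_le_pow_right (hP q.1 q.2).pos (extM_exp_ge x q)

theorem sM_le {P : Finset ℕ} {k H : ℕ} (w : ℕ) (hP : ∀ p ∈ P, p.Prime) (x : Fin (k + 2) → Cd P → Fin H) :
    (sM w x : ℝ) ≤ Real.exp (2 * w * ((k + 2) * H)) := by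
  have h1 : sM w x ≤ (∏ p ∈ P.filter (fun p => p ≤ w), p) ^ ((k + 2) * H) := by
    have e : (∏ p ∈ P.filter (fun p => p ≤ w), p) = ∏ q : Cd P, (if q.1 ≤ w then q.1 else 1) := by
      rw [Finset.prod_filter]
      exact (Finset.prod_coe_sort P (fun p => if p ≤ w then p else 1)).symm
    rw [e, ← Finset.prod_pow]
    unfold sM
    refine Finset.prod_le_prod' fun q _ => ?_
    split_ifs
    · exact Nat.pow_le_pow_right (hP q.1 q.2).pos (extM_exp_le x q)
    · simp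
  have h2 : (∏ p ∈ P.filter (fun p => p ≤ w), p) ≤ 4 ^ w := by
    refine le_trans ?_ (primorial_le_four_pow w)
    unfold primorial
    refine Finset.prod_le_prod_of_subset_of_one_le' ?_ ?_
    · intro p hp
      rw [mem_filter] at hp ⊢
      exact ⟨mem_range.2 (by omega), hP p hp.1⟩
    · intro p hp _
      exact (mem_filter.1 hp).2.pos
  have h4 : (4 : ℝ) ≤ Real.exp 2 := by
    have h := Real.add_one_le_exp (1 : ℝ)
    have e : Real.exp 2 = Real.exp 1 * Real.exp 1 := by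
      rw [← Real.exp_add]
      norm_num
    rw [e]
    nlinarith
  have h5 : sM w x ≤ (4 ^ w) ^ ((k + 2) * H) := h1.trans (Nat.pow_le_pow_left h2 _)
  calc (sM w x : ℝ) ≤ (((4 ^ w) ^ ((k + 2) * H) : ℕ) : ℝ) := by exact_mod_cast h5
    _ = ((4 : ℝ) ^ w) ^ ((k + 2) * H) := by push_cast; rfl
    _ ≤ ((Real.exp 2) ^ w) ^ ((k + 2) * H) :=
        pow_le_pow_left₀ (by positivity) (pow_le_pow_left₀ (by norm_num) h4 w) _
    _ = Real.exp (2 * w * ((k + 2) * H)) := by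
      rw [← Real.exp_nat_mul, ← Real.exp_nat_mul]
      congr 1
      push_cast
      ring

private theorem extM_pos {P : Finset ℕ} {M : ℕ} (hP : ∀ p ∈ P, p.Prime) (z : GP P M) : 1 ≤ mP P M z := by
  unfold mP
  exact Finset.prod_pos fun (q : Cd P) _ => pow_pos (hP q.1 q.2).pos _

private theorem extM_fP {P : Finset ℕ} {M w R E n : ℕ} {z : GP P M} (h : fP P M w R E n z ≠ 0) :
    (mP P M z * n - 1).Prime ∧ ∀ p, E ≤ (z p).val ∧ (z p).val + E < M := by
  unfold fP at h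
  by_contra hne
  rw [if_neg hne] at h
  exact h rfl

private theorem extM_psi {G : Type} [AddCommGroup G] {k : ℕ} (j j' : Fin k) (x : Fin k → G) :
    psi j x - psi j' x = (((j' : ℕ) : ℤ) - ((j : ℕ) : ℤ)) • ∑ i, x i := by
  unfold psi
  rw [← Finset.sum_sub_distrib, Finset.smul_sum]
  refine Finset.sum_congr rfl fun i _ => ?_
  rw [← sub_smul]
  congr 1
  ring

/-- the exponents of the ratio, without the factor `b` -/
private def extM_s {P : Finset ℕ} {k H : ℕ} (w : ℕ) (v : Cd P → ℕ) (x : Fin (k + 2) → Cd P → Fin H) (q : Cd P) : ℕ :=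
  v q + if q.1 ≤ w then ∑ i, ((x i q : ℕ) + 1) else 0

private theorem extM_s_le {P : Finset ℕ} {k H : ℕ} (w : ℕ) (v : Cd P → ℕ) (x : Fin (k + 2) → Cd P → Fin H)
    (q : Cd P) : extM_s w v x q ≤ v q + (k + 2) * H := by
  unfold extM_s
  split_ifs
  · have := extM_exp_le x q
    omega
  · omega

private theorem extM_sum {P : Finset ℕ} {k w M H : ℕ} (v : Cd P → ℕ) (x : Fin (k + 2) → Cd P → Fin H) (q : Cd P) :
    (∑ i, ce (EM k w M H v) x i) q = ((extM_s w v x q : ℕ) : ZMod M) := by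
  have h0 : (∑ i : Fin (k + 2), (if i = 0 then (v q : ℤ) else 0)) = (v q : ℤ) := by
    rw [Finset.sum_ite_eq' Finset.univ (0 : Fin (k + 2)) (fun _ => (v q : ℤ))]
    simp
  have h1 : (∑ i, ce (EM k w M H v) x i) q =
      (((∑ i : Fin (k + 2), ((if i = 0 then (v q : ℤ) else 0) + kap w q * (((x i q : ℕ) : ℤ) + 1)) : ℤ)) : ZMod M) := by
    rw [Finset.sum_apply, Int.cast_sum]
    rfl
  rw [h1, Finset.sum_add_distrib, h0, ← Finset.mul_sum]
  have h2 : ((v q : ℤ) + kap w q * ∑ i : Fin (k + 2), (((x i q : ℕ) : ℤ) + 1)) = ((extM_s w v x q : ℕ) : ℤ) := by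
    unfold extM_s kap
    split_ifs
    · push_cast
      ring
    · push_cast
      ring
  rw [h2, Int.cast_natCast]

theorem extractY (k w M H : ℕ) [NeZero M] (P : Finset ℕ) (hP : ∀ p ∈ P, p.Prime) (v : Cd P → ℕ) (E b n R : ℕ)
    (hb : 1 ≤ b) (hE : ∀ q, b * (v q + (k + 2) * H) ≤ E) (x : Fin (k + 2) → Cd P → Fin H) (y : GP P M)
    (hy : (∏ j : Fin (k + 2), fP P M w R E n (y + b • psi j (ce (EM k w M H v) x))) ≠ 0) :
    1 ≤ mP P M (y + b • psi (Fin.last (k + 1)) (ce (EM k w M H v) x)) ∧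
      (mP P M (y + b • psi (Fin.last (k + 1)) (ce (EM k w M H v) x)) : ℝ) ≤ Real.exp (M * ∑ p ∈ P, Real.log p) ∧
      ∀ j < k + 2, (n * mP P M (y + b • psi (Fin.last (k + 1)) (ce (EM k w M H v) x)) *
        (((∏ q : Cd P, q.1 ^ v q) * sM w x) ^ b) ^ j - 1).Prime := by
  set z : Fin (k + 2) → GP P M := fun j => y + b • psi j (ce (EM k w M H v) x) with hzdef
  have hz : ∀ j : Fin (k + 2), (mP P M (z j) * n - 1).Prime ∧ ∀ p, E ≤ (z j p).val ∧ (z j p).val + E < M := fun j =>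
    extM_fP ((Finset.prod_ne_zero_iff.mp hy) j (Finset.mem_univ j))
  set L : Fin (k + 2) := Fin.last (k + 1) with hL
  refine ⟨extM_pos hP _, mP_le P M hP _, ?_⟩
  change ∀ j < k + 2, (n * mP P M (z L) * (((∏ q : Cd P, q.1 ^ v q) * sM w x) ^ b) ^ j - 1).Prime
  have hstep : ∀ j j' : Fin (k + 2), (j' : ℕ) = (j : ℕ) + 1 → ∀ q : Cd P,
      (z j q).val = (z j' q).val + b * extM_s w v x q := by
    intro j j' hjj q
    have hlt : (z j' q).val + b * extM_s w v x q < M := by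
      have h1 := ((hz j').2 q).2
      have h2 : b * extM_s w v x q ≤ E := (Nat.mul_le_mul_left b (extM_s_le w v x q)).trans (hE q)
      omega
    have heq : z j q = (((z j' q).val + b * extM_s w v x q : ℕ) : ZMod M) := by
      have hps := congrFun (extM_psi j j' (ce (EM k w M H v) x)) q
      have hd : (((j' : ℕ) : ℤ) - ((j : ℕ) : ℤ)) = 1 := by
        rw [hjj]
        push_cast
        ring
      rw [hd, one_smul, extM_sum] at hps
      rw [Pi.sub_apply] at hps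
      push_cast
      simp only [hzdef, Pi.add_apply, Pi.smul_apply, ZMod.natCast_val, ZMod.cast_id', id]
      have h3 : psi j (ce (EM k w M H v) x) q = psi j' (ce (EM k w M H v) x) q + ((extM_s w v x q : ℕ) : ZMod M) := by
        rw [← hps]
        abel
      rw [h3]
      simp only [nsmul_eq_mul]
      ring
    rw [heq, ZMod.val_natCast, Nat.mod_eq_of_lt hlt]
  have hval : ∀ j : ℕ, ∀ hj : j < k + 2, ∀ q : Cd P,
      (z ⟨k + 1 - j, by omega⟩ q).val = (z L q).val + j * (b * extM_s w v x q) := by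
    intro j
    induction j with
    | zero =>
      intro hj q
      have e : (⟨k + 1 - 0, by omega⟩ : Fin (k + 2)) = L := by
        rw [hL]
        ext
        simp
      rw [e]
      simp
    | succ j ih =>
      intro hj q
      have h1 := ih (by omega) q
      have h2 := hstep ⟨k + 1 - (j + 1), by omega⟩ ⟨k + 1 - j, by omega⟩ (by simp only; omega) q
      rw [h2, h1]
      ring
  intro j hj
  have hmP : mP P M (z ⟨k + 1 - j, by omega⟩) =
      mP P M (z L) * (((∏ q : Cd P, q.1 ^ v q) * sM w x) ^ b) ^ j := by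
    unfold mP sM
    rw [← Finset.prod_mul_distrib, ← Finset.prod_pow, ← Finset.prod_pow, ← Finset.prod_mul_distrib]
    refine Finset.prod_congr rfl fun q _ => ?_
    rw [hval j hj q]
    have e : q.1 ^ extM_s w v x q = q.1 ^ v q * (if q.1 ≤ w then q.1 ^ (∑ i, ((x i q : ℕ) + 1)) else 1) := by
      unfold extM_s
      split_ifs
      · rw [pow_add]
      · rw [add_zero, mul_one]
    rw [← e, pow_add, ← pow_mul, ← pow_mul]
    congr 2
    ring
  have hp := (hz ⟨k + 1 - j, by omega⟩).1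
  rw [hmP] at hp
  have e : n * mP P M (z L) * (((∏ q : Cd P, q.1 ^ v q) * sM w x) ^ b) ^ j =
      mP P M (z L) * (((∏ q : Cd P, q.1 ^ v q) * sM w x) ^ b) ^ j * n := by
    ring
  rw [e]
  exact hp

theorem extractM (k w M H : ℕ) [NeZero M] (P : Finset ℕ) (hP : ∀ p ∈ P, p.Prime) (v : Cd P → ℕ) (E b n R : ℕ)
    (hb : 1 ≤ b) (hE : ∀ q, b * (v q + (k + 2) * H) ≤ E) (x : Fin (k + 2) → Cd P → Fin H)
    (hpos : 0 < av (fun y : GP P M => ∏ j, fP P M w R E n (y + b • psi j (ce (EM k w M H v) x)))) :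
    ∃ m0 : ℕ, 1 ≤ m0 ∧ (m0 : ℝ) ≤ Real.exp (M * ∑ p ∈ P, Real.log p) ∧
      ∀ j < k + 2, (n * m0 * (((∏ q : Cd P, q.1 ^ v q) * sM w x) ^ b) ^ j - 1).Prime := by
  obtain ⟨y, hy⟩ : ∃ y : GP P M, (∏ j : Fin (k + 2), fP P M w R E n (y + b • psi j (ce (EM k w M H v) x))) ≠ 0 := by
    by_contra hcon
    push Not at hcon
    have h0 : av (fun y : GP P M => ∏ j : Fin (k + 2), fP P M w R E n (y + b • psi j (ce (EM k w M H v) x))) =
        av (fun _ : GP P M => (0 : ℝ)) := av_congr hcon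
    rw [h0, av_zero] at hpos
    exact lt_irrefl _ hpos
  exact ⟨_, extractY k w M H P hP v E b n R hb hE x y hy⟩

end Pool.CM
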