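import Pool.Agent.Lib.MP_c77da8_nt.CM.MainM

/-!
# CM-FinM: the theorem, final form

PROOF: `main_dyadicM` for `⌊N/2⌋` and `B + 1` (see `narrow_ratio` in `CL/MainR.lean`): for large `N`, `N' = ⌊N/2⌋` has `log N' ≥ (log N)/2`, so
`(log N')^(B+1) ≥ (log N)^B` and `(log N)^(1/3000) ≤ 2 (log N')^(1/3000)`.
-/

set_option autoImplicit false

namespace Pool.CM

open Finset Pool.CG Pool.CL

theorem final (k : ℕ) : ∃ (T : ℕ) (C c : ℝ), 1 ≤ T ∧ 0 < c ∧ ∀ (B : ℕ) (ε : ℝ), 0 < ε → ∃ N0 : ℕ, ∀ N ≥ N0,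
    ∃ m : ℕ, Odd m ∧ Real.log N ^ B < m ∧ ∀ g : ℕ, 1 ≤ g → ¬ m ∣ g → Real.log g ≤ Real.log N ^ (1 / 3000 : ℝ) →
      ∃ t s : ℕ, 1 ≤ t ∧ t ≤ T ∧ 2 ≤ s ∧ Real.log s ≤ C * Real.log (Real.log N) * Real.log (Real.log (Real.log N)) ∧
        (∃ b : ℕ, 1 ≤ b ∧ Real.log b ≤ (1 + Real.log g) * (Real.log (Real.log N) + Real.log g) ^ (2 + ε) ∧
          c * N / Real.log N ^ (k + 2) ≤ ((open Classical in (Icc 1 N).filter fun n =>
            ∀ j < k + 2, (n * b * ((g * s) ^ t) ^ j - 1).Prime).card : ℝ)) ∧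
        c * N ≤ ((open Classical in (Icc 1 N).filter fun n => ∃ b : ℕ, 1 ≤ b ∧
          Real.log b ≤ (1 + Real.log g) * (Real.log (Real.log N) + Real.log g) ^ (2 + ε) ∧
          ∀ j < k + 2, (n * b * ((g * s) ^ t) ^ j - 1).Prime).card : ℝ) := by
  classical
  obtain ⟨T, C, c, hT, hc, h⟩ := main_dyadicM k
  refine ⟨T, max C 0, c / 3, hT, by positivity, fun B ε hε => ?_⟩
  obtain ⟨N0, h⟩ := h (B + 1) ε hε
  -- `log N ≥ 2 ^ (B + 1)` for `N` large
  obtain ⟨N1, hN1⟩ : ∃ N1 : ℕ, ∀ N ≥ N1, (2 : ℝ) ^ (B + 1) + 20 ≤ Real.log N := by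
    obtain ⟨N1, hN1⟩ := exists_nat_ge (Real.exp (2 ^ (B + 1) + 20))
    refine ⟨N1, fun N hN => ?_⟩
    have h1 : Real.exp (2 ^ (B + 1) + 20) ≤ N := hN1.trans (by exact_mod_cast hN)
    rw [Real.le_log_iff_exp_le ((Real.exp_pos _).trans_le h1)]
    exact h1
  refine ⟨2 * N0 + N1 + 100, fun N hN => ?_⟩
  obtain ⟨m, hm1, hm2, hm3⟩ := h (N / 2) (by omega)
  have hL := hN1 N (by omega)
  have h2B : (0 : ℝ) < 2 ^ (B + 1) := by positivity
  have hle : ((N / 2 : ℕ) : ℝ) ≤ (N : ℝ) := by exact_mod_cast Nat.div_le_self N 2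
  have hpos : (3 : ℝ) ≤ ((N / 2 : ℕ) : ℝ) := by exact_mod_cast (by omega : 3 ≤ N / 2)
  have h3N : (N : ℝ) ≤ 3 * ((N / 2 : ℕ) : ℝ) := by exact_mod_cast (by omega : N ≤ 3 * (N / 2))
  have hN0 : (0 : ℝ) < N := by linarith
  have he3 : Real.log 3 ≤ 2 := by
    rw [Real.log_le_iff_le_exp (by norm_num)]
    have h4 : Real.exp 2 = Real.exp 1 ^ 2 := by
      rw [← Real.exp_nat_mul]
      norm_num
    have h5 := Real.exp_one_gt_d9
    rw [h4]
    nlinarith
  have hlog : Real.log ((N / 2 : ℕ) : ℝ) ≤ Real.log N := Real.log_le_log (by linarith) hle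
  have hlogge : Real.log N - 2 ≤ Real.log ((N / 2 : ℕ) : ℝ) := by
    have h1 := Real.log_le_log hN0 h3N
    rw [Real.log_mul (by norm_num) (by linarith)] at h1
    linarith
  have hhalf : Real.log N / 2 ≤ Real.log ((N / 2 : ℕ) : ℝ) := by linarith
  have hlog1 : (3 : ℝ) ≤ Real.log ((N / 2 : ℕ) : ℝ) := by linarith
  have hll1 : 1 ≤ Real.log (Real.log ((N / 2 : ℕ) : ℝ)) := by
    rw [Real.le_log_iff_exp_le (by linarith)]
    exact (Real.exp_one_lt_d9.le.trans (by norm_num)).trans hlog1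
  have hll : Real.log (Real.log ((N / 2 : ℕ) : ℝ)) ≤ Real.log (Real.log N) :=
    Real.log_le_log (by linarith) hlog
  have hlll0 : 0 ≤ Real.log (Real.log (Real.log ((N / 2 : ℕ) : ℝ))) := Real.log_nonneg hll1
  have hlll : Real.log (Real.log (Real.log ((N / 2 : ℕ) : ℝ))) ≤ Real.log (Real.log (Real.log N)) :=
    Real.log_le_log (by linarith) hll
  refine ⟨m, hm1, ?_, fun g hg1 hmg hg => ?_⟩
  · refine lt_of_le_of_lt ?_ hm2
    have h0 : 0 ≤ Real.log N := by linarith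
    calc Real.log N ^ B = Real.log N ^ B * 2 ^ (B + 1) / 2 ^ (B + 1) := by field_simp
      _ ≤ Real.log N ^ B * Real.log N / 2 ^ (B + 1) := by
          refine div_le_div_of_nonneg_right (mul_le_mul_of_nonneg_left (by linarith) (by positivity)) h2B.le
      _ = (Real.log N / 2) ^ (B + 1) := by rw [div_pow, pow_succ (Real.log N)]
      _ ≤ Real.log ((N / 2 : ℕ) : ℝ) ^ (B + 1) := pow_le_pow_left₀ (by linarith) hhalf _
  · have h0 : 0 ≤ Real.log N := by linarith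
    have h1 : Real.log N ^ (1 / 3000 : ℝ) ≤ 2 * Real.log ((N / 2 : ℕ) : ℝ) ^ (1 / 3000 : ℝ) := by
      calc Real.log N ^ (1 / 3000 : ℝ) ≤ (2 * Real.log ((N / 2 : ℕ) : ℝ)) ^ (1 / 3000 : ℝ) :=
            Real.rpow_le_rpow h0 (by linarith) (by norm_num)
        _ = (2 : ℝ) ^ (1 / 3000 : ℝ) * Real.log ((N / 2 : ℕ) : ℝ) ^ (1 / 3000 : ℝ) :=
            Real.mul_rpow (by norm_num) (by linarith)
        _ ≤ 2 * Real.log ((N / 2 : ℕ) : ℝ) ^ (1 / 3000 : ℝ) := by
            refine mul_le_mul_of_nonneg_right ?_ (by positivity)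
            calc (2 : ℝ) ^ (1 / 3000 : ℝ) ≤ (2 : ℝ) ^ (1 : ℝ) :=
                  Real.rpow_le_rpow_of_exponent_le (by norm_num) (by norm_num)
              _ = 2 := Real.rpow_one 2
    obtain ⟨t, s, ht1, htT, hs2, hs, ⟨b0, hb01, hb02, hb0card⟩, hcard⟩ := hm3 g hg1 hmg (hg.trans h1)
    have hg0 : 0 ≤ Real.log (g : ℝ) := Real.log_natCast_nonneg g
    have hbb : ∀ b : ℕ, Real.log b ≤
        (1 + Real.log g) * (Real.log (Real.log ((N / 2 : ℕ) : ℝ)) + Real.log g) ^ (2 + ε) →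
        Real.log b ≤ (1 + Real.log g) * (Real.log (Real.log N) + Real.log g) ^ (2 + ε) := by
      intro b hb
      refine hb.trans (mul_le_mul_of_nonneg_left ?_ (by linarith))
      exact Real.rpow_le_rpow (by linarith) (by linarith) (by linarith)
    refine ⟨t, s, ht1, htT, hs2, ?_, ⟨b0, hb01, hbb b0 hb02, ?_⟩, ?_⟩
    · refine hs.trans ?_
      have h2 : C * Real.log (Real.log ((N / 2 : ℕ) : ℝ)) ≤ max C 0 * Real.log (Real.log N) := by
        calc C * Real.log (Real.log ((N / 2 : ℕ) : ℝ)) ≤ max C 0 * Real.log (Real.log ((N / 2 : ℕ) : ℝ)) :=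
              mul_le_mul_of_nonneg_right (le_max_left _ _) (by linarith)
          _ ≤ max C 0 * Real.log (Real.log N) := mul_le_mul_of_nonneg_left hll (le_max_right _ _)
      calc C * Real.log (Real.log ((N / 2 : ℕ) : ℝ)) * Real.log (Real.log (Real.log ((N / 2 : ℕ) : ℝ)))
          ≤ max C 0 * Real.log (Real.log N) * Real.log (Real.log (Real.log ((N / 2 : ℕ) : ℝ))) :=
            mul_le_mul_of_nonneg_right h2 hlll0
        _ ≤ max C 0 * Real.log (Real.log N) * Real.log (Real.log (Real.log N)) := by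
            refine mul_le_mul_of_nonneg_left hlll ?_
            have : 0 ≤ Real.log (Real.log N) := by linarith
            positivity
    · have h4 : c / 3 * N / Real.log N ^ (k + 2) ≤ c * ((N / 2 : ℕ) : ℝ) / Real.log ((N / 2 : ℕ) : ℝ) ^ (k + 2) := by
        refine div_le_div₀ (by positivity) ?_ (by positivity) (pow_le_pow_left₀ (by linarith) hlog _)
        have := mul_le_mul_of_nonneg_left h3N hc.le
        linarith
      refine h4.trans (hb0card.trans ?_)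
      norm_cast
      refine card_le_card fun n hn => ?_
      rw [mem_filter, mem_Ico] at hn
      rw [mem_filter, mem_Icc]
      exact ⟨⟨by omega, by omega⟩, hn.2⟩
    · have h4 : c / 3 * N ≤ c * ((N / 2 : ℕ) : ℝ) := by
        have := mul_le_mul_of_nonneg_left h3N hc.le
        linarith
      refine h4.trans (hcard.trans ?_)
      norm_cast
      refine card_le_card fun n hn => ?_
      rw [mem_filter, mem_Ico] at hn
      rw [mem_filter, mem_Icc]
      obtain ⟨hn1, b, hb1, hb2, hb3⟩ := hn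
      exact ⟨⟨by omega, by omega⟩, b, hb1, hbb b hb2, hb3⟩

end Pool.CM
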