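import Pool.Agent.Lib.MP_c77da8_nt.CM.CubeB

/-!
# CM-MixM: most `n` satisfy `MixOK` for all numbers of copies up to `m`

PROOF.  The number of the `e : Fin (k+2) → Fin n → ℤ` with `|e| ≤ B` is at most `(2B+1)^((k+2) n)`; `cubeM` for every `n ≤ m` with
`δ' = δ / ((m + 1) (2B+1)^((k+2) m))`, thresholds: maxima over `n ≤ m`.  For the `n'` outside of the union of the exceptional sets, `MixOK` holds with
`Z = ZC P H n`, `Θ = Cd P → Bool`, `pt = ptC H`, `sh = shC w M H`, `base = baC H` (`mix_law`, `mix_eq`).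
-/

set_option autoImplicit false

namespace Pool.CM

open Finset Pool.CG Pool.CL

private theorem mix_card (k B n m : ℕ) (hn : n ≤ m) :
    ((Fintype.piFinset fun _ : Fin (k + 2) => Fintype.piFinset fun _ : Fin n =>
      Icc (-(B : ℤ)) (B : ℤ)).card : ℝ) ≤ (2 * (B : ℝ) + 1) ^ ((k + 2) * m) := by
  have h1 : (Fintype.piFinset fun _ : Fin (k + 2) => Fintype.piFinset fun _ : Fin n =>
      Icc (-(B : ℤ)) (B : ℤ)).card = (2 * B + 1) ^ (n * (k + 2)) := by
    simp only [Fintype.card_piFinset, Int.card_Icc, prod_const, card_univ, Fintype.card_fin]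
    rw [← pow_mul]
    congr 1
    omega
  rw [h1]
  push_cast
  refine pow_le_pow_right₀ ?_ ?_
  · have : (0 : ℝ) ≤ (B : ℝ) := Nat.cast_nonneg B
    linarith
  · rw [Nat.mul_comm (k + 2) m]
    exact Nat.mul_le_mul_right _ hn

theorem mix_most (k t D H B m : ℕ) (hB : 1 ≤ B) (ht : 2 * ((k + 2) * 2 ^ (k + 2)) ≤ t) (hH : 4 * B ≤ H)
    (hD : B * (k + 1) ≤ D) (ρ η δ : ℝ) (hρm : 1 - 1 / 2 ^ (m + 1) ≤ ρ) (hρ1 : ρ < 1) (hη : 0 < η) (hδ : 0 < δ) :
    ∃ w0 M0 N0 : ℕ, ∀ w ≥ w0, ∀ M ≥ M0, ∀ N ≥ N0, ∀ (V : ℕ) (P : Finset ℕ) [NeZero M], ParM t D V w M N ρ P →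
      ∀ v : Cd P → ℕ, ((open Classical in (Ico N (2 * N)).filter fun n' =>
        ¬ ∀ n ≤ m, MixOK k B n η (EM k w M H v) (nuP P M w (Rt t N) n')).card : ℝ) ≤ δ * N := by
  classical
  have hH0 : NeZero H := ⟨by omega⟩
  set c : ℝ := (2 * (B : ℝ) + 1) ^ ((k + 2) * m) with hc
  have hBr : (0 : ℝ) ≤ (B : ℝ) := Nat.cast_nonneg B
  have hc0 : 0 < c := by rw [hc]; positivity
  have hδ' : 0 < δ / (((m : ℝ) + 1) * c) := by positivity
  have key : ∀ n : ℕ, ∃ w0 M0 N0 : ℕ, n ≤ m → ∀ w ≥ w0, ∀ M ≥ M0, ∀ N ≥ N0, ∀ (V : ℕ) (P : Finset ℕ) [NeZero M],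
      ParM t D V w M N ρ P →
      ∀ e : Fin (k + 2) → Fin n → ℤ, (∀ s l, |e s l| ≤ (B : ℤ)) →
      (((Ico N (2 * N)).filter fun n' =>
        ¬ LFav η (cubM (nuP P M w (Rt t N) n') B (shC (P := P) (n := n) w M H) e)).card : ℝ) ≤
          δ / (((m : ℝ) + 1) * c) * N := by
    intro n
    by_cases hn : n ≤ m
    · have h2 : (1 : ℝ) - 1 / 2 ^ (n + 1) ≤ ρ := by
        refine le_trans ?_ hρm
        have h3 : (2 : ℝ) ^ (n + 1) ≤ 2 ^ (m + 1) := pow_le_pow_right₀ (by norm_num) (by omega)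
        have h4 : (1 : ℝ) / 2 ^ (m + 1) ≤ 1 / 2 ^ (n + 1) := one_div_le_one_div_of_le (by positivity) h3
        linarith
      obtain ⟨w0, M0, N0, h⟩ := cubeM k t D H B n hB ht hH hD ρ η (δ / (((m : ℝ) + 1) * c)) h2 hρ1 hη hδ'
      refine ⟨w0, M0, N0, fun _ w hw M hM N hN V P _ hP e he => ?_⟩
      have := h w hw M hM N hN V P hP e he
      convert this using 3
    · exact ⟨0, 0, 0, fun h => absurd h hn⟩
  choose w0 M0 N0 h using key
  refine ⟨(range (m + 1)).sup w0, (range (m + 1)).sup M0, (range (m + 1)).sup N0, ?_⟩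
  intro w hw M hM N hN V P _ hP v
  have hsub : ((Ico N (2 * N)).filter fun n' =>
        ¬ ∀ n ≤ m, MixOK k B n η (EM k w M H v) (nuP P M w (Rt t N) n')) ⊆
      (range (m + 1)).biUnion fun n =>
        (Fintype.piFinset fun _ : Fin (k + 2) => Fintype.piFinset fun _ : Fin n =>
          Icc (-(B : ℤ)) (B : ℤ)).biUnion fun e =>
            (Ico N (2 * N)).filter fun n' =>
              ¬ LFav η (cubM (nuP P M w (Rt t N) n') B (shC (P := P) (n := n) w M H) e) := by
    intro n' hn'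
    rw [mem_filter] at hn'
    obtain ⟨hI, hbad⟩ := hn'
    by_contra hcon
    apply hbad
    intro n hn
    refine ⟨ZC P H n, Cd P → Bool, inferInstance, inferInstance, inferInstance, inferInstance,
      ptC H, shC w M H, baC H, fun e F => mix_law H e F, fun e z θ l i => mix_eq k w M H v e z θ l i, ?_⟩
    intro e he
    by_contra hl
    apply hcon
    rw [mem_biUnion]
    refine ⟨n, mem_range.2 (by omega), ?_⟩
    rw [mem_biUnion]
    refine ⟨e, ?_, ?_⟩
    · rw [Fintype.mem_piFinset]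
      intro s
      rw [Fintype.mem_piFinset]
      intro l
      rw [mem_Icc]
      exact abs_le.1 (he s l)
    · rw [mem_filter]
      exact ⟨hI, hl⟩
  have hN0 : (0 : ℝ) ≤ (N : ℝ) := Nat.cast_nonneg N
  have hinner : ∀ n ∈ range (m + 1),
      (((Fintype.piFinset fun _ : Fin (k + 2) => Fintype.piFinset fun _ : Fin n =>
          Icc (-(B : ℤ)) (B : ℤ)).biUnion fun e =>
            (Ico N (2 * N)).filter fun n' =>
              ¬ LFav η (cubM (nuP P M w (Rt t N) n') B (shC (P := P) (n := n) w M H) e)).card : ℝ) ≤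
        c * (δ / (((m : ℝ) + 1) * c) * N) := by
    intro n hn
    have hnm : n ≤ m := by rw [mem_range] at hn; omega
    have hw1 : w ≥ w0 n := le_trans (Finset.le_sup (f := w0) hn) hw
    have hM1 : M ≥ M0 n := le_trans (Finset.le_sup (f := M0) hn) hM
    have hN1 : N ≥ N0 n := le_trans (Finset.le_sup (f := N0) hn) hN
    calc (((Fintype.piFinset fun _ : Fin (k + 2) => Fintype.piFinset fun _ : Fin n =>
          Icc (-(B : ℤ)) (B : ℤ)).biUnion fun e =>
            (Ico N (2 * N)).filter fun n' =>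
              ¬ LFav η (cubM (nuP P M w (Rt t N) n') B (shC (P := P) (n := n) w M H) e)).card : ℝ)
        ≤ ((∑ e ∈ (Fintype.piFinset fun _ : Fin (k + 2) => Fintype.piFinset fun _ : Fin n =>
          Icc (-(B : ℤ)) (B : ℤ)), ((Ico N (2 * N)).filter fun n' =>
              ¬ LFav η (cubM (nuP P M w (Rt t N) n') B (shC (P := P) (n := n) w M H) e)).card : ℕ) : ℝ) := by
          exact_mod_cast card_biUnion_le
      _ = ∑ e ∈ (Fintype.piFinset fun _ : Fin (k + 2) => Fintype.piFinset fun _ : Fin n =>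
          Icc (-(B : ℤ)) (B : ℤ)), ((((Ico N (2 * N)).filter fun n' =>
              ¬ LFav η (cubM (nuP P M w (Rt t N) n') B (shC (P := P) (n := n) w M H) e)).card : ℕ) : ℝ) := by
          push_cast
          rfl
      _ ≤ ∑ _e ∈ (Fintype.piFinset fun _ : Fin (k + 2) => Fintype.piFinset fun _ : Fin n =>
          Icc (-(B : ℤ)) (B : ℤ)), (δ / (((m : ℝ) + 1) * c) * N) := by
          refine sum_le_sum fun e he => ?_
          refine h n hnm w hw1 M hM1 N hN1 V P hP e fun s l => ?_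
          rw [Fintype.mem_piFinset] at he
          have h1 := he s
          rw [Fintype.mem_piFinset] at h1
          have h2 := h1 l
          rw [mem_Icc] at h2
          exact abs_le.2 h2
      _ = ((Fintype.piFinset fun _ : Fin (k + 2) => Fintype.piFinset fun _ : Fin n =>
          Icc (-(B : ℤ)) (B : ℤ)).card : ℝ) * (δ / (((m : ℝ) + 1) * c) * N) := by
          rw [sum_const, nsmul_eq_mul]
      _ ≤ c * (δ / (((m : ℝ) + 1) * c) * N) := by
          refine mul_le_mul_of_nonneg_right (mix_card k B n m hnm) ?_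
          exact mul_nonneg hδ'.le hN0
  calc (((Ico N (2 * N)).filter fun n' =>
        ¬ ∀ n ≤ m, MixOK k B n η (EM k w M H v) (nuP P M w (Rt t N) n')).card : ℝ)
      ≤ (((range (m + 1)).biUnion fun n =>
        (Fintype.piFinset fun _ : Fin (k + 2) => Fintype.piFinset fun _ : Fin n =>
          Icc (-(B : ℤ)) (B : ℤ)).biUnion fun e =>
            (Ico N (2 * N)).filter fun n' =>
              ¬ LFav η (cubM (nuP P M w (Rt t N) n') B (shC (P := P) (n := n) w M H) e)).card : ℝ) := by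
        exact_mod_cast card_le_card hsub
    _ ≤ ∑ n ∈ range (m + 1), (((Fintype.piFinset fun _ : Fin (k + 2) => Fintype.piFinset fun _ : Fin n =>
          Icc (-(B : ℤ)) (B : ℤ)).biUnion fun e =>
            (Ico N (2 * N)).filter fun n' =>
              ¬ LFav η (cubM (nuP P M w (Rt t N) n') B (shC (P := P) (n := n) w M H) e)).card : ℝ) := by
        exact_mod_cast card_biUnion_le
    _ ≤ ∑ _n ∈ range (m + 1), c * (δ / (((m : ℝ) + 1) * c) * N) := sum_le_sum hinner
    _ = δ * N := by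
        rw [sum_const, card_range, nsmul_eq_mul]
        push_cast
        field_simp

end Pool.CM
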