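import Pool.Agent.Lib.MP_c77da8_nt.CM.Defs
import Pool.Agent.Lib.MP_c77da8_nt.CG.Strong

/-!
# CM-GvnM: the generalised von Neumann inequality for `ν - 1`, averaged over an abstract parameter `y : Y`

PROOF: as `gvn_loc`, `lfav_av` in `CL/Gvn.lean`, with `F y i t = if i = 0 then ν y t else 1` (`F y i t ≥ 0`, `Ind i (F y i)`).
`Pool.CG.strong K (τ/2)` gives `η₁`, `lfav_good K η₁ (τ/16)` gives `η₂`; `η = min η₂ (τ/16)`.
-/

set_option autoImplicit false

namespace Pool.CM

open Finset Pool.CG Pool.CL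

/-- the average of `ν` is close to `1` in mean square -/
theorem gvnM_av (k : ℕ) (η : ℝ) {Y Θ : Type} [Fintype Y] [Fintype Θ] [Nonempty Θ]
    (ν : Y → (Fin (k + 2) → Θ) → ℝ) (h : LFav η (fun y (i : Fin (k + 2)) t => if i = 0 then ν y t else 1)) :
    av (fun y : Y => (av (ν y) - 1) ^ 2) ≤ η := by
  have h1 := h {(0, ∅)} (by
    intro p hp
    rw [mem_singleton] at hp
    subst hp
    simp)
  refine le_trans (le_of_eq ?_) h1
  refine av_congr fun y => ?_
  congr 2
  simp only [prod_singleton, mix_empty, if_true]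
  exact (av_fst (Ω' := Fin (k + 2) → Θ) (fun x : Fin (k + 2) → Θ => ν y x)).symm

private theorem GvnM_ind {k : ℕ} {Θ : Type} {ν : (Fin (k + 2) → Θ) → ℝ} (h : Ind 0 ν)
    (i : Fin (k + 2)) : Ind i (fun t => if i = 0 then ν t else 1) := by
  intro x v
  by_cases hi : i = 0
  · subst hi
    simp only [if_true]
    exact h x v
  · simp only [if_neg hi]

theorem gvnM (k : ℕ) (τ : ℝ) (hτ : 0 < τ) : ∃ η : ℝ, 0 < η ∧
    ∀ (Y Θ : Type) [Fintype Y] [Nonempty Y] [Fintype Θ] [Nonempty Θ] (ν : Y → (Fin (k + 2) → Θ) → ℝ),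
      (∀ y t, 0 ≤ ν y t) → (∀ y, Ind 0 (ν y)) →
      LFav η (fun y (i : Fin (k + 2)) t => if i = 0 then ν y t else 1) →
      ∀ U : Y → Fin (k + 2) → (Fin (k + 2) → Θ) → ℝ, (∀ y i x, |U y i x| ≤ 1) → (∀ y i, Ind i (U y i)) →
        |av (fun y : Y => av (fun t : Fin (k + 2) → Θ => (ν y t - 1) * ∏ i ∈ univ.erase 0, U y i t))| ≤ τ := by
  obtain ⟨η₁, hη₁, H⟩ := strong (Fin (k + 2)) (τ / 2) (half_pos hτ)
  obtain ⟨η₂, hη₂, H2⟩ := lfav_good (Fin (k + 2)) η₁ (τ / 16) hη₁ (by linarith)
  refine ⟨min η₂ (τ / 16), lt_min hη₂ (by linarith), ?_⟩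
  intro Y Θ _ _ _ _ ν hν hI hLF U hU hInd
  have hsq := (gvnM_av k _ ν hLF).trans (min_le_right _ _)
  have hbad := H2 Y Θ (fun y (i : Fin (k + 2)) t => if i = 0 then ν y t else 1)
    (hLF.mono (min_le_left _ _))
  have hprod : ∀ (y : Y) (t : Fin (k + 2) → Θ), |∏ i ∈ univ.erase 0, U y i t| ≤ 1 := by
    intro y t
    rw [Finset.abs_prod]
    exact prod_le_one (fun i _ => abs_nonneg _) fun i _ => hU y i t
  classical
  have key : ∀ y : Y, |av (fun t : Fin (k + 2) → Θ =>
      (ν y t - 1) * ∏ i ∈ univ.erase 0, U y i t)| ≤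
      τ / 2 + (av (ν y) - 1) ^ 2 +
        3 * (if LF η₁ ((fun y (i : Fin (k + 2)) t => if i = 0 then ν y t else 1) y) then (0 : ℝ) else 1) := by
    intro y
    by_cases hy : LF η₁ ((fun y (i : Fin (k + 2)) t => if i = 0 then ν y t else 1) y)
    · rw [if_pos hy]
      have h := H Θ (fun (i : Fin (k + 2)) t => if i = 0 then ν y t else 1)
        (fun i x => by
          split_ifs
          · exact hν y x
          · exact zero_le_one)
        (fun i => GvnM_ind (hI y) i) hy 0 ∅ ∅ (U y) (fun _ _ => 1) (hInd y) (fun i => Ind.const i 1)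
        (fun i x => by
          unfold nuA
          rw [if_neg (Finset.notMem_empty i)]
          exact hU y i x)
        (fun i x => by
          unfold nuA
          rw [if_neg (Finset.notMem_empty i)]
          simp)
      simp only [mul_one, if_true] at h
      rw [av_fst (Ω' := Θ) (fun t : Fin (k + 2) → Θ =>
        (ν y t - 1) * ∏ i ∈ univ.erase 0, U y i t)] at h
      have := sq_nonneg (av (ν y) - 1)
      linarith
    · rw [if_neg hy]
      have h1 : |av (fun t : Fin (k + 2) → Θ =>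
          (ν y t - 1) * ∏ i ∈ univ.erase 0, U y i t)| ≤
          av (fun t : Fin (k + 2) → Θ => ν y t + 1) := by
        refine abs_av_le_of fun t => ?_
        rw [abs_mul]
        have h2 := hν y t
        have h3 : |ν y t - 1| ≤ ν y t + 1 := by
          rw [abs_le]
          constructor <;> linarith
        calc |ν y t - 1| * |∏ i ∈ univ.erase 0, U y i t|
            ≤ |ν y t - 1| * 1 :=
              mul_le_mul_of_nonneg_left (hprod y t) (abs_nonneg _)
          _ ≤ _ := by rw [mul_one]; exact h3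
      rw [av_add, av_const] at h1
      have h4 : av (fun t : Fin (k + 2) → Θ => ν y t) = av (ν y) := rfl
      rw [h4] at h1
      nlinarith [sq_nonneg (av (ν y) - 3 / 2)]
  refine (abs_av_le_of key).trans ?_
  rw [av_add, av_add, av_const, av_const_mul]
  linarith

end Pool.CM
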