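import Pool.Agent.Lib.MP_c77da8_nt.CM.Defs
import Pool.Agent.Lib.MP_c77da8_nt.CG.Basic

/-!
# CM-LawM: product laws

PROOF.  Replace the coordinates one by one: for a finset `S` of `K` the statement
`av_ζ av_θ av_v F (fun s => if s ∈ S then p s (ζ s) (θ s) else v s) = av F` (average over `ζ : K → Z`, `θ : K → Θ`, `v : K → V`),
by induction on `S`.  `S = ∅`: `av_const`.  Step `insert j S`, `j ∉ S`: for fixed `ζ, θ, v` outside the coordinate `j`
(`Pool.CG.av_update j`, for `ζ`, for `θ` and for `v`) use `h j` for the function `a ↦ F (Function.update .. j a)`.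
(Alternative: count the fibres: by `h` for the indicator of `a : V`, `#{(z, θ) | p s z θ = a} * card V = card Z * card Θ` for all
`a`; then `∑_(g : K → Z × Θ) F (fun s => p s (g s).1 (g s).2) = ∑_(v : K → V) F v ∏_s #{(z, θ) | p s z θ = v s}`.)
-/

set_option autoImplicit false

namespace Pool.CM

open Finset Pool.CG Pool.CL

private theorem law_aux {K W V : Type} [Fintype K] [DecidableEq K] [Fintype W] [Nonempty W]
    [Fintype V] [Nonempty V] (q : K → W → V)
    (h : ∀ (s : K) (F : V → ℝ), av (fun w : W => F (q s w)) = av F) (F : (K → V) → ℝ) :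
    av (fun g : K → W => F (fun s => q s (g s))) = av F := by
  classical
  have hW : (Fintype.card W : ℝ) ≠ 0 := by exact_mod_cast Fintype.card_ne_zero
  have hV : (Fintype.card V : ℝ) ≠ 0 := by exact_mod_cast Fintype.card_ne_zero
  have hc : ∀ (s : K) (a : V), ((univ.filter fun w : W => q s w = a).card : ℝ) =
      Fintype.card W / Fintype.card V := by
    intro s a
    have h1 := h s (fun b => if b = a then 1 else 0)
    unfold av at h1
    rw [sum_boole, sum_boole] at h1
    have h2 : (univ.filter fun b : V => b = a) = {a} := by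
      ext b
      simp
    rw [h2, card_singleton] at h1
    field_simp at h1 ⊢
    push_cast at h1
    linarith
  have hcard : ∀ v : K → V, ((univ.filter fun g : K → W => (fun s => q s (g s)) = v).card : ℝ) =
      (Fintype.card W / Fintype.card V) ^ Fintype.card K := by
    intro v
    have h1 : (univ.filter fun g : K → W => (fun s => q s (g s)) = v) =
        Fintype.piFinset fun s => univ.filter fun w : W => q s w = v s := by
      ext g
      simp only [mem_filter, mem_univ, true_and, Fintype.mem_piFinset]
      exact funext_iff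
    rw [h1, Fintype.card_piFinset]
    push_cast
    simp only [hc, prod_const, card_univ]
  unfold av
  have h1 : (∑ g : K → W, F (fun s => q s (g s))) =
      ∑ v : K → V, ∑ g ∈ univ.filter (fun g : K → W => (fun s => q s (g s)) = v), F v := by
    rw [← sum_fiberwise (univ : Finset (K → W)) (fun g : K → W => (fun s => q s (g s)))
      (fun g => F (fun s => q s (g s)))]
    refine sum_congr rfl fun v _ => sum_congr rfl fun g hg => ?_
    rw [(mem_filter.1 hg).2]
  rw [h1]
  simp only [sum_const, nsmul_eq_mul, hcard]
  rw [← mul_sum]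
  have h2 : (Fintype.card (K → W) : ℝ) = (Fintype.card W : ℝ) ^ Fintype.card K := by
    rw [Fintype.card_fun]
    push_cast
    rfl
  have h3 : (Fintype.card (K → V) : ℝ) = (Fintype.card V : ℝ) ^ Fintype.card K := by
    rw [Fintype.card_fun]
    push_cast
    rfl
  rw [h2, h3, div_pow]
  have h4 : (Fintype.card W : ℝ) ^ Fintype.card K ≠ 0 := pow_ne_zero _ hW
  have h5 : (Fintype.card V : ℝ) ^ Fintype.card K ≠ 0 := pow_ne_zero _ hV
  field_simp

theorem law_pi {K Z Θ V : Type} [Fintype K] [DecidableEq K] [Fintype Z] [Nonempty Z] [Fintype Θ] [Nonempty Θ]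
    [Fintype V] [Nonempty V] (p : K → Z → Θ → V)
    (h : ∀ (s : K) (F : V → ℝ), av (fun z : Z => av (fun θ : Θ => F (p s z θ))) = av F) (F : (K → V) → ℝ) :
    av (fun ζ : K → Z => av (fun θ : K → Θ => F (fun s => p s (ζ s) (θ s)))) = av F := by
  have h1 := law_aux (W := Z × Θ) (fun s w => p s w.1 w.2)
    (fun s G => by
      rw [av_prod]
      exact h s G) F
  rw [← h1, ← av_prod (fun x : (K → Z) × (K → Θ) => F (fun s => p s (x.1 s) (x.2 s))),
    ← av_equiv (Equiv.arrowProdEquivProdArrow K (fun _ => Z) (fun _ => Θ))]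
  rfl

end Pool.CM
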