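import Pool.Agent.Lib.MP_dd84fd_nt.SW.Siegel
import Pool.Agent.Lib.MP_c77da8_nt.CM.Defs

/-!
# CM-LevM: `L(1, χ)` and a change of the level

PROOF.  `DirichletCharacter.LFunction_changeLevel`: `L(1, χ') = L(1, χ) ∏_(p ∣ M) (1 - χ(p)/p)`, and the product is at most `ω(M) + 1` and at least
`1/(ω(M) + 1)` in absolute value, `ω(M) + 1 ≤ 2 ell M 0` (private lemmas `prod_bounds`, `prod_norm`, `omega_le` of `SW/Siegel.lean`: copy them and see how they are used in
`siegel`).
-/

set_option autoImplicit false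

namespace Pool.CM

open Finset Pool.CG Pool.CL Pool.MP_dd84fd_nt.SW

private theorem levM_prod_bounds (S : Finset ℕ) : (∀ p ∈ S, 2 ≤ p) →
    ∏ p ∈ S, (1 + 1 / (p : ℝ)) ≤ S.card + 1 ∧
      1 / ((S.card : ℝ) + 1) ≤ ∏ p ∈ S, (1 - 1 / (p : ℝ)) := by
  induction S using Finset.induction_on_max with
  | empty => intro _; simp
  | insert a s hs ih =>
    intro h
    have hi := ih fun p hp => h p (Finset.mem_insert_of_mem hp)
    have ha : a ∉ s := fun hh => lt_irrefl _ (hs a hh)
    have ha2 : 2 ≤ a := h a (Finset.mem_insert_self _ _)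
    have hcard : s.card + 2 ≤ a := by
      have h1 : s ⊆ Finset.Ico 2 a := fun x hx =>
        Finset.mem_Ico.mpr ⟨h x (Finset.mem_insert_of_mem hx), hs x hx⟩
      have h2 := Finset.card_le_card h1
      rw [Nat.card_Ico] at h2
      omega
    have hcR : (s.card : ℝ) + 2 ≤ a := by exact_mod_cast hcard
    have hk : (0 : ℝ) ≤ s.card := by positivity
    have hinv : 1 / (a : ℝ) ≤ 1 / ((s.card : ℝ) + 2) :=
      one_div_le_one_div_of_le (by linarith) hcR
    rw [Finset.prod_insert ha, Finset.prod_insert ha, Finset.card_insert_of_notMem ha]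
    push_cast
    constructor
    · calc (1 + 1 / (a : ℝ)) * ∏ p ∈ s, (1 + 1 / (p : ℝ))
          ≤ (1 + 1 / ((s.card : ℝ) + 2)) * (s.card + 1) := by
            refine mul_le_mul (by linarith) hi.1 (Finset.prod_nonneg fun p _ => by positivity)
              (by positivity)
        _ ≤ (s.card : ℝ) + 1 + 1 := by
            have : 1 / ((s.card : ℝ) + 2) * (s.card + 1) ≤ 1 := by
              rw [div_mul_eq_mul_div, div_le_one (by linarith)]
              linarith
            linarith
    · calc 1 / ((s.card : ℝ) + 1 + 1) = (1 - 1 / ((s.card : ℝ) + 2)) * (1 / ((s.card : ℝ) + 1)) := by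
            field_simp
            ring
        _ ≤ (1 - 1 / (a : ℝ)) * ∏ p ∈ s, (1 - 1 / (p : ℝ)) := by
            have h3 : 1 / ((s.card : ℝ) + 2) ≤ 1 := by
              rw [div_le_one (by linarith)]
              linarith
            refine mul_le_mul (by linarith) hi.2 (by positivity) ?_
            linarith

private theorem levM_prod_norm {q : ℕ} (χ : DirichletCharacter ℂ q) (N : ℕ) :
    ‖∏ p ∈ N.primeFactors, (1 - χ p * (p : ℂ) ^ (-(1 : ℂ)))‖ ≤ N.primeFactors.card + 1 ∧
      1 / ((N.primeFactors.card : ℝ) + 1) ≤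
        ‖∏ p ∈ N.primeFactors, (1 - χ p * (p : ℂ) ^ (-(1 : ℂ)))‖ := by
  have hb := levM_prod_bounds N.primeFactors fun p hp => (Nat.prime_of_mem_primeFactors hp).two_le
  have hterm : ∀ p : ℕ, ‖χ p * (p : ℂ) ^ (-(1 : ℂ))‖ ≤ 1 / (p : ℝ) := by
    intro p
    rw [norm_mul, Complex.cpow_neg_one, norm_inv, Complex.norm_natCast, one_div]
    exact mul_le_of_le_one_left (by positivity) (DirichletCharacter.norm_le_one χ _)
  rw [norm_prod]
  constructor
  · refine le_trans (Finset.prod_le_prod (fun p _ => norm_nonneg _) fun p _ => ?_) hb.1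
    refine (norm_sub_le _ _).trans ?_
    rw [norm_one]
    linarith [hterm p]
  · refine le_trans hb.2 (Finset.prod_le_prod (fun p hp => ?_) fun p _ => ?_)
    · have h2 : (2 : ℝ) ≤ p := by exact_mod_cast (Nat.prime_of_mem_primeFactors hp).two_le
      have : 1 / (p : ℝ) ≤ 1 := by
        rw [div_le_one (by linarith)]
        linarith
      linarith
    · have := norm_sub_norm_le (1 : ℂ) (χ p * (p : ℂ) ^ (-(1 : ℂ)))
      rw [norm_one] at this
      linarith [hterm p]

private theorem levM_omega_le (N : ℕ) (hN : N ≠ 0) :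
    (N.primeFactors.card : ℝ) + 1 ≤ 2 * ell N 0 := by
  have h1 : 2 ^ N.primeFactors.card ≤ N := by
    have h2 : 2 ^ N.primeFactors.card ≤ ∏ p ∈ N.primeFactors, p := by
      rw [← Finset.prod_const]
      exact Finset.prod_le_prod' fun p hp => (Nat.prime_of_mem_primeFactors hp).two_le
    exact h2.trans (Nat.le_of_dvd (Nat.pos_of_ne_zero hN) (Nat.prod_primeFactors_dvd N))
  have hN0 : (0 : ℝ) < N := by exact_mod_cast Nat.pos_of_ne_zero hN
  have h3 : (N.primeFactors.card : ℝ) * Real.log 2 ≤ Real.log N := by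
    rw [← Real.log_pow]
    exact Real.log_le_log (by positivity) (by exact_mod_cast h1)
  have h4 : Real.log N + Real.log 2 ≤ ell N 0 := by
    rw [← Real.log_mul hN0.ne' two_ne_zero, ell, abs_zero, zero_add]
    exact Real.log_le_log (by positivity) (by nlinarith)
  have h5 : 1 / 2 ≤ Real.log 2 := by
    have := Real.log_two_gt_d9
    linarith
  have h6 : ((N.primeFactors.card : ℝ) + 1) * Real.log 2 ≤ ell N 0 := by linarith
  have h7 : 0 ≤ (N.primeFactors.card : ℝ) + 1 := by positivity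
  nlinarith

theorem lev_bounds (q N : ℕ) [NeZero q] [NeZero N] (hd : q ∣ N) (χ : DirichletCharacter ℂ q) (hχ : χ ≠ 1) :
    ‖(DirichletCharacter.changeLevel hd χ).LFunction 1‖ ≤ 2 * ell N 0 * ‖χ.LFunction 1‖ ∧
      ‖χ.LFunction 1‖ ≤ 2 * ell N 0 * ‖(DirichletCharacter.changeLevel hd χ).LFunction 1‖ := by
  have hL : (DirichletCharacter.changeLevel hd χ).LFunction 1 = χ.LFunction 1 *
      ∏ p ∈ N.primeFactors, (1 - χ p * (p : ℂ) ^ (-(1 : ℂ))) :=
    DirichletCharacter.LFunction_changeLevel hd χ (Or.inl hχ)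
  have hω := levM_omega_le N (NeZero.ne N)
  have hω1 : (1 : ℝ) ≤ (N.primeFactors.card : ℝ) + 1 := by
    have : (0 : ℝ) ≤ N.primeFactors.card := by positivity
    linarith
  obtain ⟨h1, h2⟩ := levM_prod_norm χ N
  have h0 : 0 ≤ ‖χ.LFunction 1‖ := norm_nonneg _
  rw [hL, norm_mul]
  set P : ℝ := ‖∏ p ∈ N.primeFactors, (1 - χ p * (p : ℂ) ^ (-(1 : ℂ)))‖ with hP
  constructor
  · rw [mul_comm (2 * ell N 0)]
    exact mul_le_mul_of_nonneg_left (h1.trans hω) h0
  · have h3 : 1 ≤ 2 * ell N 0 * P := by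
      have h4 : 1 ≤ ((N.primeFactors.card : ℝ) + 1) * P := by
        rw [div_le_iff₀ (by linarith)] at h2
        linarith
      exact h4.trans (mul_le_mul_of_nonneg_right hω (norm_nonneg _))
    calc ‖χ.LFunction 1‖ = ‖χ.LFunction 1‖ * 1 := (mul_one _).symm
      _ ≤ ‖χ.LFunction 1‖ * (2 * ell N 0 * P) := mul_le_mul_of_nonneg_left h3 h0
      _ = 2 * ell N 0 * (‖χ.LFunction 1‖ * P) := by ring

end Pool.CM
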