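import Pool.Agent.Lib.MP_c77da8_nt.CM.SvB
import Pool.Agent.Lib.MP_c77da8_nt.CM.SvC
import Pool.Agent.Lib.MP_c77da8_nt.CG.RtF

/-!
# CM-LfCM: the linear forms estimate, the part where two of the multipliers coincide

PROOF: copy `lf_coin` (`CL/LfC.lean`), with `crudeq`, `VVq_le`, `prodq_le` in place of `crude`, `VV_le`, `prodPr_le`, `Q` in place of `Pr w R`.
-/

set_option autoImplicit false

namespace Pool.CM

open Finset Pool.CG Pool.CL

theorem lf_coinM (t : ℕ) (ht : 1 ≤ t) (ρ η : ℝ) (hη : 0 < η) :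
    ∃ N0 : ℕ, ∀ N ≥ N0, ∀ w M : ℕ, 1 ≤ w → ∀ Q : Finset ℕ, Q ⊆ Pr w (Rt t N) →
      ∀ (Ω : Type) [Fintype Ω] [Nonempty Ω] (I : Type) [Fintype I]
      [DecidableEq I], Fintype.card I ≤ t → ∀ A : I → Ω → ℕ, (∀ i ω, 1 ≤ A i ω) →
      (∀ i ω, ∀ p ∈ Q, ¬ p ∣ A i ω) →
      (∀ i j, i ≠ j → PairM Q M ρ (Real.log N ^ (9 ^ t + t + 1)) (A i) (A j)) →
      av (fun ω => open Classical in if Function.Injective (fun i => A i ω) then 0 else
        (∑ n ∈ Ico N (2 * N), ∏ i, nuq Q (Rt t N) (A i ω * n - 1)) / N + 1) ≤ η := by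
  classical
  obtain ⟨C1, hC1, hVV⟩ := VVq_le
  obtain ⟨C2, hC2, hPP⟩ := prodq_le
  obtain ⟨N1, hN1⟩ := Rt_facts t ht
  -- the constant
  let K : ℝ := 2 * t * C1 ^ t * C2 ^ (9 ^ t) + 1
  have hC10 : 0 < C1 := by linarith
  have hC20 : 0 < C2 := by linarith
  have ht0 : (0:ℝ) < t := by exact_mod_cast ht
  have hK : 0 < K := by positivity
  obtain ⟨N2, hN2⟩ : ∃ N2 : ℕ, ∀ N ≥ N2, max 1 (t ^ 2 * K / η) ≤ Real.log N := by
    have := (Real.tendsto_log_atTop.comp tendsto_natCast_atTop_atTop).eventually_ge_atTop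
      (max 1 (t ^ 2 * K / η))
    exact Filter.eventually_atTop.mp this
  refine ⟨max 1 (max N1 N2), ?_⟩
  intro N hN w M hw1 Q hQ Ω _ _ I _ _ hI A hA1 hAw hz
  have hNN1 : N ≥ N1 := le_trans (le_trans (le_max_left _ _) (le_max_right _ _)) hN
  have hNN2 : N ≥ N2 := le_trans (le_trans (le_max_right _ _) (le_max_right _ _)) hN
  have hNpos : 1 ≤ N := le_trans (le_max_left _ _) hN
  obtain ⟨hR3, _, hR2t, _, hlogR, _⟩ := hN1 N hNN1
  set R : ℕ := Rt t N with hR
  set L : ℝ := Real.log N with hL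
  have hL1 : 1 ≤ L := (le_max_left _ _).trans (hN2 N hNN2)
  have hL2 : t ^ 2 * K / η ≤ L := (le_max_right _ _).trans (hN2 N hNN2)
  have hL0 : 0 < L := by linarith
  -- the bound for every ω
  have hX : ∀ ω : Ω, ¬ Function.Injective (fun i => A i ω) →
      (∑ n ∈ Ico N (2 * N), ∏ i, nuq Q R (A i ω * n - 1)) / N + 1 ≤ K * L ^ (t + 9 ^ t) := by
    intro ω hω
    have hne : Nonempty I := by
      by_contra h
      rw [not_nonempty_iff] at h
      exact hω (fun i => h.elim i)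
    have hcr := crudeq w R hw1 (by omega) Q hQ I (fun i => A i ω)
      (fun i => hA1 i ω)
      (fun i p hp => hAw i ω p hp) N
      (le_trans (Nat.pow_le_pow_right (by omega) (by omega)) hR2t)
    have e1 : (∑ n ∈ Ico N (2 * N), ∏ i, nuq Q R ((fun i => A i ω) i * n - 1)) =
        ∑ n ∈ Ico N (2 * N), ∏ i, nuq Q R (A i ω * n - 1) := rfl
    rw [e1] at hcr
    set s := Fintype.card I with hs
    have hs1 : 1 ≤ s := Fintype.card_pos
    have hVpos : 0 < VV (vq Q) R := VVq_pos w R Q hQ (by omega)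
    have hlogR1 : Real.log R ≤ L := hlogR
    have hlogR0 : 0 ≤ Real.log R := Real.log_nonneg (by exact_mod_cast (by omega : 1 ≤ R))
    have hV : VV (vq Q) R ≤ C1 * L :=
      (hVV w R Q hQ hw1 (by omega)).trans (mul_le_mul_of_nonneg_left hlogR1 hC10.le)
    have hCL1 : 1 ≤ C1 * L := by nlinarith
    have hCL2 : 1 ≤ C2 * L := by nlinarith
    have hV2 : VV (vq Q) R ^ s ≤ (C1 * L) ^ t :=
      (pow_le_pow_left₀ hVpos.le hV s).trans (pow_le_pow_right₀ hCL1 hI)
    have hP1 : ∏ p ∈ Q, (1 + 9 ^ s / (p : ℝ)) ≤ (C2 * L) ^ (9 ^ t) := by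
      have h1 := hPP w R (9 ^ s) Q hQ hw1 hR3
      have h2 : ∏ p ∈ Q, (1 + ((9 ^ s : ℕ) : ℝ) / (p : ℝ)) = ∏ p ∈ Q, (1 + 9 ^ s / (p : ℝ)) := by
        push_cast; rfl
      rw [h2] at h1
      refine h1.trans ?_
      have h3 : (C2 * Real.log R) ^ (9 ^ s) ≤ (C2 * L) ^ (9 ^ s) :=
        pow_le_pow_left₀ (by positivity) (mul_le_mul_of_nonneg_left hlogR1 hC20.le) _
      exact h3.trans (pow_le_pow_right₀ hCL2 (Nat.pow_le_pow_right (by norm_num) hI))
    have hP0 : 0 ≤ ∏ p ∈ Q, (1 + 9 ^ s / (p : ℝ)) := Finset.prod_nonneg fun p _ => by positivity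
    have hst : (s : ℝ) ≤ t := by exact_mod_cast hI
    have h4 : 2 * (s : ℝ) * VV (vq Q) R ^ s * ∏ p ∈ Q, (1 + 9 ^ s / (p : ℝ)) ≤
        2 * t * (C1 * L) ^ t * (C2 * L) ^ (9 ^ t) := by
      have h5 : 0 ≤ VV (vq Q) R ^ s := by positivity
      have h6 : 2 * (s : ℝ) * VV (vq Q) R ^ s ≤ 2 * t * (C1 * L) ^ t :=
        mul_le_mul (by linarith) hV2 h5 (by positivity)
      exact mul_le_mul h6 hP1 hP0 (by positivity)
    have h7 : 2 * (t:ℝ) * (C1 * L) ^ t * (C2 * L) ^ (9 ^ t) = (2 * t * C1 ^ t * C2 ^ (9 ^ t)) * L ^ (t + 9 ^ t) := by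
      rw [mul_pow, mul_pow, pow_add]; ring
    have h8 : 1 ≤ L ^ (t + 9 ^ t) := one_le_pow₀ hL1
    have h9 : K * L ^ (t + 9 ^ t) = (2 * t * C1 ^ t * C2 ^ (9 ^ t)) * L ^ (t + 9 ^ t) + L ^ (t + 9 ^ t) := by
      simp only [K]; ring
    rw [h9, ← h7]
    linarith
  -- the number of the ω with a coincidence
  let Bd : Finset Ω := univ.filter fun ω => ¬ Function.Injective (fun i => A i ω)
  let B : ℝ := L ^ (9 ^ t + t + 1)
  have hBpos : 0 < B := by positivity
  have hcount : (Bd.card : ℝ) * B ≤ t ^ 2 * Fintype.card Ω := by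
    have h1 : Bd ⊆ (univ : Finset I).offDiag.biUnion
        (fun ij => univ.filter fun ω => A ij.1 ω = A ij.2 ω) := by
      intro ω hω
      have h2 := (mem_filter.mp hω).2
      rw [Function.Injective] at h2
      push Not at h2
      obtain ⟨i, j, hij, hne⟩ := h2
      rw [mem_biUnion]
      exact ⟨(i, j), mem_offDiag.mpr ⟨mem_univ _, mem_univ _, hne⟩, mem_filter.mpr ⟨mem_univ _, hij⟩⟩
    have h2 : (Bd.card : ℝ) ≤ ∑ ij ∈ (univ : Finset I).offDiag,
        ((univ.filter fun ω => A ij.1 ω = A ij.2 ω).card : ℝ) := by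
      exact_mod_cast (card_le_card h1).trans card_biUnion_le
    have h3 : ∀ ij ∈ (univ : Finset I).offDiag,
        ((univ.filter fun ω => A ij.1 ω = A ij.2 ω).card : ℝ) * B ≤ Fintype.card Ω := by
      intro ij hij
      have := (hz ij.1 ij.2 (mem_offDiag.mp hij).2.2).1
      convert this
    calc (Bd.card : ℝ) * B ≤ (∑ ij ∈ (univ : Finset I).offDiag,
          ((univ.filter fun ω => A ij.1 ω = A ij.2 ω).card : ℝ)) * B :=
          mul_le_mul_of_nonneg_right h2 hBpos.le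
      _ = ∑ ij ∈ (univ : Finset I).offDiag,
          ((univ.filter fun ω => A ij.1 ω = A ij.2 ω).card : ℝ) * B := Finset.sum_mul _ _ _
      _ ≤ ∑ _ij ∈ (univ : Finset I).offDiag, (Fintype.card Ω : ℝ) := Finset.sum_le_sum h3
      _ = ((univ : Finset I).offDiag.card : ℝ) * Fintype.card Ω := by
          rw [Finset.sum_const, nsmul_eq_mul]
      _ ≤ t ^ 2 * Fintype.card Ω := by
          refine mul_le_mul_of_nonneg_right ?_ (Nat.cast_nonneg _)
          have h4 : (univ : Finset I).offDiag.card ≤ t ^ 2 := by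
            rw [offDiag_card, card_univ]
            have h5 : Fintype.card I * Fintype.card I ≤ t * t := Nat.mul_le_mul hI hI
            rw [sq]; omega
          exact_mod_cast h4
  have hBL : L ^ (t + 9 ^ t) * L ≤ B := by
    refine le_of_eq ?_
    show L ^ (t + 9 ^ t) * L = L ^ (9 ^ t + t + 1)
    rw [pow_succ, add_comm t]
  -- the average
  unfold av
  have hΩ : (0:ℝ) < Fintype.card Ω := by exact_mod_cast Fintype.card_pos
  rw [div_le_iff₀ hΩ]
  have hsum : ∑ ω : Ω, (if Function.Injective (fun i => A i ω) then (0:ℝ) else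
        (∑ n ∈ Ico N (2 * N), ∏ i, nuq Q R (A i ω * n - 1)) / N + 1) ≤
      Bd.card * (K * L ^ (t + 9 ^ t)) := by
    rw [← Finset.sum_filter_add_sum_filter_not univ (fun ω => Function.Injective (fun i => A i ω))]
    have h1 : ∑ ω ∈ univ.filter (fun ω => Function.Injective (fun i => A i ω)),
        (if Function.Injective (fun i => A i ω) then (0:ℝ) else
        (∑ n ∈ Ico N (2 * N), ∏ i, nuq Q R (A i ω * n - 1)) / N + 1) = 0 :=
      Finset.sum_eq_zero fun ω hω => if_pos (mem_filter.mp hω).2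
    rw [h1, zero_add]
    refine (Finset.sum_le_card_nsmul _ _ (K * L ^ (t + 9 ^ t)) ?_).trans (le_of_eq ?_)
    · intro ω hω
      have h2 := (mem_filter.mp hω).2
      rw [if_neg h2]
      exact hX ω h2
    · rw [nsmul_eq_mul]
  refine le_trans (le_of_eq ?_) (hsum.trans ?_)
  · refine Finset.sum_congr rfl fun ω _ => ?_
    congr
  have h1 : t ^ 2 * K ≤ η * L := by
    rw [div_le_iff₀ hη] at hL2
    linarith
  have hLp : 0 < L ^ (t + 9 ^ t) := by positivity
  -- Bd.card * L^(..) * L ≤ t^2 |Ω|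
  have h2 : (Bd.card : ℝ) * (L ^ (t + 9 ^ t) * L) ≤ t ^ 2 * Fintype.card Ω :=
    (mul_le_mul_of_nonneg_left hBL (Nat.cast_nonneg _)).trans hcount
  have h3 : (Bd.card * (K * L ^ (t + 9 ^ t))) * L ≤ (η * Fintype.card Ω) * L := by
    calc (Bd.card * (K * L ^ (t + 9 ^ t))) * L = K * (Bd.card * (L ^ (t + 9 ^ t) * L)) := by ring
      _ ≤ K * (t ^ 2 * Fintype.card Ω) := mul_le_mul_of_nonneg_left h2 hK.le
      _ = (t ^ 2 * K) * Fintype.card Ω := by ring
      _ ≤ (η * L) * Fintype.card Ω := mul_le_mul_of_nonneg_right h1 hΩ.le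
      _ = (η * Fintype.card Ω) * L := by ring
  exact le_of_mul_le_mul_right h3 hL0

end Pool.CM
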