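import Pool.Agent.Lib.MP_c77da8_nt.CM.LfDM
import Pool.Agent.Lib.MP_c77da8_nt.CM.LfCM

/-!
# CM-LfAM: the linear forms estimate for random multipliers

PROOF: copy `lf_abs` (`CL/LfA.lean`).
-/

set_option autoImplicit false

namespace Pool.CM

open Finset Pool.CG Pool.CL

theorem lf_absM (t : ℕ) (ht : 1 ≤ t) (ρ η : ℝ) (hρ : 0 < ρ) (hρ1 : ρ < 1) (hη : 0 < η) :
    ∃ w0 M0 N0 : ℕ, ∀ w ≥ w0, ∀ M ≥ M0, ∀ N ≥ N0, ∀ Q : Finset ℕ, Q ⊆ Pr w (Rt t N) →
      ∀ (Ω : Type) [Fintype Ω] [Nonempty Ω] (I : Type) [Fintype I]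
      [DecidableEq I], Fintype.card I ≤ t → ∀ A : I → Ω → ℕ, (∀ i ω, 1 ≤ A i ω) →
      (∀ i ω, (A i ω : ℝ) ≤ Real.exp ((M : ℝ) ^ 2)) → (∀ i ω, ∀ p ∈ Q, ¬ p ∣ A i ω) →
      (∀ i j, i ≠ j → PairM Q M ρ (Real.log N ^ (9 ^ t + t + 1)) (A i) (A j)) →
      |av (fun ω => (∑ n ∈ Ico N (2 * N), ∏ i, nuq Q (Rt t N) (A i ω * n - 1)) / N) - 1| ≤ η := by
  obtain ⟨w1, M1, N1, h1⟩ := lf_distM t ht ρ (η / 2) hρ hρ1 (by positivity)
  obtain ⟨N2, h2⟩ := lf_coinM t ht ρ (η / 2) (by positivity)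
  refine ⟨max w1 1, M1, max N1 N2, fun w hw M hM N hN Q hQ Ω _ _ I _ _ hI A hA1 hAs hAp hP => ?_⟩
  have e1 := h1 w ((le_max_left _ _).trans hw) M hM N ((le_max_left _ _).trans hN) Q hQ Ω I hI A hA1 hAs hAp hP
  have e2 := h2 N ((le_max_right _ _).trans hN) w M ((le_max_right _ _).trans hw) Q hQ Ω I hI A hA1 hAp hP
  set X : Ω → ℝ := fun ω => (∑ n ∈ Ico N (2 * N), ∏ i, nuq Q (Rt t N) (A i ω * n - 1)) / N with hX
  have hX0 : ∀ ω, 0 ≤ X ω := fun ω => div_nonneg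
    (Finset.sum_nonneg fun n _ => Finset.prod_nonneg fun i _ => nuq_nonneg _ w _ _ hQ) (Nat.cast_nonneg _)
  have e3 : av X - 1 = av (fun ω => X ω - 1) := by
    rw [av_sub, av_const]
  rw [e3]
  classical
  calc |av (fun ω => X ω - 1)| ≤ av (fun ω =>
        (if Function.Injective (fun i => A i ω) then |X ω - 1| else 0) +
          (if Function.Injective (fun i => A i ω) then 0 else X ω + 1)) := by
        refine abs_av_le_of fun ω => ?_
        split_ifs
        · rw [add_zero]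
        · rw [zero_add, abs_le]
          have := hX0 ω
          constructor <;> linarith
    _ = av (fun ω => if Function.Injective (fun i => A i ω) then |X ω - 1| else 0) +
        av (fun ω => if Function.Injective (fun i => A i ω) then 0 else X ω + 1) := av_add _ _
    _ ≤ η / 2 + η / 2 := by
        refine add_le_add ?_ ?_
        · convert e1 using 3
        · convert e2 using 3
    _ = η := by ring

end Pool.CM
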