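import Pool.Agent.Lib.MP_c77da8_nt.CM.SvA
import Pool.Agent.Lib.MP_c77da8_nt.CG.Comp
import Pool.Agent.Lib.MP_c77da8_nt.CG.TauB

/-!
# CM-SvD: the average over `n` of a product of weights, sieve by an arbitrary set `Q` of primes in `(w, R]`

PROOF: copy `main1` (`CG/Main1.lean`), with its private lemmas, with `Q` in place of `Pr w R`, `vq Q` in place of `vp w R`,
`xiq`, `nuq`, `badq` in place of `xi`, `nuw`, `bad`, `cntq` in place of `cnt`: only `Q ⊆ Pr w R` is used (the elements are primes, `> w`; the sum of `1/p^2` over `Q` is at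
most the sum over `Pr w R`).
-/

set_option autoImplicit false

namespace Pool.CM

open Finset Pool.CG Pool.CL

private theorem SvD_prime (Q : Finset ℕ) (hQ1 : ∀ p ∈ Q, p.Prime) (p : {p // p ∈ Q}) : p.1.Prime :=
  hQ1 p.1 p.2

private theorem SvD_two (Q : Finset ℕ) (hQ1 : ∀ p ∈ Q, p.Prime) (p : {p // p ∈ Q}) : 2 ≤ vq Q p :=
  (hQ1 p.1 p.2).two_le

private theorem SvD_nm_inj (Q : Finset ℕ) (hQ1 : ∀ p ∈ Q, p.Prime) (D D' : Finset {p // p ∈ Q})
    (h : nm (vq Q) D = nm (vq Q) D') : D = D' := by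
  have key : ∀ E : Finset {p // p ∈ Q}, (nm (vq Q) E).primeFactors =
      E.map ⟨Subtype.val, Subtype.val_injective⟩ := by
    intro E
    have h1 : nm (vq Q) E = ∏ p ∈ E.map ⟨Subtype.val, Subtype.val_injective⟩, p := by
      rw [Finset.prod_map]
      rfl
    rw [h1]
    apply Nat.primeFactors_prod
    intro p hp
    obtain ⟨q, _, rfl⟩ := Finset.mem_map.1 hp
    exact SvD_prime Q hQ1 q
  have h2 : D.map ⟨Subtype.val, Subtype.val_injective⟩ =
      D'.map ⟨Subtype.val, Subtype.val_injective⟩ := by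
    rw [← key D, ← key D', h]
  exact Finset.map_injective _ h2

private theorem SvD_sum_eight (Q : Finset ℕ) (hQ1 : ∀ p ∈ Q, p.Prime) (R : ℕ) :
    ∑ D ∈ univ.filter (fun D : Finset {p // p ∈ Q} => nm (vq Q) D ≤ R ^ 2), (8 : ℝ) ^ D.card ≤
      (R : ℝ) ^ 8 := by
  classical
  have h1 : ∀ D : Finset {p // p ∈ Q}, (8 : ℝ) ^ D.card ≤ ((nm (vq Q) D : ℕ) : ℝ) ^ 3 := by
    intro D
    have h2 : (2 : ℝ) ^ D.card ≤ ((nm (vq Q) D : ℕ) : ℝ) := by
      unfold nm
      rw [Nat.cast_prod, ← Finset.prod_const]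
      exact Finset.prod_le_prod (fun _ _ => by norm_num)
        fun p _ => by exact_mod_cast SvD_two Q hQ1 p
    calc (8 : ℝ) ^ D.card = ((2 : ℝ) ^ D.card) ^ 3 := by
          rw [← pow_mul, mul_comm, pow_mul]; norm_num
      _ ≤ _ := pow_le_pow_left₀ (by positivity) h2 3
  have hpos : ∀ D : Finset {p // p ∈ Q}, 1 ≤ nm (vq Q) D := by
    intro D
    unfold nm
    exact Finset.one_le_prod' fun p _ => by have := SvD_two Q hQ1 p; omega
  calc ∑ D ∈ univ.filter (fun D : Finset {p // p ∈ Q} => nm (vq Q) D ≤ R ^ 2), (8 : ℝ) ^ D.card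
      ≤ ∑ D ∈ univ.filter (fun D : Finset {p // p ∈ Q} => nm (vq Q) D ≤ R ^ 2),
        ((nm (vq Q) D : ℕ) : ℝ) ^ 3 := Finset.sum_le_sum fun D _ => h1 D
    _ = ∑ m ∈ (univ.filter (fun D : Finset {p // p ∈ Q} => nm (vq Q) D ≤ R ^ 2)).image
        (fun D => nm (vq Q) D), (m : ℝ) ^ 3 := by
        rw [Finset.sum_image]
        intro D _ D' _ h
        exact SvD_nm_inj Q hQ1 D D' h
    _ ≤ ∑ m ∈ Icc 1 (R ^ 2), (m : ℝ) ^ 3 := by
        apply Finset.sum_le_sum_of_subset_of_nonneg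
        · intro m hm
          obtain ⟨D, hD, rfl⟩ := Finset.mem_image.1 hm
          rw [Finset.mem_Icc]
          exact ⟨hpos D, (Finset.mem_filter.1 hD).2⟩
        · intro m _ _
          positivity
    _ ≤ ∑ m ∈ Icc 1 (R ^ 2), ((R : ℝ) ^ 2) ^ 3 := by
        apply Finset.sum_le_sum
        intro m hm
        have h3 : (m : ℝ) ≤ (R : ℝ) ^ 2 := by exact_mod_cast (Finset.mem_Icc.1 hm).2
        exact pow_le_pow_left₀ (by positivity) h3 3
    _ = (R : ℝ) ^ 8 := by
        rw [Finset.sum_const, Nat.card_Icc, nsmul_eq_mul, Nat.add_sub_cancel]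
        push_cast
        ring

private theorem SvD_tau_sum (Q : Finset ℕ) (hQ1 : ∀ p ∈ Q, p.Prime) (R : ℕ) (hR : 1 ≤ R) :
    ∑ D : Finset {p // p ∈ Q}, |tau (vq Q) R D| ≤ (R : ℝ) ^ 8 := by
  classical
  refine le_trans ?_ (SvD_sum_eight Q hQ1 R)
  rw [Finset.sum_filter]
  apply Finset.sum_le_sum
  intro D _
  split_ifs with h
  · exact tau_le (vq Q) (SvD_two Q hQ1) R hR D
  · rw [tau_zero (vq Q) (SvD_two Q hQ1) R D (by omega), abs_zero]

/-- the expansion of the sum over `n` -/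
private theorem SvD_expand (Q : Finset ℕ) (R : ℕ) (I : Type) [Fintype I] [DecidableEq I] (A : I → ℕ) (N : ℕ) :
    ∑ n ∈ Ico N (2 * N), ∏ i, nuq Q R (A i * n - 1) =
      VV (vq Q) R ^ Fintype.card I * ∑ D : I → Finset {p // p ∈ Q},
        (∏ i, tau (vq Q) R (D i)) *
          (((Ico N (2 * N)).filter fun n => ∀ i, ∀ p ∈ D i, p.1 ∣ A i * n - 1).card : ℝ) := by
  classical
  have h1 : ∀ n ∈ Ico N (2 * N), ∏ i, nuq Q R (A i * n - 1) =
      VV (vq Q) R ^ Fintype.card I * ∑ D : I → Finset {p // p ∈ Q},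
        (∏ i, tau (vq Q) R (D i)) *
          (if ∀ i, ∀ p ∈ D i, p.1 ∣ A i * n - 1 then 1 else 0) := by
    intro n _
    unfold nuq
    rw [Finset.prod_mul_distrib, Finset.prod_const, Finset.card_univ]
    congr 1
    have h2 : ∀ i, Lam (vq Q) R (xiq Q (A i * n - 1)) ^ 2 =
        ∑ D : Finset {p // p ∈ Q},
          tau (vq Q) R D * (if ∀ p ∈ D, p.1 ∣ A i * n - 1 then 1 else 0) := by
      intro i
      rw [tau_inv]
      have h3 : (xiq Q (A i * n - 1)).powerset =
          univ.filter (fun D : Finset {p // p ∈ Q} => ∀ p ∈ D, p.1 ∣ A i * n - 1) := by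
        ext D
        rw [Finset.mem_powerset, Finset.mem_filter]
        constructor
        · intro h
          refine ⟨Finset.mem_univ _, fun p hp => ?_⟩
          have := h hp
          unfold xiq at this
          exact (Finset.mem_filter.1 this).2
        · intro h p hp
          unfold xiq
          exact Finset.mem_filter.2 ⟨Finset.mem_univ _, h.2 p hp⟩
      rw [h3, Finset.sum_filter]
      refine Finset.sum_congr rfl fun D _ => ?_
      split_ifs <;> simp
    rw [Finset.prod_congr rfl fun i _ => h2 i, Finset.prod_univ_sum]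
    rw [Fintype.piFinset_univ]
    refine Finset.sum_congr rfl fun D _ => ?_
    rw [Finset.prod_mul_distrib]
    congr 1
    rw [Finset.prod_ite_zero]
    simp
  rw [Finset.sum_congr rfl h1, ← Finset.mul_sum]
  congr 1
  rw [Finset.sum_comm]
  refine Finset.sum_congr rfl fun D _ => ?_
  rw [← Finset.mul_sum]
  congr 1
  rw [Finset.sum_ite, Finset.sum_const_zero, add_zero, Finset.sum_const, nsmul_eq_mul, mul_one]

private theorem SvD_tail (w R : ℕ) (hw : 1 ≤ w) :
    ∑ p ∈ Pr w R, 1 / (p : ℝ) ^ 2 ≤ 1 / (w : ℝ) := by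
  have h0 : Pr w R ⊆ Ioc w (max w R) := by
    intro p hp
    unfold Pr at hp
    rw [mem_filter, mem_Icc] at hp
    rw [mem_Ioc]
    exact ⟨hp.2.2, hp.1.2.trans (le_max_right _ _)⟩
  refine (Finset.sum_le_sum_of_subset_of_nonneg h0 fun _ _ _ => by positivity).trans ?_
  have key : ∀ m, w ≤ m → ∑ p ∈ Ioc w m, 1 / (p : ℝ) ^ 2 ≤ 1 / (w : ℝ) - 1 / (m : ℝ) := by
    intro m hm
    induction m, hm using Nat.le_induction with
    | base => simp
    | succ m hm ih =>
      rw [Finset.sum_Ioc_succ_top hm]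
      have hm1 : (1 : ℝ) ≤ m := by exact_mod_cast hw.trans hm
      have : 1 / ((m + 1 : ℕ) : ℝ) ^ 2 ≤ 1 / (m : ℝ) - 1 / ((m + 1 : ℕ) : ℝ) := by
        push_cast
        rw [div_sub_div _ _ (by positivity) (by positivity), div_le_div_iff₀ (by positivity) (by positivity)]
        nlinarith
      linarith
  refine (key _ (le_max_left _ _)).trans ?_
  have : (0 : ℝ) ≤ 1 / ((max w R : ℕ) : ℝ) := by positivity
  linarith

theorem main1q (w R : ℕ) (hw : 1 ≤ w) (hR : 1 ≤ R) (Q : Finset ℕ) (hQ : Q ⊆ Pr w R) (I : Type) [Fintype I]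
    [DecidableEq I] (A : I → ℕ) (hA : ∀ i, 1 ≤ A i) (hcop : ∀ i, ∀ p ∈ Q, ¬ p ∣ A i) (N : ℕ) (hN : 1 ≤ N) :
    |(∑ n ∈ Ico N (2 * N), ∏ i, nuq Q R (A i * n - 1)) / N - 1| ≤
      Real.exp (16 ^ Fintype.card I * (1 / w + badq A Q)) - 1 +
        VV (vq Q) R ^ Fintype.card I * (R : ℝ) ^ (8 * Fintype.card I) / N := by
  classical
  have hQ1 : ∀ p ∈ Q, p.Prime := fun p hp => (mem_filter.1 (hQ hp)).2.1
  have hN0 : (0 : ℝ) < N := by exact_mod_cast hN
  have hV := VV_pos (vq Q) (SvD_two Q hQ1) R hR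
  set V := VV (vq Q) R with hVdef
  set t := Fintype.card I with ht
  set T : (I → Finset {p // p ∈ Q}) → ℝ := fun D => ∏ i, tau (vq Q) R (D i) with hT
  set c : (I → Finset {p // p ∈ Q}) → ℝ := fun D =>
    (((Ico N (2 * N)).filter fun n => ∀ i, ∀ p ∈ D i, p.1 ∣ A i * n - 1).card : ℝ) with hc
  set ρ : (I → Finset {p // p ∈ Q}) → ℝ := fun D =>
    ∏ p : {p // p ∈ Q}, rho A p.1 (univ.filter fun i => p ∈ D i) with hρ
  set e : {p // p ∈ Q} → ℝ := fun p =>
    1 / (p.1 : ℝ) ^ 2 + (if ∃ i j, i ≠ j ∧ A i ≡ A j [MOD p.1] then 1 / (p.1 : ℝ) else 0) with he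
  have hexp : ∑ n ∈ Ico N (2 * N), ∏ i, nuq Q R (A i * n - 1) = V ^ t * ∑ D, T D * c D :=
    SvD_expand Q R I A N
  -- first error
  have hE1 : |V ^ t * (∑ D, T D * c D) / N - V ^ t * ∑ D, T D * ρ D| ≤
      V ^ t * (R : ℝ) ^ (8 * t) / N := by
    have h1 : V ^ t * (∑ D, T D * c D) / N - V ^ t * ∑ D, T D * ρ D =
        V ^ t * ∑ D, T D * (c D / N - ρ D) := by
      rw [mul_div_assoc, ← mul_sub, Finset.sum_div, ← Finset.sum_sub_distrib]
      congr 1
      refine Finset.sum_congr rfl fun D _ => ?_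
      ring
    rw [h1, abs_mul, abs_of_pos (pow_pos hV t), mul_div_assoc]
    refine mul_le_mul_of_nonneg_left ?_ (pow_pos hV t).le
    have h2 : ∀ D, |T D * (c D / N - ρ D)| ≤ |T D| * (1 / N) := by
      intro D
      rw [abs_mul]
      exact mul_le_mul_of_nonneg_left (cntq w R Q hQ I A hA hcop N hN D) (abs_nonneg _)
    refine (Finset.abs_sum_le_sum_abs _ _).trans ((Finset.sum_le_sum fun D _ => h2 D).trans ?_)
    rw [← Finset.sum_mul, mul_one_div]
    refine div_le_div_of_nonneg_right ?_ hN0.le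
    have h3 : ∑ D, |T D| = ∏ _i : I, ∑ D : Finset {p // p ∈ Q}, |tau (vq Q) R D| := by
      rw [Finset.prod_univ_sum, Fintype.piFinset_univ]
      refine Finset.sum_congr rfl fun D _ => ?_
      rw [hT]
      exact Finset.abs_prod _ _
    rw [h3, Finset.prod_const, Finset.card_univ, pow_mul]
    exact pow_le_pow_left₀ (Finset.sum_nonneg fun _ _ => abs_nonneg _) (SvD_tau_sum Q hQ1 R hR) _
  -- second error
  have hE2 : |V ^ t * (∑ D, T D * ρ D) - 1| ≤
      Real.exp (16 ^ t * (1 / w + badq A Q)) - 1 := by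
    have he0 : ∀ p, 0 ≤ e p := by
      intro p
      rw [he]
      dsimp only
      split_ifs <;> positivity
    have hcm := compare_model (vq Q) (SvD_two Q hQ1) R hR I
      (fun p B => rho A p.1 B) e he0 ?_ ?_ ?_
    · have h1 : V ^ t * (∑ D, T D * ρ D) - 1 = V ^ t * ((∑ D, T D * ρ D) - (1 / V) ^ t) := by
        rw [mul_sub, ← mul_pow, mul_one_div_cancel hV.ne', one_pow]
      rw [h1, abs_mul, abs_of_pos (pow_pos hV t)]
      have h2 : V ^ t * |(∑ D, T D * ρ D) - (1 / V) ^ t| ≤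
          V ^ t * ((1 / V) ^ t * (∏ p, (1 + 16 ^ t * e p) - 1)) :=
        mul_le_mul_of_nonneg_left hcm (pow_pos hV t).le
      have h3 : V ^ t * ((1 / V) ^ t * (∏ p, (1 + 16 ^ t * e p) - 1)) =
          ∏ p, (1 + 16 ^ t * e p) - 1 := by
        rw [← mul_assoc, ← mul_pow, mul_one_div_cancel hV.ne', one_pow, one_mul]
      rw [h3] at h2
      refine h2.trans (sub_le_sub_right ?_ 1)
      have h4 : ∏ p, (1 + 16 ^ t * e p) ≤ Real.exp (∑ p, 16 ^ t * e p) := by
        rw [Real.exp_sum]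
        refine Finset.prod_le_prod (fun p _ => ?_) fun p _ => ?_
        · have := he0 p
          positivity
        · have := Real.add_one_le_exp (16 ^ t * e p)
          linarith
      refine h4.trans (Real.exp_le_exp.2 ?_)
      rw [← Finset.mul_sum]
      refine mul_le_mul_of_nonneg_left ?_ (by positivity)
      rw [he, Finset.sum_add_distrib]
      refine add_le_add ?_ (le_of_eq ?_)
      · have h5 : ∑ p : {p // p ∈ Q}, 1 / (p.1 : ℝ) ^ 2 = ∑ p ∈ Q, 1 / (p : ℝ) ^ 2 :=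
          Finset.sum_coe_sort Q (fun p : ℕ => 1 / (p : ℝ) ^ 2)
        rw [h5]
        exact (Finset.sum_le_sum_of_subset_of_nonneg hQ fun _ _ _ => by positivity).trans (SvD_tail w R hw)
      · unfold badq
        rw [Finset.sum_filter]
        refine (Finset.sum_coe_sort Q
          (fun p : ℕ => if ∃ i j, i ≠ j ∧ A i ≡ A j [MOD p] then 1 / (p : ℝ) else 0)).trans ?_
        refine Finset.sum_congr rfl fun p _ => ?_
        by_cases hb : ∃ i j, i ≠ j ∧ A i ≡ A j [MOD p]
        · rw [if_pos hb, if_pos hb]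
        · rw [if_neg hb, if_neg hb]
    · intro p
      unfold rho
      rw [if_pos rfl]
    · intro p i
      unfold rho
      rw [if_neg (Finset.singleton_ne_empty i), if_pos]
      · rfl
      · intro a ha b hb
        rw [Finset.mem_singleton] at ha hb
        rw [ha, hb]
    · intro p B hB
      have hp2 : (2 : ℝ) ≤ (p.1 : ℝ) := by exact_mod_cast SvD_two Q hQ1 p
      have hB0 : B ≠ ∅ := by
        rintro rfl
        simp at hB
      have hpow : (1 / ((vq Q p : ℕ) : ℝ)) ^ B.card ≤ 1 / (p.1 : ℝ) ^ 2 := by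
        have h1 : (1 / ((vq Q p : ℕ) : ℝ)) ^ B.card ≤ (1 / ((vq Q p : ℕ) : ℝ)) ^ 2 := by
          apply pow_le_pow_of_le_one (by positivity) _ hB
          rw [div_le_one (by change (0 : ℝ) < (p.1 : ℝ); linarith)]
          change (1 : ℝ) ≤ (p.1 : ℝ)
          linarith
        refine h1.trans (le_of_eq ?_)
        change (1 / (p.1 : ℝ)) ^ 2 = _
        rw [div_pow, one_pow]
      have hpow0 : 0 ≤ (1 / ((vq Q p : ℕ) : ℝ)) ^ B.card := by positivity
      have hsq : 1 / (p.1 : ℝ) ^ 2 ≤ 1 / (p.1 : ℝ) := by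
        apply one_div_le_one_div_of_le (by linarith)
        nlinarith
      unfold rho
      rw [if_neg hB0]
      rw [he]
      dsimp only
      by_cases hc' : ∀ i ∈ B, ∀ j ∈ B, A i ≡ A j [MOD p.1]
      · rw [if_pos hc', if_pos]
        · rw [abs_le]
          have h0 : (0 : ℝ) ≤ 1 / (p.1 : ℝ) ^ 2 := by positivity
          constructor <;> linarith
        · obtain ⟨i, hi, j, hj, hij⟩ := Finset.one_lt_card.1 (by omega : 1 < B.card)
          exact ⟨i, j, hij, hc' i hi j hj⟩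
      · rw [if_neg hc', zero_sub, abs_neg, abs_of_nonneg hpow0]
        have h0 : (0 : ℝ) ≤ (if ∃ i j, i ≠ j ∧ A i ≡ A j [MOD p.1] then 1 / (p.1 : ℝ) else 0) := by
          split_ifs <;> positivity
        linarith
  rw [hexp]
  have htri : V ^ t * (∑ D, T D * c D) / N - 1 =
      (V ^ t * (∑ D, T D * ρ D) - 1) +
        (V ^ t * (∑ D, T D * c D) / N - V ^ t * ∑ D, T D * ρ D) := by ring
  rw [htri]
  exact (abs_add_le _ _).trans (add_le_add hE2 hE1)

end Pool.CM
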