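import Pool.Agent.Lib.MP_c77da8_nt.CG.PnN
import Pool.Agent.Lib.MP_c77da8_nt.CM.LowD

/-!
# CM-LowE: primes of the form `A n - 1`

PROOF: copy `count_rad` (`CL/PQ.lean`, with its private lemmas), with `psi_lowM 1` in place of `psi_rad C0 1`: the `X` used are `≥ N - 2`, and
`(log X)^(-1/200) ≤ (log N)^(-1/250) ≤ δ` for large `N` (`log X ≥ (log N)/2`).
-/

set_option autoImplicit false

namespace Pool.CM

open Finset Pool.CG Pool.CL Pool.MP_dd84fd_nt.SW

/-- the numeric facts for large `N` -/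
private theorem LowE_ev : ∃ N3 : ℕ, ∀ N : ℕ, N3 ≤ N → 100 ≤ N ∧ 11 ≤ Real.log N ∧
    Real.exp (Real.log N ^ (1 / 100 : ℝ)) ≤ (N : ℝ) ^ (1 / 8 : ℝ) / 2 ∧
    4 * Real.log N ≤ (N : ℝ) ^ (1 / 8 : ℝ) / 8 := by
  have hlog : Filter.Tendsto (fun X : ℕ => Real.log X) Filter.atTop Filter.atTop :=
    Real.tendsto_log_atTop.comp tendsto_natCast_atTop_atTop
  have hu : Filter.Tendsto (fun X : ℕ => Real.log X ^ (1 / 100 : ℝ)) Filter.atTop Filter.atTop :=
    (tendsto_rpow_atTop (by norm_num)).comp hlog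
  have h2 : ∀ᶠ u : ℝ in Filter.atTop, ‖u ^ 1‖ ≤ 1 / 256 * ‖Real.exp u‖ :=
    (Real.isLittleO_pow_exp_atTop (n := 1)).bound (by norm_num)
  have h8 : Filter.Tendsto (fun X : ℕ => Real.log X / 8) Filter.atTop Filter.atTop :=
    hlog.atTop_div_const (by norm_num)
  have e1 := hu.eventually_ge_atTop 16
  have e2 := h8.eventually h2
  have e3 := hlog.eventually_ge_atTop 11
  have e4 : ∀ᶠ X : ℕ in Filter.atTop, 100 ≤ X := Filter.eventually_ge_atTop 100
  obtain ⟨N3, hN3⟩ := Filter.eventually_atTop.1 (e1.and (e2.and (e3.and e4)))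
  refine ⟨N3, fun N hN => ?_⟩
  obtain ⟨f1, f2, f3, f4⟩ := hN3 N hN
  have hN0 : (0 : ℝ) < N := by
    have : 0 < N := by omega
    exact_mod_cast this
  set L := Real.log N with hL
  set u := L ^ (1 / 100 : ℝ) with hu'
  have hL0 : 0 < L := by linarith
  have huL : u ^ 100 = L := by
    rw [hu', ← Real.rpow_natCast, ← Real.rpow_mul hL0.le]
    norm_num
  have hN8 : (N : ℝ) ^ (1 / 8 : ℝ) = Real.exp (L / 8) := by
    rw [Real.rpow_def_of_pos hN0]
    congr 1
    ring
  refine ⟨f4, f3, ?_, ?_⟩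
  · rw [hN8]
    have h3 : u ^ 2 ≤ u ^ 100 := pow_le_pow_right₀ (by linarith) (by norm_num)
    rw [huL] at h3
    have h4 : u + 1 ≤ L / 8 := by nlinarith
    have h5 : Real.exp (u + 1) ≤ Real.exp (L / 8) := Real.exp_le_exp.2 h4
    rw [Real.exp_add] at h5
    have h6 : (2 : ℝ) ≤ Real.exp 1 := by
      have := Real.add_one_le_exp (1 : ℝ)
      linarith
    have h7 := Real.exp_pos u
    nlinarith
  · rw [hN8]
    rw [Real.norm_of_nonneg (by positivity), Real.norm_of_nonneg (Real.exp_pos _).le, pow_one] at f2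
    linarith

/-- split of the sum up to `A (2N - 1) - 1` -/
private theorem LowE_split (A N : ℕ) (hA : 1 ≤ A) (hN : 2 ≤ N) :
    ∑ m ∈ (Icc 1 (A * (2 * N - 1) - 1)).filter (fun m => m ≡ A - 1 [MOD A]),
      ArithmeticFunction.vonMangoldt m ≤
    ∑ m ∈ (Icc 1 (A * N - 2)).filter (fun m => m ≡ A - 1 [MOD A]),
      ArithmeticFunction.vonMangoldt m +
    ∑ n ∈ Ico N (2 * N), ArithmeticFunction.vonMangoldt (A * n - 1) := by
  classical
  have hinj : Set.InjOn (fun n : ℕ => A * n - 1) ((Ico N (2 * N) : Finset ℕ) : Set ℕ) := by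
    intro a ha b hb hab
    rw [mem_coe, mem_Ico] at ha hb
    have h1 : 1 ≤ A * a := Nat.mul_pos hA (by omega)
    have h2 : 1 ≤ A * b := Nat.mul_pos hA (by omega)
    have h3 : A * a - 1 = A * b - 1 := hab
    have h4 : A * a = A * b := by omega
    exact Nat.eq_of_mul_eq_mul_left hA h4
  have h1 : ∑ n ∈ Ico N (2 * N), ArithmeticFunction.vonMangoldt (A * n - 1) =
      ∑ m ∈ (Ico N (2 * N)).image (fun n => A * n - 1), ArithmeticFunction.vonMangoldt m := by
    rw [sum_image hinj]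
  rw [h1, ← sum_filter_add_sum_filter_not
    ((Icc 1 (A * (2 * N - 1) - 1)).filter (fun m => m ≡ A - 1 [MOD A])) (fun m => m ≤ A * N - 2)]
  apply add_le_add
  · apply sum_le_sum_of_subset_of_nonneg
    · intro m hm
      rw [mem_filter, mem_filter, mem_Icc] at hm
      rw [mem_filter, mem_Icc]
      exact ⟨⟨hm.1.1.1, hm.2⟩, hm.1.2⟩
    · intro m _ _
      exact ArithmeticFunction.vonMangoldt_nonneg
  · apply sum_le_sum_of_subset_of_nonneg
    · intro m hm
      rw [mem_filter, mem_filter, mem_Icc] at hm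
      obtain ⟨⟨⟨hm1, hm2⟩, hm3⟩, hm4⟩ := hm
      rw [mem_image]
      have h2 : A ∣ m + 1 := by
        have h3 : m + 1 ≡ A - 1 + 1 [MOD A] := hm3.add_right 1
        rw [Nat.sub_add_cancel hA] at h3
        have h4 : m + 1 ≡ 0 [MOD A] := h3.trans (by simp [Nat.ModEq])
        exact (Nat.modEq_zero_iff_dvd).1 h4
      obtain ⟨n, hn⟩ := h2
      have hAN : 2 ≤ A * N := by nlinarith
      have hA2 : 1 ≤ A * (2 * N - 1) := Nat.mul_pos hA (by omega)
      refine ⟨n, ?_, by omega⟩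
      rw [mem_Ico]
      constructor
      · have h5 : A * N ≤ A * n := by omega
        exact Nat.le_of_mul_le_mul_left h5 hA
      · have h5 : A * n ≤ A * (2 * N - 1) := by omega
        have := Nat.le_of_mul_le_mul_left h5 hA
        omega
    · intro m _ _
      exact ArithmeticFunction.vonMangoldt_nonneg

/-- the prime powers -/
private theorem LowE_pow (A N : ℕ) (hA : 1 ≤ A) (hN : 2 ≤ N) :
    ∑ n ∈ (Ico N (2 * N)).filter (fun n => ¬ (A * n - 1).Prime),
      ArithmeticFunction.vonMangoldt (A * n - 1) ≤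
    2 * Real.sqrt ((2 * A * N : ℕ) : ℝ) * Real.log ((2 * A * N : ℕ) : ℝ) := by
  classical
  have hinj : Set.InjOn (fun n : ℕ => A * n - 1)
      (((Ico N (2 * N)).filter (fun n => ¬ (A * n - 1).Prime) : Finset ℕ) : Set ℕ) := by
    intro a ha b hb hab
    rw [mem_coe, mem_filter, mem_Ico] at ha hb
    have h1 : 1 ≤ A * a := Nat.mul_pos hA (by omega)
    have h2 : 1 ≤ A * b := Nat.mul_pos hA (by omega)
    have h3 : A * a - 1 = A * b - 1 := hab
    have h4 : A * a = A * b := by omega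
    exact Nat.eq_of_mul_eq_mul_left hA h4
  have h1 : (1 : ℝ) ≤ ((2 * A * N : ℕ) : ℝ) := by
    have : 1 ≤ 2 * A * N := Nat.mul_pos (by omega) (by omega)
    exact_mod_cast this
  refine le_trans ?_ (Chebyshev.psi_sub_theta_le h1)
  rw [Chebyshev.psi_sub_theta_eq_sum_not_prime, Nat.floor_natCast, ← sum_image hinj]
  apply sum_le_sum_of_subset_of_nonneg
  · intro m hm
    rw [mem_image] at hm
    obtain ⟨n, hn, rfl⟩ := hm
    rw [mem_filter, mem_Ico] at hn
    rw [mem_filter, mem_Ioc]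
    have h2 : A * n ≤ A * (2 * N) := Nat.mul_le_mul_left A hn.1.2.le
    have h3 : A * (2 * N) = 2 * A * N := by ring
    have h4 : 2 ≤ A * n := by nlinarith [hn.1.1]
    exact ⟨⟨by omega, by omega⟩, hn.2⟩
  · intro m _ _
    exact ArithmeticFunction.vonMangoldt_nonneg

/-- the primes -/
private theorem LowE_pr (A N : ℕ) (hA : 1 ≤ A) (hN : 2 ≤ N) :
    ∑ n ∈ (Ico N (2 * N)).filter (fun n => (A * n - 1).Prime),
      ArithmeticFunction.vonMangoldt (A * n - 1) ≤
    (((Ico N (2 * N)).filter fun n => (A * n - 1).Prime).card : ℝ) *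
      Real.log ((2 * A * N : ℕ) : ℝ) := by
  rw [← nsmul_eq_mul]
  apply sum_le_card_nsmul
  intro n hn
  rw [mem_filter, mem_Ico] at hn
  rw [ArithmeticFunction.vonMangoldt_apply_prime hn.2]
  apply Real.log_le_log
  · exact_mod_cast hn.2.pos
  · have h2 : A * n ≤ A * (2 * N) := Nat.mul_le_mul_left A hn.1.2.le
    have h3 : A * (2 * N) = 2 * A * N := by ring
    have h4 : A * n - 1 ≤ 2 * A * N := by omega
    exact_mod_cast h4

theorem count_lowM : ∃ N0 : ℕ, ∀ N : ℕ, N0 ≤ N → ∀ (A : ℕ) [NeZero A], LowM (Real.log N ^ (-(1 / 250) : ℝ)) A →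
    (A : ℝ) ≤ Real.exp (Real.log N ^ (1 / 100 : ℝ)) →
    (A : ℝ) / (Nat.totient A : ℝ) * (N / (8 * Real.log N)) ≤
      (((Ico N (2 * N)).filter fun n => (A * n - 1).Prime).card : ℝ) := by
  obtain ⟨X0, hX0⟩ := psi_lowM 1
  obtain ⟨N3, hN3⟩ := LowE_ev
  obtain ⟨N4, hN4⟩ : ∃ N4 : ℕ, ∀ N ≥ N4, (32 : ℝ) ≤ Real.log N := by
    obtain ⟨N4, hN4⟩ := exists_nat_ge (Real.exp 32)
    refine ⟨N4, fun N hN => ?_⟩
    have h1 : Real.exp 32 ≤ N := hN4.trans (by exact_mod_cast hN)
    rw [Real.le_log_iff_exp_le ((Real.exp_pos _).trans_le h1)]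
    exact h1
  refine ⟨max (X0 + 2) (max N3 N4), ?_⟩
  intro N hN A hA' hlow hAN
  have hA : 1 ≤ A := Nat.one_le_iff_ne_zero.2 hA'.ne
  obtain ⟨hN100, hL11, hexp, hlog4⟩ := hN3 N ((le_max_left _ _).trans ((le_max_right _ _).trans hN))
  have hL32 := hN4 N ((le_max_right _ _).trans ((le_max_right _ _).trans hN))
  have hNX : X0 + 2 ≤ N := (le_max_left _ _).trans hN
  have hNr : (100 : ℝ) ≤ N := by exact_mod_cast hN100
  have hN0 : (0 : ℝ) < N := by linarith
  have hAr : (1 : ℝ) ≤ A := by exact_mod_cast hA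
  have hA0 : (0 : ℝ) < A := by linarith
  set L := Real.log N with hL
  have hL0 : 0 < L := by linarith
  have hphi1 : 1 ≤ Nat.totient A := Nat.totient_pos.2 hA
  have hphi : (1 : ℝ) ≤ Nat.totient A := by exact_mod_cast hphi1
  have hphi0 : (0 : ℝ) < Nat.totient A := by linarith
  have hphiA : (Nat.totient A : ℝ) ≤ A := by exact_mod_cast Nat.totient_le A
  have hANN : N ≤ A * N := Nat.le_mul_of_pos_left N hA
  have hX1 : X0 ≤ A * N - 2 := by omega
  have hX12 : A * N ≤ A * (2 * N - 1) := Nat.mul_le_mul_left A (by omega)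
  have hX2 : X0 ≤ A * (2 * N - 1) - 1 := by omega
  -- the logarithms
  have hlogX : ∀ X : ℕ, N ≤ X + 2 → 10 ≤ Real.log X := by
    intro X hX
    have h1 : (N : ℝ) ≤ X + 2 := by exact_mod_cast hX
    have h2 : (N : ℝ) / 2 ≤ X := by linarith
    have h3 : Real.log ((N : ℝ) / 2) ≤ Real.log X := Real.log_le_log (by linarith) h2
    rw [Real.log_div hN0.ne' (by norm_num)] at h3
    have h4 : Real.log 2 ≤ 1 := by
      have := Real.log_two_lt_d9
      linarith
    linarith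
  have hAB : ∀ X : ℕ, (2 ≤ A → N ≤ X) → 10 ≤ Real.log X →
      (A : ℝ) ≤ Real.exp (((1 : ℕ) : ℝ) * Real.log X ^ (1 / 100 : ℝ)) := by
    intro X hX hX10
    rcases Nat.lt_or_ge A 2 with h | h
    · have h1 : A = 1 := by omega
      rw [h1, Nat.cast_one]
      apply Real.one_le_exp
      have : 0 ≤ Real.log X ^ (1 / 100 : ℝ) := Real.rpow_nonneg (by linarith) _
      linarith
    · refine hAN.trans (Real.exp_le_exp.2 ?_)
      rw [Nat.cast_one, one_mul]
      apply Real.rpow_le_rpow hL0.le _ (by norm_num)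
      apply Real.log_le_log hN0
      exact_mod_cast hX h
  have hcop : Nat.Coprime (A - 1) A := by
    obtain ⟨b, rfl⟩ : ∃ b, A = b + 1 := ⟨A - 1, by omega⟩
    rw [Nat.add_sub_cancel]
    exact (Nat.coprime_self_add_right (m := b) (n := 1)).2 (Nat.coprime_one_right b)
  have hl1 : 10 ≤ Real.log ((A * N - 2 : ℕ) : ℝ) := hlogX _ (by omega)
  have hl2 : 10 ≤ Real.log ((A * (2 * N - 1) - 1 : ℕ) : ℝ) := hlogX _ (by omega)
  have hδ1 : L ^ (-(1 / 250) : ℝ) ≤ 1 :=
    Real.rpow_le_one_of_one_le_of_nonpos (by linarith) (by norm_num)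
  have hδX : ∀ X : ℕ, N ≤ X + 2 → Real.log X ^ (-(1 / 200) : ℝ) ≤ L ^ (-(1 / 250) : ℝ) := by
    intro X hX
    have h1 : (N : ℝ) ≤ X + 2 := by exact_mod_cast hX
    have h2 : (N : ℝ) / 2 ≤ X := by linarith
    have h3 : Real.log ((N : ℝ) / 2) ≤ Real.log X := Real.log_le_log (by linarith) h2
    rw [Real.log_div hN0.ne' (by norm_num)] at h3
    have h4 : Real.log 2 ≤ 1 := by
      have := Real.log_two_lt_d9
      linarith
    have h5 : L / 2 ≤ Real.log X := by linarith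
    have h6 : (0 : ℝ) < L / 2 := by linarith
    calc Real.log X ^ (-(1 / 200) : ℝ) ≤ (L / 2) ^ (-(1 / 200) : ℝ) :=
          Real.rpow_le_rpow_of_nonpos h6 h5 (by norm_num)
      _ = L ^ (-(1 / 200) : ℝ) * (2 : ℝ) ^ (1 / 200 : ℝ) := by
          rw [Real.div_rpow hL0.le (by norm_num), Real.rpow_neg (by norm_num : (0 : ℝ) ≤ 2), div_inv_eq_mul]
      _ ≤ L ^ (-(1 / 200) : ℝ) * L ^ (1 / 1000 : ℝ) := by
          refine mul_le_mul_of_nonneg_left ?_ (Real.rpow_nonneg hL0.le _)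
          calc (2 : ℝ) ^ (1 / 200 : ℝ) = ((2 : ℝ) ^ (5 : ℝ)) ^ (1 / 1000 : ℝ) := by
                rw [← Real.rpow_mul (by norm_num)]
                norm_num
            _ ≤ L ^ (1 / 1000 : ℝ) := by
                refine Real.rpow_le_rpow (by positivity) ?_ (by norm_num)
                norm_num
                exact hL32
      _ = L ^ (-(1 / 250) : ℝ) := by
          rw [← Real.rpow_add hL0]
          norm_num
  have k1 : 2 ≤ A → N ≤ A * N - 2 := fun h => by
    have : 2 * N ≤ A * N := Nat.mul_le_mul_right N h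
    omega
  have k2 : 2 ≤ A → N ≤ A * (2 * N - 1) - 1 := fun h => by
    have : 2 * N ≤ A * N := Nat.mul_le_mul_right N h
    omega
  have p1 := hX0 (A * N - 2) hX1 _ hδ1 (hδX _ (by omega)) A (A - 1) hlow (hAB _ k1 hl1) hcop
  have p2 := hX0 (A * (2 * N - 1) - 1) hX2 _ hδ1 (hδX _ (by omega)) A (A - 1) hlow
    (hAB _ k2 hl2) hcop
  have hsplit := LowE_split A N hA (by omega)
  set S1 := ∑ m ∈ (Icc 1 (A * N - 2)).filter (fun m => m ≡ A - 1 [MOD A]),
      ArithmeticFunction.vonMangoldt m with hS1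
  set S2 := ∑ m ∈ (Icc 1 (A * (2 * N - 1) - 1)).filter (fun m => m ≡ A - 1 [MOD A]),
      ArithmeticFunction.vonMangoldt m with hS2
  have c1 : ((A * N - 2 : ℕ) : ℝ) = A * N - 2 := by
    rw [Nat.cast_sub (by omega)]
    push_cast
    ring
  have c2 : ((A * (2 * N - 1) - 1 : ℕ) : ℝ) = A * (2 * N - 1) - 1 := by
    rw [Nat.cast_sub (by omega), Nat.cast_mul, Nat.cast_sub (by omega)]
    push_cast
    ring
  -- the errors
  have herr : ∀ X : ℕ, 10 ≤ Real.log X →
      (X : ℝ) / ((Nat.totient A : ℝ) * Real.log X ^ 2) ≤ X / Nat.totient A / 100 := by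
    intro X hX
    rw [← div_div]
    apply div_le_div_of_nonneg_left (by positivity) (by norm_num)
    nlinarith
  have q1 := herr _ hl1
  have q2 := herr _ hl2
  rw [c1] at p1 q1
  rw [c2] at p2 q2
  rw [abs_le] at p1 p2
  set T := ∑ n ∈ Ico N (2 * N), ArithmeticFunction.vonMangoldt (A * n - 1) with hT
  have hTlow : (A : ℝ) / Nat.totient A * (N * (9 / 10)) ≤ T := by
    have h1 : ((A : ℝ) * (2 * N - 1) - 1) / Nat.totient A - (A * N - 2) / Nat.totient A -
        ((A : ℝ) * (2 * N - 1) - 1) / Nat.totient A / 100 -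
        (A * N - 2) / Nat.totient A / 100 ≤ T := by
      linarith [p1.1, p1.2, p2.1, p2.2]
    refine le_trans ?_ h1
    rw [← sub_nonneg]
    have h2 : ((A : ℝ) * (2 * N - 1) - 1) / Nat.totient A - (A * N - 2) / Nat.totient A -
        ((A : ℝ) * (2 * N - 1) - 1) / Nat.totient A / 100 -
        (A * N - 2) / Nat.totient A / 100 - (A : ℝ) / Nat.totient A * (N * (9 / 10)) =
        (7 / 100 * (A * N) - 99 / 100 * A + 103 / 100) / Nat.totient A := by
      field_simp
      ring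
    rw [h2]
    apply div_nonneg _ hphi0.le
    nlinarith
  -- the prime powers
  have hlog2AN : Real.log ((2 * A * N : ℕ) : ℝ) ≤ 2 * L := by
    have h1 : ((2 * A * N : ℕ) : ℝ) ≤ (N : ℝ) ^ (1 / 8 : ℝ) * N := by
      push_cast
      have : 2 * (A : ℝ) ≤ (N : ℝ) ^ (1 / 8 : ℝ) := by linarith
      exact mul_le_mul_of_nonneg_right this hN0.le
    have h2 : Real.log ((2 * A * N : ℕ) : ℝ) ≤ Real.log ((N : ℝ) ^ (1 / 8 : ℝ) * N) := by
      apply Real.log_le_log _ h1
      push_cast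
      positivity
    rw [Real.log_mul (by positivity) hN0.ne', Real.log_rpow hN0] at h2
    linarith
  have hpow : 2 * Real.sqrt ((2 * A * N : ℕ) : ℝ) * Real.log ((2 * A * N : ℕ) : ℝ) ≤
      N / 8 := by
    have h1 : ((2 * A * N : ℕ) : ℝ) ≤ (N : ℝ) ^ (1 / 8 : ℝ) * N := by
      push_cast
      have : 2 * (A : ℝ) ≤ (N : ℝ) ^ (1 / 8 : ℝ) := by linarith
      exact mul_le_mul_of_nonneg_right this hN0.le
    have h2 : Real.sqrt ((2 * A * N : ℕ) : ℝ) ≤ (N : ℝ) ^ (7 / 8 : ℝ) := by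
      rw [Real.sqrt_le_left (by positivity)]
      refine h1.trans ?_
      have h3 : ((N : ℝ) ^ (7 / 8 : ℝ)) ^ 2 = (N : ℝ) ^ (7 / 4 : ℝ) := by
        rw [← Real.rpow_natCast, ← Real.rpow_mul hN0.le]
        norm_num
      have h4 : (N : ℝ) ^ (1 / 8 : ℝ) * N = (N : ℝ) ^ (9 / 8 : ℝ) := by
        nth_rewrite 2 [← Real.rpow_one (N : ℝ)]
        rw [← Real.rpow_add hN0]
        norm_num
      rw [h3, h4]
      exact Real.rpow_le_rpow_of_exponent_le (by linarith) (by norm_num)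
    have h5 : (N : ℝ) ^ (7 / 8 : ℝ) * (N : ℝ) ^ (1 / 8 : ℝ) = N := by
      rw [← Real.rpow_add hN0]
      norm_num
    have h6 : (0 : ℝ) ≤ (N : ℝ) ^ (7 / 8 : ℝ) := by positivity
    calc 2 * Real.sqrt ((2 * A * N : ℕ) : ℝ) * Real.log ((2 * A * N : ℕ) : ℝ) ≤
        2 * (N : ℝ) ^ (7 / 8 : ℝ) * (2 * L) := by
          apply mul_le_mul _ hlog2AN
          · apply Real.log_natCast_nonneg
          · positivity
          · linarith
      _ = (N : ℝ) ^ (7 / 8 : ℝ) * (4 * L) := by ring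
      _ ≤ (N : ℝ) ^ (7 / 8 : ℝ) * ((N : ℝ) ^ (1 / 8 : ℝ) / 8) := by
          exact mul_le_mul_of_nonneg_left hlog4 h6
      _ = N / 8 := by rw [← mul_div_assoc, h5]
  have hpp := LowE_pow A N hA (by omega)
  have hpr := LowE_pr A N hA (by omega)
  set C := (((Ico N (2 * N)).filter fun n => (A * n - 1).Prime).card : ℝ) with hC
  have hC0 : 0 ≤ C := Nat.cast_nonneg _
  have hTsum : T = ∑ n ∈ (Ico N (2 * N)).filter (fun n => (A * n - 1).Prime),
      ArithmeticFunction.vonMangoldt (A * n - 1) +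
      ∑ n ∈ (Ico N (2 * N)).filter (fun n => ¬ (A * n - 1).Prime),
      ArithmeticFunction.vonMangoldt (A * n - 1) :=
    (sum_filter_add_sum_filter_not _ _ _).symm
  have hCl : C * Real.log ((2 * A * N : ℕ) : ℝ) ≤ C * (2 * L) :=
    mul_le_mul_of_nonneg_left hlog2AN hC0
  have hratio : (1 : ℝ) ≤ A / Nat.totient A := by
    rw [one_le_div hphi0]
    exact hphiA
  have hfin : (A : ℝ) / Nat.totient A * (N / 4) ≤ C * (2 * L) := by
    have h1 : (N : ℝ) / 8 ≤ (A : ℝ) / Nat.totient A * (N / 8) := by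
      have := mul_le_mul_of_nonneg_right hratio (show (0 : ℝ) ≤ N / 8 by positivity)
      linarith
    have h2 : (0 : ℝ) ≤ (A : ℝ) / Nat.totient A * N := by positivity
    have h3 : (A : ℝ) / Nat.totient A * (N * (9 / 10)) = 9 / 10 * ((A : ℝ) / Nat.totient A * N) := by
      ring
    have h4 : (A : ℝ) / Nat.totient A * (N / 8) = 1 / 8 * ((A : ℝ) / Nat.totient A * N) := by
      ring
    have h5 : (A : ℝ) / Nat.totient A * (N / 4) = 1 / 4 * ((A : ℝ) / Nat.totient A * N) := by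
      ring
    rw [h5]
    rw [h3] at hTlow
    rw [h4] at h1
    linarith
  have h6 : (A : ℝ) / Nat.totient A * (N / (8 * L)) = (A : ℝ) / Nat.totient A * (N / 4) / (2 * L) := by
    field_simp
    ring
  rw [h6, div_le_iff₀ (by positivity)]
  exact hfin

end Pool.CM
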