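import Pool.Agent.Lib.MP_c77da8_nt.CM.Defs
import Pool.Agent.Lib.MP_dd84fd_nt.Cheb

/-!
# CM-ParmM: choice of the parameters

PROOF.  `Λ = log log N`, `w = ⌈C₁ Λ log Λ⌉`, `C₁ = 16 (D0 + 1)/log(1/ρ) + 16`; for large `N`, `log w ≤ 2 log Λ`, and the number `π(w)` of the primes `≤ w` is
`≥ w/(4 log w) ≥ C₁ Λ/8` (`Pool.MP_dd84fd_nt.Cheb.card_P4`, see `CL/ParL.lean`), so `π(w) - 1 ≥ D0 Λ/log(1/ρ)` and `(log N)^D0 ρ^S ≤ 1` for `S ≥ π(w) - 1`.
`C = 2 C₁`.  For `0 ≤ x ≤ 2 (log N)^(1/3000)`: `M = Q (w + ⌈x⌉) (1 + ⌈x⌉)` (`≥ w ≥ M0`).  `3 log M ≤ 3 (log Q + 2 log (w + 1 + ⌈x⌉)) ≤ 3 log Q + 6 log (3 (log N)^(1/3000) + ..) ≤ Λ ≤ w` for large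
`N`.  `2 w + x + 3 ≤ M` for `Q ≥ 4`, `w ≥ 2`.  `M (2 w + x) ≤ 2 Q (w + 1 + x)² (2 + x)`: it is at most `(log N)^(4/3000)`-ish, `≤ (log N)^(1/100)`; and it is at most
`4 Q (1 + x) (w + 1 + x)² ≤ 4 Q (1 + x) (2 C₁ log Λ + 2)² (Λ + x)² ≤ (1 + x) (Λ + x)^(2 + ε)`, as `4 Q (2 C₁ log Λ + 2)² ≤ Λ^ε`.
`2 w + x + 3 ≤ (log N)^(1/2000)`.
-/

set_option autoImplicit false

namespace Pool.CM

open Finset Pool.CG Pool.CL

private theorem card_le (w : ℕ) :
    (Pool.Agent.Lib.MP_dd84fd_nt.Cheb.P4 w).card ≤ ((Icc 1 w).filter Nat.Prime).card := by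
  apply Finset.card_le_card
  intro p hp
  unfold Pool.Agent.Lib.MP_dd84fd_nt.Cheb.P4 at hp
  rw [mem_filter, mem_Ioc] at hp
  rw [mem_filter, mem_Icc]
  exact ⟨⟨hp.2.one_lt.le, hp.1.2⟩, hp.2⟩

theorem parM (ρ : ℝ) (hρ : 0 < ρ) (hρ1 : ρ < 1) (D0 Q : ℕ) (hQ : 4 ≤ Q) : ∃ C : ℝ, 0 < C ∧ ∀ ε : ℝ, 0 < ε → ∀ w0 M0 : ℕ,
    ∃ N1 : ℕ, ∀ N ≥ N1, ∃ w : ℕ, w0 ≤ w ∧ 3 ≤ w ∧
      (w : ℝ) ≤ C * Real.log (Real.log N) * Real.log (Real.log (Real.log N)) ∧
      (∀ S : ℕ, ((Icc 1 w).filter Nat.Prime).card ≤ S + 1 → Real.log N ^ D0 * ρ ^ S ≤ 1) ∧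
      ∀ x : ℝ, 0 ≤ x → x ≤ 2 * Real.log N ^ (1 / 3000 : ℝ) → ∃ M : ℕ, M0 ≤ M ∧ Q * (w + ⌈x⌉₊) * (1 + ⌈x⌉₊) ≤ M ∧
        3 * Real.log M ≤ w ∧ 2 * (w : ℝ) + x ≤ M ∧ (M : ℝ) * (2 * w + x) ≤ Real.log N ^ (1 / 100 : ℝ) ∧
        (M : ℝ) * (2 * w + x) ≤ (1 + x) * (Real.log (Real.log N) + x) ^ (2 + ε) ∧
        2 * (w : ℝ) + x + 3 ≤ Real.log N ^ (1 / 2000 : ℝ) := by
  have hlam : 0 < -Real.log ρ := by
    have := Real.log_neg hρ hρ1
    linarith
  set lam : ℝ := -Real.log ρ with hlamd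
  set C1 : ℝ := 16 * ((D0 : ℝ) + 1) / lam + 16 with hC1
  have hC16 : 16 ≤ C1 := by
    have : 0 ≤ 16 * ((D0 : ℝ) + 1) / lam := by positivity
    rw [hC1]; linarith
  have hC1lam : C1 * lam = 16 * ((D0 : ℝ) + 1) + 16 * lam := by
    rw [hC1, add_mul, div_mul_cancel₀ _ hlam.ne']
  have hC1pos : 0 < C1 := by linarith
  have hQR : (4 : ℝ) ≤ Q := by exact_mod_cast hQ
  have hQpos : (0 : ℝ) < Q := by linarith
  refine ⟨2 * C1, by linarith, fun ε hε w0 M0 => ?_⟩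
  obtain ⟨W1, hW1⟩ := Filter.eventually_atTop.1 Pool.Agent.Lib.MP_dd84fd_nt.Cheb.card_P4
  have ev1 : ∀ᶠ l : ℝ in Filter.atTop, 3 ≤ l := Filter.eventually_ge_atTop 3
  have ev2 : ∀ᶠ l : ℝ in Filter.atTop, (w0 : ℝ) ≤ l := Filter.eventually_ge_atTop _
  have ev3 : ∀ᶠ l : ℝ in Filter.atTop, (M0 : ℝ) ≤ l := Filter.eventually_ge_atTop _
  have ev4 : ∀ᶠ l : ℝ in Filter.atTop, (W1 : ℝ) ≤ l := Filter.eventually_ge_atTop _
  have ev5 : ∀ᶠ l : ℝ in Filter.atTop, 1 ≤ Real.log l := Real.tendsto_log_atTop.eventually_ge_atTop 1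
  have ev6 : ∀ᶠ l : ℝ in Filter.atTop, (C1 + 2) * l ^ (2 : ℝ) ≤ Real.exp (1 / 3000 * l) := by
    have h1 := (isLittleO_rpow_exp_pos_mul_atTop 2 (show (0:ℝ) < 1 / 3000 by norm_num)).bound
      (show 0 < (C1 + 2)⁻¹ by positivity)
    filter_upwards [h1, Filter.eventually_ge_atTop (0 : ℝ)] with l hl hl0
    rw [Real.norm_of_nonneg (Real.rpow_nonneg hl0 _), Real.norm_of_nonneg (Real.exp_pos _).le] at hl
    calc (C1 + 2) * l ^ (2 : ℝ) ≤ (C1 + 2) * ((C1 + 2)⁻¹ * Real.exp (1 / 3000 * l)) := by gcongr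
      _ = Real.exp (1 / 3000 * l) := by rw [← mul_assoc, mul_inv_cancel₀ (by positivity), one_mul]
  have ev7 : ∀ᶠ l : ℝ in Filter.atTop, Real.log l ≤ (C1 + 1)⁻¹ * l := by
    have h1 := Real.isLittleO_log_id_atTop.bound (show 0 < (C1 + 1)⁻¹ by positivity)
    filter_upwards [h1, ev5, Filter.eventually_ge_atTop (0 : ℝ)] with l hl h5 hl0
    rw [Real.norm_of_nonneg (by linarith : (0:ℝ) ≤ Real.log l), id, Real.norm_of_nonneg hl0] at hl
    exact hl
  have ev8 : ∀ᶠ l : ℝ in Filter.atTop, Real.log l ≤ (4 * Q * (C1 + 2))⁻¹ * l ^ (ε / 2) := by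
    have h1 := (isLittleO_log_rpow_atTop (half_pos hε)).bound (show 0 < (4 * Q * (C1 + 2))⁻¹ by positivity)
    filter_upwards [h1, ev5, Filter.eventually_ge_atTop (0 : ℝ)] with l hl h5 hl0
    rw [Real.norm_of_nonneg (by linarith : (0:ℝ) ≤ Real.log l), Real.norm_of_nonneg (Real.rpow_nonneg hl0 _)] at hl
    exact hl
  have ev9 : ∀ᶠ l : ℝ in Filter.atTop, 48 * (Q : ℝ) ≤ Real.exp (1 / 3000 * l) :=
    (Real.tendsto_exp_atTop.comp (Filter.tendsto_id.const_mul_atTop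
      (show (0:ℝ) < 1 / 3000 by norm_num))).eventually_ge_atTop _
  have ev10 : ∀ᶠ l : ℝ in Filter.atTop, (5 : ℝ) ≤ Real.exp (1 / 6000 * l) :=
    (Real.tendsto_exp_atTop.comp (Filter.tendsto_id.const_mul_atTop
      (show (0:ℝ) < 1 / 6000 by norm_num))).eventually_ge_atTop _
  have hT : Filter.Tendsto (fun N : ℕ => Real.log (Real.log N)) Filter.atTop Filter.atTop :=
    Real.tendsto_log_atTop.comp (Real.tendsto_log_atTop.comp tendsto_natCast_atTop_atTop)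
  have ev := hT.eventually (ev1.and (ev2.and (ev3.and (ev4.and (ev5.and (ev6.and (ev7.and (ev8.and
    (ev9.and ev10)))))))))
  obtain ⟨N1, hN1⟩ := Filter.eventually_atTop.1 ev
  refine ⟨N1, fun N hN => ?_⟩
  obtain ⟨c1, c2, c3, c4, c5, c6, c7, c8, c9, c10⟩ := hN1 N hN
  set l : ℝ := Real.log (Real.log N) with hl
  have hl0 : 0 < l := by linarith
  have hl1 : 1 ≤ l := by linarith
  have hlogN : 0 < Real.log N := by
    have h1 : 0 ≤ Real.log N := Real.log_natCast_nonneg N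
    rcases h1.eq_or_lt with h | h
    · exfalso
      rw [hl, ← h, Real.log_zero] at hl0
      exact lt_irrefl _ hl0
    · exact h
  have hexp : Real.exp l = Real.log N := by rw [hl, Real.exp_log hlogN]
  set y : ℝ := Real.exp (1 / 3000 * l) with hy
  have hy1 : 1 ≤ y := by
    rw [hy]
    exact Real.one_le_exp (by positivity)
  have hyL : Real.log N ^ (1 / 3000 : ℝ) = y := by
    rw [hy, ← hexp, ← Real.exp_mul, mul_comm]
  set g : ℝ := Real.log l with hg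
  have hg0 : 0 < g := by linarith
  have hl2 : l ^ (2 : ℝ) = l ^ 2 := by exact_mod_cast Real.rpow_natCast l 2
  rw [hl2] at c6
  have hgl : g ≤ l := by
    have := Real.log_le_sub_one_of_pos hl0
    linarith
  have c7' : (C1 + 1) * g ≤ l := by
    calc (C1 + 1) * g ≤ (C1 + 1) * ((C1 + 1)⁻¹ * l) := by gcongr
      _ = l := by rw [← mul_assoc, mul_inv_cancel₀ (by positivity), one_mul]
  set w : ℕ := ⌈C1 * l * g⌉₊ with hw
  have hprod : 0 ≤ C1 * l * g := by positivity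
  have hw1 : (w : ℝ) < C1 * l * g + 1 := Nat.ceil_lt_add_one hprod
  have hw2 : C1 * l * g ≤ w := Nat.le_ceil _
  have hlg : l ≤ l * g := le_mul_of_one_le_right hl0.le c5
  have hlg1 : 1 ≤ l * g := by linarith
  have hlw16 : 16 * l ≤ w := by
    calc 16 * l ≤ C1 * (l * g) := mul_le_mul hC16 hlg hl0.le hC1pos.le
      _ = C1 * l * g := by ring
      _ ≤ w := hw2
  have hlw : l ≤ w := by linarith
  have hwR : (3 : ℝ) ≤ w := by linarith
  have hwl2 : (w : ℝ) ≤ l ^ 2 := by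
    have h1 : C1 * l * g + 1 ≤ l ^ 2 := by
      have h2 : l * ((C1 + 1) * g) ≤ l * l := mul_le_mul_of_nonneg_left c7' hl0.le
      have h3 : l * ((C1 + 1) * g) = C1 * l * g + l * g := by ring
      rw [sq]
      linarith
    linarith
  have hwy : (w : ℝ) + 1 ≤ y := by
    have h1 : C1 * l * g + 2 ≤ (C1 + 2) * l ^ 2 := by
      have h2 : C1 * l * g ≤ C1 * l * l := by gcongr
      have h3 : (C1 + 2) * l ^ 2 = C1 * l * l + 2 * l ^ 2 := by ring
      have h4 : (1 : ℝ) ≤ l ^ 2 := one_le_pow₀ hl1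
      linarith
    linarith
  refine ⟨w, ?_, ?_, ?_, ?_, ?_⟩
  · have : (w0 : ℝ) ≤ w := by linarith
    exact_mod_cast this
  · exact_mod_cast hwR
  · have h1 : 1 ≤ C1 * l * g := by
      have h2 : 16 * l ≤ C1 * (l * g) := mul_le_mul hC16 hlg hl0.le hC1pos.le
      have h3 : C1 * (l * g) = C1 * l * g := by ring
      linarith
    calc (w : ℝ) ≤ C1 * l * g + 1 := hw1.le
      _ ≤ 2 * C1 * l * g := by linarith
  · intro S hS
    have hcardR : (w : ℝ) / 4 ≤ ((Pool.Agent.Lib.MP_dd84fd_nt.Cheb.P4 w).card : ℝ) * Real.log w := by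
      apply hW1
      have : (W1 : ℝ) ≤ w := by linarith
      exact_mod_cast this
    have hlw2 : Real.log w ≤ 2 * g := by
      calc Real.log w ≤ Real.log (l ^ 2) := Real.log_le_log (by linarith) hwl2
        _ = 2 * g := by rw [Real.log_pow, hg]; norm_num
    have hc : ((Pool.Agent.Lib.MP_dd84fd_nt.Cheb.P4 w).card : ℝ) ≤ (S : ℝ) + 1 := by
      exact_mod_cast (card_le w).trans hS
    have hS0 : (0 : ℝ) ≤ S := Nat.cast_nonneg _
    have h5 : C1 * l * g / 4 ≤ ((S : ℝ) + 1) * (2 * g) := by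
      calc C1 * l * g / 4 ≤ w / 4 := by linarith
        _ ≤ ((Pool.Agent.Lib.MP_dd84fd_nt.Cheb.P4 w).card : ℝ) * Real.log w := hcardR
        _ ≤ ((S : ℝ) + 1) * (2 * g) := by
            apply mul_le_mul hc hlw2 (Real.log_nonneg (by linarith)) (by linarith)
    have h6 : C1 * l ≤ 8 * ((S : ℝ) + 1) := by
      have h7 : g * (C1 * l) ≤ g * (8 * ((S : ℝ) + 1)) := by
        have e1 : g * (C1 * l) = 4 * (C1 * l * g / 4) := by ring
        have e2 : g * (8 * ((S : ℝ) + 1)) = 4 * (((S : ℝ) + 1) * (2 * g)) := by ring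
        rw [e1, e2]
        exact mul_le_mul_of_nonneg_left h5 (by norm_num)
      exact le_of_mul_le_mul_left h7 hg0
    have h8 : (D0 : ℝ) * l ≤ S * lam := by
      have h9 : (C1 * lam) * l ≤ 8 * ((S : ℝ) + 1) * lam := by
        calc (C1 * lam) * l = (C1 * l) * lam := by ring
          _ ≤ 8 * ((S : ℝ) + 1) * lam := mul_le_mul_of_nonneg_right h6 hlam.le
      rw [hC1lam] at h9
      have hD : (0 : ℝ) ≤ D0 * l := mul_nonneg (Nat.cast_nonneg _) hl0.le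
      have e1 : (16 * ((D0 : ℝ) + 1) + 16 * lam) * l = 16 * (D0 * l) + 16 * l + 16 * (lam * l) := by ring
      have e2 : 8 * ((S : ℝ) + 1) * lam = 8 * (S * lam) + 8 * lam := by ring
      have e3 : lam ≤ lam * l := le_mul_of_one_le_right hlam.le hl1
      linarith
    calc Real.log N ^ D0 * ρ ^ S = Real.exp ((D0 : ℝ) * l) * Real.exp ((S : ℝ) * Real.log ρ) := by
          rw [← hexp, ← Real.exp_nat_mul]
          congr 1
          rw [Real.exp_nat_mul, Real.exp_log hρ]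
      _ = Real.exp ((D0 : ℝ) * l - S * lam) := by
          rw [← Real.exp_add]
          congr 1
          rw [hlamd]; ring
      _ ≤ 1 := by
          rw [Real.exp_le_one_iff]
          linarith
  · intro x hx0 hx2
    rw [hyL] at hx2
    set c : ℕ := ⌈x⌉₊ with hc
    have hc1 : (c : ℝ) < x + 1 := Nat.ceil_lt_add_one hx0
    have hc2 : x ≤ c := Nat.le_ceil _
    have hc0 : (0 : ℝ) ≤ c := Nat.cast_nonneg _
    have hM : ((Q * (w + c) * (1 + c) : ℕ) : ℝ) = Q * (w + c) * (1 + c) := by push_cast; ring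
    have hMlow : 4 * ((w : ℝ) + c) ≤ ((Q * (w + c) * (1 + c) : ℕ) : ℝ) := by
      rw [hM]
      calc 4 * ((w : ℝ) + c) = 4 * (w + c) * 1 := by ring
        _ ≤ Q * (w + c) * (1 + c) := by gcongr; linarith
    have hMup : ((Q * (w + c) * (1 + c) : ℕ) : ℝ) * (2 * w + x) ≤ y ^ 4 := by
      rw [hM]
      calc (Q : ℝ) * (w + c) * (1 + c) * (2 * w + x) ≤ Q * (3 * y) * (4 * y) * (4 * y) := by
            gcongr <;> linarith
        _ = (48 * Q) * y ^ 3 := by ring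
        _ ≤ y * y ^ 3 := by gcongr
        _ = y ^ 4 := by ring
    have hy4 : y ^ 4 ≤ Real.log N ^ (1 / 100 : ℝ) := by
      rw [hy, ← Real.exp_nat_mul, ← hexp, ← Real.exp_mul]
      apply Real.exp_le_exp.2
      push_cast
      linarith
    have hMpos : 0 < ((Q * (w + c) * (1 + c) : ℕ) : ℝ) := by linarith
    refine ⟨Q * (w + c) * (1 + c), ?_, le_refl _, ?_, ?_, ?_, ?_, ?_⟩
    · have : (M0 : ℝ) ≤ ((Q * (w + c) * (1 + c) : ℕ) : ℝ) := by linarith
      exact_mod_cast this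
    · have h1 : ((Q * (w + c) * (1 + c) : ℕ) : ℝ) ≤ y ^ 4 := by
        calc ((Q * (w + c) * (1 + c) : ℕ) : ℝ) = ((Q * (w + c) * (1 + c) : ℕ) : ℝ) * 1 := by ring
          _ ≤ ((Q * (w + c) * (1 + c) : ℕ) : ℝ) * (2 * w + x) := by gcongr; linarith
          _ ≤ y ^ 4 := hMup
      have h2 : Real.log ((Q * (w + c) * (1 + c) : ℕ) : ℝ) ≤ 4 * (1 / 3000 * l) := by
        calc Real.log ((Q * (w + c) * (1 + c) : ℕ) : ℝ) ≤ Real.log (y ^ 4) := Real.log_le_log hMpos h1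
          _ = 4 * (1 / 3000 * l) := by rw [Real.log_pow, hy, Real.log_exp]; norm_num
      linarith
    · linarith
    · exact hMup.trans hy4
    · rw [hM]
      have hlx : l ≤ l + x := by linarith
      have h1 : (w : ℝ) + 1 + x ≤ (C1 * g + 2) * (l + x) := by
        have h2 : (w : ℝ) + 1 ≤ (C1 * g + 2) * l := by
          have e1 : (C1 * g + 2) * l = C1 * l * g + 2 * l := by ring
          linarith
        have h3 : x ≤ (C1 * g + 2) * x := by
          have h6 : 0 ≤ C1 * g := by positivity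
          exact le_mul_of_one_le_left hx0 (by linarith)
        have e2 : (C1 * g + 2) * (l + x) = (C1 * g + 2) * l + (C1 * g + 2) * x := by ring
        linarith
      have h4 : C1 * g + 2 ≤ (C1 + 2) * g := by
        have e1 : (C1 + 2) * g = C1 * g + 2 * g := by ring
        linarith
      have h5 : 4 * Q * ((C1 + 2) * g) ^ 2 ≤ l ^ ε := by
        have h6 : (C1 + 2) * g ≤ ((4 : ℝ) * Q)⁻¹ * l ^ (ε / 2) := by
          calc (C1 + 2) * g ≤ (C1 + 2) * ((4 * Q * (C1 + 2))⁻¹ * l ^ (ε / 2)) := by gcongr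
            _ = ((4 : ℝ) * Q)⁻¹ * l ^ (ε / 2) := by field_simp
        calc 4 * Q * ((C1 + 2) * g) ^ 2 ≤ 4 * Q * (((4 : ℝ) * Q)⁻¹ * l ^ (ε / 2)) ^ 2 := by gcongr
          _ = ((4 : ℝ) * Q)⁻¹ * (l ^ (ε / 2)) ^ 2 := by field_simp
          _ ≤ 1 * (l ^ (ε / 2)) ^ 2 := by
              gcongr
              apply inv_le_one_of_one_le₀
              linarith
          _ = l ^ ε := by
              rw [one_mul, ← Real.rpow_natCast, ← Real.rpow_mul hl0.le]
              congr 1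
              push_cast; ring
      have hlxpos : 0 < l + x := by linarith
      have g1 : (w : ℝ) + c ≤ w + 1 + x := by linarith
      have g2 : (1 : ℝ) + c ≤ 2 * (1 + x) := by linarith
      have g3 : 2 * (w : ℝ) + x ≤ 2 * (w + 1 + x) := by linarith
      have g4 : (0 : ℝ) ≤ 2 * w + x := by linarith
      have g5 : (0 : ℝ) ≤ w + c := by linarith
      have g6 : (0 : ℝ) ≤ w + 1 + x := by linarith
      calc (Q : ℝ) * (w + c) * (1 + c) * (2 * w + x)
          ≤ Q * (w + 1 + x) * (2 * (1 + x)) * (2 * (w + 1 + x)) := by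
            apply mul_le_mul _ g3 g4 (by positivity)
            apply mul_le_mul _ g2 (by linarith) (by positivity)
            exact mul_le_mul_of_nonneg_left g1 hQpos.le
        _ = (1 + x) * (4 * Q * (w + 1 + x) ^ 2) := by ring
        _ ≤ (1 + x) * (4 * Q * (((C1 + 2) * g) * (l + x)) ^ 2) := by
            gcongr
            calc (w : ℝ) + 1 + x ≤ (C1 * g + 2) * (l + x) := h1
              _ ≤ (C1 + 2) * g * (l + x) := by gcongr
        _ = (1 + x) * ((l + x) ^ 2 * (4 * Q * ((C1 + 2) * g) ^ 2)) := by ring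
        _ ≤ (1 + x) * ((l + x) ^ 2 * (l + x) ^ ε) := by
            gcongr
            exact h5.trans (Real.rpow_le_rpow hl0.le hlx hε.le)
        _ = (1 + x) * (l + x) ^ (2 + ε) := by
            rw [Real.rpow_add hlxpos]
            congr 2
            exact_mod_cast (Real.rpow_natCast (l + x) 2).symm
    · calc 2 * (w : ℝ) + x + 3 ≤ y * 5 := by linarith
        _ ≤ y * Real.exp (1 / 6000 * l) := by gcongr
        _ = Real.log N ^ (1 / 2000 : ℝ) := by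
            rw [hy, ← Real.exp_add, ← hexp, ← Real.exp_mul]
            congr 1
            ring

end Pool.CM
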