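import Pool.Agent.Lib.MP_c77da8_nt.CM.SysM
import Pool.Agent.Lib.MP_c77da8_nt.CM.AntiM

/-!
# CM-RatM: the second moment over the ratios

PROOF (compare `CL/Rat.lean`): with `F_n(x, y) = ∏_j ν_n(y + b psi_j(E x))`, `av_y F_n(x, y) = av_y av_u F_n(x, y + κ u)` (`u : Cd P → Fin H`), so
`(av_y F_n(x, y))² ≤ av_y av_u av_u' F_n(x, y + κ u) F_n(x, y + κ u')`: `lf_sysM` with `Λ = (Fin (k+2) → Fin H) × (Bool → Fin H)`, the forms are `(j, γ)`:
`φ (j, γ) (x, u) = b ∑_l (l - j) (x_l + 1) + u γ`, `o (j, γ) q = - b j v_q`.  For `γ ≠ γ'` the difference is injective in `u γ`; for `γ = γ'`, `j ≠ j'` it is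
`b (j' - j) ∑_l (x_l + 1)`, injective in `x_0` (`anti_inj`, `1/H ≤ ρ`).  `card = 2 (k+2) ≤ t`, `η = 1`.  (`psi j (ce E x) q = κ_q ∑_l (l - j) (x_l q + 1) - j v_q` in
`ZMod M`, `E = EM k w M H v`; averages over `Fin (k+2) → Cd P → Fin H` and over `Cd P → Fin (k+2) → Fin H`: `av_equiv`, `Equiv.piComm`.)
-/

set_option autoImplicit false

namespace Pool.CM

open Finset Pool.CG Pool.CL

private theorem RatM_pair {X P : Type} [Fintype X] [Fintype P] (F : X → P → ℝ) :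
    av (fun y : X => (av (fun x : P => F y x)) ^ 2) =
      av (fun ω : X × (Bool → P) => ∏ i, F ω.1 (ω.2 i)) := by
  rw [av_prod]
  refine av_congr fun y => ?_
  have e : av (fun z : Bool → P => ∏ i, F y (z i)) = av (fun z : P × P => F y z.1 * F y z.2) := by
    rw [← av_equiv (Equiv.boolArrowEquivProd P)]
    refine av_congr fun z => ?_
    rw [Fintype.prod_bool, mul_comm]
    rfl
  show _ = av (fun z : Bool → P => ∏ i, F y (z i))
  rw [e, av_prod, sq]
  have h1 : ∀ x : P, av (fun y' : P => F y x * F y y') = F y x * av (fun x : P => F y x) :=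
    fun x => av_const_mul (F y x) _
  show _ = av (fun x : P => av (fun y' : P => F y x * F y y'))
  rw [av_congr h1, av_mul_const]

private theorem RatM_one {X P : Type} [AddCommGroup X] [Fintype X] [Fintype P] [Nonempty P] (g : P → X)
    (f : X → ℝ) :
    (av f) ^ 2 ≤ av (fun ω : X × (Bool → P) => ∏ i, f (ω.1 + g (ω.2 i))) := by
  have h1 : av f = av (fun y : X => av (fun x : P => f (y + g x))) := by
    rw [av_comm]
    have h2 : ∀ x : P, av (fun y : X => f (y + g x)) = av f := by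
      intro x
      exact av_equiv (Equiv.addRight (g x)) f
    rw [av_congr h2, av_const]
  rw [h1]
  refine (av_sq_le _).trans ?_
  rw [RatM_pair (fun y x => f (y + g x))]

/-- reindexing of the averages -/
private theorem RatM_reindex {X C A K : Type} [Fintype X] [Fintype C] [DecidableEq C] [Fintype A] [Fintype K]
    [DecidableEq K] (F : X → (K → C → A) → (Bool → C → A) → ℝ) :
    av (fun x : K → C → A => av (fun ω : X × (Bool → C → A) => F ω.1 x ω.2)) =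
      av (fun ω : X × (C → (K → A) × (Bool → A)) =>
        F ω.1 (fun l q => (ω.2 q).1 l) (fun β q => (ω.2 q).2 β)) := by
  have h1 : ∀ x : K → C → A, av (fun ω : X × (Bool → C → A) => F ω.1 x ω.2) =
      av (fun y : X => av (fun v : Bool → C → A => F y x v)) := by
    intro x
    exact av_prod (fun ω : X × (Bool → C → A) => F ω.1 x ω.2)
  rw [av_congr h1, av_comm (fun (x : K → C → A) (y : X) => av (fun v : Bool → C → A => F y x v)),
    av_prod (fun ω : X × (C → (K → A) × (Bool → A)) =>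
      F ω.1 (fun l q => (ω.2 q).1 l) (fun β q => (ω.2 q).2 β))]
  refine av_congr fun y => ?_
  let e : (C → (K → A) × (Bool → A)) ≃ (K → C → A) × (Bool → C → A) :=
    { toFun := fun f => (fun l q => (f q).1 l, fun β q => (f q).2 β)
      invFun := fun z q => (fun l => z.1 l q, fun β => z.2 β q)
      left_inv := fun f => rfl
      right_inv := fun z => rfl }
  have h2 := av_equiv e (fun z : (K → C → A) × (Bool → C → A) => F y z.1 z.2)
  rw [av_prod (fun z : (K → C → A) × (Bool → C → A) => F y z.1 z.2)] at h2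
  rw [← h2]
  rfl

/-- the random part of the forms -/
private def RatM_phi (k b H : ℕ) (i : Fin (k + 2) × Bool) (a : (Fin (k + 2) → Fin H) × (Bool → Fin H)) : ℤ :=
  (b : ℤ) * ∑ l : Fin (k + 2), (((l : ℕ) : ℤ) - ((i.1 : ℕ) : ℤ)) * (((a.1 l : ℕ) : ℤ) + 1) + ((a.2 i.2 : ℕ) : ℤ)

private theorem RatM_phi_le (k b H D : ℕ) (hD : b * (k + 1) * (k + 2) * H + H ≤ D) (i : Fin (k + 2) × Bool)
    (a : (Fin (k + 2) → Fin H) × (Bool → Fin H)) : |RatM_phi k b H i a| ≤ (D : ℤ) := by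
  unfold RatM_phi
  have h1 : ∀ l : Fin (k + 2), |(((l : ℕ) : ℤ) - ((i.1 : ℕ) : ℤ)) * (((a.1 l : ℕ) : ℤ) + 1)| ≤
      ((k + 1 : ℕ) : ℤ) * (H : ℤ) := by
    intro l
    rw [abs_mul]
    have h2 : |((l : ℕ) : ℤ) - ((i.1 : ℕ) : ℤ)| ≤ ((k + 1 : ℕ) : ℤ) := by
      rw [abs_le]
      have := l.2
      have := i.1.2
      constructor <;> push_cast <;> omega
    have h3 : |((a.1 l : ℕ) : ℤ) + 1| ≤ (H : ℤ) := by
      rw [abs_le]
      have := (a.1 l).2
      constructor <;> omega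
    exact mul_le_mul h2 h3 (abs_nonneg _) (by positivity)
  have h4 : |∑ l : Fin (k + 2), (((l : ℕ) : ℤ) - ((i.1 : ℕ) : ℤ)) * (((a.1 l : ℕ) : ℤ) + 1)| ≤
      ((k + 2 : ℕ) : ℤ) * (((k + 1 : ℕ) : ℤ) * (H : ℤ)) := by
    refine (abs_sum_le_sum_abs _ _).trans ((sum_le_sum fun l _ => h1 l).trans (le_of_eq ?_))
    rw [sum_const, card_univ, Fintype.card_fin, nsmul_eq_mul]
  have h5 : |((a.2 i.2 : ℕ) : ℤ)| ≤ (H : ℤ) := by
    rw [Nat.abs_cast]
    have := (a.2 i.2).2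
    omega
  have h6 : |(b : ℤ) * ∑ l : Fin (k + 2), (((l : ℕ) : ℤ) - ((i.1 : ℕ) : ℤ)) * (((a.1 l : ℕ) : ℤ) + 1)| ≤
      (b : ℤ) * (((k + 2 : ℕ) : ℤ) * (((k + 1 : ℕ) : ℤ) * (H : ℤ))) := by
    rw [abs_mul, Nat.abs_cast]
    exact mul_le_mul_of_nonneg_left h4 (by positivity)
  refine (abs_add_le _ _).trans ((add_le_add h6 h5).trans ?_)
  have h7 : ((b * (k + 1) * (k + 2) * H + H : ℕ) : ℤ) ≤ (D : ℤ) := by exact_mod_cast hD
  refine le_trans (le_of_eq ?_) h7
  push_cast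
  ring

private theorem RatM_anti (k b H : ℕ) (hb : 1 ≤ b) (i i' : Fin (k + 2) × Bool) (hne : i ≠ i') (v : ℤ) :
    ((univ.filter fun a : (Fin (k + 2) → Fin H) × (Bool → Fin H) =>
      RatM_phi k b H i a - RatM_phi k b H i' a = v).card : ℝ) * H ≤
      Fintype.card ((Fin (k + 2) → Fin H) × (Bool → Fin H)) := by
  have hb0 : (b : ℤ) ≠ 0 := by exact_mod_cast (by omega : b ≠ 0)
  by_cases hγ : i.2 = i'.2
  · have hj : i.1 ≠ i'.1 := fun h => hne (Prod.ext h hγ)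
    let e : ((Fin (k + 2) → Fin H) × (Bool → Fin H)) ≃
        Fin H × (({l : Fin (k + 2) // l ≠ 0} → Fin H) × (Bool → Fin H)) :=
      (Equiv.prodCongr (Equiv.funSplitAt (0 : Fin (k + 2)) (Fin H)) (Equiv.refl _)).trans (Equiv.prodAssoc _ _ _)
    have h := anti_inj e (fun a => RatM_phi k b H i a - RatM_phi k b H i' a) ?_ v
    · simpa using h
    · intro c a a' haa
      simp only [RatM_phi, hγ] at haa
      have key : ∀ z : Fin H, (b : ℤ) * ∑ l : Fin (k + 2), (((l : ℕ) : ℤ) - ((i.1 : ℕ) : ℤ)) *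
            ((((e.symm (z, c)).1 l : ℕ) : ℤ) + 1) + (((e.symm (z, c)).2 i'.2 : ℕ) : ℤ) -
          ((b : ℤ) * ∑ l : Fin (k + 2), (((l : ℕ) : ℤ) - ((i'.1 : ℕ) : ℤ)) *
            ((((e.symm (z, c)).1 l : ℕ) : ℤ) + 1) + (((e.symm (z, c)).2 i'.2 : ℕ) : ℤ)) =
          (b : ℤ) * (((i'.1 : ℕ) : ℤ) - ((i.1 : ℕ) : ℤ)) *
            ((((z : ℕ) : ℤ) + 1) + ∑ l ∈ univ.erase (0 : Fin (k + 2)), ((((e.symm (a, c)).1 l : ℕ) : ℤ) + 1)) := by
        intro z
        have h0 : ((e.symm (z, c)).1 0 : Fin H) = z := by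
          simp [e, Equiv.funSplitAt, Equiv.piSplitAt]
        have h1 : ∀ l ∈ univ.erase (0 : Fin (k + 2)), ((((e.symm (z, c)).1 l : ℕ) : ℤ) + 1) =
            ((((e.symm (a, c)).1 l : ℕ) : ℤ) + 1) := by
          intro l hl
          have hl0 : l ≠ 0 := ne_of_mem_erase hl
          simp [e, Equiv.funSplitAt, Equiv.piSplitAt, hl0]
        have h2 : ∑ l : Fin (k + 2), ((((e.symm (z, c)).1 l : ℕ) : ℤ) + 1) = (((z : ℕ) : ℤ) + 1) +
            ∑ l ∈ univ.erase (0 : Fin (k + 2)), ((((e.symm (a, c)).1 l : ℕ) : ℤ) + 1) := by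
          rw [← add_sum_erase univ _ (mem_univ (0 : Fin (k + 2))), h0, sum_congr rfl h1]
        rw [← h2]
        have h3 : ∑ l : Fin (k + 2), (((l : ℕ) : ℤ) - ((i.1 : ℕ) : ℤ)) * ((((e.symm (z, c)).1 l : ℕ) : ℤ) + 1) -
            ∑ l : Fin (k + 2), (((l : ℕ) : ℤ) - ((i'.1 : ℕ) : ℤ)) * ((((e.symm (z, c)).1 l : ℕ) : ℤ) + 1) =
            (((i'.1 : ℕ) : ℤ) - ((i.1 : ℕ) : ℤ)) * ∑ l : Fin (k + 2), ((((e.symm (z, c)).1 l : ℕ) : ℤ) + 1) := by
          rw [← sum_sub_distrib, mul_sum]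
          refine sum_congr rfl fun l _ => ?_
          ring
        linear_combination (b : ℤ) * h3
      rw [key a, key a'] at haa
      have hjj : ((i'.1 : ℕ) : ℤ) - ((i.1 : ℕ) : ℤ) ≠ 0 := by
        intro h0
        apply hj
        apply Fin.ext
        have : ((i.1 : ℕ) : ℤ) = ((i'.1 : ℕ) : ℤ) := by linarith
        exact_mod_cast this
      have h4 := mul_left_cancel₀ (mul_ne_zero hb0 hjj) haa
      apply Fin.ext
      have : ((a : ℕ) : ℤ) = ((a' : ℕ) : ℤ) := by linarith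
      exact_mod_cast this
  · let e : ((Fin (k + 2) → Fin H) × (Bool → Fin H)) ≃
        Fin H × (({β : Bool // β ≠ i.2} → Fin H) × (Fin (k + 2) → Fin H)) :=
      (Equiv.prodComm _ _).trans
        ((Equiv.prodCongr (Equiv.funSplitAt i.2 (Fin H)) (Equiv.refl _)).trans (Equiv.prodAssoc _ _ _))
    have h := anti_inj e (fun a => RatM_phi k b H i a - RatM_phi k b H i' a) ?_ v
    · simpa using h
    · intro c a a' haa
      have hne' : i'.2 ≠ i.2 := fun h => hγ h.symm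
      have key : ∀ z : Fin H, RatM_phi k b H i (e.symm (z, c)) - RatM_phi k b H i' (e.symm (z, c)) =
          ((z : ℕ) : ℤ) + ((b : ℤ) * ∑ l : Fin (k + 2), (((l : ℕ) : ℤ) - ((i.1 : ℕ) : ℤ)) * (((c.2 l : ℕ) : ℤ) + 1) -
          ((b : ℤ) * ∑ l : Fin (k + 2), (((l : ℕ) : ℤ) - ((i'.1 : ℕ) : ℤ)) * (((c.2 l : ℕ) : ℤ) + 1) +
            ((c.1 ⟨i'.2, hne'⟩ : ℕ) : ℤ))) := by
        intro z
        have h0 : ((e.symm (z, c)).2 i.2 : Fin H) = z := by
          simp [e, Equiv.funSplitAt, Equiv.piSplitAt]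
        have h1 : ((e.symm (z, c)).2 i'.2 : Fin H) = c.1 ⟨i'.2, hne'⟩ := by
          simp [e, Equiv.funSplitAt, Equiv.piSplitAt, hne']
        have h2 : (e.symm (z, c)).1 = c.2 := rfl
        unfold RatM_phi
        rw [h0, h1, h2]
        ring
      have haa' : RatM_phi k b H i (e.symm (a, c)) - RatM_phi k b H i' (e.symm (a, c)) =
          RatM_phi k b H i (e.symm (a', c)) - RatM_phi k b H i' (e.symm (a', c)) := haa
      rw [key a, key a'] at haa'
      apply Fin.ext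
      have : ((a : ℕ) : ℤ) = ((a' : ℕ) : ℤ) := by linarith
      exact_mod_cast this

private theorem RatM_pt {P : Finset ℕ} (k w M H b : ℕ) [NeZero M] (v : Cd P → ℕ)
    (ω : OmM P M ((Fin (k + 2) → Fin H) × (Bool → Fin H))) (j : Fin (k + 2)) (γ : Bool) :
    ptM w (RatM_phi k b H (j, γ)) (fun q => -((b : ℤ) * ((j : ℕ) : ℤ) * (v q : ℤ))) ω =
      ω.1 + (fun q => ((kap w q * (((ω.2 q).2 γ : ℕ) : ℤ) : ℤ) : ZMod M)) +
        b • psi j (ce (EM k w M H v) (fun l q => (ω.2 q).1 l)) := by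
  funext q
  unfold ptM psi ce EM RatM_phi
  simp only [Pi.add_apply, Pi.smul_apply, Finset.sum_apply]
  rw [nsmul_eq_mul]
  simp only [zsmul_eq_mul]
  have h1 : ∑ l : Fin (k + 2), (((((l : ℕ) : ℤ) - ((j : ℕ) : ℤ) : ℤ) : ZMod M)) *
      ((((if l = 0 then (v q : ℤ) else 0) + kap w q * (((((ω.2 q).1 l : Fin H) : ℕ) : ℤ) + 1) : ℤ)) : ZMod M) =
      ((-((j : ℕ) : ℤ) * (v q : ℤ) + kap w q * ∑ l : Fin (k + 2), (((l : ℕ) : ℤ) - ((j : ℕ) : ℤ)) *
        (((((ω.2 q).1 l : Fin H) : ℕ) : ℤ) + 1) : ℤ) : ZMod M) := by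
    have h2 : -((j : ℕ) : ℤ) * (v q : ℤ) + kap w q * ∑ l : Fin (k + 2), (((l : ℕ) : ℤ) - ((j : ℕ) : ℤ)) *
        (((((ω.2 q).1 l : Fin H) : ℕ) : ℤ) + 1) =
        ∑ l : Fin (k + 2), (((l : ℕ) : ℤ) - ((j : ℕ) : ℤ)) *
        ((if l = 0 then (v q : ℤ) else 0) + kap w q * (((((ω.2 q).1 l : Fin H) : ℕ) : ℤ) + 1)) := by
      simp only [mul_add, sum_add_distrib]
      congr 1
      · rw [Finset.sum_eq_single 0]
        · simp
        · intro l _ hl
          rw [if_neg hl, mul_zero]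
        · intro h
          exact absurd (mem_univ _) h
      · rw [mul_sum, mul_sum]
        congr 1
        · exact sum_congr rfl fun l _ => by ring
        · exact sum_congr rfl fun l _ => by ring
    rw [h2, Int.cast_sum]
    refine sum_congr rfl fun l _ => ?_
    rw [Int.cast_mul]
  rw [h1, add_assoc]
  congr 1
  push_cast
  ring

theorem rat_momM (k t D H b : ℕ) (hb : 1 ≤ b) (ht : 2 * (k + 2) ≤ t) (hH : 1 ≤ H)
    (hD : b * (k + 1) * (k + 2) * H + H ≤ D) (ρ : ℝ) (hρH : 1 / (H : ℝ) ≤ ρ) (hρ1 : ρ < 1) :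
    ∃ w0 M0 N0 : ℕ, ∀ w ≥ w0, ∀ M ≥ M0, ∀ N ≥ N0, ∀ (V : ℕ) (P : Finset ℕ) [NeZero M], ParM t D V w M N ρ P →
      ∀ v : Cd P → ℕ, (∀ q, b * (k + 1) * v q ≤ V) →
      ∑ n ∈ Ico N (2 * N), av (fun x : Fin (k + 2) → Cd P → Fin H =>
        (av (fun y : GP P M => ∏ j, nuP P M w (Rt t N) n (y + b • psi j (ce (EM k w M H v) x)))) ^ 2) ≤ 2 * N := by
  have hHpos : (0 : ℝ) < H := by exact_mod_cast hH
  have hρ0 : 0 < ρ := lt_of_lt_of_le (by positivity) hρH
  obtain ⟨w0, M0, N0, h0⟩ := lf_sysM t D (by omega) ρ 1 hρ0 hρ1 one_pos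
  refine ⟨w0, M0, max N0 1, ?_⟩
  intro w hw M hM N hN V P _ hPar v hv
  have hN0 : N0 ≤ N := le_trans (le_max_left _ _) hN
  have hN1 : 1 ≤ N := le_trans (le_max_right _ _) hN
  have : Nonempty (Fin H) := ⟨⟨0, hH⟩⟩
  have hcard : Fintype.card (Fin (k + 2) × Bool) ≤ t := by
    rw [Fintype.card_prod, Fintype.card_fin, Fintype.card_bool]
    omega
  have hb1 := h0 w hw M hM N hN0 V P hPar ((Fin (k + 2) → Fin H) × (Bool → Fin H)) (Fin (k + 2) × Bool) hcard
    (RatM_phi k b H) (fun i q => -((b : ℤ) * ((i.1 : ℕ) : ℤ) * (v q : ℤ)))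
    (fun i a => RatM_phi_le k b H D hD i a) ?_ ?_
  · have hb2 := (abs_le.mp hb1).2
    have hNpos : (0 : ℝ) < N := by exact_mod_cast hN1
    have hstep : ∀ n ∈ Ico N (2 * N), av (fun x : Fin (k + 2) → Cd P → Fin H =>
          (av (fun y : GP P M => ∏ j, nuP P M w (Rt t N) n (y + b • psi j (ce (EM k w M H v) x)))) ^ 2) ≤
        av (fun ω : OmM P M ((Fin (k + 2) → Fin H) × (Bool → Fin H)) => ∏ i : Fin (k + 2) × Bool,
          nuP P M w (Rt t N) n (ptM w (RatM_phi k b H i) (fun q => -((b : ℤ) * ((i.1 : ℕ) : ℤ) * (v q : ℤ))) ω)) := by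
      intro n _
      have h := fun x : Fin (k + 2) → Cd P → Fin H =>
        RatM_one (fun u : Cd P → Fin H => ((fun q => ((kap w q * ((u q : ℕ) : ℤ) : ℤ) : ZMod M)) : GP P M))
          (fun y : GP P M => ∏ j, nuP P M w (Rt t N) n (y + b • psi j (ce (EM k w M H v) x)))
      refine (av_mono h).trans (le_of_eq ?_)
      rw [RatM_reindex (fun (y : GP P M) (x : Fin (k + 2) → Cd P → Fin H)
        (u : Bool → Cd P → Fin H) => ∏ β, ∏ j, nuP P M w (Rt t N) n
          (y + (fun q => ((kap w q * ((u β q : ℕ) : ℤ) : ℤ) : ZMod M)) + b • psi j (ce (EM k w M H v) x)))]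
      refine av_congr fun ω => ?_
      rw [Fintype.prod_prod_type_right]
      refine prod_congr rfl fun β _ => prod_congr rfl fun j _ => ?_
      exact congrArg (nuP P M w (Rt t N) n) (RatM_pt k w M H b v ω j β).symm
    refine (sum_le_sum hstep).trans ?_
    rw [← av_sum]
    have hdiv : av (fun ω : OmM P M ((Fin (k + 2) → Fin H) × (Bool → Fin H)) =>
        (∑ n ∈ Ico N (2 * N), ∏ i : Fin (k + 2) × Bool,
          nuP P M w (Rt t N) n (ptM w (RatM_phi k b H i) (fun q => -((b : ℤ) * ((i.1 : ℕ) : ℤ) * (v q : ℤ))) ω)) / N) =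
        av (fun ω : OmM P M ((Fin (k + 2) → Fin H) × (Bool → Fin H)) =>
          ∑ n ∈ Ico N (2 * N), ∏ i : Fin (k + 2) × Bool,
          nuP P M w (Rt t N) n (ptM w (RatM_phi k b H i) (fun q => -((b : ℤ) * ((i.1 : ℕ) : ℤ) * (v q : ℤ))) ω)) / N := by
      simp only [div_eq_mul_inv]
      exact av_mul_const _ _
    rw [hdiv] at hb2
    have h3 : av (fun ω : OmM P M ((Fin (k + 2) → Fin H) × (Bool → Fin H)) =>
          ∑ n ∈ Ico N (2 * N), ∏ i : Fin (k + 2) × Bool,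
          nuP P M w (Rt t N) n (ptM w (RatM_phi k b H i) (fun q => -((b : ℤ) * ((i.1 : ℕ) : ℤ) * (v q : ℤ))) ω)) / N ≤ 2 := by
      linarith
    rwa [div_le_iff₀ hNpos] at h3
  · rintro ⟨j, γ⟩ q
    simp only []
    rw [abs_neg, abs_of_nonneg (by positivity)]
    have h1 : (j : ℕ) ≤ k + 1 := by have := j.2; omega
    have h2 : b * (j : ℕ) * v q ≤ V := by
      refine le_trans ?_ (hv q)
      exact Nat.mul_le_mul_right _ (Nat.mul_le_mul_left _ h1)
    exact_mod_cast h2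
  · intro i i' hne v'
    have h := RatM_anti k b H hb i i' hne v'
    have h1 : ((univ.filter fun a : (Fin (k + 2) → Fin H) × (Bool → Fin H) =>
      RatM_phi k b H i a - RatM_phi k b H i' a = v').card : ℝ) ≤
      (1 / (H : ℝ)) * Fintype.card ((Fin (k + 2) → Fin H) × (Bool → Fin H)) := by
      rw [one_div, inv_mul_eq_div, le_div_iff₀ hHpos]
      exact h
    exact h1.trans (mul_le_mul_of_nonneg_right hρH (Nat.cast_nonneg _))

end Pool.CM
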