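import Pool.Agent.Lib.MP_c77da8_nt.CM.RSM
import Pool.Agent.Lib.MP_c77da8_nt.CM.GoodM
import Pool.Agent.Lib.MP_c77da8_nt.CM.RatM
import Pool.Agent.Lib.MP_c77da8_nt.CM.DensM
import Pool.Agent.Lib.MP_c77da8_nt.CM.ExtM
import Pool.Agent.Lib.MP_c77da8_nt.CM.ParmM
import Pool.Agent.Lib.MP_c77da8_nt.CM.ExcM

/-!
# CM-MainM: the theorem, dyadic form

PROOF (compare `ratio_dyadic` in `CL/MainR.lean`).  `rs_mix k (dM k / 2)` gives `T, m, η, cR`; `B = BT k T`, `H = 4 B`,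
`D = T (k+1) (k+2) H + H + B (k+1)`, `ρ = 1 - 1/2^(m+3)` (`≥ 1/H`, as `H ≥ 4`), `t = tM k`, `Q = 16 (D + 2 T (k+2) + 1)² + 16 T (k+2) (H + 2) + 4`.  `parM ρ (9^t+t+1) Q` gives `C'`; the constant `C = 2 (k+2) H C'`.
`good_nM`, `rat_momM` (for each `b ≤ T`), `dens_lowM`, `exc B`, `parM` give the thresholds.
For `N` large: `m` from `exc`.  Given `g` (`¬ m ∣ g`, `x = log g ≤ 2 (log N)^(1/3000)`): `e` from `exc`; `P = {p ≤ w prime, p ≠ e} ∪ g.primeFactors`, `v q = g.factorization q`;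
`e ∉ P` if `e` is a prime, so `¬ e ∣ A` for all `A` with `A.primeFactors = P` (for `e = 0`: `A ≠ 0`), and `8 ∏_(p ∈ P) p ≤ 8 · 4^w g ≤ exp (2 w + x + 3)`; so `LowM`.
`v q ≤ 2 ⌈x⌉`, `card P ≤ w + 2 ⌈x⌉` (`2^(v q), 2^(ω(g)) ≤ g`, `1/log 2 ≤ 2`), `∑_(p ∈ P) log p ≤ 2 w + x`, `V = T (k+1) · 2 ⌈x⌉`, `E = T (2 ⌈x⌉ + (k+2) H)`; `ParM t D V w M N ρ P`:
`(4 (D + V))² ≤ 16 (D + 2 T (k+2))² (1 + ⌈x⌉)² ≤ Q (w + ⌈x⌉) (1 + ⌈x⌉) ≤ M`; `4 E card P ≤ 4 T (k+2) (H + 2) (1 + ⌈x⌉) · 2 (w + ⌈x⌉) ≤ M`.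
Good `n`, pigeonhole for `b ≤ T`, average over `x`, second moment: as in `ratio_dyadic` (private lemmas `MainR_ge_av`, `MainR_avg`, `MainR_pig`).  `t = b`, `s = sM w x`;
`∏_(q : Cd P) q^(v q) = g`; `log s ≤ 2 w (k+2) H`.
-/

set_option autoImplicit false

namespace Pool.CM

open Finset Pool.CG Pool.CL

private theorem MainM_ge_av {X : Type} [Fintype X] [Nonempty X] (F : X → ℝ) : ∃ x, av F ≤ F x := by
  by_contra h
  push Not at h
  have h1 : ∑ x : X, F x < ∑ _x : X, av F :=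
    sum_lt_sum_of_nonempty univ_nonempty fun x _ => h x
  have h2 : (0 : ℝ) < (Fintype.card X : ℝ) := by exact_mod_cast Fintype.card_pos
  have h3 : ∑ x : X, F x = av F * (Fintype.card X : ℝ) := by
    unfold av
    field_simp
  rw [sum_const, card_univ, nsmul_eq_mul, h3] at h1
  linarith

/-- many `n` have `g n x > 0` for a common `x`, and the sum of the `g n x` is large -/
private theorem MainM_avg {X : Type} [Fintype X] [Nonempty X] (S : Finset ℕ) (g : ℕ → X → ℝ)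
    (g0 : ∀ n ∈ S, ∀ x, 0 ≤ g n x) (c N : ℝ) (hc : 0 < c)
    (h1 : c * N ≤ ∑ n ∈ S, av (g n)) (h2 : ∑ n ∈ S, av (fun x => g n x ^ 2) ≤ 2 * N) :
    ∃ x, c ^ 2 / 2 * N ≤ ((S.filter fun n => 0 < g n x).card : ℝ) ∧ c / 2 * N ≤ ∑ n ∈ S, g n x := by
  obtain ⟨x, hx⟩ := MainM_ge_av (fun x => ∑ n ∈ S, g n x - c / 4 * ∑ n ∈ S, g n x ^ 2)
  have h5 : c / 2 * N ≤ av (fun x => ∑ n ∈ S, g n x - c / 4 * ∑ n ∈ S, g n x ^ 2) := by
    rw [av_sub, av_const_mul, av_sum, av_sum]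
    have h6 : c / 4 * ∑ n ∈ S, av (fun x => g n x ^ 2) ≤ c / 4 * (2 * N) :=
      mul_le_mul_of_nonneg_left h2 (by positivity)
    have h7 : c * N ≤ ∑ n ∈ S, av (fun x => g n x) := h1
    linarith
  have h8 : c / 2 * N ≤ ∑ n ∈ S, g n x - c / 4 * ∑ n ∈ S, g n x ^ 2 := h5.trans hx
  have h3 : ∑ n ∈ S, g n x ≤
      1 / c * ((S.filter fun n => 0 < g n x).card : ℝ) + c / 4 * ∑ n ∈ S, g n x ^ 2 := by
    rw [card_filter, Nat.cast_sum, mul_sum, mul_sum, ← sum_add_distrib]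
    refine sum_le_sum fun n hn => ?_
    rcases (g0 n hn x).lt_or_eq with h | h
    · rw [if_pos h]
      push_cast
      have h4 : 0 ≤ (c / 2 * g n x - 1) ^ 2 / c := by positivity
      have h5 : (c / 2 * g n x - 1) ^ 2 / c = c / 4 * g n x ^ 2 - g n x + 1 / c := by
        field_simp
        ring
      rw [h5] at h4
      linarith
    · rw [← h]
      simp
  refine ⟨x, ?_, ?_⟩
  · have h6 : c / 2 * N ≤ 1 / c * ((S.filter fun n => 0 < g n x).card : ℝ) := by linarith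
    have h7 := mul_le_mul_of_nonneg_left h6 hc.le
    rw [← mul_assoc c (1 / c), mul_one_div_cancel hc.ne', one_mul] at h7
    calc c ^ 2 / 2 * N = c * (c / 2 * N) := by ring
      _ ≤ _ := h7
  · have h9 : 0 ≤ c / 4 * ∑ n ∈ S, g n x ^ 2 :=
      mul_nonneg (by positivity) (sum_nonneg fun n _ => sq_nonneg _)
    linarith

/-- pigeonhole -/
private theorem MainM_pig (S : Finset ℕ) (T : ℕ) (hT : 1 ≤ T) (P : ℕ → ℕ → Prop)
    [∀ b n, Decidable (P b n)] (h : ∀ n ∈ S, ∃ b, 1 ≤ b ∧ b ≤ T ∧ P b n) :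
    ∃ b, 1 ≤ b ∧ b ≤ T ∧ (S.card : ℝ) / T ≤ ((S.filter fun n => P b n).card : ℝ) := by
  by_contra hc
  push Not at hc
  have h1 : S ⊆ (Icc 1 T).biUnion fun b => S.filter fun n => P b n := by
    intro n hn
    obtain ⟨b, hb1, hbT, hb⟩ := h n hn
    exact mem_biUnion.2 ⟨b, mem_Icc.2 ⟨hb1, hbT⟩, mem_filter.2 ⟨hn, hb⟩⟩
  have h2 : (S.card : ℝ) ≤ ∑ b ∈ Icc 1 T, ((S.filter fun n => P b n).card : ℝ) := by
    exact_mod_cast (card_le_card h1).trans card_biUnion_le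
  have h3 : ∑ b ∈ Icc 1 T, ((S.filter fun n => P b n).card : ℝ) < ∑ _b ∈ Icc 1 T, (S.card : ℝ) / T := by
    refine sum_lt_sum_of_nonempty ⟨1, mem_Icc.2 ⟨le_refl _, hT⟩⟩ fun b hb => ?_
    rw [mem_Icc] at hb
    exact hc b hb.1 hb.2
  have hT0 : (0 : ℝ) < T := by exact_mod_cast hT
  rw [sum_const, Nat.card_Icc, nsmul_eq_mul, Nat.add_sub_cancel, mul_div_cancel₀ _ hT0.ne'] at h3
  linarith

/-- a power of two which is at most `g` -/
private theorem MainM_two (g a : ℕ) (hg : 1 ≤ g) (h : 2 ^ a ≤ g) : a ≤ 2 * ⌈Real.log g⌉₊ := by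
  have h0 : (0 : ℝ) < g := by exact_mod_cast hg
  have h1 : (a : ℝ) * Real.log 2 ≤ Real.log g := by
    rw [← Real.log_pow]
    exact Real.log_le_log (by positivity) (by exact_mod_cast h)
  have h2 : (0.5 : ℝ) ≤ Real.log 2 := by
    have := Real.log_two_gt_d9
    linarith
  have h3 := Nat.le_ceil (Real.log g)
  have h4 : (a : ℝ) ≤ 2 * (⌈Real.log g⌉₊ : ℝ) := by nlinarith [Nat.cast_nonneg (α := ℝ) a]
  exact_mod_cast h4

private theorem MainM_v (g q : ℕ) (hg : 1 ≤ g) : g.factorization q ≤ 2 * ⌈Real.log g⌉₊ := by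
  by_cases hq : q.Prime
  · refine MainM_two g _ hg ?_
    calc 2 ^ g.factorization q ≤ q ^ g.factorization q := Nat.pow_le_pow_left hq.two_le _
      _ ≤ g := Nat.ordProj_le q (by omega)
  · rw [Nat.factorization_eq_zero_of_not_prime g hq]
    exact Nat.zero_le _

private theorem MainM_om (g : ℕ) (hg : 1 ≤ g) : g.primeFactors.card ≤ 2 * ⌈Real.log g⌉₊ := by
  refine MainM_two g _ hg ?_
  calc 2 ^ g.primeFactors.card = ∏ p ∈ g.primeFactors, 2 := by rw [prod_const]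
    _ ≤ ∏ p ∈ g.primeFactors, p := prod_le_prod' fun p hp => (Nat.prime_of_mem_primeFactors hp).two_le
    _ ≤ g := Nat.le_of_dvd hg (Nat.prod_primeFactors_dvd g)

private theorem MainM_logs (g w e : ℕ) (hg : 1 ≤ g) :
    ∑ p ∈ (Icc 1 w).filter (fun p => p.Prime ∧ p ≠ e) ∪ g.primeFactors, Real.log p ≤ 2 * w + Real.log g := by
  classical
  have h0 : ∀ p : ℕ, 0 ≤ Real.log (p : ℝ) := fun p => Real.log_natCast_nonneg p
  have h1 : ∑ p ∈ (Icc 1 w).filter (fun p => p.Prime ∧ p ≠ e) ∪ g.primeFactors, Real.log p ≤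
      ∑ p ∈ (Icc 1 w).filter (fun p => p.Prime ∧ p ≠ e), Real.log p + ∑ p ∈ g.primeFactors, Real.log p := by
    rw [← sum_union_inter]
    exact le_add_of_nonneg_right (sum_nonneg fun p _ => h0 p)
  have h2 : ∑ p ∈ (Icc 1 w).filter (fun p => p.Prime ∧ p ≠ e), Real.log (p : ℝ) ≤ 2 * w := by
    calc ∑ p ∈ (Icc 1 w).filter (fun p => p.Prime ∧ p ≠ e), Real.log (p : ℝ)
        ≤ ∑ p ∈ (range (w + 1)).filter Nat.Prime, Real.log (p : ℝ) := by
          refine sum_le_sum_of_subset_of_nonneg (fun p hp => ?_) fun p _ _ => h0 p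
          rw [mem_filter, mem_Icc] at hp
          rw [mem_filter, mem_range]
          exact ⟨by omega, hp.2.1⟩
      _ = Real.log (primorial w : ℝ) := by
          unfold primorial
          rw [Nat.cast_prod, Real.log_prod]
          intro p hp
          have := (mem_filter.1 hp).2.pos
          positivity
      _ ≤ Real.log ((4 : ℝ) ^ w) := by
          refine Real.log_le_log (by exact_mod_cast primorial_pos w) ?_
          exact_mod_cast primorial_le_four_pow w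
      _ = w * Real.log 4 := by rw [Real.log_pow]
      _ ≤ w * 2 := by
          refine mul_le_mul_of_nonneg_left ?_ (Nat.cast_nonneg _)
          have h4 : Real.log 4 = 2 * Real.log 2 := by
            rw [show (4 : ℝ) = 2 ^ 2 by norm_num, Real.log_pow]
            push_cast
            ring
          have := Real.log_two_lt_d9
          linarith
      _ = 2 * w := by ring
  have h3 : ∑ p ∈ g.primeFactors, Real.log (p : ℝ) ≤ Real.log g := by
    calc ∑ p ∈ g.primeFactors, Real.log (p : ℝ) = Real.log ((∏ p ∈ g.primeFactors, p : ℕ) : ℝ) := by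
          rw [Nat.cast_prod, Real.log_prod]
          intro p hp
          have := (Nat.prime_of_mem_primeFactors hp).pos
          positivity
      _ ≤ Real.log g := by
          refine Real.log_le_log ?_ ?_
          · exact_mod_cast prod_pos fun p hp => (Nat.prime_of_mem_primeFactors hp).pos
          · exact_mod_cast Nat.le_of_dvd hg (Nat.prod_primeFactors_dvd g)
  linarith

theorem main_dyadicM (k : ℕ) : ∃ (T : ℕ) (C c : ℝ), 1 ≤ T ∧ 0 < c ∧ ∀ (B : ℕ) (ε : ℝ), 0 < ε → ∃ N0 : ℕ, ∀ N ≥ N0,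
    ∃ m : ℕ, Odd m ∧ Real.log N ^ B < m ∧ ∀ g : ℕ, 1 ≤ g → ¬ m ∣ g → Real.log g ≤ 2 * Real.log N ^ (1 / 3000 : ℝ) →
      ∃ t s : ℕ, 1 ≤ t ∧ t ≤ T ∧ 2 ≤ s ∧ Real.log s ≤ C * Real.log (Real.log N) * Real.log (Real.log (Real.log N)) ∧
        (∃ b : ℕ, 1 ≤ b ∧ Real.log b ≤ (1 + Real.log g) * (Real.log (Real.log N) + Real.log g) ^ (2 + ε) ∧
          c * N / Real.log N ^ (k + 2) ≤ ((open Classical in (Ico N (2 * N)).filter fun n =>
            ∀ j < k + 2, (n * b * ((g * s) ^ t) ^ j - 1).Prime).card : ℝ)) ∧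
        c * N ≤ ((open Classical in (Ico N (2 * N)).filter fun n => ∃ b : ℕ, 1 ≤ b ∧
          Real.log b ≤ (1 + Real.log g) * (Real.log (Real.log N) + Real.log g) ^ (2 + ε) ∧
          ∀ j < k + 2, (n * b * ((g * s) ^ t) ^ j - 1).Prime).card : ℝ) := by
  classical
  have htL : 1 ≤ 2 ^ (k + 2) := Nat.one_le_two_pow
  have hkt : (k + 2) * 1 ≤ (k + 2) * 2 ^ (k + 2) := Nat.mul_le_mul_left _ htL
  have ht1 : 1 ≤ tM k := by
    unfold tM
    omega
  have ht2 : 2 * (k + 2) ≤ tM k := by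
    unfold tM
    omega
  have hd : 0 < dM k := by
    unfold dM
    have : (0 : ℝ) < tM k := by exact_mod_cast ht1
    positivity
  obtain ⟨T, m0, η, cR, hT, hη, hcR, hrs⟩ := rs_mix k (dM k / 2) (by positivity)
  obtain ⟨B0, hB0⟩ : ∃ B0 : ℕ, B0 = BT k T := ⟨_, rfl⟩
  have hB01 : 1 ≤ B0 := by
    rw [hB0]
    exact Nat.factorial_pos _
  obtain ⟨H, hH⟩ : ∃ H : ℕ, H = 4 * B0 := ⟨_, rfl⟩
  have hH4 : 4 ≤ H := by omega
  obtain ⟨D, hD⟩ : ∃ D : ℕ, D = T * (k + 1) * (k + 2) * H + H + B0 * (k + 1) := ⟨_, rfl⟩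
  obtain ⟨ρ, hρ⟩ : ∃ ρ : ℝ, ρ = 1 - 1 / 2 ^ (m0 + 3) := ⟨_, rfl⟩
  have hpw : (0 : ℝ) < 1 / 2 ^ (m0 + 1) := by positivity
  have hpw1 : (1 : ℝ) / 2 ^ (m0 + 1) ≤ 1 / 2 := by
    rw [one_div_le_one_div (by positivity) (by norm_num)]
    calc (2 : ℝ) = 2 ^ 1 := by norm_num
      _ ≤ 2 ^ (m0 + 1) := pow_le_pow_right₀ (by norm_num) (by omega)
  have hpw3 : (1 : ℝ) / 2 ^ (m0 + 3) = 1 / 2 ^ (m0 + 1) / 4 := by
    rw [show m0 + 3 = (m0 + 1) + 2 by ring, pow_add]
    field_simp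
    norm_num
  have hρ0 : 0 < ρ := by rw [hρ, hpw3]; linarith
  have hρ1 : ρ < 1 := by rw [hρ, hpw3]; linarith
  have hρm : 1 - 1 / 2 ^ (m0 + 1) ≤ ρ := by rw [hρ, hpw3]; linarith
  have hρH : 1 / (H : ℝ) ≤ ρ := by
    have h1 : (1 : ℝ) / H ≤ 1 / 4 := by
      rw [one_div_le_one_div (by exact_mod_cast (by omega : 0 < H)) (by norm_num)]
      exact_mod_cast hH4
    rw [hρ, hpw3]
    linarith
  obtain ⟨Q, hQ⟩ : ∃ Q : ℕ, Q = 16 * (D + 2 * T * (k + 2) + 1) ^ 2 + 16 * T * (k + 2) * (H + 2) + 4 := ⟨_, rfl⟩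
  obtain ⟨C', hC', hpar⟩ := parM ρ hρ0 hρ1 (9 ^ tM k + tM k + 1) Q (by omega)
  have hT0 : (0 : ℝ) < T := by exact_mod_cast hT
  obtain ⟨CV, hCV, hVV⟩ := VVq_le
  obtain ⟨c1, hc1⟩ : ∃ c1 : ℝ, c1 = cR * (dM k ^ 2 / 16 / T) := ⟨_, rfl⟩
  have hc1p : 0 < c1 := by
    rw [hc1]
    positivity
  refine ⟨T, 2 * ((k + 2) * H) * C', min (c1 ^ 2 / 2) (c1 / 2 / CV ^ (k + 2)), hT, by positivity, fun B ε hε => ?_⟩
  obtain ⟨w1, M1, N1, hgood⟩ := good_nM k T m0 D H B0 hB01 (by omega) (by omega) (by omega) ρ η hρH hρm hρ1 hη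
  -- the second moments for all `b ≤ T`
  obtain ⟨w2, M2, N2, hmom⟩ : ∃ w2 M2 N2 : ℕ, ∀ b : ℕ, 1 ≤ b → b ≤ T → ∀ w ≥ w2, ∀ M ≥ M2, ∀ N ≥ N2,
      ∀ (V : ℕ) (P : Finset ℕ) [NeZero M], ParM (tM k) D V w M N ρ P →
      ∀ v : Cd P → ℕ, (∀ q, b * (k + 1) * v q ≤ V) →
      ∑ n ∈ Ico N (2 * N), av (fun x : Fin (k + 2) → Cd P → Fin H =>
        (av (fun y : GP P M => ∏ j, nuP P M w (Rt (tM k) N) n (y + b • psi j (ce (EM k w M H v) x)))) ^ 2) ≤
          2 * N := by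
    have h : ∀ b : ℕ, ∃ w2 M2 N2 : ℕ, 1 ≤ b → b ≤ T → ∀ w ≥ w2, ∀ M ≥ M2, ∀ N ≥ N2,
        ∀ (V : ℕ) (P : Finset ℕ) [NeZero M], ParM (tM k) D V w M N ρ P →
        ∀ v : Cd P → ℕ, (∀ q, b * (k + 1) * v q ≤ V) →
        ∑ n ∈ Ico N (2 * N), av (fun x : Fin (k + 2) → Cd P → Fin H =>
          (av (fun y : GP P M => ∏ j, nuP P M w (Rt (tM k) N) n (y + b • psi j (ce (EM k w M H v) x)))) ^ 2) ≤
            2 * N := by
      intro b
      by_cases hb : 1 ≤ b ∧ b ≤ T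
      · have hbD : b * (k + 1) * (k + 2) * H + H ≤ D := by
          have : b * (k + 1) * (k + 2) * H ≤ T * (k + 1) * (k + 2) * H :=
            Nat.mul_le_mul_right _ (Nat.mul_le_mul_right _ (Nat.mul_le_mul_right _ hb.2))
          omega
        obtain ⟨w2, M2, N2, h2⟩ := rat_momM k (tM k) D H b hb.1 ht2 (by omega) hbD ρ hρH hρ1
        exact ⟨w2, M2, N2, fun _ _ => h2⟩
      · exact ⟨0, 0, 0, fun h1 h2 => absurd ⟨h1, h2⟩ hb⟩
    choose w2 M2 N2 h2 using h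
    have hs : ∀ (f : ℕ → ℕ) (b : ℕ), b ≤ T → f b ≤ (range (T + 1)).sup f := fun f b hb =>
      Finset.le_sup (f := f) (mem_range.2 (by omega))
    exact ⟨(range (T + 1)).sup w2, (range (T + 1)).sup M2, (range (T + 1)).sup N2,
      fun b hb1 hbT w hw M hM N hN => h2 b hb1 hbT w ((hs w2 b hbT).trans hw) M ((hs M2 b hbT).trans hM) N
        ((hs N2 b hbT).trans hN)⟩
  obtain ⟨N3, hdens⟩ := dens_lowM (tM k) ht1
  obtain ⟨N4, hexc⟩ := exc B
  obtain ⟨N5, hpar⟩ := hpar ε hε (max w1 w2) (max M1 M2)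
  obtain ⟨N6, hRt⟩ := Rt_facts (tM k) ht1
  refine ⟨max (max N1 N2) (max N3 (max N4 (max N5 (max N6 3)))), fun N hN => ?_⟩
  simp only [ge_iff_le, max_le_iff] at hN
  obtain ⟨⟨hN1, hN2⟩, hN3, hN4, hN5, hN6, hN7⟩ := hN
  obtain ⟨m, hmodd, hmlt, hm⟩ := hexc N hN4
  obtain ⟨w, hw0, hw3, hwC, hent, hM⟩ := hpar N hN5
  refine ⟨m, hmodd, hmlt, fun g hg1 hmg hglog => ?_⟩
  obtain ⟨e, he, hLow⟩ := hm g hg1 hmg
  have hx0 : 0 ≤ Real.log (g : ℝ) := Real.log_natCast_nonneg g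
  obtain ⟨M, hM0, hMQ, hMlog, hMsz, hM100, hMε, h2000⟩ := hM (Real.log g) hx0 hglog
  obtain ⟨X, hX⟩ : ∃ X : ℕ, X = ⌈Real.log g⌉₊ := ⟨_, rfl⟩
  rw [← hX] at hMQ
  obtain ⟨P, hP⟩ : ∃ P : Finset ℕ, P = (Icc 1 w).filter (fun p => p.Prime ∧ p ≠ e) ∪ g.primeFactors := ⟨_, rfl⟩
  have hM1 : 1 ≤ M := by
    have h1 : 1 * 1 * 1 ≤ Q * (w + X) * (1 + X) :=
      Nat.mul_le_mul (Nat.mul_le_mul (by omega) (by omega)) (by omega)
    omega
  have hMne : NeZero M := ⟨by omega⟩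
  have hPp : ∀ p ∈ P, p.Prime := by
    intro p hp
    rw [hP, mem_union, mem_filter] at hp
    rcases hp with h | h
    · exact h.2.1
    · exact Nat.prime_of_mem_primeFactors h
  have hPmost : ∀ p : ℕ, p.Prime → p ≤ w → p ≠ e → p ∈ P := by
    intro p hp hpw hpe
    rw [hP, mem_union, mem_filter, mem_Icc]
    exact Or.inl ⟨⟨hp.one_lt.le, hpw⟩, hp, hpe⟩
  have hPg : g.primeFactors ⊆ P := by
    rw [hP]
    exact subset_union_right
  have hPcard : P.card ≤ w + 2 * X := by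
    rw [hP]
    refine (card_union_le _ _).trans (Nat.add_le_add ?_ ?_)
    · refine (card_filter_le _ _).trans ?_
      rw [Nat.card_Icc]
      omega
    · rw [hX]
      exact MainM_om g hg1
  have hPlog : ∑ p ∈ P, Real.log (p : ℝ) ≤ 2 * w + Real.log g := by
    rw [hP]
    exact MainM_logs g w e hg1
  have hPlog0 : 0 ≤ ∑ p ∈ P, Real.log (p : ℝ) := sum_nonneg fun p _ => Real.log_natCast_nonneg p
  have heP : ∀ A : ℕ, A ≠ 0 → A.primeFactors = P → ¬ e ∣ A := by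
    intro A hA hAP heA
    rcases he with he | ⟨he, heg⟩
    · rw [he, zero_dvd_iff] at heA
      exact hA heA
    · have h1 : e ∈ P := by
        rw [← hAP]
        exact Nat.mem_primeFactors.2 ⟨he, heA, hA⟩
      rw [hP, mem_union, mem_filter] at h1
      rcases h1 with h1 | h1
      · exact h1.2.2 rfl
      · exact heg (Nat.dvd_of_mem_primeFactors h1)
  have hPprod : 8 * ((∏ p ∈ P, p : ℕ) : ℝ) ≤ Real.exp (Real.log N ^ (1 / 2000 : ℝ)) := by
    have h1 : ((∏ p ∈ P, p : ℕ) : ℝ) = Real.exp (∑ p ∈ P, Real.log (p : ℝ)) := by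
      rw [Real.exp_sum, Nat.cast_prod]
      refine prod_congr rfl fun p hp => ?_
      rw [Real.exp_log]
      exact_mod_cast (hPp p hp).pos
    have h2 : (8 : ℝ) ≤ Real.exp 3 := by
      have h3 : Real.exp 3 = Real.exp 1 ^ 3 := by
        rw [← Real.exp_nat_mul]
        norm_num
      rw [h3]
      have h4 : (2 : ℝ) ≤ Real.exp 1 := by
        have := Real.exp_one_gt_d9
        linarith
      calc (8 : ℝ) = 2 ^ 3 := by norm_num
        _ ≤ Real.exp 1 ^ 3 := pow_le_pow_left₀ (by norm_num) h4 3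
    rw [h1]
    calc 8 * Real.exp (∑ p ∈ P, Real.log (p : ℝ)) ≤ Real.exp 3 * Real.exp (∑ p ∈ P, Real.log (p : ℝ)) :=
          mul_le_mul_of_nonneg_right h2 (Real.exp_pos _).le
      _ = Real.exp (3 + ∑ p ∈ P, Real.log (p : ℝ)) := by rw [← Real.exp_add]
      _ ≤ Real.exp (Real.log N ^ (1 / 2000 : ℝ)) := Real.exp_le_exp.2 (by linarith)
  obtain ⟨V, hV⟩ : ∃ V : ℕ, V = T * (k + 1) * (2 * X) := ⟨_, rfl⟩
  obtain ⟨E, hE⟩ : ∃ E : ℕ, E = T * (2 * X + (k + 2) * H) := ⟨_, rfl⟩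
  have hv : ∀ q : Cd P, g.factorization q.1 ≤ 2 * X := by
    intro q
    rw [hX]
    exact MainM_v g q.1 hg1
  have hpm : ParM (tM k) D V w M N ρ P := by
    refine ⟨hPp, ⟨e, hPmost⟩, hent _ ?_, ?_, ?_, hMlog⟩
    · have h1 : (Icc 1 w).filter Nat.Prime ⊆ insert e (P.filter fun p => p ≤ w) := by
        intro p hp
        rw [mem_filter, mem_Icc] at hp
        rw [mem_insert, mem_filter]
        by_cases hpe : p = e
        · exact Or.inl hpe
        · exact Or.inr ⟨hPmost p hp.2 hp.1.2 hpe, hp.1.2⟩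
      exact (card_le_card h1).trans (card_insert_le _ _)
    · calc (4 * (D + V)) ^ 2 = 16 * (D + V) ^ 2 := by ring
        _ ≤ 16 * ((D + 2 * T * (k + 2) + 1) * (1 + X)) ^ 2 := by
            refine Nat.mul_le_mul_left _ (Nat.pow_le_pow_left ?_ 2)
            have h1 : V ≤ 2 * T * (k + 2) * X := by
              rw [hV]
              calc T * (k + 1) * (2 * X) = 2 * T * (k + 1) * X := by ring
                _ ≤ 2 * T * (k + 2) * X :=
                  Nat.mul_le_mul_right _ (Nat.mul_le_mul_left _ (by omega))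
            calc D + V ≤ D + 2 * T * (k + 2) * X := by omega
              _ ≤ (D + 2 * T * (k + 2) + 1) * (1 + X) := by
                have e1 : (D + 2 * T * (k + 2) + 1) * (1 + X) =
                    D + 2 * T * (k + 2) * X + (2 * T * (k + 2) + 1 + D * X + X) := by ring
                rw [e1]
                exact Nat.le_add_right _ _
        _ = 16 * (D + 2 * T * (k + 2) + 1) ^ 2 * (1 + X) * (1 + X) := by ring
        _ ≤ Q * (w + X) * (1 + X) := by
            refine Nat.mul_le_mul_right _ (Nat.mul_le_mul ?_ (by omega))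
            rw [hQ]
            omega
        _ ≤ M := hMQ
    · linarith
  have hEcard : 4 * E * P.card ≤ M := by
    calc 4 * E * P.card ≤ 4 * (T * ((k + 2) * (H + 2) * (1 + X))) * (2 * (w + X)) := by
          refine Nat.mul_le_mul (Nat.mul_le_mul_left _ ?_) (by omega)
          rw [hE]
          refine Nat.mul_le_mul_left _ ?_
          have e1 : (k + 2) * (H + 2) * (1 + X) =
              2 * X + (k + 2) * H + (2 * (k + 2) + (k + 2) * H * X + 2 * (k + 1) * X) := by ring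
          rw [e1]
          exact Nat.le_add_right _ _
      _ = 8 * T * (k + 2) * (H + 2) * (w + X) * (1 + X) := by ring
      _ ≤ Q * (w + X) * (1 + X) := by
          refine Nat.mul_le_mul_right _ (Nat.mul_le_mul_right _ ?_)
          rw [hQ]
          nlinarith
      _ ≤ M := hMQ
  have hE1 : 1 ≤ E := by
    rw [hE]
    have : 1 * 1 ≤ T * (2 * X + (k + 2) * H) := by
      refine Nat.mul_le_mul hT ?_
      have : 1 * 1 ≤ (k + 2) * H := Nat.mul_le_mul (by omega) (by omega)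
      omega
    omega
  have hdensN : dM k * N ≤ ∑ n ∈ Ico N (2 * N), av (fP P M w (Rt (tM k) N) E n) := by
    refine hdens N hN3 w M E P hPp ⟨e, hPmost⟩ (by omega) hE1 ?_ ?_ hEcard
    · intro A hA hAP
      refine hLow A (heP A hA.ne hAP) ?_
      rw [hAP]
      exact hPprod
    · exact (mul_le_mul_of_nonneg_left hPlog (Nat.cast_nonneg _)).trans hM100
  obtain ⟨v, hvdef⟩ : ∃ v : Cd P → ℕ, v = fun q => g.factorization q.1 := ⟨_, rfl⟩
  have hv' : ∀ q, v q ≤ 2 * X := by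
    intro q
    rw [hvdef]
    exact hv q
  have hG := hgood w ((le_max_left _ _).trans hw0) M ((le_max_left _ _).trans hM0) N hN1 V E P hpm v
    (fun q => by
      rw [hV]
      exact Nat.mul_le_mul_left _ (hv' q)) hdensN
  have hHne : NeZero H := ⟨by omega⟩
  have hXne : Nonempty (Cd P → Fin H) := ⟨fun _ => 0⟩
  obtain ⟨R, hR⟩ : ∃ R : ℕ, R = Rt (tM k) N := ⟨_, rfl⟩
  -- the good `n`
  set Gs := (Ico N (2 * N)).filter fun n =>
        (∀ n' ≤ m0, MixOK k B0 n' η (EM k w M H v) (nuP P M w (Rt (tM k) N) n)) ∧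
        (∀ b : ℕ, 1 ≤ b → b ≤ T → LFav η (affM (EM k w M H v) (nuP P M w (Rt (tM k) N) n) b)) ∧
        dM k / 2 ≤ av (fP P M w (Rt (tM k) N) E n) ∧
        ∀ z, 0 ≤ fP P M w (Rt (tM k) N) E n z ∧ fP P M w (Rt (tM k) N) E n z ≤ nuP P M w (Rt (tM k) N) n z with hGs
  have hGcard : dM k ^ 2 / 16 * N ≤ (Gs.card : ℝ) := by
    refine hG.trans ?_
    norm_cast
  have hGn : ∀ n ∈ Gs, ∃ b : ℕ, 1 ≤ b ∧ b ≤ T ∧
      cR ≤ av (fun y : GP P M => av (fun x : Fin (k + 2) → Cd P → Fin H =>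
        ∏ j, fP P M w (Rt (tM k) N) E n (y + b • psi j (ce (EM k w M H v) x)))) := by
    intro n hn
    rw [hGs, mem_filter] at hn
    obtain ⟨-, hn1, hn2, hn3, hn4⟩ := hn
    rw [hB0] at hn1
    exact hrs (GP P M) (Cd P → Fin H) (EM k w M H v) _ _ hn4 hn3 hn1 hn2
  obtain ⟨b, hb1, hbT, hpig⟩ := MainM_pig Gs T hT (fun b n =>
    cR ≤ av (fun y : GP P M => av (fun x : Fin (k + 2) → Cd P → Fin H =>
        ∏ j, fP P M w (Rt (tM k) N) E n (y + b • psi j (ce (EM k w M H v) x))))) hGn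
  set S := Gs.filter fun n =>
    cR ≤ av (fun y : GP P M => av (fun x : Fin (k + 2) → Cd P → Fin H =>
        ∏ j, fP P M w (Rt (tM k) N) E n (y + b • psi j (ce (EM k w M H v) x)))) with hS
  have hSG : S ⊆ Gs := filter_subset _ _
  have hGI : Gs ⊆ Ico N (2 * N) := filter_subset _ _
  have hScard : dM k ^ 2 / 16 / T * N ≤ (S.card : ℝ) := by
    refine le_trans ?_ hpig
    calc dM k ^ 2 / 16 / T * N = dM k ^ 2 / 16 * N / T := by ring
      _ ≤ (Gs.card : ℝ) / T := div_le_div_of_nonneg_right hGcard hT0.le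
  obtain ⟨G, hGdef⟩ : ∃ G : ℕ → (Fin (k + 2) → Cd P → Fin H) → ℝ, G = fun n x =>
    av (fun y : GP P M => ∏ j, fP P M w (Rt (tM k) N) E n (y + b • psi j (ce (EM k w M H v) x))) := ⟨_, rfl⟩
  have hf0 : ∀ n ∈ S, ∀ z, 0 ≤ fP P M w (Rt (tM k) N) E n z ∧
      fP P M w (Rt (tM k) N) E n z ≤ nuP P M w (Rt (tM k) N) n z := by
    intro n hn
    have := hSG hn
    rw [hGs, mem_filter] at this
    exact this.2.2.2.2
  have hg0 : ∀ n ∈ S, ∀ x, 0 ≤ G n x := by
    intro n hn x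
    rw [hGdef]
    exact av_nonneg fun y => prod_nonneg fun j _ => (hf0 n hn _).1
  have hgle : ∀ n ∈ S, ∀ x, G n x ≤
      av (fun y : GP P M => ∏ j, nuP P M w (Rt (tM k) N) n (y + b • psi j (ce (EM k w M H v) x))) := by
    intro n hn x
    rw [hGdef]
    exact av_mono fun y => prod_le_prod (fun j _ => (hf0 n hn _).1) fun j _ => (hf0 n hn _).2
  have hR2 := hmom b hb1 hbT w ((le_max_right _ _).trans hw0) M ((le_max_right _ _).trans hM0) N hN2 V P hpm v
    (fun q => by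
      rw [hV]
      exact Nat.mul_le_mul (Nat.mul_le_mul_right _ hbT) (hv' q))
  have hkey := MainM_avg S G hg0 c1 N hc1p (by
      rw [hc1]
      calc cR * (dM k ^ 2 / 16 / T) * N = (dM k ^ 2 / 16 / T * N) * cR := by ring
        _ ≤ (S.card : ℝ) * cR := mul_le_mul_of_nonneg_right hScard hcR.le
        _ = ∑ _n ∈ S, cR := by rw [sum_const, nsmul_eq_mul]
        _ ≤ ∑ n ∈ S, av (G n) := by
            refine sum_le_sum fun n hn => ?_
            rw [hS, mem_filter] at hn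
            refine hn.2.trans (le_of_eq ?_)
            rw [hGdef]
            exact av_comm _) (by
      calc ∑ n ∈ S, av (fun x => G n x ^ 2)
          ≤ ∑ n ∈ S, av (fun x : Fin (k + 2) → Cd P → Fin H =>
            (av (fun y : GP P M => ∏ j, nuP P M w (Rt (tM k) N) n (y + b • psi j (ce (EM k w M H v) x)))) ^ 2) :=
            sum_le_sum fun n hn => av_mono fun x =>
              pow_le_pow_left₀ (hg0 n hn x) (hgle n hn x) 2
        _ ≤ ∑ n ∈ Ico N (2 * N), av (fun x : Fin (k + 2) → Cd P → Fin H =>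
            (av (fun y : GP P M => ∏ j, nuP P M w (Rt (tM k) N) n (y + b • psi j (ce (EM k w M H v) x)))) ^ 2) :=
            sum_le_sum_of_subset_of_nonneg (hSG.trans hGI) fun n _ _ =>
              av_nonneg fun x => sq_nonneg _
        _ ≤ 2 * N := hR2)
  obtain ⟨x, hx, hxsum⟩ := hkey
  have hgv : ∏ q : Cd P, q.1 ^ v q = g := by
    rw [hvdef]
    have h1 : ∏ q : Cd P, q.1 ^ g.factorization q.1 = ∏ q ∈ P, q ^ g.factorization q :=
      prod_coe_sort P fun q => q ^ g.factorization q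
    rw [h1]
    have h2 := Nat.factorization_prod_pow_eq_self (n := g) (by omega)
    rw [Finsupp.prod_of_support_subset _ (s := P) (by rw [Nat.support_factorization]; exact hPg) _
      (fun _ _ => pow_zero _)] at h2
    exact h2
  have hne2 : ∃ p ∈ P, p ≤ w := by
    by_cases h : (2 : ℕ) = e
    · exact ⟨3, hPmost 3 Nat.prime_three hw3 (by omega), hw3⟩
    · exact ⟨2, hPmost 2 Nat.prime_two (by omega) h, by omega⟩
  have hs2 := sM_two w hPp hne2 x
  have hEq : ∀ q : Cd P, b * (v q + (k + 2) * H) ≤ E := fun q => by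
    rw [hE]
    exact Nat.mul_le_mul hbT (Nat.add_le_add_right (hv' q) _)
  have hlogb : ∀ b0 : ℕ, 1 ≤ b0 → (b0 : ℝ) ≤ Real.exp (M * ∑ p ∈ P, Real.log p) →
      Real.log b0 ≤ (1 + Real.log g) * (Real.log (Real.log N) + Real.log g) ^ (2 + ε) := by
    intro b0 hb0 hb1
    have h2 : (0 : ℝ) < (b0 : ℝ) := by exact_mod_cast hb0
    have h3 := Real.log_le_log h2 hb1
    rw [Real.log_exp] at h3
    exact h3.trans ((mul_le_mul_of_nonneg_left hPlog (Nat.cast_nonneg _)).trans hMε)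
  refine ⟨b, sM w x, hb1, hbT, hs2, ?_, ?_, ?_⟩
  · have h1 := sM_le w hPp x
    have h2 : (0 : ℝ) < (sM w x : ℝ) := by exact_mod_cast (by omega : 0 < sM w x)
    have h3 := Real.log_le_log h2 h1
    rw [Real.log_exp] at h3
    refine h3.trans ?_
    calc 2 * (w : ℝ) * ((k + 2) * H) = 2 * ((k + 2) * H) * w := by ring
      _ ≤ 2 * ((k + 2) * H) * (C' * Real.log (Real.log N) * Real.log (Real.log (Real.log N))) :=
          mul_le_mul_of_nonneg_left hwC (by positivity)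
      _ = 2 * ((k + 2) * H) * C' * Real.log (Real.log N) * Real.log (Real.log (Real.log N)) := by ring
  · -- the right order for one `b`
    obtain ⟨hR3, -, -, -, hRlog, -⟩ := hRt N hN6
    have hNr : (3 : ℝ) ≤ N := by exact_mod_cast hN7
    have hlogN : 0 < Real.log N := Real.log_pos (by linarith)
    obtain ⟨W, hW⟩ : ∃ W : ℝ, W = VV (vq (Qs w (Rt (tM k) N) P)) (Rt (tM k) N) := ⟨_, rfl⟩
    have hW0 : 0 < W := by
      rw [hW]
      exact VVq_pos w _ _ (Qs_sub w _ P) (by omega)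
    have hW1 : W ≤ CV * Real.log N := by
      rw [hW]
      exact (hVV w _ _ (Qs_sub w _ P) (by omega) (by omega)).trans
        (mul_le_mul_of_nonneg_left hRlog (by linarith))
    have h1 : c1 / 2 * N ≤ av (fun y : GP P M => ∑ n ∈ S, ∏ j : Fin (k + 2),
        fP P M w (Rt (tM k) N) E n (y + b • psi j (ce (EM k w M H v) x))) := by
      rw [av_sum]
      refine hxsum.trans (le_of_eq ?_)
      rw [hGdef]
    obtain ⟨y, hy⟩ := MainM_ge_av (fun y : GP P M => ∑ n ∈ S, ∏ j : Fin (k + 2),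
        fP P M w (Rt (tM k) N) E n (y + b • psi j (ce (EM k w M H v) x)))
    have h2 := h1.trans hy
    obtain ⟨S', hS'⟩ : ∃ S' : Finset ℕ, S' = S.filter fun n => (∏ j : Fin (k + 2),
        fP P M w (Rt (tM k) N) E n (y + b • psi j (ce (EM k w M H v) x))) ≠ 0 := ⟨_, rfl⟩
    have h3 : ∑ n ∈ S, ∏ j : Fin (k + 2), fP P M w (Rt (tM k) N) E n (y + b • psi j (ce (EM k w M H v) x)) ≤
        S'.card * W ^ (k + 2) := by
      rw [hS', ← sum_filter_add_sum_filter_not S (fun n => (∏ j : Fin (k + 2),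
        fP P M w (Rt (tM k) N) E n (y + b • psi j (ce (EM k w M H v) x))) ≠ 0)]
      have h4 : ∑ n ∈ S with ¬ (∏ j : Fin (k + 2),
        fP P M w (Rt (tM k) N) E n (y + b • psi j (ce (EM k w M H v) x))) ≠ 0, ∏ j : Fin (k + 2),
        fP P M w (Rt (tM k) N) E n (y + b • psi j (ce (EM k w M H v) x)) = 0 := by
        refine sum_eq_zero fun n hn => ?_
        have := (mem_filter.1 hn).2
        push Not at this
        exact this
      rw [h4, add_zero, ← nsmul_eq_mul]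
      refine sum_le_card_nsmul _ _ _ fun n hn => ?_
      have hn' := (mem_filter.1 hn).1
      calc ∏ j : Fin (k + 2), fP P M w (Rt (tM k) N) E n (y + b • psi j (ce (EM k w M H v) x))
          ≤ ∏ _j : Fin (k + 2), W := by
            refine prod_le_prod (fun j _ => (hf0 n hn' _).1) fun j _ => ?_
            unfold fP
            split_ifs
            · exact hW.symm.le
            · exact hW0.le
        _ = W ^ (k + 2) := by rw [prod_const, card_univ, Fintype.card_fin]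
    have h5 : (mP P M (y + b • psi (Fin.last (k + 1)) (ce (EM k w M H v) x))) = 
        mP P M (y + b • psi (Fin.last (k + 1)) (ce (EM k w M H v) x)) := rfl
    obtain ⟨b0, hb0⟩ : ∃ b0 : ℕ, b0 = mP P M (y + b • psi (Fin.last (k + 1)) (ce (EM k w M H v) x)) := ⟨_, rfl⟩
    have hb01 : 1 ≤ b0 := by
      rw [hb0]
      exact mP_pos P M hPp _
    refine ⟨b0, hb01, hlogb b0 hb01 ?_, ?_⟩
    · rw [hb0]
      exact mP_le P M hPp _
    · have h6 : c1 / 2 * N ≤ S'.card * (CV * Real.log N) ^ (k + 2) :=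
        h2.trans (h3.trans (mul_le_mul_of_nonneg_left (pow_le_pow_left₀ hW0.le hW1 _) (Nat.cast_nonneg _)))
      have h7 : min (c1 ^ 2 / 2) (c1 / 2 / CV ^ (k + 2)) * N / Real.log N ^ (k + 2) ≤ (S'.card : ℝ) := by
        rw [div_le_iff₀ (by positivity)]
        have h8 : (0 : ℝ) < CV ^ (k + 2) := by positivity
        calc min (c1 ^ 2 / 2) (c1 / 2 / CV ^ (k + 2)) * N ≤ c1 / 2 / CV ^ (k + 2) * N :=
              mul_le_mul_of_nonneg_right (min_le_right _ _) (Nat.cast_nonneg _)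
          _ = c1 / 2 * N / CV ^ (k + 2) := by ring
          _ ≤ (S'.card * (CV * Real.log N) ^ (k + 2)) / CV ^ (k + 2) := div_le_div_of_nonneg_right h6 h8.le
          _ = S'.card * Real.log N ^ (k + 2) := by
              rw [mul_pow]
              field_simp
      refine h7.trans ?_
      norm_cast
      refine card_le_card fun n hn => ?_
      rw [hS', mem_filter] at hn
      rw [mem_filter]
      refine ⟨hGI (hSG hn.1), ?_⟩
      have h9 := (extractY k w M H P hPp v E b n (Rt (tM k) N) hb1 hEq x y hn.2).2.2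
      rw [hgv, ← hb0] at h9
      exact h9
  · refine (mul_le_mul_of_nonneg_right (min_le_left _ _) (Nat.cast_nonneg _)).trans (hx.trans ?_)
    norm_cast
    refine card_le_card fun n hn => ?_
    rw [mem_filter] at hn
    rw [mem_filter]
    refine ⟨hGI (hSG hn.1), ?_⟩
    have hpos := hn.2
    rw [hGdef] at hpos
    obtain ⟨b0, hm1, hm2, hm3⟩ := extractM k w M H P hPp v E b n (Rt (tM k) N) hb1 hEq x hpos
    refine ⟨b0, hm1, hlogb b0 hm1 hm2, ?_⟩
    rw [hgv] at hm3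
    exact hm3

end Pool.CM
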