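import Pool.Agent.Lib.MP_c77da8_nt.CM.RomM

/-!
# CM-PExpM: exponential moment of the bad primes of a pair of random multipliers

PROOF: copy `pair_exp_loc` (`CL/PExp.lean`), with `romM` in place of `romanoff_loc`.
-/

set_option autoImplicit false

namespace Pool.CM

open Finset Pool.CG Pool.CL

theorem pexpM (c ρ η : ℝ) (hc : 0 ≤ c) (hρ : 0 < ρ) (hρ1 : ρ < 1) (hη : 0 < η) :
    ∃ w0 M0 : ℕ, ∀ w ≥ w0, ∀ M ≥ M0, ∀ (R : ℕ) (Q : Finset ℕ), Q ⊆ Pr w R →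
      ∀ (Ω : Type) [Fintype Ω] [Nonempty Ω] (A A' : Ω → ℕ) (L : ℝ),
      (∀ ω, (A ω : ℝ) ≤ Real.exp ((M : ℝ) ^ 2)) → (∀ ω, (A' ω : ℝ) ≤ Real.exp ((M : ℝ) ^ 2)) →
      PairM Q M ρ L A A' →
      av (fun ω => if A ω = A' ω then 0 else
        Real.exp (c * ∑ p ∈ Q.filter (fun p => A ω ≡ A' ω [MOD p]), 1 / (p : ℝ))) ≤ 1 + η := by
  obtain ⟨w0, M0, h0⟩ := romM c ρ η hc hρ hρ1 hη
  refine ⟨w0, M0, fun w hw M hM R Q hQ Ω _ _ A A' L hA hA' hP => ?_⟩
  set D : Ω → ℕ := fun ω => (A ω - A' ω) + (A' ω - A ω) with hD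
  have hD0 : ∀ ω, D ω = 0 ↔ A ω = A' ω := by
    intro ω
    rw [hD]
    simp only
    omega
  have hDd : ∀ ω (p : ℕ), p ∣ D ω ↔ A ω ≡ A' ω [MOD p] := by
    intro ω p
    rw [hD]
    simp only
    rcases le_total (A ω) (A' ω) with h | h
    · rw [Nat.sub_eq_zero_of_le h, zero_add]
      exact (Nat.modEq_iff_dvd' h).symm
    · rw [Nat.sub_eq_zero_of_le h, add_zero]
      exact (Nat.modEq_iff_dvd' h).symm.trans ⟨fun h => h.symm, fun h => h.symm⟩
  have hDle : ∀ ω, (D ω : ℝ) ≤ Real.exp ((M : ℝ) ^ 2) := by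
    intro ω
    have h1 : D ω ≤ A ω ∨ D ω ≤ A' ω := by
      rw [hD]
      simp only
      omega
    rcases h1 with h | h
    · exact le_trans (by exact_mod_cast h) (hA ω)
    · exact le_trans (by exact_mod_cast h) (hA' ω)
  have hpr : ∀ p ∈ Q, p ≤ M ^ 3 →
      ((univ.filter fun ω => D ω ≠ 0 ∧ p ∣ D ω).card : ℝ) / Fintype.card Ω ≤
        ρ ^ Real.sqrt (Real.log p) + Real.log p / Real.sqrt M := by
    intro p hp hpM
    refine le_trans (le_of_eq ?_) (hP.2 p hp hpM)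
    congr 2
    congr 1
    ext ω
    simp only [mem_filter, mem_univ, true_and, ne_eq, hD0, hDd]
  have key := h0 w hw M hM R Q hQ Ω D hDle hpr
  refine le_trans (le_of_eq (av_congr fun ω => ?_)) key
  by_cases h : A ω = A' ω
  · rw [if_pos h, if_pos ((hD0 ω).2 h)]
  · rw [if_neg h, if_neg (fun h' => h ((hD0 ω).1 h'))]
    congr 2
    refine sum_congr ?_ fun _ _ => rfl
    ext p
    simp only [mem_filter, hDd]

end Pool.CM
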