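import Pool.Agent.Lib.MP_dd84fd_nt.SW.Siegel
import Pool.Agent.Lib.MP_dd84fd_nt.SW.UpperAll
import Pool.Agent.Lib.MP_c77da8_nt.CM.Defs

/-!
# CM-PageM: two different real characters with the same modulus are not both exceptional (Landau, Page)

PROOF.  `ℓ = ell N 0 ≥ 1` (`LowerAll_ell_one`): `coeff N χ₁ χ₂` gives `f ≥ 0`, `f 1 = 1`, so for real `σ = 1 + δ`, `0 < δ ≤ 1`,
`1 ≤ ∑ f(n) n^(-σ) = |ζ(σ) L(σ,χ₁) L(σ,χ₂) L(σ,χ₁χ₂)|` (the sum of a real nonnegative series, all terms of it are `≥ 0`, the term `n = 1` is `1`).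
`|ζ(σ)| ≤ 1 + 1/δ ≤ 2/δ` (`ζ(σ) = ∑ n^(-σ)`; there should be a bound in Mathlib or in the SW files: e.g. `L_upper` for the trivial character modulo
`1`: `≤ C/δ + C ell 1 0 ≤ C'/δ`).  `L_near_one` (`s = σ`, `LFunction_eq_LSeries`, `ej χ 0 = χ`): `|L(σ,χ)| ≤ |L(1,χ)| + C δ ℓ²` and
`L_one_upper`: `|L(1,χ)| ≤ C ℓ`.  If both `|L(1,χ_i)| < C δ ℓ²` then, for `δ ≤ 1/ℓ`,
`1 ≤ (C'/δ) (2 C δ ℓ²)² (2 C ℓ) = 8 C' C³ δ ℓ⁵`, a contradiction for `δ = c₀ ℓ^(-5)`, `c₀ = min(1, 1/(16 C' C³))`.  So one of them is `≥ C c₀ ℓ^(-3)`.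
-/

set_option autoImplicit false

namespace Pool.CM

open Finset Pool.CG Pool.CL Pool.MP_dd84fd_nt.SW

private theorem pm_lower (f : ℕ → ℝ) (hf : ∀ n, 0 ≤ f n) (h1 : f 1 = 1) (σ : ℝ)
    (hs : LSeriesSummable (fun n => (f n : ℂ)) (σ : ℂ)) :
    1 ≤ ‖LSeries (fun n => (f n : ℂ)) (σ : ℂ)‖ := by
  have hterm : ∀ n : ℕ, LSeries.term (fun n => (f n : ℂ)) (σ : ℂ) n =
      ((if n = 0 then 0 else f n / (n : ℝ) ^ σ : ℝ) : ℂ) := by
    intro n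
    rcases eq_or_ne n 0 with rfl | hn
    · simp
    · rw [LSeries.term_of_ne_zero hn, if_neg hn, Complex.ofReal_div,
        Complex.ofReal_cpow (by positivity), Complex.ofReal_natCast]
  have hre : ∀ n : ℕ, 0 ≤ (LSeries.term (fun n => (f n : ℂ)) (σ : ℂ) n).re := by
    intro n
    rw [hterm, Complex.ofReal_re]
    split_ifs
    · exact le_rfl
    · exact div_nonneg (hf n) (by positivity)
  have hsum : Summable fun n => (LSeries.term (fun n => (f n : ℂ)) (σ : ℂ) n).re :=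
    (Complex.hasSum_re hs.hasSum).summable
  have h2 : (LSeries.term (fun n => (f n : ℂ)) (σ : ℂ) 1).re ≤
      ∑' n, (LSeries.term (fun n => (f n : ℂ)) (σ : ℂ) n).re :=
    hsum.le_tsum 1 fun n _ => hre n
  have h3 : (LSeries.term (fun n => (f n : ℂ)) (σ : ℂ) 1).re = 1 := by
    rw [hterm, Complex.ofReal_re, if_neg one_ne_zero, h1]
    simp
  rw [h3, ← Complex.re_tsum hs] at h2
  exact h2.trans (Complex.re_le_norm _)

private theorem pm_ell_one : ell 1 0 ≤ 2 := by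
  unfold ell
  rw [abs_zero, zero_add, Nat.cast_one, one_mul]
  have h := Real.log_le_sub_one_of_pos (show (0 : ℝ) < 3 by norm_num)
  linarith

theorem page_same : ∃ c : ℝ, 0 < c ∧ ∀ (N : ℕ) [NeZero N] (χ₁ χ₂ : DirichletCharacter ℂ N), χ₁ ^ 2 = 1 → χ₂ ^ 2 = 1 →
    χ₁ ≠ 1 → χ₂ ≠ 1 → χ₁ * χ₂ ≠ 1 → c / ell N 0 ^ 3 ≤ ‖χ₁.LFunction 1‖ ∨ c / ell N 0 ^ 3 ≤ ‖χ₂.LFunction 1‖ := by
  obtain ⟨Cn, hCn, hnear⟩ := L_near_one
  obtain ⟨Co, hCo, hone⟩ := L_one_upper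
  obtain ⟨Cu, hCu, hupp⟩ := L_upper
  set c₀ : ℝ := min 1 (1 / (24 * Cu * Cn ^ 2 * (Co + Cn))) with hc₀
  have hc₀p : 0 < c₀ := lt_min one_pos (by positivity)
  have hc₀1 : c₀ ≤ 1 := min_le_left _ _
  have hc₀2 : 12 * Cu * Cn ^ 2 * (Co + Cn) * c₀ ≤ 1 / 2 := by
    have h : c₀ ≤ 1 / (24 * Cu * Cn ^ 2 * (Co + Cn)) := min_le_right _ _
    calc 12 * Cu * Cn ^ 2 * (Co + Cn) * c₀
        ≤ 12 * Cu * Cn ^ 2 * (Co + Cn) * (1 / (24 * Cu * Cn ^ 2 * (Co + Cn))) := by gcongr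
      _ = 1 / 2 := by
        field_simp
        norm_num
  refine ⟨Cn * c₀, by positivity, ?_⟩
  intro N _ χ₁ χ₂ hq1 hq2 hne1 hne2 hne12
  by_contra hcon
  rw [not_or, not_le, not_le] at hcon
  obtain ⟨hl1, hl2⟩ := hcon
  have hN1 : 1 ≤ N := Nat.one_le_iff_ne_zero.mpr (NeZero.ne N)
  set l : ℝ := ell N 0 with hl
  have hl0 : 1 ≤ l := ell_ge_one hN1 0
  have hlp : 0 < l := by linarith
  set δ : ℝ := c₀ / l ^ 5 with hδ
  have hδp : 0 < δ := by positivity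
  have hδl : δ * l ≤ 1 := by
    rw [hδ, div_mul_eq_mul_div, div_le_one (by positivity)]
    calc c₀ * l ≤ 1 * l := by gcongr
      _ = l ^ 1 := by ring
      _ ≤ l ^ 5 := pow_le_pow_right₀ hl0 (by norm_num)
  have hδ1 : δ ≤ 1 := by nlinarith
  obtain ⟨f, hf, hf1, hfs⟩ := coeff N χ₁ χ₂ hq1 hq2
  have hsre : (((1 + δ : ℝ)) : ℂ).re = 1 + δ := Complex.ofReal_re _
  have hsim : (((1 + δ : ℝ)) : ℂ).im = 0 := Complex.ofReal_im _
  have hs1 : 1 < (((1 + δ : ℝ)) : ℂ).re := by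
    rw [hsre]
    linarith
  have hs2 : (((1 + δ : ℝ)) : ℂ).re ≤ 2 := by
    rw [hsre]
    linarith
  have hs3 : |(((1 + δ : ℝ)) : ℂ).im| ≤ 1 := by
    rw [hsim, abs_zero]
    norm_num
  have hsn : ‖(((1 + δ : ℝ)) : ℂ) - 1‖ = δ := by
    have : (((1 + δ : ℝ)) : ℂ) - 1 = ((δ : ℝ) : ℂ) := by
      push_cast
      ring
    rw [this, Complex.norm_real, Real.norm_eq_abs, abs_of_pos hδp]
  obtain ⟨hsum, heq⟩ := hfs (((1 + δ : ℝ)) : ℂ) hs1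
  have hlow := pm_lower f hf hf1 (1 + δ) hsum
  rw [heq, norm_mul, norm_mul, norm_mul] at hlow
  have hL : ∀ χ : DirichletCharacter ℂ N,
      LSeries (ej χ 0) (((1 + δ : ℝ)) : ℂ) = χ.LFunction (((1 + δ : ℝ)) : ℂ) := by
    intro χ
    rw [DirichletCharacter.LFunction_eq_LSeries χ hs1]
    congr 1
    funext n
    simp [ej]
  have hz : ‖riemannZeta (((1 + δ : ℝ)) : ℂ)‖ ≤ 3 * Cu / δ := by
    have h := hupp 1 (1 : DirichletCharacter ℂ 1) (((1 + δ : ℝ)) : ℂ) le_rfl hs1 hs2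
    have h1 : LSeries (ej (1 : DirichletCharacter ℂ 1) 0) (((1 + δ : ℝ)) : ℂ) =
        riemannZeta (((1 + δ : ℝ)) : ℂ) := by
      rw [← DirichletCharacter.LFunction_modOne_eq (χ := (1 : DirichletCharacter ℂ 1)),
        DirichletCharacter.LFunction_eq_LSeries _ hs1]
      congr 1
      funext n
      simp [ej]
    rw [h1, hsn, hsim] at h
    refine h.trans ?_
    have h2 := pm_ell_one
    calc Cu / δ + Cu * ell 1 0 ≤ Cu / δ + Cu * 2 := by gcongr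
      _ ≤ Cu / δ + Cu * (2 / δ) := by
        have : 2 ≤ 2 / δ := by
          rw [le_div_iff₀ hδp]
          linarith
        gcongr
      _ = 3 * Cu / δ := by ring
  have hb : ∀ χ : DirichletCharacter ℂ N, χ ≠ 1 → ‖χ.LFunction (((1 + δ : ℝ)) : ℂ)‖ ≤
      ‖χ.LFunction 1‖ + Cn * δ * l ^ 2 := by
    intro χ hχ
    have h := hnear N χ (((1 + δ : ℝ)) : ℂ) hχ hs1 hs2 hs3
    rw [hL, hsn] at h
    have h2 := norm_sub_norm_le (χ.LFunction (((1 + δ : ℝ)) : ℂ)) (χ.LFunction 1)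
    linarith
  have hδl2 : Cn * δ * l ^ 2 = Cn * c₀ / l ^ 3 := by
    rw [hδ]
    field_simp
  have hb1 : ‖χ₁.LFunction (((1 + δ : ℝ)) : ℂ)‖ ≤ 2 * (Cn * c₀ / l ^ 3) := by
    have := hb χ₁ hne1
    rw [hδl2] at this
    linarith
  have hb2 : ‖χ₂.LFunction (((1 + δ : ℝ)) : ℂ)‖ ≤ 2 * (Cn * c₀ / l ^ 3) := by
    have := hb χ₂ hne2
    rw [hδl2] at this
    linarith
  have hb3 : ‖(χ₁ * χ₂).LFunction (((1 + δ : ℝ)) : ℂ)‖ ≤ (Co + Cn) * l := by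
    have h1 := hb (χ₁ * χ₂) hne12
    have h2 := hone N (χ₁ * χ₂) hne12
    have h3 : Cn * δ * l ^ 2 ≤ Cn * l := by
      calc Cn * δ * l ^ 2 = Cn * l * (δ * l) := by ring
        _ ≤ Cn * l * 1 := by gcongr
        _ = Cn * l := by ring
    linarith
  have hfin : ‖riemannZeta (((1 + δ : ℝ)) : ℂ)‖ * ‖χ₁.LFunction (((1 + δ : ℝ)) : ℂ)‖ *
      ‖χ₂.LFunction (((1 + δ : ℝ)) : ℂ)‖ * ‖(χ₁ * χ₂).LFunction (((1 + δ : ℝ)) : ℂ)‖ ≤
      (3 * Cu / δ) * (2 * (Cn * c₀ / l ^ 3)) * (2 * (Cn * c₀ / l ^ 3)) * ((Co + Cn) * l) := by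
    gcongr
  have hval : (3 * Cu / δ) * (2 * (Cn * c₀ / l ^ 3)) * (2 * (Cn * c₀ / l ^ 3)) * ((Co + Cn) * l) =
      12 * Cu * Cn ^ 2 * (Co + Cn) * c₀ := by
    rw [hδ]
    field_simp
    ring
  rw [hval] at hfin
  linarith

end Pool.CM
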