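import Pool.Agent.Lib.MP_c77da8_nt.CM.PageM
import Pool.Agent.Lib.MP_c77da8_nt.CM.LevM

/-!
# CM-PageN: two different real characters are not both exceptional

PROOF.  `page_same` for `N = q₁ q₂` and the two lifts (`≠ 1`: `DirichletCharacter.changeLevel_injective`; squares are `1`: `map_pow`), and `lev_bounds` (first part).
For `q₁, q₂ ≤ Q`, `Q ≥ 3`: `ell N 0 ≤ log (3 Q²) ≤ 3 log Q` (see the definition of `ell` in `SW/Defs.lean`; adapt the constant).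
-/

set_option autoImplicit false

namespace Pool.CM

open Finset Pool.CG Pool.CL Pool.MP_dd84fd_nt.SW

theorem page : ∃ c : ℝ, 0 < c ∧ ∀ Q : ℝ, 3 ≤ Q → ∀ (q₁ q₂ : ℕ) [NeZero q₁] [NeZero q₂] (χ₁ : DirichletCharacter ℂ q₁)
    (χ₂ : DirichletCharacter ℂ q₂), (q₁ : ℝ) ≤ Q → (q₂ : ℝ) ≤ Q → χ₁ ^ 2 = 1 → χ₂ ^ 2 = 1 → χ₁ ≠ 1 → χ₂ ≠ 1 →
    DirichletCharacter.changeLevel (Dvd.intro q₂ rfl) χ₁ *
      DirichletCharacter.changeLevel (Dvd.intro_left q₁ rfl : q₂ ∣ q₁ * q₂) χ₂ ≠ 1 →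
    c / Real.log Q ^ 4 ≤ ‖χ₁.LFunction 1‖ ∨ c / Real.log Q ^ 4 ≤ ‖χ₂.LFunction 1‖ := by
  obtain ⟨c, hc, hp⟩ := page_same
  refine ⟨c / 162, by positivity, ?_⟩
  intro Q hQ q₁ q₂ _ _ χ₁ χ₂ h₁ h₂ s₁ s₂ n₁ n₂ h12
  have hq1 : (1 : ℝ) ≤ q₁ := by exact_mod_cast Nat.one_le_iff_ne_zero.2 (NeZero.ne q₁)
  have hq2 : (1 : ℝ) ≤ q₂ := by exact_mod_cast Nat.one_le_iff_ne_zero.2 (NeZero.ne q₂)
  have hQ0 : (0 : ℝ) < Q := by linarith
  haveI : NeZero (q₁ * q₂) := ⟨mul_ne_zero (NeZero.ne q₁) (NeZero.ne q₂)⟩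
  -- the size of `ell`
  have hN : ((q₁ * q₂ : ℕ) : ℝ) * (|0| + 3) = (q₁ : ℝ) * q₂ * 3 := by
    push_cast
    rw [abs_zero, zero_add]
  have hell0 : 0 < ell (q₁ * q₂) 0 := by
    unfold ell
    rw [hN]
    refine Real.log_pos ?_
    nlinarith [mul_le_mul hq1 hq2 zero_le_one (by linarith : (0 : ℝ) ≤ q₁)]
  have hell : ell (q₁ * q₂) 0 ≤ 3 * Real.log Q := by
    unfold ell
    rw [hN]
    have e3 : (3 : ℝ) * Real.log Q = Real.log (Q ^ 3) := by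
      rw [Real.log_pow]
      norm_num
    rw [e3]
    refine Real.log_le_log (by positivity) ?_
    have a1 : (q₁ : ℝ) * q₂ ≤ Q * Q := mul_le_mul h₁ h₂ (by linarith) hQ0.le
    have a2 : (q₁ : ℝ) * q₂ * 3 ≤ (Q * Q) * Q :=
      mul_le_mul a1 hQ (by norm_num) (by positivity)
    calc (q₁ : ℝ) * q₂ * 3 ≤ (Q * Q) * Q := a2
      _ = Q ^ 3 := by ring
  have hlog : 0 < Real.log Q := by linarith
  -- the last step
  have key : ∀ a b : ℝ, 0 ≤ b → c / ell (q₁ * q₂) 0 ^ 3 ≤ a → a ≤ 2 * ell (q₁ * q₂) 0 * b →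
      c / 162 / Real.log Q ^ 4 ≤ b := by
    intro a b hb h1 h2
    have h3 : c / ell (q₁ * q₂) 0 ^ 3 ≤ 2 * ell (q₁ * q₂) 0 * b := h1.trans h2
    rw [div_le_iff₀ (by positivity)] at h3
    rw [div_le_iff₀ (by positivity), div_le_iff₀ (by norm_num)]
    have h4 : ell (q₁ * q₂) 0 ^ 4 ≤ (3 * Real.log Q) ^ 4 := pow_le_pow_left₀ hell0.le hell 4
    have h5 : c ≤ 2 * b * ell (q₁ * q₂) 0 ^ 4 := by
      calc c ≤ 2 * ell (q₁ * q₂) 0 * b * ell (q₁ * q₂) 0 ^ 3 := h3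
        _ = 2 * b * ell (q₁ * q₂) 0 ^ 4 := by ring
    have h6 : 2 * b * ell (q₁ * q₂) 0 ^ 4 ≤ 2 * b * (3 * Real.log Q) ^ 4 :=
      mul_le_mul_of_nonneg_left h4 (by linarith)
    calc c ≤ 2 * b * (3 * Real.log Q) ^ 4 := h5.trans h6
      _ = b * Real.log Q ^ 4 * 162 := by ring
  have hd1 : q₁ ∣ q₁ * q₂ := Dvd.intro q₂ rfl
  have hd2 : q₂ ∣ q₁ * q₂ := Dvd.intro_left q₁ rfl
  have hsq1 : (DirichletCharacter.changeLevel hd1 χ₁) ^ 2 = 1 := by rw [← map_pow, s₁, map_one]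
  have hsq2 : (DirichletCharacter.changeLevel hd2 χ₂) ^ 2 = 1 := by rw [← map_pow, s₂, map_one]
  have hne1 : DirichletCharacter.changeLevel hd1 χ₁ ≠ 1 := by
    intro h
    exact n₁ (DirichletCharacter.changeLevel_injective hd1 (by rw [h, map_one]))
  have hne2 : DirichletCharacter.changeLevel hd2 χ₂ ≠ 1 := by
    intro h
    exact n₂ (DirichletCharacter.changeLevel_injective hd2 (by rw [h, map_one]))
  rcases hp (q₁ * q₂) (DirichletCharacter.changeLevel hd1 χ₁) (DirichletCharacter.changeLevel hd2 χ₂)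
    hsq1 hsq2 hne1 hne2 h12 with h | h
  · left
    exact key _ _ (norm_nonneg _) h (lev_bounds q₁ (q₁ * q₂) hd1 χ₁ n₁).1
  · right
    exact key _ _ (norm_nonneg _) h (lev_bounds q₂ (q₁ * q₂) hd2 χ₂ n₂).1

end Pool.CM
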