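import Pool.Agent.Lib.MP_c77da8_nt.CM.Defs

/-!
# CM-PairA: a counting lemma

PROOF.  Group the functions `x : C → Λ` by their restriction to the complement of `S`: for a fixed restriction, if there is some `x₀` with
`Φ x₀` then all `x` with `Φ x` (and the same restriction) have `d (x q) = d (x₀ q)` for `q ∈ S`, so their number is at most
`∏_(q ∈ S) #{a | d a = d (x₀ q)} ≤ (ρ card Λ)^|S|`; there are `card Λ ^ (card C - |S|)` restrictions.
In Lean, e.g. by induction on `S`, or with `Finset.card_eq_sum_card_fiberwise` for the map `x ↦ (fun q => if q ∈ S then a₀ else x q)` (`a₀ : Λ` fixed), whose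
fibre over `y` is in bijection with functions on `S`; the image has at most `card Λ ^ (card C - |S|)` elements (or: use
`Fintype.piFinset (fun q => if q ∈ S then {a | d a = d (x₀ q)} else {y q})` for the upper bound of the fibre, `Fintype.card_piFinset`, and
`Fintype.piFinset (fun q => if q ∈ S then {a₀} else univ)` for the image).
-/

set_option autoImplicit false

namespace Pool.CM

open Finset Pool.CG Pool.CL

theorem count_pi {C Λ : Type} [Fintype C] [DecidableEq C] [Fintype Λ] [Nonempty Λ] (S : Finset C)
    (Φ : (C → Λ) → Prop) [DecidablePred Φ] (d : Λ → ℤ) (ρ : ℝ) (hρ : 0 ≤ ρ)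
    (hd : ∀ v : ℤ, ((univ.filter fun a : Λ => d a = v).card : ℝ) ≤ ρ * Fintype.card Λ)
    (h : ∀ x x' : C → Λ, (∀ q ∉ S, x q = x' q) → Φ x → Φ x' → ∀ q ∈ S, d (x q) = d (x' q)) :
    ((univ.filter fun x => Φ x).card : ℝ) ≤ ρ ^ S.card * Fintype.card (C → Λ) := by
  classical
  obtain ⟨a0⟩ := ‹Nonempty Λ›
  set g : (C → Λ) → (C → Λ) := fun x q => if q ∈ S then a0 else x q with hg
  set A : Finset (C → Λ) := univ.filter fun x => Φ x with hA
  set n : ℝ := (Fintype.card Λ : ℝ) with hn
  have hn0 : 0 ≤ n := by positivity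
  have hfib : ∀ y ∈ A.image g, ((A.filter fun x => g x = y).card : ℝ) ≤ (ρ * n) ^ S.card := by
    intro y hy
    obtain ⟨x0, hx0, rfl⟩ := Finset.mem_image.mp hy
    have hx0' : Φ x0 := (Finset.mem_filter.mp hx0).2
    have hsub : (A.filter fun x => g x = g x0) ⊆ Fintype.piFinset
        (fun q => if q ∈ S then (univ.filter fun a : Λ => d a = d (x0 q)) else {x0 q}) := by
      intro x hx
      obtain ⟨hx1, hx2⟩ := Finset.mem_filter.mp hx
      have hxΦ : Φ x := (Finset.mem_filter.mp hx1).2
      have heq : ∀ q ∉ S, x q = x0 q := by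
        intro q hq
        have h1 := congrFun hx2 q
        simpa [hg, hq] using h1
      have hdd := h x x0 heq hxΦ hx0'
      rw [Fintype.mem_piFinset]
      intro q
      by_cases hq : q ∈ S
      · rw [if_pos hq, Finset.mem_filter]
        exact ⟨Finset.mem_univ _, hdd q hq⟩
      · rw [if_neg hq, Finset.mem_singleton]
        exact heq q hq
    have hcard := Finset.card_le_card hsub
    rw [Fintype.card_piFinset] at hcard
    have h2 : (∏ q : C, ((if q ∈ S then (univ.filter fun a : Λ => d a = d (x0 q)) else {x0 q}) :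
        Finset Λ).card) = ∏ q ∈ S, (univ.filter fun a : Λ => d a = d (x0 q)).card := by
      rw [← Finset.prod_subset (Finset.subset_univ S)]
      · refine Finset.prod_congr rfl fun q hq => ?_
        rw [if_pos hq]
      · intro q _ hq
        rw [if_neg hq, Finset.card_singleton]
    rw [h2] at hcard
    calc ((A.filter fun x => g x = g x0).card : ℝ)
        ≤ ((∏ q ∈ S, (univ.filter fun a : Λ => d a = d (x0 q)).card : ℕ) : ℝ) := by
          exact_mod_cast hcard
      _ = ∏ q ∈ S, ((univ.filter fun a : Λ => d a = d (x0 q)).card : ℝ) := by push_cast; rfl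
      _ ≤ ∏ _q ∈ S, (ρ * n) :=
          Finset.prod_le_prod (fun q _ => by positivity) fun q _ => hd (d (x0 q))
      _ = (ρ * n) ^ S.card := by rw [Finset.prod_const]
  have himg : ((A.image g).card : ℝ) ≤ n ^ (Sᶜ).card := by
    have hsub : A.image g ⊆ Fintype.piFinset
        (fun q => if q ∈ S then ({a0} : Finset Λ) else univ) := by
      intro y hy
      obtain ⟨x, _, rfl⟩ := Finset.mem_image.mp hy
      rw [Fintype.mem_piFinset]
      intro q
      by_cases hq : q ∈ S
      · rw [if_pos hq, Finset.mem_singleton]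
        simp [hg, hq]
      · rw [if_neg hq]
        exact Finset.mem_univ _
    have hcard := Finset.card_le_card hsub
    rw [Fintype.card_piFinset] at hcard
    have h2 : (∏ q : C, (if q ∈ S then ({a0} : Finset Λ) else univ).card) =
        ∏ _q ∈ Sᶜ, Fintype.card Λ := by
      rw [← Finset.prod_subset (Finset.subset_univ Sᶜ)]
      · refine Finset.prod_congr rfl fun q hq => ?_
        rw [if_neg (Finset.mem_compl.mp hq), Finset.card_univ]
      · intro q _ hq
        rw [Finset.mem_compl, not_not] at hq
        rw [if_pos hq, Finset.card_singleton]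
    rw [h2, Finset.prod_const] at hcard
    rw [hn]
    exact_mod_cast hcard
  have htot : (Fintype.card (C → Λ) : ℝ) = n ^ S.card * n ^ (Sᶜ).card := by
    rw [Fintype.card_fun, hn, ← pow_add, Finset.card_add_card_compl]
    push_cast
    rfl
  have hsum : (A.card : ℝ) = ∑ y ∈ A.image g, ((A.filter fun x => g x = y).card : ℝ) := by
    rw [Finset.card_eq_sum_card_image g A]
    push_cast
    rfl
  calc (A.card : ℝ) = ∑ y ∈ A.image g, ((A.filter fun x => g x = y).card : ℝ) := hsum
    _ ≤ ∑ _y ∈ A.image g, (ρ * n) ^ S.card := Finset.sum_le_sum hfib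
    _ = (A.image g).card * (ρ * n) ^ S.card := by rw [Finset.sum_const, nsmul_eq_mul]
    _ ≤ n ^ (Sᶜ).card * (ρ * n) ^ S.card :=
        mul_le_mul_of_nonneg_right himg (by positivity)
    _ = ρ ^ S.card * Fintype.card (C → Λ) := by
        rw [htot, mul_pow]
        ring

end Pool.CM
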