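import Pool.Agent.Lib.MP_c77da8_nt.CM.SqM
import Pool.Agent.Lib.MP_c77da8_nt.CM.AntiM

/-!
# CM-PattM: for most `n` the weights at the points `y + b psi_j(E x)` satisfy the linear forms condition in mean square

PROOF (compare `CL/SqSys.lean`, `CL/MostN.lean`).  `psi j (ce E x) q = κ_q ∑_l (l - j) (x_l q + 1) - j v_q` in `ZMod M` (`E = EM k w M H v`).  For
`S : Finset (K × Finset K)` with `p.1 ∉ p.2` put `I = {p // p ∈ S}`, `Λo = Unit`, `Λi = (K → Fin H) × (K → Fin H)`,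
`φ (j, T) _ (x, x') = b ∑_l (l - j) ((mix T x x' l) + 1)`, `o (j, T) q = - b j v_q`: `|φ| ≤ b (k+1) (k+2) H ≤ D`, `|o| ≤ b (k+1) v_q ≤ V`,
`2 card I ≤ 2 (k+2) 2^(k+2) ≤ t`.  Then `y + b • psi j (ce E (mix T z z')) = ptM w (φ (j,T)) (o (j,T)) (y, fun q => ((), (z · q, z' · q)))`, so `sq_genM` bounds
`∑_n av_y (av_(z, z') ∏_(p ∈ S) affM E ν_n b y p.1 (mix p.2 z z') - 1)²` by `3 η' N` (reindex the average over `(K → Cd P → Fin H)²` as an average over
`Cd P → (K → Fin H) × (K → Fin H)`: `Equiv.piComm`, `Equiv.arrowProdEquivProdArrow`; `av_equiv`; the outer part `Cd P → Unit` has one element).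
Anticoncentration: for `(j, T) ≠ (j', T')` (with `j ∉ T`, `j' ∉ T'`) some variable (`x_l` or `x'_l`) has different coefficients in `φ (j, T)` and `φ (j', T')`: the
coefficient of `x_l` is `b (l - j)` if `l ∉ T` and `0` otherwise, that of `x'_l` is `b (l - j)` if `l ∈ T` (see `sqc_inj` in `CL/SqSys.lean`: at `l = j` both are `0` for
`(j, T)`, and one is not `0` for `(j', T')` if `j' ≠ j`; if `j = j'` take `l` in the symmetric difference); the difference is injective in this variable, `anti_inj`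
(`A = Fin H`, `1/H ≤ ρ`).  For two different copies of the inner variables: `φ (j, T)` has a nonzero coefficient at some variable of its copy (`l ≠ j`).
`LFav` fails for `n` iff the mean square is `> η` for one of the at most `2^((k+2) 2^(k+2))` sets `S`: as in `most_n`.
-/

set_option autoImplicit false

namespace Pool.CM

open Finset Pool.CG Pool.CL

/-- anticoncentration of a linear form with a nonzero coefficient -/
private theorem pm_anti {H : ℕ} (hH : 1 ≤ H) {ι Λ : Type} [Fintype ι] [DecidableEq ι] [Fintype Λ]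
    (e : Λ ≃ (ι → Fin H)) (ψ : Λ → ℤ) (c : ι → ℤ)
    (hψ : ∀ a, ψ a = ∑ i, c i * ((((e a i : Fin H) : ℕ) : ℤ) + 1)) (i0 : ι) (hc : c i0 ≠ 0) (ρ : ℝ)
    (hρH : 1 / (H : ℝ) ≤ ρ) (v : ℤ) :
    ((univ.filter fun a : Λ => ψ a = v).card : ℝ) ≤ ρ * Fintype.card Λ := by
  have h1 := anti_inj (e.trans (Equiv.funSplitAt i0 (Fin H))) ψ (by
    intro b a a' haa
    simp only [Equiv.symm_trans_apply] at haa
    obtain ⟨x, hx⟩ : ∃ x, x = (Equiv.funSplitAt i0 (Fin H)).symm (a, b) := ⟨_, rfl⟩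
    obtain ⟨x', hx'⟩ : ∃ x', x' = (Equiv.funSplitAt i0 (Fin H)).symm (a', b) := ⟨_, rfl⟩
    rw [← hx, ← hx', hψ, hψ, e.apply_symm_apply, e.apply_symm_apply] at haa
    have g0 : x i0 = a ∧ x' i0 = a' := by
      rw [hx, hx']
      constructor
      · simp [Equiv.funSplitAt, Equiv.piSplitAt]
      · simp [Equiv.funSplitAt, Equiv.piSplitAt]
    have g1 : ∀ i, i ≠ i0 → x i = x' i := by
      intro i hi
      rw [hx, hx']
      simp [Equiv.funSplitAt, Equiv.piSplitAt, hi]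
    rw [← Finset.add_sum_erase univ _ (Finset.mem_univ i0),
      ← Finset.add_sum_erase univ (fun i => c i * ((((x' i : Fin H) : ℕ) : ℤ) + 1)) (Finset.mem_univ i0)] at haa
    have h2 : ∑ i ∈ univ.erase i0, c i * ((((x i : Fin H) : ℕ) : ℤ) + 1) =
        ∑ i ∈ univ.erase i0, c i * ((((x' i : Fin H) : ℕ) : ℤ) + 1) := by
      refine Finset.sum_congr rfl fun i hi => ?_
      rw [g1 i (Finset.ne_of_mem_erase hi)]
    rw [h2, g0.1, g0.2] at haa
    have h3 := mul_left_cancel₀ hc (add_right_cancel haa)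
    apply Fin.ext
    omega) v
  rw [Fintype.card_fin] at h1
  have hH0 : (0 : ℝ) < H := by exact_mod_cast hH
  have h2 : ((univ.filter fun a : Λ => ψ a = v).card : ℝ) ≤ 1 / (H : ℝ) * Fintype.card Λ := by
    rw [one_div, inv_mul_eq_div, le_div_iff₀ hH0]
    exact h1
  exact h2.trans (mul_le_mul_of_nonneg_right hρH (by positivity))

/-- the coefficients -/
private def pmc {k : ℕ} (b : ℕ) (j : Fin (k + 2)) (T : Finset (Fin (k + 2))) :
    Fin (k + 2) ⊕ Fin (k + 2) → ℤ :=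
  Sum.elim (fun l => if l ∈ T then 0 else (b : ℤ) * (((l : ℕ) : ℤ) - ((j : ℕ) : ℤ)))
    (fun l => if l ∈ T then (b : ℤ) * (((l : ℕ) : ℤ) - ((j : ℕ) : ℤ)) else 0)

/-- the linear form -/
private def pmf {k H : ℕ} (b : ℕ) (j : Fin (k + 2)) (T : Finset (Fin (k + 2)))
    (x x' : Fin (k + 2) → Fin H) : ℤ :=
  (b : ℤ) * ∑ l : Fin (k + 2), (((l : ℕ) : ℤ) - ((j : ℕ) : ℤ)) * ((((mix T x x' l : Fin H) : ℕ) : ℤ) + 1)

private theorem pmf_eq {k H : ℕ} (b : ℕ) (j : Fin (k + 2)) (T : Finset (Fin (k + 2)))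
    (x x' : Fin (k + 2) → Fin H) :
    pmf b j T x x' = ∑ i, pmc b j T i * ((((Sum.elim x x' i : Fin H) : ℕ) : ℤ) + 1) := by
  unfold pmf
  rw [Fintype.sum_sum_type, ← Finset.sum_add_distrib, Finset.mul_sum]
  refine Finset.sum_congr rfl fun l _ => ?_
  simp only [pmc, Sum.elim_inl, Sum.elim_inr]
  by_cases h : l ∈ T
  · rw [mix_apply_mem h, if_pos h, if_pos h]
    ring
  · rw [mix_apply_not_mem h, if_neg h, if_neg h]
    ring

private theorem pmc_ne {k b : ℕ} (hb : 1 ≤ b) {j j' : Fin (k + 2)} {T T' : Finset (Fin (k + 2))}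
    (hj : j ∉ T) (hj' : j' ∉ T') (hne : (j, T) ≠ (j', T')) : ∃ i, pmc b j T i - pmc b j' T' i ≠ 0 := by
  by_contra hcon
  push Not at hcon
  have heq : ∀ i, pmc b j T i = pmc b j' T' i := fun i => sub_eq_zero.1 (hcon i)
  have hb0 : (b : ℤ) ≠ 0 := by exact_mod_cast (by omega : b ≠ 0)
  have hval : ∀ l m : Fin (k + 2), (b : ℤ) * (((l : ℕ) : ℤ) - ((m : ℕ) : ℤ)) = 0 → l = m := by
    intro l m h
    have h1 := (mul_eq_zero.1 h).resolve_left hb0
    apply Fin.ext
    omega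
  have hjj : j = j' := by
    by_cases h : j ∈ T'
    · have h1 := heq (Sum.inr j)
      simp only [pmc, Sum.elim_inr, if_pos h, if_neg hj] at h1
      exact hval _ _ h1.symm
    · have h1 := heq (Sum.inl j)
      simp only [pmc, Sum.elim_inl, if_neg h, if_neg hj, sub_self, mul_zero] at h1
      exact hval _ _ h1.symm
  subst hjj
  apply hne
  rw [Prod.mk.injEq]
  refine ⟨rfl, Finset.ext fun l => ?_⟩
  have h1 := heq (Sum.inr l)
  simp only [pmc, Sum.elim_inr] at h1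
  constructor
  · intro hl
    by_contra hl'
    rw [if_pos hl, if_neg hl'] at h1
    exact hj ((hval _ _ h1) ▸ hl)
  · intro hl'
    by_contra hl
    rw [if_neg hl, if_pos hl'] at h1
    exact hj' ((hval _ _ h1.symm) ▸ hl')

private theorem pmc_ne0 {k b : ℕ} (hb : 1 ≤ b) (j : Fin (k + 2)) (T : Finset (Fin (k + 2))) :
    ∃ i, pmc b j T i ≠ 0 := by
  have hb0 : (b : ℤ) ≠ 0 := by exact_mod_cast (by omega : b ≠ 0)
  obtain ⟨l, hl⟩ : ∃ l : Fin (k + 2), l ≠ j := exists_ne j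
  have h0 : (b : ℤ) * (((l : ℕ) : ℤ) - ((j : ℕ) : ℤ)) ≠ 0 := by
    refine mul_ne_zero hb0 fun h => hl ?_
    apply Fin.ext
    omega
  by_cases h : l ∈ T
  · refine ⟨Sum.inr l, ?_⟩
    simp only [pmc, Sum.elim_inr, if_pos h]
    exact h0
  · refine ⟨Sum.inl l, ?_⟩
    simp only [pmc, Sum.elim_inl, if_neg h]
    exact h0

private theorem pmf_le {k H b D : ℕ} (hD : b * (k + 1) * (k + 2) * H ≤ D) (j : Fin (k + 2))
    (T : Finset (Fin (k + 2))) (x x' : Fin (k + 2) → Fin H) : |pmf b j T x x'| ≤ (D : ℤ) := by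
  unfold pmf
  rw [abs_mul, Nat.abs_cast]
  have h1 : |∑ l : Fin (k + 2), (((l : ℕ) : ℤ) - ((j : ℕ) : ℤ)) * ((((mix T x x' l : Fin H) : ℕ) : ℤ) + 1)| ≤
      (k + 2 : ℤ) * ((k + 1) * H) := by
    refine (Finset.abs_sum_le_sum_abs _ _).trans ?_
    have h2 : ∀ l ∈ (univ : Finset (Fin (k + 2))),
        |(((l : ℕ) : ℤ) - ((j : ℕ) : ℤ)) * ((((mix T x x' l : Fin H) : ℕ) : ℤ) + 1)| ≤
          ((k + 1) * H : ℤ) := by
      intro l _
      rw [abs_mul]
      have a1 := l.2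
      have a2 := j.2
      have a3 := (mix T x x' l).2
      have a4 : |((l : ℕ) : ℤ) - ((j : ℕ) : ℤ)| ≤ (k + 1 : ℤ) := by
        rw [abs_le]
        constructor
        · omega
        · omega
      have a5 : |(((mix T x x' l : Fin H) : ℕ) : ℤ) + 1| ≤ (H : ℤ) := by
        rw [abs_le]
        constructor
        · omega
        · omega
      exact mul_le_mul a4 a5 (abs_nonneg _) (by positivity)
    refine (Finset.sum_le_card_nsmul _ _ _ h2).trans (le_of_eq ?_)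
    rw [Finset.card_univ, Fintype.card_fin, nsmul_eq_mul]
    push_cast
    ring
  have h3 : (b : ℤ) * ((k + 2 : ℤ) * ((k + 1) * H)) ≤ (D : ℤ) := by
    have : ((b * (k + 1) * (k + 2) * H : ℕ) : ℤ) ≤ (D : ℤ) := by exact_mod_cast hD
    push_cast at this
    linarith
  exact (mul_le_mul_of_nonneg_left h1 (by positivity)).trans h3

/-- the point -/
private theorem pm_pt {k w M H b : ℕ} [NeZero M] {P : Finset ℕ} (v : Cd P → ℕ) (y : GP P M)
    (j : Fin (k + 2)) (T : Finset (Fin (k + 2))) (β : Cd P → (Fin (k + 2) → Fin H) × (Fin (k + 2) → Fin H)) :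
    y + b • psi j (ce (EM k w M H v) (mix T (fun l q => (β q).1 l) (fun l q => (β q).2 l))) =
      ptM w (fun a : Unit × ((Fin (k + 2) → Fin H) × (Fin (k + 2) → Fin H)) => pmf b j T a.2.1 a.2.2)
        (fun q => -((b : ℤ) * ((j : ℕ) : ℤ) * (v q : ℤ))) (y, fun q => ((), β q)) := by
  funext q
  unfold ptM
  rw [Pi.add_apply, Pi.smul_apply]
  simp only
  congr 1
  obtain ⟨x, hx⟩ : ∃ x : Fin (k + 2) → Fin H, x = mix T (β q).1 (β q).2 := ⟨_, rfl⟩
  have hmix : ∀ l, mix T (fun l (q : Cd P) => (β q).1 l) (fun l q => (β q).2 l) l q = x l := by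
    intro l
    rw [hx]
    by_cases h : l ∈ T
    · rw [mix_apply_mem h, mix_apply_mem h]
    · rw [mix_apply_not_mem h, mix_apply_not_mem h]
  have h1 : psi j (ce (EM k w M H v) (mix T (fun l q => (β q).1 l) (fun l q => (β q).2 l))) q =
      ((∑ i : Fin (k + 2), (((i : ℕ) : ℤ) - ((j : ℕ) : ℤ)) *
        ((if i = 0 then (v q : ℤ) else 0) + kap w q * ((((x i : Fin H) : ℕ) : ℤ) + 1)) : ℤ) : ZMod M) := by
    unfold psi ce EM
    rw [Finset.sum_apply, Int.cast_sum]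
    refine Finset.sum_congr rfl fun i _ => ?_
    rw [Pi.smul_apply, zsmul_eq_mul, Int.cast_mul, hmix]
  have h2 : (b : ℤ) * (∑ i : Fin (k + 2), (((i : ℕ) : ℤ) - ((j : ℕ) : ℤ)) *
        ((if i = 0 then (v q : ℤ) else 0) + kap w q * ((((x i : Fin H) : ℕ) : ℤ) + 1))) =
      -((b : ℤ) * ((j : ℕ) : ℤ) * (v q : ℤ)) + kap w q * pmf b j T (β q).1 (β q).2 := by
    unfold pmf
    rw [← hx]
    have h3 : ∀ i : Fin (k + 2), (((i : ℕ) : ℤ) - ((j : ℕ) : ℤ)) *
        ((if i = 0 then (v q : ℤ) else 0) + kap w q * ((((x i : Fin H) : ℕ) : ℤ) + 1)) =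
        (if i = 0 then -((j : ℕ) : ℤ) * (v q : ℤ) else 0) +
        kap w q * ((((i : ℕ) : ℤ) - ((j : ℕ) : ℤ)) * ((((x i : Fin H) : ℕ) : ℤ) + 1)) := by
      intro i
      by_cases hi : i = 0
      · rw [if_pos hi, if_pos hi, hi]
        simp only [Fin.val_zero, Nat.cast_zero, zero_sub]
        ring
      · rw [if_neg hi, if_neg hi]
        ring
    rw [Finset.sum_congr rfl fun i _ => h3 i, Finset.sum_add_distrib, Finset.sum_ite_eq',
      if_pos (Finset.mem_univ _), ← Finset.mul_sum]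
    ring
  rw [h1, nsmul_eq_mul, ← h2, Int.cast_mul, Int.cast_natCast]

theorem pattM (k t D H b : ℕ) (hb : 1 ≤ b) (ht : 2 * ((k + 2) * 2 ^ (k + 2)) ≤ t) (hH : 1 ≤ H)
    (hD : b * (k + 1) * (k + 2) * H ≤ D) (ρ η δ : ℝ) (hρH : 1 / (H : ℝ) ≤ ρ) (hρ1 : ρ < 1) (hη : 0 < η) (hδ : 0 < δ) :
    ∃ w0 M0 N0 : ℕ, ∀ w ≥ w0, ∀ M ≥ M0, ∀ N ≥ N0, ∀ (V : ℕ) (P : Finset ℕ) [NeZero M], ParM t D V w M N ρ P →
      ∀ v : Cd P → ℕ, (∀ q, b * (k + 1) * v q ≤ V) →
      ((open Classical in (Ico N (2 * N)).filter fun n =>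
        ¬ LFav η (affM (EM k w M H v) (nuP P M w (Rt t N) n) b)).card : ℝ) ≤ δ * N := by
  classical
  obtain ⟨n0, hn0⟩ : ∃ n0 : ℕ, n0 = Fintype.card (Finset (Fin (k + 2) × Finset (Fin (k + 2)))) := ⟨_, rfl⟩
  obtain ⟨η', hη'⟩ : ∃ η' : ℝ, η' = δ * η / (3 * (n0 + 1)) := ⟨_, rfl⟩
  have hη'0 : 0 < η' := by
    rw [hη']
    positivity
  have hH0 : (0 : ℝ) < H := by exact_mod_cast hH
  have : Nonempty (Fin H) := ⟨⟨0, by omega⟩⟩
  have hρ0 : 0 < ρ := lt_of_lt_of_le (by positivity) hρH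
  have ht1 : 1 ≤ t := by
    have : 1 ≤ 2 ^ (k + 2) := Nat.one_le_two_pow
    nlinarith
  obtain ⟨w0, M0, N0, h⟩ := sq_genM t D ht1 ρ η' hρ0 hρ1 hη'0
  refine ⟨w0, M0, N0, fun w hw M hM N hN V P _ hpar v hv => ?_⟩
  obtain ⟨ms, hms⟩ : ∃ ms : Finset (Fin (k + 2) × Finset (Fin (k + 2))) → ℕ → ℝ, ms = fun S n =>
      av (fun y : GP P M => (av (fun z : (Fin (k + 2) → Cd P → Fin H) × (Fin (k + 2) → Cd P → Fin H) =>
        ∏ p ∈ S, affM (EM k w M H v) (nuP P M w (Rt t N) n) b y p.1 (mix p.2 z.1 z.2)) - 1) ^ 2) :=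
    ⟨_, rfl⟩
  have hms0 : ∀ S n, 0 ≤ ms S n := by
    intro S n
    rw [hms]
    exact av_nonneg fun y => sq_nonneg _
  have hsq : ∀ S : Finset (Fin (k + 2) × Finset (Fin (k + 2))), (∀ p ∈ S, p.1 ∉ p.2) →
      ∑ n ∈ Ico N (2 * N), ms S n ≤ 3 * η' * N := by
    intro S hS
    have hcard : 2 * Fintype.card {p // p ∈ S} ≤ t := by
      rw [Fintype.card_coe]
      have h1 : S.card ≤ Fintype.card (Fin (k + 2) × Finset (Fin (k + 2))) := Finset.card_le_univ S
      rw [Fintype.card_prod, Fintype.card_fin, Fintype.card_finset, Fintype.card_fin] at h1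
      omega
    have h0 := h w hw M hM N hN V P hpar Unit ((Fin (k + 2) → Fin H) × (Fin (k + 2) → Fin H)) {p // p ∈ S} hcard
      (fun i _ a => pmf b i.1.1 i.1.2 a.1 a.2) (fun i q => -((b : ℤ) * ((i.1.1 : ℕ) : ℤ) * (v q : ℤ)))
      (fun i _ a => pmf_le hD i.1.1 i.1.2 a.1 a.2)
      (by
        intro i q
        rw [abs_neg, abs_mul, abs_mul, Nat.abs_cast, Nat.abs_cast, Nat.abs_cast]
        have h1 := hv q
        have h2 := i.1.1.2
        have h3 : b * (i.1.1 : ℕ) * v q ≤ V :=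
          le_trans (Nat.mul_le_mul_right _ (Nat.mul_le_mul_left _ (by omega))) h1
        exact_mod_cast h3)
      (by
        intro i j hij u
        obtain ⟨i0, hi0⟩ := pmc_ne hb (hS i.1 i.2) (hS j.1 j.2) (fun hh => hij (Subtype.ext hh))
        refine pm_anti hH ((Equiv.uniqueProd _ _).trans
          (Equiv.sumArrowEquivProdArrow (Fin (k + 2)) (Fin (k + 2)) (Fin H)).symm) _
          (fun i' => pmc b i.1.1 i.1.2 i' - pmc b j.1.1 j.1.2 i') ?_ i0 hi0 ρ hρH u
        intro a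
        rw [pmf_eq, pmf_eq, ← Finset.sum_sub_distrib]
        refine Finset.sum_congr rfl fun i' _ => ?_
        rw [sub_mul]
        rfl)
      (by
        intro i j u
        obtain ⟨i0, hi0⟩ := pmc_ne0 hb i.1.1 i.1.2
        refine pm_anti hH ((Equiv.uniqueProd _ _).trans ((Equiv.prodCongr
          (Equiv.sumArrowEquivProdArrow (Fin (k + 2)) (Fin (k + 2)) (Fin H)).symm
          (Equiv.sumArrowEquivProdArrow (Fin (k + 2)) (Fin (k + 2)) (Fin H)).symm).trans
          (Equiv.sumArrowEquivProdArrow _ _ (Fin H)).symm)) _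
          (Sum.elim (fun i' => pmc b i.1.1 i.1.2 i') (fun i' => -pmc b j.1.1 j.1.2 i')) ?_
          (Sum.inl i0) hi0 ρ hρH u
        intro a
        conv_rhs => rw [Fintype.sum_sum_type]
        rw [pmf_eq, pmf_eq, sub_eq_add_neg, ← Finset.sum_neg_distrib]
        congr 1
        refine Finset.sum_congr rfl fun i' _ => ?_
        rw [← neg_mul]
        rfl)
    refine le_trans (le_of_eq (Finset.sum_congr rfl fun n _ => ?_)) h0
    rw [hms]
    beta_reduce
    rw [← av_fst (Ω' := Cd P → Unit) (fun y : GP P M =>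
      (av (fun z : (Fin (k + 2) → Cd P → Fin H) × (Fin (k + 2) → Cd P → Fin H) =>
        ∏ p ∈ S, affM (EM k w M H v) (nuP P M w (Rt t N) n) b y p.1 (mix p.2 z.1 z.2)) - 1) ^ 2)]
    refine av_congr fun y => ?_
    congr 2
    let e : (Cd P → (Fin (k + 2) → Fin H) × (Fin (k + 2) → Fin H)) ≃
        (Fin (k + 2) → Cd P → Fin H) × (Fin (k + 2) → Cd P → Fin H) :=
      { toFun := fun β => (fun l q => (β q).1 l, fun l q => (β q).2 l)
        invFun := fun z => fun q => (fun l => z.1 l q, fun l => z.2 l q)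
        left_inv := fun β => rfl
        right_inv := fun z => rfl }
    rw [← av_equiv e]
    refine av_congr fun β => ?_
    rw [← Finset.prod_coe_sort S]
    refine Finset.prod_congr rfl fun i _ => ?_
    unfold affM
    rw [show mix i.1.2 (e β).1 (e β).2 = mix i.1.2 (fun l q => (β q).1 l) (fun l q => (β q).2 l) from rfl,
      pm_pt v y.1 i.1.1 i.1.2 β]
  obtain ⟨B, hB⟩ : ∃ B, B = (Ico N (2 * N)).filter fun n =>
      ¬ LFav η (affM (EM k w M H v) (nuP P M w (Rt t N) n) b) := ⟨_, rfl⟩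
  rw [← hB]
  obtain ⟨Gd, hGd⟩ : ∃ Gd : Finset (Finset (Fin (k + 2) × Finset (Fin (k + 2)))),
      Gd = univ.filter fun S => ∀ p ∈ S, p.1 ∉ p.2 := ⟨_, rfl⟩
  have hbad : ∀ n ∈ B, η ≤ ∑ S ∈ Gd, ms S n := by
    intro n hn
    rw [hB] at hn
    have h1 := (Finset.mem_filter.1 hn).2
    unfold LFav at h1
    push Not at h1
    obtain ⟨S, hS1, hS2⟩ := h1
    have h2 : η ≤ ms S n := by
      rw [hms]
      exact hS2.le
    refine h2.trans (Finset.single_le_sum (f := fun S => ms S n) (fun S _ => hms0 S n) ?_)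
    rw [hGd, Finset.mem_filter]
    exact ⟨Finset.mem_univ _, hS1⟩
  have h1 : (B.card : ℝ) * η ≤ n0 * (3 * η' * N) := by
    calc (B.card : ℝ) * η = ∑ _n ∈ B, η := by rw [Finset.sum_const, nsmul_eq_mul]
      _ ≤ ∑ n ∈ B, ∑ S ∈ Gd, ms S n := Finset.sum_le_sum hbad
      _ ≤ ∑ n ∈ Ico N (2 * N), ∑ S ∈ Gd, ms S n := by
          refine Finset.sum_le_sum_of_subset_of_nonneg ?_ fun n _ _ => Finset.sum_nonneg fun S _ => hms0 S n
          rw [hB]
          exact Finset.filter_subset _ _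
      _ = ∑ S ∈ Gd, ∑ n ∈ Ico N (2 * N), ms S n := Finset.sum_comm
      _ ≤ ∑ _S ∈ Gd, 3 * η' * N := by
          refine Finset.sum_le_sum fun S hS => hsq S ?_
          rw [hGd, Finset.mem_filter] at hS
          exact hS.2
      _ = Gd.card * (3 * η' * N) := by rw [Finset.sum_const, nsmul_eq_mul]
      _ ≤ n0 * (3 * η' * N) := by
          refine mul_le_mul_of_nonneg_right ?_ (by positivity)
          rw [hn0]
          exact_mod_cast Finset.card_le_univ Gd
  have h2 : (n0 : ℝ) * (3 * η' * N) ≤ δ * N * η := by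
    rw [hη']
    have h3 : (n0 : ℝ) * (3 * (δ * η / (3 * (n0 + 1))) * N) = (δ * N * η) * (n0 / (n0 + 1)) := by
      field_simp
    rw [h3]
    refine mul_le_of_le_one_right (by positivity) ?_
    rw [div_le_one (by positivity)]
    linarith
  exact le_of_mul_le_mul_right (h1.trans h2) hη

end Pool.CM
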