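import Pool.Agent.Lib.MP_c77da8_nt.CM.Defs
import Pool.Agent.Lib.MP_c77da8_nt.CG.Test

/-!
# CM-TestM: the local test functions (compare `CL/TestL.lean`, `cntl_ind` in `CL/CntL.lean`)
-/

set_option autoImplicit false

namespace Pool.CM

open Finset Pool.CG Pool.CL

theorem av_phiM {G X : Type} [AddCommGroup G] [Fintype G] [Fintype X] {k : ℕ} (E : Fin (k + 2) → X → G) (b : ℕ)
    (j : Fin (k + 2)) (u : G → Fin (k + 2) → (Fin (k + 2) → X) → ℝ) (F : G → ℝ) :
    av (fun z : G => F z * phiM E b j u z) = av (fun y : G => av (fun x : Fin (k + 2) → X =>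
      F (y + b • psi j (ce E x)) * ∏ i ∈ univ.erase j, u y i x)) := by
  have h1 : ∀ z : G, F z * phiM E b j u z = av (fun x : Fin (k + 2) → X =>
      F z * ∏ i ∈ univ.erase j, u (z - b • psi j (ce E x)) i x) := by
    intro z
    rw [av_const_mul]
    rfl
  rw [av_congr h1, av_comm (fun (z : G) (x : Fin (k + 2) → X) =>
    F z * ∏ i ∈ univ.erase j, u (z - b • psi j (ce E x)) i x),
    av_comm (fun (y : G) (x : Fin (k + 2) → X) =>
      F (y + b • psi j (ce E x)) * ∏ i ∈ univ.erase j, u y i x)]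
  refine av_congr fun x => ?_
  rw [← av_equiv (Equiv.addRight (b • psi j (ce E x)))
    (fun z : G => F z * ∏ i ∈ univ.erase j, u (z - b • psi j (ce E x)) i x)]
  refine av_congr fun y => ?_
  simp only [Equiv.coe_addRight, add_sub_cancel_right]

theorem phiM_nonneg {G X : Type} [AddCommGroup G] [Fintype X] {k : ℕ} (E : Fin (k + 2) → X → G) (b : ℕ)
    (j : Fin (k + 2)) (u : G → Fin (k + 2) → (Fin (k + 2) → X) → ℝ) (hu : GoodM u) (z : G) : 0 ≤ phiM E b j u z := by
  unfold phiM
  exact av_nonneg fun x => prod_nonneg fun i _ => (hu.1 _ i x).1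

theorem phiM_le_one {G X : Type} [AddCommGroup G] [Fintype X] {k : ℕ} (E : Fin (k + 2) → X → G) (b : ℕ)
    (j : Fin (k + 2)) (u : G → Fin (k + 2) → (Fin (k + 2) → X) → ℝ) (hu : GoodM u) (z : G) : phiM E b j u z ≤ 1 := by
  unfold phiM
  rcases isEmpty_or_nonempty (Fin (k + 2) → X) with h | h
  · simp [av]
  · exact av_le_of_le fun x => prod_le_one (fun i _ => (hu.1 _ i x).1) (fun i _ => (hu.1 _ i x).2)

/-- the form `psi_j` does not depend on the variable `j` -/
theorem indM {G X : Type} [AddCommGroup G] [Fintype G] {k : ℕ} (E : Fin (k + 2) → X → G) (b : ℕ) (j : Fin (k + 2))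
    (F : G → ℝ) (y : G) : Ind j (fun x : Fin (k + 2) → X => F (y + b • psi j (ce E x))) := by
  intro x v
  show F (y + b • psi j (ce E (Function.update x j v))) = F (y + b • psi j (ce E x))
  congr 3
  unfold psi
  refine sum_congr rfl fun i _ => ?_
  by_cases h : i = j
  · rw [h, sub_self, zero_smul, zero_smul]
  · unfold ce
    rw [Function.update_of_ne h]

end Pool.CM
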