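import Pool.Agent.Lib.MP_c77da8_nt.CM.GvnM
import Pool.Agent.Lib.MP_c77da8_nt.CM.TestM
import Pool.Agent.Lib.MP_c77da8_nt.CM.LawM
import Pool.Agent.Lib.MP_c77da8_nt.CL.ProdC

/-!
# CM-ProdM: `ν - 1` is almost orthogonal to the products of at most `m` local test functions

PROOF.  `η` from `gvnM k τ`.  Given `n, b, j, u` and the data `Z, Θ, pt, sh, base` of `MixOK`, let `σ l = Equiv.swap 0 (j l)` and
`e s l = ec B (b l) (j l) (σ l s)`, `B = BT k T` (`|e s l| ≤ B`: `ec_le`).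
(1) `∏_l phiM_l(z) = av_(X : Fin n → Fin (k+2) → X) ∏_l ∏_(i ≠ j l) u l (z - b_l psi (ce E (X l))) i (X l)` (`Pool.CL.prod_av`), reindexed
(`av_equiv`, the bijection `V ↦ (fun l i => V (σ l i) l)` between `Fin (k+2) → (Fin n → X)` and `Fin n → Fin (k+2) → X`; `σ l` is an involution),
and `law_pi` (`K = Fin (k+2)`, `V = Fin n → X`, `p s z θ = pt (e s) z θ`): it is `av_ζ av_θ H(z, ζ, θ)` with
`H = ∏_l ∏_(i ≠ j l) u l (z - b_l psi (ce E (X l))) i (X l)`, `X l i = pt (e (σ l i)) (ζ (σ l i)) (θ (σ l i)) l`.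
(2) `ce E (X l) i = E i (base (ζ (σ l i)) l) + ec B (b l) (j l) i • t (σ l i)`, `t s = sh (e s) (ζ s) (θ s)` (second part of `MixOK`, `σ l (σ l i) = i`), so by
`psi_shift`: `b_l psi (ce E (X l)) = b_l psi (w l) + ∑_s cube k B 0 s • t s`, `w l i = E i (base (ζ (σ l i)) l)`.
(3) Exchange the averages (`av_comm`), and for fixed `ζ, θ` substitute `z = y + ∑_s cube k B 0 s • t s` (`av_equiv (Equiv.addRight _)`): the base point
of the `l`-th factor is `y - b_l psi (w l)`, which does not depend on `θ`.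
(4) `H = ∏_(s ≠ 0) U_s`, `U_s = ∏_l u l (y - b_l psi (w l)) (σ l s) (X l)` (reindex `i = σ l s`, `i ≠ j l ↔ s ≠ 0`; see `psiB_regroup` in `CL/ProdB.lean`);
`|U_s| ≤ 1`; `U_s` does not depend on `θ s` (a change of `θ s` changes only the coordinate `σ l s` of `X l`; `Ind`).
(5) `gvnM` for `Y = G × (Fin (k+2) → Z)`, `ν y t = ν (y.1 + ∑_s cube k B 0 s • sh (e s) (y.2 s) (t s))` (it is `cubM` at `i = 0`; `Ind 0` as
`cube k B 0 0 = 0`), with `av_prod` for the average over `Y`.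
-/

set_option autoImplicit false

namespace Pool.CM

open Finset Pool.CG Pool.CL

/-- regrouping: a function on `K → (Fin n → X)` as a function on `Fin n → K → X` -/
private def ProdM_equiv {K X : Type} [DecidableEq K] {n : ℕ} (a : K) (j : Fin n → K) :
    (K → Fin n → X) ≃ (Fin n → K → X) where
  toFun V := fun l i => V (Equiv.swap a (j l) i) l
  invFun W := fun s l => W l (Equiv.swap a (j l) s)
  left_inv V := by
    funext s l
    simp only [Equiv.swap_apply_self]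
  right_inv W := by
    funext l i
    simp only [Equiv.swap_apply_self]

/-- the regrouping of the products -/
private theorem ProdM_regroup {k n : ℕ} (j : Fin n → Fin (k + 2)) (a : Fin n → Fin (k + 2) → ℝ) :
    ∏ l, ∏ i ∈ univ.erase (j l), a l i = ∏ s ∈ univ.erase 0, ∏ l, a l (Equiv.swap 0 (j l) s) := by
  rw [Finset.prod_comm]
  refine Finset.prod_congr rfl fun l _ => ?_
  symm
  refine Finset.prod_equiv (Equiv.swap 0 (j l)) ?_ ?_
  · intro s
    rw [Finset.mem_erase, Finset.mem_erase]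
    simp only [Finset.mem_univ, and_true, ne_eq]
    rw [not_iff_not]
    constructor
    · rintro rfl
      exact Equiv.swap_apply_left _ _
    · intro h
      have h2 := congrArg (Equiv.swap 0 (j l)) h
      rwa [Equiv.swap_apply_self, Equiv.swap_apply_right] at h2
  · intro s _
    rfl

/-- the law of the product of the test functions -/
private theorem ProdM_law {K Z Θ X : Type} [Fintype K] [DecidableEq K] [Fintype Z] [Nonempty Z] [Fintype Θ] [Nonempty Θ]
    [Fintype X] [Nonempty X] {n : ℕ} (a : K) (j : Fin n → K) (pt : (Fin n → ℤ) → Z → Θ → Fin n → X)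
    (hlaw : ∀ (e : Fin n → ℤ) (F : (Fin n → X) → ℝ), av (fun z : Z => av (fun θ : Θ => F (pt e z θ))) = av F)
    (e : K → Fin n → ℤ) (Φ : Fin n → (K → X) → ℝ) :
    ∏ l, av (Φ l) = av (fun ζ : K → Z => av (fun θ : K → Θ => ∏ l, Φ l (fun i =>
      pt (e (Equiv.swap a (j l) i)) (ζ (Equiv.swap a (j l) i)) (θ (Equiv.swap a (j l) i)) l))) := by
  rw [prod_av, ← av_equiv (ProdM_equiv a j) (fun W : Fin n → K → X => ∏ l, Φ l (W l))]
  exact (law_pi (fun s z θ => pt (e s) z θ) (fun s F => hlaw (e s) F)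
    (fun V : K → Fin n → X => ∏ l, Φ l ((ProdM_equiv a j V) l))).symm

theorem prod_mix (k : ℕ) (τ : ℝ) (hτ : 0 < τ) : ∃ η : ℝ, 0 < η ∧
    ∀ (T : ℕ) (G X : Type) [AddCommGroup G] [Fintype G] [Fintype X] [Nonempty X] (E : Fin (k + 2) → X → G)
      (ν : G → ℝ) (n : ℕ), (∀ x, 0 ≤ ν x) → MixOK k (BT k T) n η E ν →
      ∀ (b : Fin n → ℕ) (j : Fin n → Fin (k + 2)) (u : Fin n → G → Fin (k + 2) → (Fin (k + 2) → X) → ℝ),
        (∀ l, 1 ≤ b l ∧ b l ≤ T) → (∀ l, GoodM (u l)) →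
        |av (fun z : G => (ν z - 1) * ∏ l, phiM E (b l) (j l) (u l) z)| ≤ τ := by
  obtain ⟨η, hη, H⟩ := gvnM k τ hτ
  refine ⟨η, hη, ?_⟩
  intro T G X _ _ _ _ E ν n hν hmix b j u hb hu
  obtain ⟨Z, Θ, _, _, _, _, pt, sh, base, hlaw, hE, hLF⟩ := hmix
  have : Nonempty G := ⟨0⟩
  set B : ℕ := BT k T with hB
  -- the data
  let e : Fin (k + 2) → Fin n → ℤ := fun s l => ec B (b l) (j l) (Equiv.swap 0 (j l) s)
  let XX : (Fin (k + 2) → Z) → (Fin (k + 2) → Θ) → Fin n → Fin (k + 2) → X := fun ζ θ l i =>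
    pt (e (Equiv.swap 0 (j l) i)) (ζ (Equiv.swap 0 (j l) i)) (θ (Equiv.swap 0 (j l) i)) l
  let w : (Fin (k + 2) → Z) → Fin n → Fin (k + 2) → G := fun ζ l i => E i (base (ζ (Equiv.swap 0 (j l) i)) l)
  let S : (Fin (k + 2) → Z) → (Fin (k + 2) → Θ) → G := fun ζ θ => ∑ l, cube k B 0 l • sh (e l) (ζ l) (θ l)
  have hshift : ∀ ζ θ l, b l • psi (j l) (ce E (XX ζ θ l)) = b l • psi (j l) (w ζ l) + S ζ θ := by
    intro ζ θ l
    have h := psi_shift (k := k) (T := T) (hb l).1 (hb l).2 (j l) (w ζ l) (fun s => sh (e s) (ζ s) (θ s))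
    rw [← hB] at h
    rw [← h]
    congr 2
    funext i
    show E i (pt _ _ _ l) = _
    rw [hE]
    show E i (base (ζ (Equiv.swap 0 (j l) i)) l) + ec B (b l) (j l) (Equiv.swap 0 (j l) (Equiv.swap 0 (j l) i)) • _ = _
    rw [Equiv.swap_apply_self]
  -- the bounded functions
  let U : G × (Fin (k + 2) → Z) → Fin (k + 2) → (Fin (k + 2) → Θ) → ℝ := fun ω s θ =>
    ∏ l, u l (ω.1 - b l • psi (j l) (w ω.2 l)) (Equiv.swap 0 (j l) s) (XX ω.2 θ l)
  have hU1 : ∀ ω s θ, |U ω s θ| ≤ 1 := by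
    intro ω s θ
    show |∏ l, u l (ω.1 - b l • psi (j l) (w ω.2 l)) (Equiv.swap 0 (j l) s) (XX ω.2 θ l)| ≤ 1
    rw [Finset.abs_prod]
    refine Finset.prod_le_one (fun l _ => abs_nonneg _) fun l _ => ?_
    have h := (hu l).1 (ω.1 - b l • psi (j l) (w ω.2 l)) (Equiv.swap 0 (j l) s) (XX ω.2 θ l)
    rw [abs_of_nonneg h.1]
    exact h.2
  have hU2 : ∀ ω s, Ind s (U ω s) := by
    intro ω s θ a
    show ∏ l, u l (ω.1 - b l • psi (j l) (w ω.2 l)) (Equiv.swap 0 (j l) s) (XX ω.2 (Function.update θ s a) l) =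
      ∏ l, u l (ω.1 - b l • psi (j l) (w ω.2 l)) (Equiv.swap 0 (j l) s) (XX ω.2 θ l)
    refine Finset.prod_congr rfl fun l _ => ?_
    have hx : XX ω.2 (Function.update θ s a) l = Function.update (XX ω.2 θ l) (Equiv.swap 0 (j l) s)
        (pt (e s) (ω.2 s) a l) := by
      funext i
      by_cases hi : i = Equiv.swap 0 (j l) s
      · subst hi
        show pt (e (Equiv.swap 0 (j l) (Equiv.swap 0 (j l) s))) (ω.2 (Equiv.swap 0 (j l) (Equiv.swap 0 (j l) s)))
          (Function.update θ s a (Equiv.swap 0 (j l) (Equiv.swap 0 (j l) s))) l = _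
        rw [Equiv.swap_apply_self, Function.update_self, Function.update_self]
      · have hi' : Equiv.swap 0 (j l) i ≠ s := by
          intro h
          apply hi
          rw [← h, Equiv.swap_apply_self]
        rw [Function.update_of_ne hi]
        show pt (e (Equiv.swap 0 (j l) i)) (ω.2 (Equiv.swap 0 (j l) i))
          (Function.update θ s a (Equiv.swap 0 (j l) i)) l = _
        rw [Function.update_of_ne hi']
    rw [hx]
    exact (hu l).2 _ _ _ _
  -- the weight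
  let ν' : G × (Fin (k + 2) → Z) → (Fin (k + 2) → Θ) → ℝ := fun ω θ => ν (ω.1 + S ω.2 θ)
  have hν'0 : ∀ ω, Ind 0 (ν' ω) := by
    intro ω θ a
    show ν (ω.1 + S ω.2 (Function.update θ 0 a)) = ν (ω.1 + S ω.2 θ)
    congr 2
    show ∑ l, cube k B 0 l • sh (e l) (ω.2 l) (Function.update θ 0 a l) =
      ∑ l, cube k B 0 l • sh (e l) (ω.2 l) (θ l)
    refine Finset.sum_congr rfl fun l _ => ?_
    by_cases hl : l = 0
    · subst hl
      simp [cube]
    · rw [Function.update_of_ne hl]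
  have hmain := H (G × (Fin (k + 2) → Z)) Θ ν' (fun ω θ => hν _) hν'0
    (hLF e (fun s l => ec_le B (b l) (hb l).1 (j l) _)) U hU1 hU2
  -- rewriting
  have e1 : av (fun z : G => (ν z - 1) * ∏ l, phiM E (b l) (j l) (u l) z) =
      av (fun ω : G × (Fin (k + 2) → Z) => av (fun θ : Fin (k + 2) → Θ => (ν' ω θ - 1) *
        ∏ i ∈ univ.erase 0, U ω i θ)) := by
    let Hf : G → (Fin (k + 2) → Z) → (Fin (k + 2) → Θ) → ℝ := fun z ζ θ =>
      ∏ l, ∏ i ∈ univ.erase (j l), u l (z - b l • psi (j l) (ce E (XX ζ θ l))) i (XX ζ θ l)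
    have f1 : ∀ z : G, (ν z - 1) * ∏ l, phiM E (b l) (j l) (u l) z =
        av (fun ζ : Fin (k + 2) → Z => av (fun θ : Fin (k + 2) → Θ => (ν z - 1) * Hf z ζ θ)) := by
      intro z
      have g1 := ProdM_law (K := Fin (k + 2)) 0 j pt hlaw e (fun l (x : Fin (k + 2) → X) =>
        ∏ i ∈ univ.erase (j l), u l (z - b l • psi (j l) (ce E x)) i x)
      have g2 : ∏ l, phiM E (b l) (j l) (u l) z = ∏ l, av (fun x : Fin (k + 2) → X =>
        ∏ i ∈ univ.erase (j l), u l (z - b l • psi (j l) (ce E x)) i x) := rfl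
      rw [g2, g1, ← av_const_mul]
      refine av_congr fun ζ => ?_
      rw [← av_const_mul]
    rw [av_congr f1, av_comm]
    rw [av_prod, av_comm (fun (y : G) (ζ : Fin (k + 2) → Z) => av (fun θ : Fin (k + 2) → Θ =>
      (ν' (y, ζ) θ - 1) * ∏ i ∈ univ.erase 0, U (y, ζ) i θ))]
    refine av_congr fun ζ => ?_
    rw [av_comm, av_comm (fun (y : G) (θ : Fin (k + 2) → Θ) =>
      (ν' (y, ζ) θ - 1) * ∏ i ∈ univ.erase 0, U (y, ζ) i θ)]
    refine av_congr fun θ => ?_
    rw [← av_equiv (Equiv.addRight (S ζ θ)) (fun z : G => (ν z - 1) * Hf z ζ θ)]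
    refine av_congr fun y => ?_
    simp only [Equiv.coe_addRight]
    show (ν (y + S ζ θ) - 1) * _ = (ν (y + S ζ θ) - 1) * _
    congr 1
    show ∏ l, ∏ i ∈ univ.erase (j l), u l (y + S ζ θ - b l • psi (j l) (ce E (XX ζ θ l))) i (XX ζ θ l) = _
    rw [ProdM_regroup j]
    refine Finset.prod_congr rfl fun s _ => ?_
    show _ = ∏ l, u l (y - b l • psi (j l) (w ζ l)) (Equiv.swap 0 (j l) s) (XX ζ θ l)
    refine Finset.prod_congr rfl fun l _ => ?_
    rw [hshift ζ θ l]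
    congr 1
    abel
  rw [e1]
  exact hmain

end Pool.CM
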