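import Pool.Agent.Lib.MP_c77da8_nt.CM.ProdM
import Pool.Agent.Lib.MP_c77da8_nt.CM.DenseM
import Pool.Agent.Lib.MP_c77da8_nt.CM.CntM
import Pool.Agent.Lib.MP_c77da8_nt.CG.Dm

/-!
# CM-RSM: the relative Szemerédi theorem for local progressions, with exact common shifts

PROOF: as `rs_local` (`CL/RSL.lean`).  `dense_mix k (d/2)` gives `T, c₀`; `cnt_mix k (c₀/2)` gives `η₁, ε₁`; `dm_b (min ε₁ (d/2))` gives
`m, ε₂`; `prod_mix k ε₂` gives `η₂`.  `η = min η₁ η₂`, `c = c₀/2`.  Test functions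
`Φ = {φ | ∃ b j u, 1 ≤ b ∧ b ≤ T ∧ GoodM u ∧ φ = phiM E b j u}`.  (`MixOK` is monotone in `η`: `LFav.mono`.)
-/

set_option autoImplicit false

namespace Pool.CM

open Finset Pool.CG Pool.CL

theorem rs_mix (k : ℕ) (d : ℝ) (hd : 0 < d) : ∃ (T m : ℕ) (η c : ℝ), 1 ≤ T ∧ 0 < η ∧ 0 < c ∧
    ∀ (G X : Type) [AddCommGroup G] [Fintype G] [Fintype X] [Nonempty X] (E : Fin (k + 2) → X → G) (ν f : G → ℝ),
      (∀ x, 0 ≤ f x ∧ f x ≤ ν x) → d ≤ av f → (∀ n ≤ m, MixOK k (BT k T) n η E ν) →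
      (∀ b : ℕ, 1 ≤ b → b ≤ T → LFav η (affM E ν b)) →
      ∃ b : ℕ, 1 ≤ b ∧ b ≤ T ∧
        c ≤ av (fun y : G => av (fun x : Fin (k + 2) → X => ∏ j, f (y + b • psi j (ce E x)))) := by
  obtain ⟨T, c₀, hT, hc₀, hdense⟩ := dense_mix k (d / 2) (by linarith)
  obtain ⟨η₁, ε₁, hη₁, hε₁, hcnt⟩ := cnt_mix k (c₀ / 2) (by linarith)
  obtain ⟨m, ε₂, hε₂, hdm⟩ := dm_b (min ε₁ (d / 2)) (lt_min hε₁ (by linarith))
  obtain ⟨η₂, hη₂, hprod⟩ := prod_mix k ε₂ hε₂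
  refine ⟨T, m, min η₁ η₂, c₀ / 2, hT, lt_min hη₁ hη₂, by linarith, ?_⟩
  intro G X _ _ _ _ E ν f hf hdf hmix hpatt
  have hν : ∀ x, 0 ≤ ν x := fun x => (hf x).1.trans (hf x).2
  have hGn : Nonempty G := ⟨0⟩
  -- the dense model
  obtain ⟨g, hg, hg'⟩ := hdm G ν f
    {φ | ∃ (b : ℕ) (j : Fin (k + 2)) (u : G → Fin (k + 2) → (Fin (k + 2) → X) → ℝ),
      1 ≤ b ∧ b ≤ T ∧ GoodM u ∧ φ = phiM E b j u} hf
    (by
      rintro φ ⟨b, j, u, _, _, hu, rfl⟩ z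
      rw [abs_of_nonneg (phiM_nonneg E b j u hu z)]
      exact phiM_le_one E b j u hu z)
    (by
      intro l hl hlen
      have hx : ∀ i : Fin l.length, ∃ (b : ℕ) (j : Fin (k + 2))
          (u : G → Fin (k + 2) → (Fin (k + 2) → X) → ℝ),
          1 ≤ b ∧ b ≤ T ∧ GoodM u ∧ l[i.1] = phiM E b j u := fun i => hl _ (List.getElem_mem _)
      choose b j u h1 h2 h3 h4 using hx
      have hm := hmix l.length hlen
      have hm' : MixOK k (BT k T) l.length η₂ E ν := by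
        obtain ⟨Z, Θ, i1, i2, i3, i4, pt, sh, base, m1, m2, m3⟩ := hm
        exact ⟨Z, Θ, i1, i2, i3, i4, pt, sh, base, m1, m2, fun e he => (m3 e he).mono (min_le_right _ _)⟩
      have h := hprod T G X E ν l.length hν hm' b j u (fun i => ⟨h1 i, h2 i⟩) h3
      have e : ∀ z, (l.map fun φ => φ z).prod = ∏ i : Fin l.length, phiM E (b i) (j i) (u i) z := by
        intro z
        rw [← Fin.prod_univ_fun_getElem l fun φ => φ z]
        exact Finset.prod_congr rfl fun i _ => congrFun (h4 i) z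
      simp only [e]
      exact h)
  -- the density of the model
  have hone : GoodM (fun (_ : G) (_ : Fin (k + 2)) (_ : Fin (k + 2) → X) => (1 : ℝ)) :=
    ⟨fun _ _ _ => ⟨zero_le_one, le_rfl⟩, fun _ i => Ind.const i 1⟩
  have hphi : ∀ z : G, phiM E 1 0 (fun (_ : G) (_ : Fin (k + 2)) (_ : Fin (k + 2) → X) => (1 : ℝ)) z = 1 := by
    intro z
    unfold phiM
    simp only [Finset.prod_const_one]
    exact av_const 1
  have h2 := (hg' _ ⟨1, 0, _, le_rfl, hT, hone, rfl⟩).trans (min_le_right _ _)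
  simp only [hphi, mul_one] at h2
  rw [av_sub] at h2
  have h3 : d / 2 ≤ av g := by
    have := (abs_le.mp h2).2
    linarith
  obtain ⟨b, hb1, hbT, h4⟩ := hdense G X E g hg h3
  have h5 := hcnt G X E b ν f g hf hg ((hpatt b hb1 hbT).mono (min_le_left _ _))
    (fun j u hu => (hg' _ ⟨b, j, u, hb1, hbT, hu, rfl⟩).trans (min_le_left _ _))
  exact ⟨b, hb1, hbT, by linarith⟩

end Pool.CM
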