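import Pool.Agent.Lib.MP_c77da8_nt.CM.Defs
import Pool.Agent.Lib.MP_c77da8_nt.CG.VBd
import Pool.Agent.Lib.MP_c77da8_nt.CG.PLog

/-!
# CM-RomM: the exponential moment of the sum of `1/p` over the prime divisors in `Q`

PROOF.  Let `a = A ω ≠ 0`.  The primes `p ∣ a`, `p > M^3`, contribute at most `1/M` to `∑ 1/p` (private lemma `RomL_large` in `CL/RomL.lean`, with
`σ = 2`, `B = 1`), so `exp (c ∑_(p ∈ Q, p ∣ a) 1/p) ≤ exp(c/M) ∏_(p ∈ S, p ∣ a) exp(c/p)`, `S = {p ∈ Q : p ≤ M^3}`.  With `x_p = exp(c/p) - 1 ≤ 2c/p` (for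
`p > w ≥ c`, as `exp x ≤ 1 + 2x` for `0 ≤ x ≤ 1`): for every finite set `S'` of numbers `∏_(p ∈ S') (1 + x_p) = 1 + ∑_(p ∈ S') x_p ∏_(p' ∈ S', p' < p) (1 + x_p')`
(induction on the maximum: `Finset.induction_on_max`, or `Finset.prod_add_ordered`/`Finset.prod_one_add_ordered`), so
`∏_(p ∈ S, p ∣ a) (1 + x_p) ≤ 1 + ∑_(p ∈ S, p ∣ a) x_p Π(p)`, `Π(p) = ∏_(p' ∈ Pr w p) (1 + 2c/p') ≤ (C2 log p)^K`, `K = ⌈2c⌉` (`prodPr_le`, `p ≥ 3`).
Average over `ω`: `av ≤ exp(c/M) (1 + ∑_(p ∈ S) (2c/p) (C2 log p)^K F(p))`, `F(p)` the bound in the hypothesis.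
(1) `(2c) (C2 log p)^K ρ^(√log p) ≤ 1/log p` for all `p > w`, `w` large (with `u = √log p`: `u^(2K+2) ρ^u → 0`), so this part is at most
`∑_(p ∈ Pr w (M^3)) 1/(p log p) ≤ C/log w` (`plogp_sum`), `≤ η/4` for `w` large.
(2) `∑_(p ∈ S) (2c/p) (C2 log p)^K log p / √M ≤ 2c (3 C2 log M)^K (3 log M) (∑_(p ≤ M^3) 1/p) / √M` and `∑_(n ≤ M^3) 1/n ≤ 1 + 3 log M`: `≤ η/4` for `M` large.
(3) `exp(c/M) (1 + η/2) ≤ 1 + η` for `M` large.
-/

set_option autoImplicit false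

namespace Pool.CM

open Finset Pool.CG Pool.CL

/-- `exp x ≤ 1 + 2 x` for `0 ≤ x ≤ 1` -/
private theorem romM_exp {x : ℝ} (h0 : 0 ≤ x) (h1 : x ≤ 1) : Real.exp x ≤ 1 + 2 * x := by
  have h := Real.abs_exp_sub_one_sub_id_le (show |x| ≤ 1 by rwa [abs_of_nonneg h0])
  have h2 := (abs_le.1 h).2
  nlinarith

/-- the large prime factors -/
private theorem romM_large (M a : ℕ) (hM : 3 ≤ M) (ha0 : a ≠ 0)
    (ha : (a : ℝ) ≤ Real.exp ((M : ℝ) ^ 2)) (s : Finset ℕ)
    (hs : ∀ p ∈ s, p.Prime ∧ M ^ 3 < p ∧ p ∣ a) : ∑ p ∈ s, 1 / (p : ℝ) ≤ 1 / M := by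
  have hM0 : (0 : ℝ) < M := by exact_mod_cast (by omega : 0 < M)
  have hprod : ∏ p ∈ s, p ∣ a :=
    Finset.prod_primes_dvd a (fun p hp => (hs p hp).1.prime) (fun p hp => (hs p hp).2.2)
  have h1 : ∏ p ∈ s, p ≤ a := Nat.le_of_dvd (Nat.pos_of_ne_zero ha0) hprod
  have h2 : (M ^ 3) ^ s.card ≤ ∏ p ∈ s, p := by
    rw [← Finset.prod_const]
    exact Finset.prod_le_prod' fun p hp => (hs p hp).2.1.le
  have h3 : ((M : ℝ) ^ 3) ^ s.card ≤ Real.exp ((M : ℝ) ^ 2) := by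
    refine le_trans ?_ ha
    exact_mod_cast h2.trans h1
  have h4 : (s.card : ℝ) ≤ (M : ℝ) ^ 2 := by
    have h5 : Real.exp (s.card : ℝ) ≤ ((M : ℝ) ^ 3) ^ s.card := by
      have : Real.exp (s.card : ℝ) = (Real.exp 1) ^ s.card := by
        rw [← Real.exp_nat_mul, mul_one]
      rw [this]
      refine pow_le_pow_left₀ (Real.exp_pos _).le ?_ _
      have h6 : (3 : ℝ) ≤ M := by exact_mod_cast hM
      have h7 : (M : ℝ) ^ 1 ≤ (M : ℝ) ^ 3 := pow_le_pow_right₀ (by linarith) (by omega)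
      have h8 := Real.exp_one_lt_d9
      linarith
    exact Real.exp_le_exp.mp (h5.trans h3)
  calc ∑ p ∈ s, 1 / (p : ℝ) ≤ ∑ p ∈ s, 1 / (M : ℝ) ^ 3 := by
        refine Finset.sum_le_sum fun p hp => ?_
        refine one_div_le_one_div_of_le (by positivity) ?_
        exact_mod_cast (hs p hp).2.1.le
    _ = (s.card : ℝ) * (1 / (M : ℝ) ^ 3) := by rw [Finset.sum_const, nsmul_eq_mul]
    _ ≤ ((M : ℝ) ^ 2) * (1 / (M : ℝ) ^ 3) :=
        mul_le_mul_of_nonneg_right h4 (by positivity)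
    _ = 1 / M := by
        rw [pow_succ]
        field_simp

/-- the telescoping product -/
private theorem romM_tel (c C2 : ℝ) (hc : 0 ≤ c)
    (hC2 : ∀ (w R a : ℕ), 1 ≤ w → 3 ≤ R → ∏ p ∈ Pr w R, (1 + (a : ℝ) / (p : ℝ)) ≤ (C2 * Real.log R) ^ a)
    (w R : ℕ) (hw : 2 ≤ w) (hcw : c ≤ w) (T : Finset ℕ) (hT : T ⊆ Pr w R) :
    Real.exp (c * ∑ p ∈ T, 1 / (p : ℝ)) ≤
      1 + ∑ p ∈ T, 2 * c / (p : ℝ) * (C2 * Real.log p) ^ ⌈2 * c⌉₊ := by
  classical
  have hTm : ∀ p ∈ T, p.Prime ∧ w < p := by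
    intro p hp
    have := hT hp
    rw [Pr, Finset.mem_filter] at this
    exact this.2
  have hbd : ∀ p : ℕ, w < p → 0 ≤ c / (p : ℝ) ∧ c / (p : ℝ) ≤ 1 := by
    intro p hp
    have hp0 : (w : ℝ) < p := by exact_mod_cast hp
    have hw0 : (0 : ℝ) < w := by exact_mod_cast (by omega : 0 < w)
    refine ⟨by positivity, ?_⟩
    rw [div_le_one (by linarith)]
    linarith
  have e1 : Real.exp (c * ∑ p ∈ T, 1 / (p : ℝ)) = ∏ p ∈ T, (1 + (Real.exp (c / (p : ℝ)) - 1)) := by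
    rw [Finset.mul_sum, Real.exp_sum]
    refine Finset.prod_congr rfl fun p _ => ?_
    rw [mul_one_div]
    ring
  rw [e1, Finset.prod_one_add_ordered]
  refine add_le_add le_rfl (Finset.sum_le_sum fun p hp => ?_)
  obtain ⟨hpp, hwp⟩ := hTm p hp
  obtain ⟨b0, b1⟩ := hbd p hwp
  have hp3 : 3 ≤ p := by omega
  have h1 : Real.exp (c / (p : ℝ)) - 1 ≤ 2 * c / (p : ℝ) := by
    have := romM_exp b0 b1
    have e : 2 * c / (p : ℝ) = 2 * (c / (p : ℝ)) := by ring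
    rw [e]
    linarith
  have h1' : 0 ≤ 2 * c / (p : ℝ) := by positivity
  have h2 : ∏ q ∈ T with q < p, (1 + (Real.exp (c / (q : ℝ)) - 1)) ≤ (C2 * Real.log p) ^ ⌈2 * c⌉₊ := by
    calc ∏ q ∈ T with q < p, (1 + (Real.exp (c / (q : ℝ)) - 1))
        = Real.exp (∑ q ∈ T with q < p, c / (q : ℝ)) := by
          rw [Real.exp_sum]
          exact Finset.prod_congr rfl fun q _ => by ring
      _ ≤ Real.exp (∑ q ∈ Pr w p, c / (q : ℝ)) := by
          refine Real.exp_le_exp.2 (Finset.sum_le_sum_of_subset_of_nonneg ?_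
            (fun _ _ _ => by positivity))
          intro q hq
          rw [Finset.mem_filter] at hq
          have h3 := hTm q hq.1
          rw [Pr, Finset.mem_filter, Finset.mem_Icc]
          exact ⟨⟨h3.1.pos, hq.2.le⟩, h3⟩
      _ = ∏ q ∈ Pr w p, Real.exp (c / (q : ℝ)) := Real.exp_sum _ _
      _ ≤ ∏ q ∈ Pr w p, (1 + ((⌈2 * c⌉₊ : ℕ) : ℝ) / (q : ℝ)) := by
          refine Finset.prod_le_prod (fun q _ => (Real.exp_pos _).le) fun q hq => ?_
          rw [Pr, Finset.mem_filter] at hq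
          obtain ⟨c0, c1⟩ := hbd q hq.2.2
          refine (romM_exp c0 c1).trans ?_
          have hk : 2 * c ≤ ((⌈2 * c⌉₊ : ℕ) : ℝ) := Nat.le_ceil _
          have : 2 * (c / (q : ℝ)) ≤ ((⌈2 * c⌉₊ : ℕ) : ℝ) / (q : ℝ) := by
            rw [← mul_div_assoc]
            exact div_le_div_of_nonneg_right hk (Nat.cast_nonneg _)
          linarith
      _ ≤ (C2 * Real.log p) ^ ⌈2 * c⌉₊ := hC2 w p _ (by omega) hp3
  have h3 : 0 ≤ ∏ q ∈ T with q < p, (1 + (Real.exp (c / (q : ℝ)) - 1)) := by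
    refine Finset.prod_nonneg fun q _ => ?_
    have := Real.exp_pos (c / (q : ℝ))
    linarith
  exact mul_le_mul h1 h2 h3 h1'

/-- `u^n ρ^u → 0` -/
private theorem romM_t1 (c ρ C2 : ℝ) (hρ : 0 < ρ) (hρ1 : ρ < 1) (K : ℕ) :
    Filter.Tendsto (fun p : ℕ => 2 * c * (C2 * Real.log p) ^ K * ρ ^ Real.sqrt (Real.log p) *
      Real.log p) Filter.atTop (nhds 0) := by
  obtain ⟨b, hb⟩ : ∃ b : ℝ, b = -Real.log ρ := ⟨_, rfl⟩
  have hb0 : 0 < b := by
    rw [hb]
    have := Real.log_neg hρ hρ1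
    linarith
  have hu : Filter.Tendsto (fun p : ℕ => b * Real.sqrt (Real.log p)) Filter.atTop Filter.atTop := by
    have h1 : Filter.Tendsto (fun p : ℕ => Real.log (p : ℝ)) Filter.atTop Filter.atTop :=
      Real.tendsto_log_atTop.comp tendsto_natCast_atTop_atTop
    exact (Real.tendsto_sqrt_atTop.comp h1).const_mul_atTop hb0
  have h2 := (Real.tendsto_pow_mul_exp_neg_atTop_nhds_zero (2 * (K + 1))).comp hu
  have h3 := h2.const_mul (2 * c * C2 ^ K / b ^ (2 * (K + 1)))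
  rw [mul_zero] at h3
  refine h3.congr' ?_
  filter_upwards [Filter.eventually_ge_atTop 1] with p hp
  have hp1 : (1 : ℝ) ≤ p := by exact_mod_cast hp
  have hl : 0 ≤ Real.log p := Real.log_nonneg hp1
  simp only [Function.comp]
  have e1 : ρ ^ Real.sqrt (Real.log p) = Real.exp (-(b * Real.sqrt (Real.log p))) := by
    rw [Real.rpow_def_of_pos hρ, hb]
    congr 1
    ring
  have e2 : (b * Real.sqrt (Real.log p)) ^ (2 * (K + 1)) = b ^ (2 * (K + 1)) * Real.log p ^ (K + 1) := by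
    rw [mul_pow, pow_mul (Real.sqrt (Real.log p)), Real.sq_sqrt hl]
  rw [e1, e2, mul_pow, pow_succ (Real.log (p : ℝ)) K]
  have hbn : b ^ (2 * (K + 1)) ≠ 0 := by positivity
  field_simp

/-- `(log M)^n / √M → 0` -/
private theorem romM_t2 (n : ℕ) :
    Filter.Tendsto (fun M : ℕ => Real.log M ^ n / Real.sqrt M) Filter.atTop (nhds 0) := by
  have h := (isLittleO_log_rpow_rpow_atTop (s := (1 / 2 : ℝ)) (n : ℝ) (by norm_num)).tendsto_div_nhds_zero
  have h2 := h.comp (tendsto_natCast_atTop_atTop (R := ℝ))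
  refine h2.congr fun M => ?_
  simp only [Function.comp]
  rw [Real.rpow_natCast, Real.sqrt_eq_rpow]

private theorem romM_harm (M : ℕ) (hM : 3 ≤ M) :
    ∑ n ∈ Icc 1 (M ^ 3), 1 / (n : ℝ) ≤ 4 * Real.log M := by
  have h1 := harmonic_le_one_add_log (M ^ 3)
  have h2 : ((harmonic (M ^ 3) : ℚ) : ℝ) = ∑ n ∈ Icc 1 (M ^ 3), 1 / (n : ℝ) := by
    rw [harmonic_eq_sum_Icc]
    push_cast
    exact Finset.sum_congr rfl fun n _ => by rw [one_div]
  rw [← h2]
  have h3 : Real.log (((M ^ 3 : ℕ)) : ℝ) = 3 * Real.log M := by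
    push_cast
    rw [Real.log_pow]
    norm_num
  rw [h3] at h1
  have h4 : 1 ≤ Real.log M := by
    rw [Real.le_log_iff_exp_le (by exact_mod_cast (by omega : 0 < M))]
    have h5 : (3 : ℝ) ≤ M := by exact_mod_cast hM
    have := Real.exp_one_lt_d9
    linarith
  linarith

theorem romM (c ρ η : ℝ) (hc : 0 ≤ c) (hρ : 0 < ρ) (hρ1 : ρ < 1) (hη : 0 < η) :
    ∃ w0 M0 : ℕ, ∀ w ≥ w0, ∀ M ≥ M0, ∀ (R : ℕ) (Q : Finset ℕ), Q ⊆ Pr w R →
      ∀ (Ω : Type) [Fintype Ω] [Nonempty Ω] (A : Ω → ℕ), (∀ ω, (A ω : ℝ) ≤ Real.exp ((M : ℝ) ^ 2)) →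
      (∀ p ∈ Q, p ≤ M ^ 3 → ((univ.filter fun ω => A ω ≠ 0 ∧ p ∣ A ω).card : ℝ) / Fintype.card Ω ≤
        ρ ^ Real.sqrt (Real.log p) + Real.log p / Real.sqrt M) →
      av (fun ω => if A ω = 0 then 0 else
        Real.exp (c * ∑ p ∈ Q.filter (fun p => p ∣ A ω), 1 / (p : ℝ))) ≤ 1 + η := by
  classical
  obtain ⟨C0, hC0pos, hC0⟩ := plogp_sum
  obtain ⟨C2, hC21, hC2⟩ := prodPr_le
  obtain ⟨K, hK⟩ : ∃ K : ℕ, K = ⌈2 * c⌉₊ := ⟨_, rfl⟩
  -- choice of `w0`
  have hlog : Filter.Tendsto (fun w : ℕ => Real.log (w : ℝ)) Filter.atTop Filter.atTop :=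
    Real.tendsto_log_atTop.comp tendsto_natCast_atTop_atTop
  obtain ⟨w1, hw1⟩ := Filter.eventually_atTop.mp
    ((romM_t1 c ρ C2 hρ hρ1 K).eventually_le_const (show (0 : ℝ) < 1 by norm_num))
  obtain ⟨w2, hw2⟩ := Filter.eventually_atTop.mp
    ((hlog.const_div_atTop C0).eventually_le_const (show (0 : ℝ) < η / 4 by linarith))
  -- choice of `M0`
  have t3 : Filter.Tendsto (fun M : ℕ => Real.exp (c * (1 / (M : ℝ)))) Filter.atTop (nhds 1) := by
    have h : Filter.Tendsto (fun M : ℕ => c * (1 / (M : ℝ))) Filter.atTop (nhds (c * 0)) :=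
      (tendsto_const_div_atTop_nhds_zero_nat 1).const_mul c
    rw [mul_zero] at h
    have h2 := (Real.continuous_exp.tendsto 0).comp h
    rw [Real.exp_zero] at h2
    exact h2
  have t4 : Filter.Tendsto (fun M : ℕ => (2 * c * (3 * C2) ^ K * 12) * (Real.log M ^ (K + 2) / Real.sqrt M))
      Filter.atTop (nhds ((2 * c * (3 * C2) ^ K * 12) * 0)) := (romM_t2 (K + 2)).const_mul _
  rw [mul_zero] at t4
  have t5 : Filter.Tendsto (fun M : ℕ => Real.exp (c * (1 / (M : ℝ))) * (1 + η / 2))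
      Filter.atTop (nhds (1 * (1 + η / 2))) := t3.mul_const _
  obtain ⟨M1, hM1⟩ := Filter.eventually_atTop.mp
    (t4.eventually_le_const (show (0 : ℝ) < η / 4 by linarith))
  obtain ⟨M2, hM2⟩ := Filter.eventually_atTop.mp
    (t5.eventually_le_const (show 1 * (1 + η / 2) < 1 + η by linarith))
  refine ⟨max (max w1 w2) (max ⌈c⌉₊ 2), max (max M1 M2) 3, fun w hw M hM R Q hQ Ω _ _ A hA hp => ?_⟩
  have ww1 : w1 ≤ w := le_trans (le_trans (le_max_left _ _) (le_max_left _ _)) hw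
  have ww2 : w2 ≤ w := le_trans (le_trans (le_max_right _ _) (le_max_left _ _)) hw
  have wwc : ⌈c⌉₊ ≤ w := le_trans (le_trans (le_max_left _ _) (le_max_right _ _)) hw
  have w22 : 2 ≤ w := le_trans (le_trans (le_max_right _ _) (le_max_right _ _)) hw
  have MM1 : M1 ≤ M := le_trans (le_trans (le_max_left _ _) (le_max_left _ _)) hM
  have MM2 : M2 ≤ M := le_trans (le_trans (le_max_right _ _) (le_max_left _ _)) hM
  have MM3 : 3 ≤ M := le_trans (le_max_right _ _) hM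
  have hcw : c ≤ w := (Nat.le_ceil c).trans (by exact_mod_cast wwc)
  have hM0 : (0 : ℝ) < M := by exact_mod_cast (by omega : 0 < M)
  have hM1' : (1 : ℝ) ≤ M := by exact_mod_cast (by omega : 1 ≤ M)
  have hcard : (0 : ℝ) < Fintype.card Ω := by exact_mod_cast Fintype.card_pos
  have hC20 : (0 : ℝ) ≤ C2 := by linarith
  obtain ⟨E, hE⟩ : ∃ E : ℝ, E = Real.exp (c * (1 / (M : ℝ))) := ⟨_, rfl⟩
  have hE0 : 0 < E := by rw [hE]; exact Real.exp_pos _
  obtain ⟨S, hS⟩ : ∃ S : Finset ℕ, S = Q.filter (fun p => p ≤ M ^ 3) := ⟨_, rfl⟩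
  have hSQ : ∀ p ∈ S, p ∈ Q ∧ p ≤ M ^ 3 := by
    intro p hpS
    rw [hS, Finset.mem_filter] at hpS
    exact hpS
  have hQm : ∀ p ∈ Q, p.Prime ∧ w < p := by
    intro p hpQ
    have := hQ hpQ
    rw [Pr, Finset.mem_filter] at this
    exact this.2
  obtain ⟨g, hg⟩ : ∃ g : ℕ → ℝ, g = fun p : ℕ => 2 * c / (p : ℝ) * (C2 * Real.log (p : ℝ)) ^ K :=
    ⟨_, rfl⟩
  have hg0 : ∀ p : ℕ, 0 ≤ g p := by
    intro p
    rw [hg]
    have : 0 ≤ Real.log (p : ℝ) := Real.log_natCast_nonneg p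
    positivity
  -- the bound for one `ω`
  have step1 : ∀ ω : Ω, (if A ω = 0 then 0 else
        Real.exp (c * ∑ p ∈ Q.filter (fun p => p ∣ A ω), 1 / (p : ℝ))) ≤
      E * (1 + ∑ p ∈ S, g p * (if A ω ≠ 0 ∧ p ∣ A ω then 1 else 0)) := by
    intro ω
    by_cases h0 : A ω = 0
    · rw [if_pos h0]
      have : 0 ≤ ∑ p ∈ S, g p * (if A ω ≠ 0 ∧ p ∣ A ω then (1 : ℝ) else 0) := by
        refine Finset.sum_nonneg fun p _ => mul_nonneg (hg0 p) ?_
        split_ifs <;> norm_num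
      exact mul_nonneg hE0.le (by linarith)
    · rw [if_neg h0]
      have hsplit : ∑ p ∈ Q.filter (fun p => p ∣ A ω), 1 / (p : ℝ) ≤
          ∑ p ∈ S.filter (fun p => p ∣ A ω), 1 / (p : ℝ) + 1 / M := by
        rw [← Finset.sum_filter_add_sum_filter_not (Q.filter (fun p => p ∣ A ω)) (fun p => p ≤ M ^ 3)]
        refine add_le_add ?_ ?_
        · refine Finset.sum_le_sum_of_subset_of_nonneg ?_ (fun _ _ _ => by positivity)
          intro p hp
          rw [Finset.mem_filter, Finset.mem_filter] at hp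
          rw [Finset.mem_filter, hS, Finset.mem_filter]
          exact ⟨⟨hp.1.1, hp.2⟩, hp.1.2⟩
        · refine romM_large M (A ω) MM3 h0 (hA ω) _ ?_
          intro p hp
          rw [Finset.mem_filter, Finset.mem_filter] at hp
          exact ⟨(hQm p hp.1.1).1, not_le.mp hp.2, hp.1.2⟩
      have hT : S.filter (fun p => p ∣ A ω) ⊆ Pr w R := by
        intro p hp
        rw [Finset.mem_filter] at hp
        exact hQ (hSQ p hp.1).1
      have htel := romM_tel c C2 hc hC2 w R w22 hcw _ hT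
      calc Real.exp (c * ∑ p ∈ Q.filter (fun p => p ∣ A ω), 1 / (p : ℝ))
          ≤ Real.exp (c * (1 / M) + c * ∑ p ∈ S.filter (fun p => p ∣ A ω), 1 / (p : ℝ)) := by
            refine Real.exp_le_exp.mpr ?_
            have := mul_le_mul_of_nonneg_left hsplit hc
            linarith
        _ = E * Real.exp (c * ∑ p ∈ S.filter (fun p => p ∣ A ω), 1 / (p : ℝ)) := by
            rw [Real.exp_add, hE]
        _ ≤ E * (1 + ∑ p ∈ S.filter (fun p => p ∣ A ω), 2 * c / (p : ℝ) * (C2 * Real.log p) ^ ⌈2 * c⌉₊) :=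
            mul_le_mul_of_nonneg_left htel hE0.le
        _ = E * (1 + ∑ p ∈ S, g p * (if A ω ≠ 0 ∧ p ∣ A ω then 1 else 0)) := by
            congr 2
            rw [Finset.sum_filter]
            refine Finset.sum_congr rfl fun p _ => ?_
            by_cases hd : p ∣ A ω
            · rw [if_pos hd, if_pos ⟨h0, hd⟩, mul_one, hg, hK]
            · rw [if_neg hd, if_neg (fun h => hd h.2), mul_zero]
  have step2 : av (fun ω => if A ω = 0 then 0 else
        Real.exp (c * ∑ p ∈ Q.filter (fun p => p ∣ A ω), 1 / (p : ℝ))) ≤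
      E * (1 + ∑ p ∈ S, g p *
        (((univ.filter fun ω => A ω ≠ 0 ∧ p ∣ A ω).card : ℝ) / Fintype.card Ω)) := by
    unfold av
    rw [div_le_iff₀ hcard]
    refine (Finset.sum_le_sum fun ω _ => step1 ω).trans (le_of_eq ?_)
    rw [← Finset.mul_sum, Finset.sum_add_distrib, Finset.sum_comm]
    rw [Finset.sum_const, Finset.card_univ, nsmul_eq_mul, mul_one]
    have e : ∀ p ∈ S, ∑ ω : Ω, g p * (if A ω ≠ 0 ∧ p ∣ A ω then (1 : ℝ) else 0) =
        (g p * (((univ.filter fun ω => A ω ≠ 0 ∧ p ∣ A ω).card : ℝ) / Fintype.card Ω)) *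
          Fintype.card Ω := by
      intro p _
      rw [← Finset.mul_sum, Finset.sum_boole, mul_assoc, div_mul_cancel₀ _ hcard.ne']
    rw [Finset.sum_congr rfl e, ← Finset.sum_mul]
    ring
  -- the two parts
  have hpart : ∀ p ∈ S, g p *
        (((univ.filter fun ω => A ω ≠ 0 ∧ p ∣ A ω).card : ℝ) / Fintype.card Ω) ≤
      1 / ((p : ℝ) * Real.log p) +
        (2 * c * (3 * C2) ^ K * 3) * (Real.log M ^ (K + 1) / Real.sqrt M) * (1 / (p : ℝ)) := by
    intro p hpS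
    obtain ⟨hpQ, hpM⟩ := hSQ p hpS
    obtain ⟨hpp, hwp⟩ := hQm p hpQ
    have hp0 : (0 : ℝ) < p := by exact_mod_cast hpp.pos
    have hp3 : (3 : ℝ) ≤ p := by exact_mod_cast (by omega : 3 ≤ p)
    have hl0 : 0 < Real.log p := Real.log_pos (by linarith)
    have hlM : Real.log p ≤ 3 * Real.log M := by
      have : Real.log p ≤ Real.log ((M : ℝ) ^ 3) :=
        Real.log_le_log hp0 (by exact_mod_cast hpM)
      rw [Real.log_pow] at this
      exact_mod_cast this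
    have hlM0 : 0 ≤ Real.log M := Real.log_nonneg hM1'
    have hs0 : 0 < Real.sqrt M := Real.sqrt_pos.2 hM0
    refine (mul_le_mul_of_nonneg_left (hp p hpQ hpM) (hg0 p)).trans ?_
    rw [mul_add]
    refine add_le_add ?_ ?_
    · have h1 := hw1 p (ww1.trans hwp.le)
      have e : g p * ρ ^ Real.sqrt (Real.log p) =
          (2 * c * (C2 * Real.log p) ^ K * ρ ^ Real.sqrt (Real.log p) * Real.log p) *
            (1 / ((p : ℝ) * Real.log p)) := by
        rw [hg]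
        field_simp
      rw [e]
      have h2 : 0 ≤ 1 / ((p : ℝ) * Real.log p) := by positivity
      have := mul_le_mul_of_nonneg_right h1 h2
      rwa [one_mul] at this
    · have h1 : (C2 * Real.log p) ^ K ≤ (C2 * (3 * Real.log M)) ^ K :=
        pow_le_pow_left₀ (by positivity) (mul_le_mul_of_nonneg_left hlM hC20) K
      have e1 : g p * (Real.log p / Real.sqrt M) =
          (2 * c * (1 / Real.sqrt M) * (1 / (p : ℝ))) * ((C2 * Real.log p) ^ K * Real.log p) := by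
        rw [hg]
        ring
      have e2 : (2 * c * (3 * C2) ^ K * 3) * (Real.log M ^ (K + 1) / Real.sqrt M) * (1 / (p : ℝ)) =
          (2 * c * (1 / Real.sqrt M) * (1 / (p : ℝ))) * ((C2 * (3 * Real.log M)) ^ K * (3 * Real.log M)) := by
        rw [mul_pow C2, mul_pow 3 (Real.log (M : ℝ)), mul_pow 3 C2, pow_succ (Real.log (M : ℝ)) K]
        ring
      rw [e1, e2]
      refine mul_le_mul_of_nonneg_left ?_ (by positivity)
      exact mul_le_mul h1 hlM hl0.le (by positivity)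
  have hsum : ∑ p ∈ S, g p *
        (((univ.filter fun ω => A ω ≠ 0 ∧ p ∣ A ω).card : ℝ) / Fintype.card Ω) ≤ η / 2 := by
    refine (Finset.sum_le_sum hpart).trans ?_
    rw [Finset.sum_add_distrib, ← Finset.mul_sum]
    have s1 : ∑ p ∈ S, 1 / ((p : ℝ) * Real.log p) ≤ η / 4 := by
      refine le_trans ?_ ((hC0 w R w22).trans (hw2 w ww2))
      refine Finset.sum_le_sum_of_subset_of_nonneg (fun p hp => hQ (hSQ p hp).1) ?_
      intro p _ _
      have : 0 ≤ Real.log (p : ℝ) := Real.log_natCast_nonneg p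
      positivity
    have s2 : ∑ p ∈ S, 1 / (p : ℝ) ≤ 4 * Real.log M := by
      refine le_trans ?_ (romM_harm M MM3)
      refine Finset.sum_le_sum_of_subset_of_nonneg ?_ (fun _ _ _ => by positivity)
      intro p hpS
      obtain ⟨hpQ, hpM⟩ := hSQ p hpS
      rw [Finset.mem_Icc]
      exact ⟨(hQm p hpQ).1.pos, hpM⟩
    have hlM0 : 0 ≤ Real.log M := Real.log_nonneg hM1'
    have s3 : (2 * c * (3 * C2) ^ K * 3) * (Real.log M ^ (K + 1) / Real.sqrt M) * ∑ p ∈ S, 1 / (p : ℝ) ≤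
        η / 4 := by
      refine (mul_le_mul_of_nonneg_left s2 (by positivity)).trans ?_
      refine le_trans (le_of_eq ?_) (hM1 M MM1)
      rw [pow_succ (Real.log (M : ℝ)) (K + 1)]
      ring
    linarith
  refine step2.trans ((mul_le_mul_of_nonneg_left (add_le_add le_rfl hsum) hE0.le).trans ?_)
  rw [hE]
  exact hM2 M MM2

end Pool.CM
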