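import Pool.Agent.Lib.MP_c77da8_nt.CM.Defs
import Pool.Agent.Lib.MP_c77da8_nt.CG.Comp
import Pool.Agent.Lib.MP_c77da8_nt.CG.Cnt

/-!
# CM-SvA: counting `n` with divisibility conditions, sieve by an arbitrary set `Q` of primes in `(w, R]`

PROOF: copy `cnt` (`CG/Cnt.lean`), with its private lemmas, with `Q` in place of `Pr w R`: only `Q ⊆ Pr w R` is used (the elements are primes).
-/

set_option autoImplicit false

namespace Pool.CM

open Finset Pool.CG Pool.CL

private theorem SvA_mod_dvd {p a n : ℕ} (ha : 1 ≤ a) (hn : 1 ≤ n) :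
    p ∣ a * n - 1 ↔ a * n ≡ 1 [MOD p] := by
  have h : 1 ≤ a * n := Nat.one_le_iff_ne_zero.2 (by positivity)
  constructor
  · intro hd
    exact ((Nat.modEq_iff_dvd' h).2 hd).symm
  · intro hm
    exact (Nat.modEq_iff_dvd' h).1 hm.symm

/-- elements of a residue class in `[N, 2N)` -/
private theorem SvA_class {Q : ℕ} (hQ : 0 < Q) (v N : ℕ) :
    |(((Ico N (2 * N)).filter fun n => n ≡ v [MOD Q]).card : ℝ) - (N : ℝ) / (Q : ℝ)| ≤ 1 := by
  have h := Nat.Ico_filter_modEq_card N (2 * N) hQ v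
  set c := ((Ico N (2 * N)).filter fun n => n ≡ v [MOD Q]).card with hc
  set A : ℚ := (((2 * N : ℕ) : ℚ) - (v : ℚ)) / (Q : ℚ) with hA
  set B : ℚ := ((N : ℚ) - (v : ℚ)) / (Q : ℚ) with hB
  have hAB : A - B = (N : ℚ) / (Q : ℚ) := by
    rw [hA, hB, ← sub_div]
    push_cast
    ring
  have hnn : (0 : ℚ) ≤ (N : ℚ) / (Q : ℚ) := by positivity
  have h1 := Int.le_ceil A
  have h2 := Int.ceil_lt_add_one A
  have h3 := Int.le_ceil B
  have h4 := Int.ceil_lt_add_one B
  have h5 : (0 : ℤ) ≤ ⌈A⌉ - ⌈B⌉ := by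
    have : (-1 : ℚ) < ((⌈A⌉ - ⌈B⌉ : ℤ) : ℚ) := by
      push_cast
      linarith
    have h6 : (-1 : ℤ) < ⌈A⌉ - ⌈B⌉ := by exact_mod_cast this
    omega
  rw [max_eq_left h5] at h
  have h7 : (c : ℚ) = (⌈A⌉ : ℚ) - (⌈B⌉ : ℚ) := by exact_mod_cast congrArg (fun z : ℤ => (z : ℚ)) h
  have h8 : |(c : ℚ) - (N : ℚ) / (Q : ℚ)| ≤ 1 := by
    rw [h7, abs_le]
    constructor <;> linarith
  have h9 : ((|(c : ℚ) - (N : ℚ) / (Q : ℚ)| : ℚ) : ℝ) ≤ ((1 : ℚ) : ℝ) := by exact_mod_cast h8
  push_cast at h9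
  exact h9

theorem cntq (w R : ℕ) (Q : Finset ℕ) (hQ : Q ⊆ Pr w R) (I : Type) [Fintype I] [DecidableEq I] (A : I → ℕ)
    (hA : ∀ i, 1 ≤ A i) (hcop : ∀ i, ∀ p ∈ Q, ¬ p ∣ A i) (N : ℕ) (hN : 1 ≤ N) (D : I → Finset {p // p ∈ Q}) :
    |(((Ico N (2 * N)).filter fun n => ∀ i, ∀ p ∈ D i, p.1 ∣ A i * n - 1).card : ℝ) / N -
      ∏ p : {p // p ∈ Q}, rho A p.1 (univ.filter fun i => p ∈ D i)| ≤ 1 / (N : ℝ) := by
  classical
  have hpr : ∀ p : {p // p ∈ Q}, p.1.Prime := by
    intro p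
    have h := hQ p.2
    unfold Pr at h
    exact (mem_filter.1 h).2.1
  have hN0 : (0 : ℝ) < (N : ℝ) := by exact_mod_cast hN
  have hmem : ∀ n ∈ Ico N (2 * N), (∀ i, ∀ p ∈ D i, p.1 ∣ A i * n - 1) ↔
      ∀ p : {p // p ∈ Q}, ∀ i, p ∈ D i → A i * n ≡ 1 [MOD p.1] := by
    intro n hn
    have hn1 : 1 ≤ n := le_trans hN (mem_Ico.1 hn).1
    constructor
    · intro h p i hp
      exact (SvA_mod_dvd (hA i) hn1).1 (h i p hp)
    · intro h i p hp
      exact (SvA_mod_dvd (hA i) hn1).2 (h p i hp)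
  rw [filter_congr hmem]
  by_cases hgood : ∀ p : {p // p ∈ Q}, ∀ i j, p ∈ D i → p ∈ D j → A i ≡ A j [MOD p.1]
  · -- the compatible case
    have hex : ∀ p : {p // p ∈ Q}, ∃ c : ℕ, ∀ i, p ∈ D i → A i * c ≡ 1 [MOD p.1] := by
      intro p
      by_cases hp : ∃ i, p ∈ D i
      · obtain ⟨i, hi⟩ := hp
        have hcp : Nat.Coprime (A i) p.1 :=
          ((Nat.Prime.coprime_iff_not_dvd (hpr p)).2 (hcop i p.1 p.2)).symm
        obtain ⟨c, hc⟩ := Nat.exists_mul_mod_eq_one_of_coprime hcp (hpr p).one_lt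
        have hc' : A i * c ≡ 1 [MOD p.1] := by
          unfold Nat.ModEq
          rw [hc.2, Nat.mod_eq_of_lt (hpr p).one_lt]
        exact ⟨c, fun j hj => ((hgood p j i hj hi).mul_right c).trans hc'⟩
      · exact ⟨0, fun i hi => absurd ⟨i, hi⟩ hp⟩
    choose c hc using hex
    have hpp : Set.Pairwise ((univ : Finset {p // p ∈ Q}) : Set {p // p ∈ Q})
        (Function.onFun Nat.Coprime fun p : {p // p ∈ Q} => p.1) := by
      intro p _ q _ hpq
      exact (Nat.coprime_primes (hpr p) (hpr q)).2 fun h => hpq (Subtype.ext h)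
    obtain ⟨n0, hn0⟩ := Nat.chineseRemainderOfFinset c (fun p : {p // p ∈ Q} => p.1) univ
      (fun p _ => (hpr p).ne_zero) hpp
    set PP : Finset {p // p ∈ Q} := univ.filter fun p => ∃ i, p ∈ D i with hPP
    set QN : ℕ := ∏ p ∈ PP, p.1 with hQN
    have hQN0 : 0 < QN := prod_pos fun p _ => (hpr p).pos
    have hiff : ∀ n ∈ Ico N (2 * N), (∀ p : {p // p ∈ Q}, ∀ i, p ∈ D i →
        A i * n ≡ 1 [MOD p.1]) ↔ n ≡ n0 [MOD QN] := by
      intro n _
      constructor
      · intro h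
        have h1 : ∀ p ∈ PP, ((p.1 : ℕ) : ℤ) ∣ (n0 : ℤ) - (n : ℤ) := by
          intro p hp
          obtain ⟨i, hi⟩ := (mem_filter.1 hp).2
          have h2 : A i * n ≡ A i * n0 [MOD p.1] :=
            (h p i hi).trans ((((hn0 p (mem_univ p)).mul_left (A i)).trans (hc p i hi)).symm)
          have hcp : Nat.gcd p.1 (A i) = 1 :=
            (Nat.Prime.coprime_iff_not_dvd (hpr p)).2 (hcop i p.1 p.2)
          exact Nat.modEq_iff_dvd.1 (Nat.ModEq.cancel_left_of_coprime hcp h2)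
        have h3 : (((QN : ℕ) : ℤ)) ∣ (n0 : ℤ) - (n : ℤ) := by
          rw [hQN, Nat.cast_prod]
          refine Finset.prod_dvd_of_coprime ?_ h1
          intro p _ q _ hpq
          exact Nat.isCoprime_iff_coprime.2
            ((Nat.coprime_primes (hpr p) (hpr q)).2 fun h => hpq (Subtype.ext h))
        exact Nat.modEq_iff_dvd.2 h3
      · intro h p i hi
        have hp : p ∈ PP := mem_filter.2 ⟨mem_univ p, i, hi⟩
        have h1 : n ≡ n0 [MOD p.1] := h.of_dvd (dvd_prod_of_mem _ hp)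
        exact ((h1.trans (hn0 p (mem_univ p))).mul_left (A i)).trans (hc p i hi)
    rw [filter_congr hiff]
    have hprod : ∏ p : {p // p ∈ Q}, rho A p.1 (univ.filter fun i => p ∈ D i) =
        1 / (QN : ℝ) := by
      have h1 : ∀ p : {p // p ∈ Q}, rho A p.1 (univ.filter fun i => p ∈ D i) =
          if p ∈ PP then 1 / (p.1 : ℝ) else 1 := by
        intro p
        unfold rho
        by_cases hp : p ∈ PP
        · obtain ⟨i, hi⟩ := (mem_filter.1 hp).2
          rw [if_pos hp, if_neg, if_pos]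
          · intro i hi j hj
            exact hgood p i j (mem_filter.1 hi).2 (mem_filter.1 hj).2
          · intro h0
            have : i ∈ (∅ : Finset I) := by
              rw [← h0]
              exact mem_filter.2 ⟨mem_univ i, hi⟩
            exact notMem_empty i this
        · rw [if_neg hp, if_pos]
          refine filter_eq_empty_iff.2 fun i _ hi => hp ?_
          exact mem_filter.2 ⟨mem_univ p, i, hi⟩
      rw [prod_congr rfl fun p _ => h1 p, ← prod_filter, hQN, Nat.cast_prod, filter_mem_eq_inter,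
        univ_inter, prod_div_distrib, prod_const_one]
    rw [hprod]
    have hcl := SvA_class hQN0 n0 N
    have e : (((Ico N (2 * N)).filter fun n => n ≡ n0 [MOD QN]).card : ℝ) / N - 1 / (QN : ℝ) =
        ((((Ico N (2 * N)).filter fun n => n ≡ n0 [MOD QN]).card : ℝ) - (N : ℝ) / (QN : ℝ)) / N := by
      have hQr : (QN : ℝ) ≠ 0 := by exact_mod_cast hQN0.ne'
      field_simp
    rw [e, abs_div, abs_of_pos hN0]
    exact div_le_div_of_nonneg_right hcl hN0.le
  · -- no solutions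
    push Not at hgood
    obtain ⟨p, i, j, hi, hj, hij⟩ := hgood
    have hempty : ((Ico N (2 * N)).filter fun n => ∀ p : {p // p ∈ Q}, ∀ i, p ∈ D i →
        A i * n ≡ 1 [MOD p.1]) = ∅ := by
      refine filter_eq_empty_iff.2 fun n _ h => hij ?_
      have h1 := h p i hi
      have h2 := h p j hj
      have hcn : Nat.gcd p.1 n = 1 := by
        refine (Nat.Prime.coprime_iff_not_dvd (hpr p)).2 fun hd => ?_
        have h3 : A i * n ≡ 0 [MOD p.1] := (Nat.modEq_zero_iff_dvd).2 (hd.mul_left _)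
        have h4 : (1 : ℕ) ≡ 0 [MOD p.1] := h1.symm.trans h3
        have h5 := (Nat.modEq_zero_iff_dvd).1 h4
        exact (hpr p).one_lt.ne' (Nat.dvd_one.1 h5)
      exact Nat.ModEq.cancel_right_of_coprime hcn (h1.trans h2.symm)
    have hz : rho A p.1 (univ.filter fun i => p ∈ D i) = 0 := by
      unfold rho
      rw [if_neg, if_neg]
      · intro h
        exact hij (h i (mem_filter.2 ⟨mem_univ i, hi⟩) j (mem_filter.2 ⟨mem_univ j, hj⟩))
      · intro h0
        have : i ∈ (∅ : Finset I) := by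
          rw [← h0]
          exact mem_filter.2 ⟨mem_univ i, hi⟩
        exact notMem_empty i this
    rw [hempty, prod_eq_zero (mem_univ p) hz, card_empty]
    simp

end Pool.CM
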